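import Pool.Agent.MP_429080_ag.H91.Ln

attribute [-instance] Module.IsNoetherian.finite Subfield.instIsScalarTowerSubtypeMem
  IsAzumaya.toProjective instNontrivialOfCharZero ContinuousSemilinearMapClass.toSemilinearMapClass
  LinearMap.finiteDimensional_range NonUnitalAlgSemiHomClass.toDistribMulActionSemiHomClass
  Algebra.IsFiniteSplit.instFree NonUnitalNormedRing.toNormedAddCommGroup IsLocalRing.toNontrivial
  CoalgHomClass.toSemilinearMapClass Module.Finite.range RingHomClass.toLinearMapClassNNRat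
  SemilinearIsometryClass.toSemilinearMapClass Module.FaithfullyFlat.of_isIntegral_of_isDomain
  NumberField.instFiniteDimensional RingHomClass.toLinearMapClassRat instCoeTCOfCoe
  MulRingSeminormClass.toMonoidWithZeroHomClass
  NonUnitalAlgHomClass.instSemilinearMapClassOfNonUnitalAlgSemiHomClassToMonoidHomRingHom
  LieRinehartAlgebra.toIsScalarTower SubringClass.toCommRing AlgHomClass.linearMapClass
  NormedAlgebra.toAlgebra Group.IsPerfect.subsingleton_of_isMulCommutative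
  BialgHomClass.toAlgHomClass SubringClass.toRing SetLike.GradeZero.instCommRing
  instNonUnitalAlgHomClassOfNonUnitalAlgEquivClass Submodule.IsLattice.finite
  SetLike.GradeZero.instCommSemiring instSMulZeroClass RingConeClass.toSubsemiringClass
  ContDiffMapSupportedInClass.toDFunLike TestFunctionClass.toDFunLike
  CategoryTheory.CountableCategory.countableObj littleWedderburn Nontrivial.to_nonempty
  MulSemiringActionSemiHomClass.toDistribMulActionSemiHomClass LinearOrder.toDecidableEq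
  Submodule.Quotient.normedAddCommGroup Submodule.Quotient.addCommMonoid bot_nonempty
  One.instNonempty ContinuousAddMonoidHom.instCoeOutOfAddMonoidHomClassOfContinuousMapClass
  NegZeroClass.toZero instCoeHTCOfCoeHeadOfCoeOTC SemilinearEquivClass.instSemilinearMapClass
  NonUnitalRing.toNonUnitalNonAssocRing instCoeHTCTOfCoeTailOfCoeHTC SetLike.GradeZero.instRing
  AlgEquivClass.toAlgHomClass NormedCommRing.toNormedRing FinEnum.decEq top_nonempty
  FunLike.toDecidableEq IsometryClass.instCoeOutIsometryEquiv HomeomorphClass.instCoeOutHomeomorph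
  AddGroupConeClass.toAddSubmonoidClass LieAdmissibleRing.toNonUnitalNonAssocRing

/-! Generic points, derivations and specialisation. -/

namespace Pool.Agent.MP_429080_ag.H73

open MvPolynomial Module Pool.Agent.EGH Pool.Agent.MP_d171e3_nt Pool.Agent.MP_429080_ag.H26
open Pool.Agent.MP_429080_ag.H26.T

set_option linter.unusedSectionVars false

/-- derivations of the complex numbers -/
abbrev Dr : Type := Derivation ℤ ℂ ℂ

/-- derivations killing `S` -/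
def Der (S : Set ℂ) : Submodule ℂ Dr where
  carrier := {D | ∀ s ∈ S, D s = 0}
  zero_mem' := fun _ _ => rfl
  add_mem' := fun ha hb s hs => by simp only [Derivation.coe_add, Pi.add_apply, ha s hs, hb s hs, add_zero]
  smul_mem' := fun a D hD s hs => by simp only [Derivation.coe_smul, Pi.smul_apply, hD s hs, smul_eq_mul, mul_zero]

/-- the constants of all derivations killing `S` -/
def cf (S : Set ℂ) : Subfield ℂ where
  carrier := {u | ∀ D ∈ Der S, D u = 0}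
  mul_mem' := fun ha hb D hD => by simp [ha D hD, hb D hD]
  one_mem' := fun D _ => D.map_one_eq_zero
  add_mem' := fun ha hb D hD => by simp [ha D hD, hb D hD]
  zero_mem' := fun D _ => map_zero D
  neg_mem' := fun ha D hD => by simp only [map_neg, ha D hD, neg_zero]
  inv_mem' := fun a ha D hD => by simp [D.leibniz_inv, ha D hD]

section defs
variable {ι : Type}

/-- a derivation applied to all coordinates -/
def ap (D : Dr) (ξ : ι → ℂ) : ι → ℂ := fun i => D (ξ i)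

def apL (ξ : ι → ℂ) : Dr →ₗ[ℂ] (ι → ℂ) where
  toFun D := ap D ξ
  map_add' _ _ := rfl
  map_smul' _ _ := rfl

/-- all derivatives of `ξ` over `S` -/
def dv (S : Set ℂ) (ξ : ι → ℂ) : Submodule ℂ (ι → ℂ) := (Der S).map (apL ξ)

/-- the transcendence degree of `ξ` over `S` -/
noncomputable def td (S : Set ℂ) (ξ : ι → ℂ) : ℕ := finrank ℂ (dv S ξ)

/-- adjoin the coordinates of `ξ` -/
def adj (S : Set ℂ) (ξ : ι → ℂ) : Set ℂ := S ∪ Set.range ξ

/-- vectors rational over `S` -/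
def Rt (S : Set ℂ) (ξ : ι → ℂ) : Prop := ∀ i, ξ i ∈ cf S

/-- subspaces stable under all derivations over `S` -/
def Stab (S : Set ℂ) (W : Submodule ℂ (ι → ℂ)) : Prop := ∀ D ∈ Der S, ∀ w ∈ W, ap D w ∈ W

/-- linear maps rational over `S` -/
def RtL {κ : Type} (S : Set ℂ) (φ : (κ → ℂ) →ₗ[ℂ] (ι → ℂ)) : Prop :=
  ∀ D ∈ Der S, ∀ w, ap D (φ w) = φ (ap D w)

/-- `ξ` specialises to `ξ'` over `S` -/
def Sp (S : Set ℂ) (ξ ξ' : ι → ℂ) : Prop :=
  ∀ f : P ι, Ov (cf S) f → eval ξ f = 0 → eval ξ' f = 0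

/-- the annihilator for the dot product -/
def ann [Fintype ι] (W : Submodule ℂ (ι → ℂ)) : Submodule ℂ (ι → ℂ) where
  carrier := {v | ∀ α ∈ W, α ⬝ᵥ v = 0}
  zero_mem' := fun _ _ => dotProduct_zero _
  add_mem' := fun ha hb α h => by rw [dotProduct_add, ha α h, hb α h, add_zero]
  smul_mem' := fun a v hv α h => by rw [dotProduct_smul, hv α h, smul_zero]

end defs

section basic
variable {ι κ : Type} {S S' : Set ℂ} {D : Dr} {ξ ξ' : ι → ℂ} {η : κ → ℂ}

theorem mem_Der : D ∈ Der S ↔ ∀ s ∈ S, D s = 0 := Iff.rfl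

theorem mem_cf {u : ℂ} : u ∈ cf S ↔ ∀ D ∈ Der S, D u = 0 := Iff.rfl

theorem mem_dv {v : ι → ℂ} : v ∈ dv S ξ ↔ ∃ D ∈ Der S, ap D ξ = v := Iff.rfl

theorem ap_mem (hD : D ∈ Der S) (ξ : ι → ℂ) : ap D ξ ∈ dv S ξ := ⟨D, hD, rfl⟩

theorem mem_ann [Fintype ι] {W : Submodule ℂ (ι → ℂ)} {v : ι → ℂ} :
    v ∈ ann W ↔ ∀ α ∈ W, α ⬝ᵥ v = 0 := Iff.rfl

theorem ap_apply (D : Dr) (ξ : ι → ℂ) (i : ι) : ap D ξ i = D (ξ i) := rfl

theorem ap_add (D : Dr) (ξ ξ' : ι → ℂ) : ap D (ξ + ξ') = ap D ξ + ap D ξ' := by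
  ext i; simp [ap]

theorem ap_sub (D : Dr) (ξ ξ' : ι → ℂ) : ap D (ξ - ξ') = ap D ξ - ap D ξ' := by
  ext i; simp [ap]

theorem ap_neg (D : Dr) (ξ : ι → ℂ) : ap D (-ξ) = -ap D ξ := by
  ext i; simp only [ap, Pi.neg_apply, map_neg]

theorem ap_zero (D : Dr) : ap D (0 : ι → ℂ) = 0 := by
  ext i; simp [ap]

theorem ap_smul (D : Dr) (a : ℂ) (ξ : ι → ℂ) : ap D (a • ξ) = a • ap D ξ + D a • ξ := by
  ext i; simp [ap, mul_comm]

theorem ap_sum {A : Type} (D : Dr) (s : Finset A) (v : A → ι → ℂ) :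
    ap D (∑ a ∈ s, v a) = ∑ a ∈ s, ap D (v a) := by
  ext i; simp [ap, Finset.sum_apply]

theorem ap_elim (D : Dr) (ξ : ι → ℂ) (η : κ → ℂ) :
    ap D (Sum.elim ξ η) = Sum.elim (ap D ξ) (ap D η) := by
  ext (i | i) <;> rfl

theorem ap_dot [Fintype ι] (D : Dr) (α v : ι → ℂ) : D (α ⬝ᵥ v) = ap D α ⬝ᵥ v + α ⬝ᵥ ap D v := by
  simp only [dotProduct, map_sum, Derivation.leibniz, smul_eq_mul, Finset.sum_add_distrib, ap, mul_comm, add_comm]

theorem subset_cf : S ⊆ cf S := fun s hs _ hD => hD s hs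

theorem subset_adj (S : Set ℂ) (ξ : ι → ℂ) : S ⊆ adj S ξ := Set.subset_union_left

theorem adj_countable [Countable ι] (hS : S.Countable) (ξ : ι → ℂ) : (adj S ξ).Countable :=
  hS.union (Set.countable_range ξ)

theorem adj_mono (h : S ⊆ S') (ξ : ι → ℂ) : adj S ξ ⊆ adj S' ξ := Set.union_subset_union_left _ h

theorem adj_comm (S : Set ℂ) (ξ : ι → ℂ) (η : κ → ℂ) : adj (adj S ξ) η = adj (adj S η) ξ :=
  Set.union_right_comm _ _ _

theorem adj_elim (S : Set ℂ) (ξ : ι → ℂ) (η : κ → ℂ) :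
    adj S (Sum.elim ξ η) = adj (adj S ξ) η := by
  simp [adj, Set.Sum.elim_range, Set.union_assoc]

theorem mem_Der_adj : D ∈ Der (adj S ξ) ↔ D ∈ Der S ∧ ap D ξ = 0 := by
  simp only [mem_Der, adj, Set.mem_union, or_imp, forall_and, Set.forall_mem_range, funext_iff]
  rfl

theorem Der_anti (h : S ⊆ cf S') : Der S' ≤ Der S := fun D hD _ hs => h hs D hD

theorem Der_anti' (h : S ⊆ S') : Der S' ≤ Der S := fun _ hD s hs => hD s (h hs)

theorem cf_mono (h : S ⊆ cf S') : cf S ≤ cf S' := fun _ hu D hD => hu D (Der_anti h hD)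

theorem cf_mono' (h : S ⊆ S') : cf S ≤ cf S' := cf_mono (h.trans subset_cf)

theorem Der_comm {D' : Dr} (hD : D ∈ Der S) (hD' : D' ∈ Der S) : ⁅D, D'⁆ ∈ Der S := fun s hs => by
  simp [Derivation.commutator_apply, hD s hs, hD' s hs]

theorem rt_iff : Rt S ξ ↔ ∀ D ∈ Der S, ap D ξ = 0 :=
  ⟨fun h D hD => funext fun i => h i D hD, fun h i D hD => congrFun (h D hD) i⟩

theorem Rt.ap (h : Rt S ξ) (hD : D ∈ Der S) : ap D ξ = 0 := rt_iff.1 h D hD

theorem rt_adj (S : Set ℂ) (ξ : ι → ℂ) : Rt (adj S ξ) ξ := fun i =>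
  subset_cf (Or.inr ⟨i, rfl⟩)

theorem Rt.mono (h : Rt S ξ) (hS : S ⊆ cf S') : Rt S' ξ := fun i => cf_mono hS (h i)

theorem Rt.mono' (h : Rt S ξ) (hS : S ⊆ S') : Rt S' ξ := fun i => cf_mono' hS (h i)

theorem Rt.adj_subset (h : Rt S' ξ) (hS : S ⊆ cf S') : adj S ξ ⊆ cf S' :=
  Set.union_subset hS (Set.range_subset_iff.2 h)

theorem Stab.mono {W : Submodule ℂ (ι → ℂ)} (h : Stab S W) (hS : S ⊆ cf S') : Stab S' W :=
  fun D hD => h D (Der_anti hS hD)

theorem Stab.mono' {W : Submodule ℂ (ι → ℂ)} (h : Stab S W) (hS : S ⊆ S') : Stab S' W :=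
  h.mono (hS.trans subset_cf)

theorem RtL.mono {φ : (κ → ℂ) →ₗ[ℂ] (ι → ℂ)} (h : RtL S φ) (hS : S ⊆ cf S') : RtL S' φ :=
  fun D hD => h D (Der_anti hS hD)

theorem RtL.mono' {φ : (κ → ℂ) →ₗ[ℂ] (ι → ℂ)} (h : RtL S φ) (hS : S ⊆ S') : RtL S' φ :=
  h.mono (hS.trans subset_cf)

theorem RtL.rt {φ : (κ → ℂ) →ₗ[ℂ] (ι → ℂ)} (h : RtL S φ) (hη : Rt S η) : Rt S (φ η) :=
  rt_iff.2 fun D hD => by rw [h D hD, hη.ap hD, map_zero]

theorem rtL_iff [Fintype κ] [DecidableEq κ] {φ : (κ → ℂ) →ₗ[ℂ] (ι → ℂ)} :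
    RtL S φ ↔ ∀ j, Rt S (φ (Pi.single j 1)) := by
  refine ⟨fun h j => h.rt fun i => ?_, fun h D hD w => ?_⟩
  · rw [Pi.single_apply]
    split_ifs
    exacts [one_mem _, zero_mem _]
  · have e : ∀ v : κ → ℂ, φ v = ∑ j, v j • φ (Pi.single j 1) := fun v => by
      conv_lhs => rw [pi_eq_sum_univ' v]
      simp only [map_sum, map_smul]
    rw [e w, e (ap D w), ap_sum]
    refine Finset.sum_congr rfl fun j _ => ?_
    rw [ap_smul, (h j).ap hD, smul_zero, zero_add, ap_apply]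

/-- every linear map is rational over a countable extension -/
theorem exists_rtL [Fintype κ] [Countable ι] (hS : S.Countable) (φ : (κ → ℂ) →ₗ[ℂ] (ι → ℂ)) :
    ∃ S' : Set ℂ, S'.Countable ∧ S ⊆ S' ∧ RtL S' φ := by
  classical
  exact ⟨adj S fun p : κ × ι => φ (Pi.single p.1 1) p.2, adj_countable hS _, subset_adj _ _,
    rtL_iff.2 fun j i => rt_adj S (fun p : κ × ι => φ (Pi.single p.1 1) p.2) (j, i)⟩

theorem Ov.mono {K K' : Subfield ℂ} {f : P ι} (h : Ov K f) (hK : K ≤ K') : Ov K' f :=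
  fun d => hK (h d)

/-- countably many polynomials are rational over a countable extension -/
theorem exists_ov [Fintype ι] [Countable κ] (hS : S.Countable) (f : κ → P ι) :
    ∃ S' : Set ℂ, S'.Countable ∧ S ⊆ S' ∧ ∀ k, Ov (cf S') (f k) :=
  ⟨adj S fun p : κ × (ι →₀ ℕ) => (f p.1).coeff p.2, adj_countable hS _, subset_adj _ _,
    fun k d => rt_adj S (fun p : κ × (ι →₀ ℕ) => (f p.1).coeff p.2) (k, d)⟩

theorem Sp.refl (S : Set ℂ) (ξ : ι → ℂ) : Sp S ξ ξ := fun _ _ h => h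

theorem Sp.trans {ξ'' : ι → ℂ} (h : Sp S ξ ξ') (h' : Sp S ξ' ξ'') : Sp S ξ ξ'' :=
  fun f hf h0 => h' f hf (h f hf h0)

theorem Sp.anti (h : Sp S' ξ ξ') (hS : S ⊆ cf S') : Sp S ξ ξ' :=
  fun f hf => h f (Ov.mono hf (cf_mono hS))

theorem Sp.anti' (h : Sp S' ξ ξ') (hS : S ⊆ S') : Sp S ξ ξ' := h.anti (hS.trans subset_cf)

/-- a derivation over `S` is linear over the constants -/
noncomputable def toK (D : Dr) (hD : D ∈ Der S) : Derivation (cf S) ℂ ℂ :=
  Derivation.mk' ⟨⟨fun u => D u, fun u v => map_add D u v⟩, fun k u => by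
    show D (k * u) = k * D u
    simp [k.2 D hD]⟩ fun u v => D.leibniz u v

theorem toK_apply (hD : D ∈ Der S) (u : ℂ) : toK D hD u = D u := rfl

theorem ofK (K : Subfield ℂ) (E : Derivation K ℂ ℂ) : ∃ D ∈ Der (K : Set ℂ), ∀ u, D u = E u :=
  ⟨Derivation.mk' (E.toLinearMap.toAddMonoidHom.toIntLinearMap) fun u v => E.leibniz u v,
    fun s hs => E.map_algebraMap ⟨s, hs⟩, fun _ => rfl⟩

theorem ofcf (E : Derivation (cf S) ℂ ℂ) : ∃ D ∈ Der S, ∀ u, D u = E u :=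
  let ⟨D, hD, h⟩ := ofK _ E
  ⟨D, Der_anti' subset_cf hD, h⟩

theorem ap_eval [Fintype ι] (hD : D ∈ Der S) {f : P ι} (hf : Ov (cf S) f) (y : ι → ℂ) :
    D (eval y f) = grad f y ⬝ᵥ ap D y := der_eval (toK D hD) hf y

theorem cf_closed {u : ℂ} (h : IsAlgebraic (cf S) u) : u ∈ cf S := fun D hD => by
  have h1 := (toK D hD).comp_aeval_eq u (minpoly (cf S) u)
  rw [minpoly.aeval, map_zero, smul_eq_mul, toK_apply] at h1
  exact (mul_eq_zero.1 h1.symm).resolve_left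
    ((minpoly.irreducible h.isIntegral).separable.aeval_derivative_ne_zero (minpoly.aeval _ _))

theorem cf_countable (hS : S.Countable) : Countable (cf S) := by
  have h0 : Countable (Subfield.closure S) := Cardinal.mk_le_aleph0_iff.1
    ((Subfield.cardinalMk_closure_le_max S).trans (max_le hS.le_aleph0 le_rfl))
  let L := algebraicClosure (Subfield.closure S) ℂ
  refine ((Algebraic.countable (Subfield.closure S) ℂ).mono fun u hu => ?_).to_subtype
  refine mem_algebraicClosure_iff.1 (der_ne (K := L.toSubfield) (fun v hv => ?_) fun E => ?_)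
  · have hv' : IsAlgebraic L v := hv
    exact mem_algebraicClosure_iff.2 (hv'.restrictScalars _)
  · obtain ⟨D, hD, h⟩ := ofK _ E
    rw [← h]
    exact hu D (Der_anti' (fun s hs => L.algebraMap_mem ⟨s, Subfield.subset_closure hs⟩) hD)

end basic

section ov
variable {ι κ : Type} {K : Subfield ℂ} {f g : P ι}

theorem ov_iff : Ov K f ↔ f ∈ (map K.subtype : MvPolynomial ι K →+* P ι).range := by
  constructor
  · intro hf
    refine mem_range_map_iff_coeffs_subset.2 fun c hc => ?_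
    obtain ⟨d, -, rfl⟩ := mem_coeffs_iff.1 hc
    exact ⟨⟨_, hf d⟩, rfl⟩
  · rintro ⟨g, rfl⟩ d
    rw [coeff_map]
    exact (g.coeff d).2

theorem ov_C {a : ℂ} (h : a ∈ K) : Ov K (C a : P ι) := by
  exact ov_iff.2 ⟨C ⟨a, h⟩, map_C _ _⟩

theorem ov_zero : Ov K (0 : P ι) := fun _ => zero_mem _

theorem ov_one : Ov K (1 : P ι) := ov_C (one_mem _)

theorem ov_X' (i : ι) : Ov K (X i : P ι) := by
  exact ov_iff.2 ⟨X i, map_X _ _⟩

theorem ov_add (hf : Ov K f) (hg : Ov K g) : Ov K (f + g) := by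
  exact ov_iff.2 (add_mem (ov_iff.1 hf) (ov_iff.1 hg))

theorem ov_neg (hf : Ov K f) : Ov K (-f) := by
  exact ov_iff.2 (neg_mem (ov_iff.1 hf))

theorem ov_sub (hf : Ov K f) (hg : Ov K g) : Ov K (f - g) := by
  exact ov_iff.2 (sub_mem (ov_iff.1 hf) (ov_iff.1 hg))

theorem ov_mul (hf : Ov K f) (hg : Ov K g) : Ov K (f * g) := by
  exact ov_iff.2 (mul_mem (ov_iff.1 hf) (ov_iff.1 hg))

theorem ov_pow (hf : Ov K f) (n : ℕ) : Ov K (f ^ n) := by
  exact ov_iff.2 (pow_mem (ov_iff.1 hf) n)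

theorem ov_smul {a : ℂ} (h : a ∈ K) (hf : Ov K f) : Ov K (a • f) := by
  rw [smul_eq_C_mul]
  exact ov_mul (ov_C h) hf

theorem ov_sum {A : Type} {s : Finset A} {F : A → P ι} (h : ∀ a ∈ s, Ov K (F a)) :
    Ov K (∑ a ∈ s, F a) := by
  exact ov_iff.2 (sum_mem fun a ha => ov_iff.1 (h a ha))

theorem ov_aeval {s : ι → P κ} (hs : ∀ i, Ov K (s i)) (hf : Ov K f) : Ov K (aeval s f) := by
  obtain ⟨g, rfl⟩ := ov_iff.1 hf
  clear hf
  induction g using MvPolynomial.induction_on with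
  | C k => simpa only [aeval_eq_bind₁, map_C, Subfield.subtype_apply, algHom_C, algebraMap_eq] using ov_C k.2
  | add p q hp hq => simpa only [aeval_eq_bind₁, map_add] using ov_add hp hq
  | mul_X p j hp => simpa only [aeval_eq_bind₁, map_mul, map_X, bind₁_X_right] using ov_mul hp (hs j)

theorem ov_rename (r : ι → κ) (hf : Ov K f) : Ov K (rename r f) := by
  obtain ⟨g, rfl⟩ := ov_iff.1 hf
  exact ov_iff.2 ⟨rename r g, map_rename _ _ _⟩

theorem ov_hom (d : ℕ) (hf : Ov K f) : Ov K (homogeneousComponent d f) := by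
  intro e
  rw [coeff_homogeneousComponent]
  split_ifs
  exacts [hf e, zero_mem _]

theorem ov_det {A : Type} [Fintype A] [DecidableEq A] {M : Matrix A A (P ι)}
    (h : ∀ a b, Ov K (M a b)) : Ov K M.det := by
  rw [Matrix.det_apply']
  exact ov_iff.2 (sum_mem fun s _ => mul_mem (intCast_mem _ _)
    (prod_mem fun a _ => ov_iff.1 (h _ _)))

theorem ov_adjugate {A : Type} [Fintype A] [DecidableEq A] {M : Matrix A A (P ι)}
    (h : ∀ a b, Ov K (M a b)) (a b : A) : Ov K (M.adjugate a b) := by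
  rw [Matrix.adjugate_apply]
  refine ov_det fun i j => ?_
  rw [Matrix.updateRow_apply]
  split_ifs
  · rw [Pi.single_apply]
    split_ifs
    exacts [ov_one, ov_zero]
  · exact h i j

theorem ov_eval {y : ι → ℂ} (hf : Ov K f) (hy : ∀ i, y i ∈ K) : eval y f ∈ K := by
  obtain ⟨g, rfl⟩ := ov_iff.1 hf
  clear hf
  induction g using MvPolynomial.induction_on with
  | C k => simp only [map_C, Subfield.subtype_apply, eval_C, SetLike.coe_mem]
  | add p q hp hq => simpa only [map_add, eval_map] using add_mem hp hq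
  | mul_X p j hp => simpa only [map_mul, map_X, eval_map, eval_X] using mul_mem hp (hy j)

end ov

section tower
variable {ι κ : Type} [Fintype ι] [Fintype κ] {S S' : Set ℂ} {ξ ξ' : ι → ℂ} {η : κ → ℂ}

theorem ann_finrank (W : Submodule ℂ (ι → ℂ)) :
    finrank ℂ W + finrank ℂ (ann W) = Fintype.card ι := ann_rank fun _ => Iff.rfl

theorem ann_ann (W : Submodule ℂ (ι → ℂ)) : ann (ann W) = W := by
  ext α
  rw [ann_iff (S := W) (T := ann W) (fun _ => Iff.rfl) α]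
  exact ⟨fun h v hv => (dotProduct_comm _ _).trans (h v hv),
    fun h v hv => (dotProduct_comm _ _).trans (h v hv)⟩

theorem dv_anti (h : S ⊆ cf S') (ξ : ι → ℂ) : dv S' ξ ≤ dv S ξ :=
  Submodule.map_mono (Der_anti h)

theorem td_anti (h : S ⊆ cf S') (ξ : ι → ℂ) : td S' ξ ≤ td S ξ :=
  Submodule.finrank_mono (dv_anti h ξ)

theorem td_anti' (h : S ⊆ S') (ξ : ι → ℂ) : td S' ξ ≤ td S ξ := td_anti (h.trans subset_cf) ξ

theorem td_le_card (S : Set ℂ) (ξ : ι → ℂ) : td S ξ ≤ Fintype.card ι := by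
  simpa only [td, finrank_fintype_fun_eq_card] using Submodule.finrank_le (dv S ξ)

theorem td_eq_zero : td S ξ = 0 ↔ Rt S ξ := by
  rw [td, Submodule.finrank_eq_zero, rt_iff, Submodule.eq_bot_iff]
  exact ⟨fun h D hD => h _ (ap_mem hD ξ), fun h _ ⟨D, hD, e⟩ => e ▸ h D hD⟩

theorem dv_map {φ : (κ → ℂ) →ₗ[ℂ] (ι → ℂ)} (hφ : RtL S φ) (η : κ → ℂ) :
    dv S (φ η) = (dv S η).map φ := by
  ext v
  constructor
  · rintro ⟨D, hD, rfl⟩
    exact ⟨_, ap_mem hD η, (hφ D hD η).symm⟩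
  · rintro ⟨_, ⟨D, hD, rfl⟩, rfl⟩
    exact ⟨D, hD, hφ D hD η⟩

theorem td_map {φ : (κ → ℂ) →ₗ[ℂ] (ι → ℂ)} (hφ : RtL S φ) (hi : Function.Injective φ)
    (η : κ → ℂ) : td S (φ η) = td S η := by
  rw [td, dv_map hφ]
  exact (Submodule.equivMapOfInjective φ hi _).finrank_eq.symm

theorem rtL_funLeft (S : Set ℂ) (r : ι → κ) : RtL S (LinearMap.funLeft ℂ ℂ r) :=
  fun _ _ _ => rfl

theorem td_comp (S : Set ℂ) (η : κ → ℂ) {r : ι → κ} (hr : Function.Surjective r) :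
    td S (η ∘ r) = td S η :=
  td_map (rtL_funLeft S r) (LinearMap.funLeft_injective_of_surjective ℂ ℂ r hr) η

/-- TOWER -/
theorem td_tower (S : Set ℂ) (ξ : ι → ℂ) (η : κ → ℂ) :
    td S (Sum.elim ξ η) = td S ξ + td (adj S ξ) η := by
  let π : dv S (Sum.elim ξ η) →ₗ[ℂ] (ι → ℂ) :=
    (LinearMap.funLeft ℂ ℂ Sum.inl).comp (Submodule.subtype _)
  let ψ : LinearMap.ker π →ₗ[ℂ] (κ → ℂ) :=
    ((LinearMap.funLeft ℂ ℂ Sum.inr).comp (Submodule.subtype _)).comp (Submodule.subtype _)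
  have h1 : LinearMap.range π = dv S ξ := by
    ext v
    constructor
    · rintro ⟨⟨_, D, hD, rfl⟩, rfl⟩
      exact ⟨D, hD, rfl⟩
    · rintro ⟨D, hD, rfl⟩
      exact ⟨⟨_, ap_mem hD _⟩, rfl⟩
  have h2 : LinearMap.range ψ = dv (adj S ξ) η := by
    ext v
    constructor
    · rintro ⟨⟨⟨_, D, hD, rfl⟩, h⟩, rfl⟩
      exact ⟨D, mem_Der_adj.2 ⟨hD, h⟩, rfl⟩
    · rintro ⟨D, hD, rfl⟩
      exact ⟨⟨⟨_, ap_mem (mem_Der_adj.1 hD).1 _⟩, (mem_Der_adj.1 hD).2⟩, rfl⟩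
  have h3 : Function.Injective ψ := by
    rw [injective_iff_map_eq_zero]
    rintro ⟨⟨v, hv⟩, h⟩ h'
    ext (i | i)
    · exact congrFun h i
    · exact congrFun h' i
  have h4 := π.finrank_range_add_finrank_ker
  rw [← LinearMap.finrank_range_of_inj h3, h1, h2] at h4
  exact h4.symm

/-- TOWER both ways -/
theorem td_swap (S : Set ℂ) (ξ : ι → ℂ) (η : κ → ℂ) :
    td S ξ + td (adj S ξ) η = td S η + td (adj S η) ξ := by
  rw [← td_tower, ← td_tower, ← td_comp S (Sum.elim η ξ) (Equiv.sumComm ι κ).surjective]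
  congr 1
  ext (i | i) <;> rfl

theorem td_le_add (S : Set ℂ) (ξ : ι → ℂ) (η : κ → ℂ) : td S η ≤ td S ξ + td (adj S ξ) η := by
  rw [td_swap]
  exact Nat.le_add_right _ _

/-- a vector rational in `ξ` has smaller transcendence degree -/
theorem td_le_of_rt (h : Rt (adj S ξ) η) : td S η ≤ td S ξ := by
  have h1 := td_le_add S ξ η
  rwa [td_eq_zero.2 h] at h1

theorem td_comp_le (S : Set ℂ) (η : κ → ℂ) (r : ι → κ) : td S (η ∘ r) ≤ td S η :=
  td_le_of_rt fun i => rt_adj S η (r i)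

theorem td_map_le {φ : (κ → ℂ) →ₗ[ℂ] (ι → ℂ)} (hφ : RtL S φ) (η : κ → ℂ) :
    td S (φ η) ≤ td S η :=
  td_le_of_rt ((hφ.mono' (subset_adj S η)).rt (rt_adj S η))

theorem td_adj_le (S : Set ℂ) (ξ : ι → ℂ) (η : κ → ℂ) : td (adj S ξ) η ≤ td S η :=
  td_anti' (subset_adj S ξ) η

theorem dv_stab (S : Set ℂ) (ξ : ι → ℂ) : Stab (adj S ξ) (dv S ξ) := by
  rintro D hD _ ⟨D', hD', rfl⟩
  obtain ⟨h1, h2⟩ := mem_Der_adj.1 hD
  refine ⟨_, Der_comm h1 hD', funext fun i => ?_⟩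
  have h3 : D (ξ i) = 0 := congrFun h2 i
  simp only [apL, LinearMap.coe_mk, AddHom.coe_mk, ap, Derivation.commutator_apply, h3, map_zero, sub_zero]

theorem Stab.dv_le {W : Submodule ℂ (ι → ℂ)} (h : Stab S W) (hξ : ξ ∈ W) : dv S ξ ≤ W := by
  rintro _ ⟨D, hD, rfl⟩
  exact h D hD ξ hξ

theorem Stab.td_le {W : Submodule ℂ (ι → ℂ)} (h : Stab S W) (hξ : ξ ∈ W) :
    td S ξ ≤ finrank ℂ W := Submodule.finrank_mono (h.dv_le hξ)

theorem Stab.ann {W : Submodule ℂ (ι → ℂ)} (h : Stab S W) : Stab S (ann W) := by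
  intro D hD v hv α hα
  have h1 := ap_dot D α v
  rwa [hv α hα, map_zero, hv _ (h D hD α hα), zero_add, eq_comm] at h1

theorem Stab.inf {W W' : Submodule ℂ (ι → ℂ)} (h : Stab S W) (h' : Stab S W') :
    Stab S (W ⊓ W') := fun D hD w hw => ⟨h D hD w hw.1, h' D hD w hw.2⟩

theorem Stab.sup {W W' : Submodule ℂ (ι → ℂ)} (h : Stab S W) (h' : Stab S W') :
    Stab S (W ⊔ W') := by
  intro D hD w hw
  obtain ⟨a, ha, b, hb, rfl⟩ := Submodule.mem_sup.1 hw
  rw [ap_add]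
  exact Submodule.add_mem_sup (h D hD a ha) (h' D hD b hb)

theorem stab_top : Stab S (⊤ : Submodule ℂ (ι → ℂ)) := fun _ _ _ _ => trivial

theorem stab_span {T : Set (ι → ℂ)} (h : ∀ v ∈ T, Rt S v) : Stab S (Submodule.span ℂ T) := by
  intro D hD w hw
  induction hw using Submodule.span_induction with
  | mem v hv => rw [(h v hv).ap hD]; exact zero_mem _
  | zero => rw [ap_zero]; exact zero_mem _
  | add a b _ _ ha hb => rw [ap_add]; exact add_mem ha hb
  | smul a v hv hb =>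
    rw [ap_smul]
    exact add_mem (Submodule.smul_mem _ _ hb) (Submodule.smul_mem _ _ hv)

theorem Stab.map {W : Submodule ℂ (κ → ℂ)} (h : Stab S W) {φ : (κ → ℂ) →ₗ[ℂ] (ι → ℂ)}
    (hφ : RtL S φ) : Stab S (W.map φ) := by
  rintro D hD _ ⟨w, hw, rfl⟩
  exact ⟨_, h D hD w hw, (hφ D hD w).symm⟩

theorem Stab.comap {W : Submodule ℂ (ι → ℂ)} (h : Stab S W) {φ : (κ → ℂ) →ₗ[ℂ] (ι → ℂ)}
    (hφ : RtL S φ) : Stab S (W.comap φ) := by
  intro D hD w hw
  rw [Submodule.mem_comap, ← hφ D hD]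
  exact h D hD _ hw

/-- stable subspaces are spanned by rational vectors -/
theorem Stab.le_span {W : Submodule ℂ (ι → ℂ)} (h : Stab S W) :
    W ≤ Submodule.span ℂ {v | v ∈ W ∧ Rt S v} := by
  classical
  intro w hw
  induction hn : (Finset.univ.filter fun s => w s ≠ 0).card using Nat.strong_induction_on
    generalizing w with
  | _ n ih =>
    by_cases h0 : w = 0
    · rw [h0]; exact zero_mem _
    let A : Submodule ℂ (ι → ℂ) := W ⊓ Submodule.pi {s | w s = 0} fun _ => ⊥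
    have hA : ∀ E : Derivation (cf S) ℂ ℂ, ∀ α ∈ A, (fun s => E (α s)) ∈ A := by
      intro E α hα
      obtain ⟨D, hD, e⟩ := ofcf E
      simp only [← e]
      refine ⟨h D hD α hα.1, fun s hs => ?_⟩
      have h1 : α s = 0 := hα.2 s hs
      simp only [Submodule.bot_coe, h1, map_zero, Set.mem_singleton_iff]
    obtain ⟨α, hα, hne, hr⟩ := min_support (fun _ => cf_closed) hA
      ((Submodule.ne_bot_iff A).2 ⟨w, ⟨hw, fun s hs => hs⟩, h0⟩)
    obtain ⟨j, hj⟩ := Function.ne_iff.1 hne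
    have hj : α j ≠ 0 := hj
    have hlt : (Finset.univ.filter fun s => (w - (w j / α j) • α) s ≠ 0) ⊂
        Finset.univ.filter fun s => w s ≠ 0 := by
      refine ⟨fun s hs => ?_, fun hs => ?_⟩
      · simp only [Finset.mem_filter, Finset.mem_univ, true_and] at hs ⊢
        intro h4
        have h5 : α s = 0 := hα.2 s h4
        exact hs (by simp [h4, h5])
      · have h4 : w j ≠ 0 := fun h4 => hj (hα.2 j h4)
        have h5 := hs (Finset.mem_filter.2 ⟨Finset.mem_univ j, h4⟩)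
        exact (Finset.mem_filter.1 h5).2 (by simp [hj])
    have h2 := ih _ (hn ▸ Finset.card_lt_card hlt)
      (W.sub_mem hw (W.smul_mem (w j / α j) hα.1)) rfl
    have h3 := add_mem h2 (Submodule.smul_mem _ (w j / α j)
      (Submodule.subset_span (s := {v | v ∈ W ∧ Rt S v}) ⟨hα.1, hr⟩))
    rwa [sub_add_cancel] at h3

/-- stable subspaces have rational coordinates -/
theorem Stab.coord {W : Submodule ℂ (ι → ℂ)} (h : Stab S W) :
    ∃ φ : (Fin (finrank ℂ W) → ℂ) →ₗ[ℂ] (ι → ℂ), Function.Injective φ ∧ LinearMap.range φ = W ∧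
      RtL S φ := by
  have e : Submodule.span ℂ {v | v ∈ W ∧ Rt S v} = W :=
    le_antisymm (Submodule.span_le.2 fun v hv => hv.1) h.le_span
  have h1 := Submodule.exists_fun_fin_finrank_span_eq ℂ {v | v ∈ W ∧ Rt S v}
  rw [e] at h1
  obtain ⟨f, hf, hs, hi⟩ := h1
  refine ⟨Fintype.linearCombination ℂ f, hi.fintypeLinearCombination_injective,
    (Fintype.range_linearCombination ℂ f).trans hs, rtL_iff.2 fun j => ?_⟩
  rw [Fintype.linearCombination_apply_single, one_smul]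
  exact (hf j).2

/-- every subspace is stable over a countable extension -/
theorem exists_stab (hS : S.Countable) (W : Submodule ℂ (ι → ℂ)) :
    ∃ S' : Set ℂ, S'.Countable ∧ S ⊆ S' ∧ Stab S' W := by
  obtain ⟨f, -, hs, -⟩ := Submodule.exists_fun_fin_finrank_span_eq ℂ (W : Set (ι → ℂ))
  refine ⟨adj S fun p : _ × ι => f p.1 p.2, adj_countable hS _, subset_adj _ _, ?_⟩
  have h1 := stab_span (T := Set.range f) (Set.forall_mem_range.2 fun j i =>
    rt_adj S (fun p : _ × ι => f p.1 p.2) (j, i))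
  exact (congrArg (Stab _) (hs.trans (Submodule.span_eq W))).mp h1

/-- the count used with a generic vector `p` of a space `E` over a point `y` -/
theorem td_count {E R : Submodule ℂ (κ → ℂ)} (hE : E ≤ dv (adj S ξ) η) (hR : Stab S R)
    (hp : η ∈ R) : td S ξ + finrank ℂ E ≤ finrank ℂ R + td (adj S η) ξ := by
  have h1 := td_swap S ξ η
  have h2 := hR.td_le hp
  have h3 : finrank ℂ E ≤ td (adj S ξ) η := Submodule.finrank_mono hE
  omega

end tower

section gen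
variable {ι κ : Type} [Fintype ι] [Fintype κ] {S : Set ℂ} {ξ ξ' : ι → ℂ}

theorem Sp.eval_eq (h : Sp S ξ ξ') {f g : P ι} (hf : Ov (cf S) f) (hg : Ov (cf S) g)
    (e : eval ξ f = eval ξ g) : eval ξ' f = eval ξ' g := by
  have h1 := h _ (ov_sub hf hg) (by rw [map_sub, e, sub_self])
  rwa [map_sub, sub_eq_zero] at h1

theorem Sp.ne (h : Sp S ξ ξ') {f : P ι} (hf : Ov (cf S) f) (e : eval ξ' f ≠ 0) : eval ξ f ≠ 0 :=
  fun h0 => e (h f hf h0)

/-- specialisation is preserved by rational polynomial maps -/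
theorem Sp.ev (h : Sp S ξ ξ') {s : κ → P ι} (hs : ∀ k, Ov (cf S) (s k)) :
    Sp S (ev ξ s) (ev ξ' s) := by
  intro f hf h0
  have h1 := h _ (ov_aeval hs hf) ((gmeet_eval s ξ f).trans h0)
  exact (gmeet_eval s ξ' f).symm.trans h1

theorem Sp.comp (h : Sp S ξ ξ') (r : κ → ι) : Sp S (ξ ∘ r) (ξ' ∘ r) := by
  intro f hf h0
  have h1 := h _ (ov_rename r hf) ((eval_rename _ _ _).trans h0)
  exact (eval_rename _ _ _).symm.trans h1

theorem ov_dot {α : ι → ℂ} (hα : Rt S α) :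
    Ov (cf S) (∑ i, C (α i) * X i : P ι) := ov_lin hα

theorem eval_dot (α y : ι → ℂ) : eval y (∑ i, C (α i) * X i : P ι) = α ⬝ᵥ y := by
  simp only [map_sum, map_mul, eval_C, eval_X, dotProduct]

theorem Sp.dot (h : Sp S ξ ξ') {α : ι → ℂ} (hα : Rt S α) (e : α ⬝ᵥ ξ = 0) : α ⬝ᵥ ξ' = 0 :=
  (eval_dot α ξ').symm.trans (h _ (ov_dot hα) ((eval_dot α ξ).trans e))

/-- a rational linear map is given by rational linear forms -/
theorem RtL.exists_ev {φ : (ι → ℂ) →ₗ[ℂ] (κ → ℂ)} (hφ : RtL S φ) :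
    ∃ s : κ → P ι, (∀ k, Ov (cf S) (s k)) ∧ (∀ k, (s k).IsHomogeneous 1) ∧ ∀ y, ev y s = φ y := by
  classical
  refine ⟨fun k => ∑ i, C (φ (Pi.single i 1) k) * X i,
    fun k => ov_dot fun i => rtL_iff.1 hφ i k, fun k => IsHomogeneous.sum _ _ _ fun i _ =>
      (isHomogeneous_X _ _).C_mul _, fun y => funext fun k => ?_⟩
  conv_rhs => rw [pi_eq_sum_univ' y]
  simp only [ev, map_sum, map_smul, Finset.sum_apply, map_mul, eval_C, eval_X, Pi.smul_apply,
    smul_eq_mul, mul_comm]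

theorem Sp.map (h : Sp S ξ ξ') {φ : (ι → ℂ) →ₗ[ℂ] (κ → ℂ)} (hφ : RtL S φ) :
    Sp S (φ ξ) (φ ξ') := by
  obtain ⟨s, h1, -, h2⟩ := hφ.exists_ev
  rw [← h2, ← h2]
  exact h.ev h1

theorem Sp.mem_stab (h : Sp S ξ ξ') {W : Submodule ℂ (ι → ℂ)} (hW : Stab S W) (hξ : ξ ∈ W) :
    ξ' ∈ W := by
  rw [← ann_ann W] at hξ ⊢
  intro α hα
  exact span_dot.2 (fun β hβ => h.dot hβ.2 (hξ β hβ.1)) α (hW.ann.le_span hα)

theorem Sp.mem_vZ (h : Sp S ξ ξ') {A : Type} {G : A → P ι} (hG : ∀ a, Ov (cf S) (G a))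
    (hξ : ξ ∈ vZ (Ideal.span (Set.range G))) : ξ' ∈ vZ (Ideal.span (Set.range G)) := by
  exact mem_vZ_span.2 (Set.forall_mem_range.2 fun a =>
    h _ (hG a) (mem_vZ_span.1 hξ _ ⟨a, rfl⟩))

theorem Sp.eq_of_rt (h : Sp S ξ ξ') (hξ : Rt S ξ) : ξ' = ξ := by
  ext i
  simpa using h.eval_eq (ov_X' i) (ov_C (hξ i)) (by simp)

theorem gnr_sp {C : Set (ι → ℂ)} (h : Gnr (cf S) C ξ) (h' : ξ' ∈ C) : Sp S ξ ξ' := by
  exact fun f hf h0 => mem_van.1 (h.2 f hf h0) _ h'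

theorem gnr_tangent {C : Set (ι → ℂ)} (h : Gnr (cf S) C ξ) : tangent C ξ ≤ dv S ξ := by
  intro a ha
  obtain ⟨E, hE⟩ := der h ha
  obtain ⟨D, hD, e⟩ := ofcf E
  exact ⟨D, hD, funext fun i => (e _).trans (hE i)⟩

theorem td_of_indep {η : κ → ℂ}
    (h : ∀ f : MvPolynomial κ (cf S), aeval η f = 0 → f = 0) : dv S η = ⊤ := by
  refine eq_top_iff.2 fun a _ => ?_
  obtain ⟨E, hE⟩ := der_core (K := cf S) η a fun f hf => by simp only [h f hf, map_zero, zero_mul, Finset.sum_const_zero]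
  obtain ⟨D, hD, e⟩ := ofcf E
  exact ⟨D, hD, funext fun i => (e _).trans (hE i)⟩

theorem td_of_top {η : κ → ℂ} (h : dv S η = ⊤) : td S η = Fintype.card κ := by
  rw [td, h]
  simp only [finrank_top, finrank_fintype_fun_eq_card]

theorem gnr_td {𝔮 : Ideal (P ι)} (hq : 𝔮.IsPrime) (h : Gnr (cf S) (vZ 𝔮) ξ) :
    dm 𝔮 ≤ td S ξ := by
  obtain ⟨c, -, hc⟩ := exists_indep 𝔮
  have h1 : dv S (ξ ∘ c) = ⊤ := td_of_indep fun f hf => by
    have h2 := h.2 _ (ov_rename c (ov_iff.2 ⟨f, rfl⟩))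
      ((eval_rename _ _ _).trans ((gder_eval _ f).trans hf))
    rw [vI_vZ hq] at h2
    exact map_injective _ (cf S).subtype.injective
      ((Ideal.mem_bot.1 ((gext_indep c).1 hc h2)).trans (map_zero _).symm)
  simpa only [ge_iff_le, td_of_top h1, Fintype.card_fin] using td_comp_le S ξ c

theorem gen0 (hS : S.Countable) {𝔮 : Ideal (P ι)} (hq : 𝔮.IsPrime) :
    ∃ ξ, Gnr (cf S) (vZ 𝔮) ξ := by
  obtain ⟨y, -, h⟩ := gen_gnr (cf S) (cf_countable hS) hq id (C := vZ 𝔮)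
    (fun f hf => by simpa [vI_vZ hq] using hf) fun y hy => hy
  exact ⟨y, h⟩

/-- GEN -/
theorem gen (hS : S.Countable) {𝔮 : Ideal (P ι)} (hq : 𝔮.IsPrime) {f : P ι} (hf : f ∉ 𝔮) :
    ∃ ξ ∈ vZ 𝔮, eval ξ f ≠ 0 ∧ dm 𝔮 ≤ td S ξ ∧ (∀ ξ' ∈ vZ 𝔮, Sp S ξ ξ') ∧
      Gnr (cf S) (vZ 𝔮) ξ := by
  obtain ⟨S', h1, h2, h3⟩ := exists_ov hS fun _ : Unit => f
  obtain ⟨ξ, h⟩ := gen0 h1 hq
  have h4 : Gnr (cf S) (vZ 𝔮) ξ := ⟨h.1, fun g hg => h.2 g (Ov.mono hg (cf_mono' h2))⟩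
  exact ⟨ξ, h.1, fun h0 => hf (vI_vZ hq ▸ h.2 f (h3 ()) h0), gnr_td hq h4,
    fun _ h' => gnr_sp h4 h', h4⟩

/-- algebraically independent numbers -/
theorem gen_top (hS : S.Countable) (ι : Type) [Fintype ι] :
    ∃ p : ι → ℂ, dv S p = ⊤ ∧ ∀ w, Sp S p w := by
  obtain ⟨p, h⟩ := gen0 (ι := ι) hS Ideal.isPrime_bot
  refine ⟨p, td_of_indep fun f hf => ?_, fun w => gnr_sp h (mem_vZ.2 fun f hf => ?_)⟩
  · have h2 := h.2 _ (ov_iff.2 ⟨f, rfl⟩) ((gder_eval _ f).trans hf)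
    rw [vI_vZ Ideal.isPrime_bot] at h2
    exact map_injective _ (cf S).subtype.injective ((Ideal.mem_bot.1 h2).trans (map_zero _).symm)
  · rw [Ideal.mem_bot.1 hf, map_zero]

/-- GEN for a subspace -/
theorem gen_sub (hS : S.Countable) (W : Submodule ℂ (ι → ℂ)) :
    ∃ p ∈ W, W ≤ dv S p ∧ ∀ w ∈ W, Sp S p w := by
  obtain ⟨S', h1, h2, h3⟩ := exists_stab hS W
  obtain ⟨φ, -, hr, hφ⟩ := h3.coord
  obtain ⟨p, h4, h5⟩ := gen_top h1 (Fin (finrank ℂ W))
  refine ⟨φ p, hr.le ⟨p, rfl⟩, le_trans ?_ (dv_anti (h2.trans subset_cf) _), fun w hw => ?_⟩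
  · rw [dv_map hφ, h4, Submodule.map_top, hr]
  · obtain ⟨u, rfl⟩ := hr.ge hw
    exact ((h5 u).map hφ).anti' h2

theorem gen_sub' (hS : S.Countable) (W : Submodule ℂ (ι → ℂ)) {f : P ι} {w₀ : ι → ℂ}
    (hw : w₀ ∈ W) (hf : eval w₀ f ≠ 0) :
    ∃ p ∈ W, eval p f ≠ 0 ∧ W ≤ dv S p ∧ ∀ w ∈ W, Sp S p w := by
  obtain ⟨S', h1, h2, h3⟩ := exists_ov hS fun _ : Unit => f
  obtain ⟨p, h4, h5, h6⟩ := gen_sub h1 W
  exact ⟨p, h4, (h6 _ hw).ne (h3 ()) hf, h5.trans (dv_anti (h2.trans subset_cf) _),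
    fun w hw => (h6 w hw).anti' h2⟩

/-- a transcendental number -/
theorem gen_one (hS : S.Countable) : ∃ c : ℂ, c ∉ cf S ∧ ∃ D ∈ Der S, D c = 1 := by
  obtain ⟨p, h, -⟩ := gen_top hS Unit
  obtain ⟨D, hD, e⟩ := h.ge (Submodule.mem_top (x := fun _ => 1))
  have e1 : D (p ()) = 1 := congrFun e ()
  exact ⟨p (), fun hc => one_ne_zero (e1.symm.trans (hc D hD)), D, hD, e1⟩

/-- upper bound for the transcendence degree of a point of a rational variety -/
theorem td_le_nm {A : Type} {G : A → P ι} (hG : ∀ a, Ov (cf S) (G a)) (h0 : ∀ a, eval ξ (G a) = 0) :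
    td S ξ + finrank ℂ (Submodule.span ℂ (Set.range fun a => grad (G a) ξ)) ≤ Fintype.card ι := by
  have h1 : dv S ξ ≤ ann (Submodule.span ℂ (Set.range fun a => grad (G a) ξ)) := by
    rintro _ ⟨D, hD, rfl⟩
    refine span_dot.2 (Set.forall_mem_range.2 fun a => ?_)
    exact (ap_eval hD (hG a) ξ).symm.trans (by rw [h0 a, map_zero])
  have h2 := ann_finrank (Submodule.span ℂ (Set.range fun a => grad (G a) ξ))
  have h3 : td S ξ ≤ _ := Submodule.finrank_mono h1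
  omega

theorem l3_dm {K : Type} [Field K] {p : Ideal (MvPolynomial ι K)} [p.IsPrime] (c : κ → ι)
    (hi : AlgebraicIndependent K fun i => Ideal.Quotient.mk p (X (c i)))
    (h : ∀ j, j ∉ Set.range c → ¬ AlgebraicIndependent K fun o : Option κ =>
      o.elim (Ideal.Quotient.mk p (X j)) fun i => Ideal.Quotient.mk p (X (c i))) :
    dm p ≤ Fintype.card κ := by
  have : Algebra.IsAlgebraic (Algebra.adjoin K (Set.range fun i => Ideal.Quotient.mk p (X (c i))))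
      (MvPolynomial ι K ⧸ p) := by
    refine ⟨fun x => ?_⟩
    obtain ⟨F, rfl⟩ := Ideal.Quotient.mk_surjective x
    induction F using MvPolynomial.induction_on with
    | C k => exact isAlgebraic_algebraMap (⟨_, Subalgebra.algebraMap_mem _ k⟩ :
        Algebra.adjoin K (Set.range fun i => Ideal.Quotient.mk p (X (c i))))
    | add f g hf hg => rw [map_add]; exact hf.add hg
    | mul_X f j hf =>
      rw [map_mul]
      refine hf.mul ?_
      by_cases hj : j ∈ Set.range c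
      · obtain ⟨i, rfl⟩ := hj
        exact isAlgebraic_algebraMap (⟨_, Algebra.subset_adjoin ⟨i, rfl⟩⟩ :
          Algebra.adjoin K (Set.range fun i => Ideal.Quotient.mk p (X (c i))))
      · by_contra hn
        exact h j hj ((hi.option_iff_transcendental _).2 hn)
  have h1 := (Algebra.IsAlgebraic.trdeg_le_cardinalMk K
    (Set.range fun i => Ideal.Quotient.mk p (X (c i)))).trans Cardinal.mk_range_le
  rw [← dm_cast, Cardinal.mk_fintype] at h1
  exact_mod_cast h1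

theorem l3_iff {K : Type} [Field K] (p : Ideal (MvPolynomial ι K)) {A : Type} (r : A → ι) :
    (AlgebraicIndependent K fun a => Ideal.Quotient.mk p (X (r a))) ↔
      ∀ F : MvPolynomial A K, rename r F ∈ p → F = 0 := by
  rw [algebraicIndependent_iff]
  refine forall_congr' fun F => imp_congr_left ?_
  have e : aeval (fun a => Ideal.Quotient.mk p (X (r a))) =
      (Ideal.Quotient.mkₐ K p).comp (rename r) := algHom_ext fun a => by simp
  rw [e]
  exact Ideal.Quotient.eq_zero_iff_mem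

/-- L3 -/
theorem l3 (S : Set ℂ) (ξ : ι → ℂ) : ∃ 𝔭 : Ideal (P ι), 𝔭.IsPrime ∧ ξ ∈ vZ 𝔭 ∧ td S ξ ≤ dm 𝔭 ∧
    (∀ ξ' ∈ vZ 𝔭, Sp S ξ ξ') ∧
    𝔭 ∈ (Ideal.span {f | Ov (cf S) f ∧ eval ξ f = 0}).minimalPrimes := by
  classical
  let I : Ideal (MvPolynomial ι (cf S)) := RingHom.ker (aeval ξ : _ →ₐ[cf S] ℂ)
  have hI : I.IsPrime := RingHom.ker_isPrime _
  obtain ⟨c, hc, hi⟩ := exists_indep I
  have e : ∀ (p : Ideal (MvPolynomial ι (cf S))) (j : ι), (fun o : Option (Fin (dm I)) =>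
      o.elim (Ideal.Quotient.mk p (X j)) fun i => Ideal.Quotient.mk p (X (c i))) =
      fun o => Ideal.Quotient.mk p (X (o.elim j c)) := fun p j => by
    ext (_ | i) <;> rfl
  have h1 : ∀ j, ∃ F : MvPolynomial (Option (Fin (dm I))) (cf S),
      rename (fun o => o.elim j c) F ∈ I ∧ F ≠ 0 := fun j => by
    by_contra hn
    have h2 := card_le_dm ((l3_iff I fun o : Option (Fin (dm I)) => o.elim j c).2
      fun F hF => by_contra fun h0 => hn ⟨F, hF, h0⟩)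
    simp only [Fintype.card_option, Fintype.card_fin, add_le_iff_nonpos_right, nonpos_iff_eq_zero, one_ne_zero] at h2
  choose F hF hF0 using h1
  let g : {j // j ∉ Set.range c} → P ι := fun j =>
    map (cf S).subtype (rename (fun o => o.elim j.1 c) (F j))
  obtain ⟨𝔭, hp, hξ⟩ := exists_min_at (𝔞 := ⊥ ⊔ Ideal.span (Set.range g)) (y := ξ) (by
    rw [bot_sup_eq]
    exact mem_vZ_span.2 (Set.forall_mem_range.2 fun j => (gder_eval _ _).trans (hF j)))
  have hP := hp.isPrime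
  have h2 := cut Ideal.isPrime_bot g hp
  rw [dm_bot, Fintype.card_subtype_compl, Set.card_range_of_injective hc, Fintype.card_fin] at h2
  have h3 : dm I ≤ Fintype.card ι := by simpa only [Fintype.card_fin] using Fintype.card_le_of_injective c hc
  have h4 : 𝔭.comap (map (cf S).subtype) ≤ I := fun f hf =>
    (gder_eval _ _).symm.trans (mem_vZ.1 hξ _ hf)
  have h5 : 𝔭.comap (map (cf S).subtype) = I := by
    refine h4.eq_of_not_lt fun hlt => (dm_lt hlt).not_ge ?_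
    have h6 := l3_dm (p := 𝔭.comap (map (cf S).subtype)) c
      ((l3_iff _ c).2 fun G hG => (l3_iff I c).1 hi G (h4 hG)) fun j hj hn => by
        rw [e] at hn
        exact hF0 j ((l3_iff _ _).1 hn _ (hp.le (Ideal.mem_sup_right
          (Ideal.subset_span ⟨⟨j, hj⟩, rfl⟩))))
    simpa only [ge_iff_le, Fintype.card_fin] using h6
  have h6 : Ideal.span {f | Ov (cf S) f ∧ eval ξ f = 0} ≤ 𝔭 := Ideal.span_le.2 fun f hf => by
    obtain ⟨G, rfl⟩ := ov_iff.1 hf.1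
    exact h5.ge ((gder_eval _ _).symm.trans hf.2)
  have h7 : td S ξ ≤ dm I := by
    have hi' : AlgebraicIndependent (cf S) (ξ ∘ c) := algebraicIndependent_iff.2 fun G hG =>
      (l3_iff I c).1 hi G ((aeval_rename _ _ _).trans hG)
    refine (td_le_of_rt (ξ := ξ ∘ c) fun j => cf_closed ?_).trans
      ((td_le_card _ _).trans (by simp only [Fintype.card_fin, Std.le_refl]))
    have h8 : IsAlgebraic (Algebra.adjoin (cf S) (Set.range (ξ ∘ c))) (ξ j) := by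
      by_contra hn
      refine hF0 j (algebraicIndependent_iff.1 ((hi'.option_iff_transcendental _).2 hn) _ ?_)
      have h9 : aeval ξ (rename (fun o => o.elim j c) (F j)) = 0 := hF j
      rw [aeval_rename] at h9
      have e' : (fun o : Option (Fin (dm I)) => o.elim (ξ j) (ξ ∘ c)) =
          ξ ∘ fun o => o.elim j c := by
        ext (_ | i) <;> rfl
      rw [e']
      exact h9
    exact h8.tower_top_of_subalgebra_le (B := ((cf (adj S (ξ ∘ c))).toIntermediateField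
      fun x : cf S => cf_mono' (subset_adj _ _) x.2).toSubalgebra)
      (Algebra.adjoin_le (Set.range_subset_iff.2 (rt_adj S (ξ ∘ c))))
  refine ⟨𝔭, hP, hξ, by omega, fun ξ' h' f hf h0 =>
    mem_vZ.1 h' f (h6 (Ideal.subset_span ⟨hf, h0⟩)), ⟨hP, h6⟩, fun 𝔮 hq hle => ?_⟩
  refine hp.2 ⟨hq.1, le_trans ?_ hq.2⟩ hle
  rw [bot_sup_eq]
  exact Ideal.span_mono (Set.range_subset_iff.2 fun j =>
    ⟨ov_iff.2 ⟨_, rfl⟩, (gder_eval _ _).trans (hF j)⟩)

/-- upper bound: a point of a variety all of whose components over the rational equations are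
small -/
theorem td_le_of_primes {d : ℕ} {A : Type} {G : A → P ι} (hG : ∀ a, Ov (cf S) (G a))
    (h0 : ∀ a, eval ξ (G a) = 0)
    (h : ∀ 𝔭 : Ideal (P ι), 𝔭.IsPrime → ξ ∈ vZ 𝔭 → (∀ a, G a ∈ 𝔭) → dm 𝔭 ≤ d) : td S ξ ≤ d := by
  obtain ⟨𝔭, h1, h2, h3, -, h4⟩ := l3 S ξ
  exact h3.trans (h 𝔭 h1 h2 fun a => h4.le (Ideal.subset_span ⟨hG a, h0 a⟩))

theorem td_le_dm {𝔮 : Ideal (P ι)} (hq : 𝔮.IsPrime) {A : Type} {G : A → P ι}
    (hG : ∀ a, Ov (cf S) (G a)) (e : 𝔮 = Ideal.span (Set.range G)) (hξ : ξ ∈ vZ 𝔮) :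
    td S ξ ≤ dm 𝔮 := by
  refine td_le_of_primes hG (fun a => mem_vZ.1 hξ _ (e ▸ Ideal.subset_span ⟨a, rfl⟩))
    fun 𝔭 hp _ h => dm_anti hq hp ?_
  rw [e]
  exact Ideal.span_le.2 (Set.range_subset_iff.2 h)

theorem dv_smul {c : ℂ} (hc : c ∉ cf (adj S ξ)) : dv S (c • ξ) = dv S ξ ⊔ ℂ ∙ ξ := by
  have h0 : c ≠ 0 := fun h => hc (h ▸ zero_mem _)
  obtain ⟨E, hE, hE0⟩ : ∃ E ∈ Der (adj S ξ), E c ≠ 0 := by
    by_contra hn
    exact hc fun D hD => by_contra fun h => hn ⟨D, hD, h⟩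
  obtain ⟨hE1, hE2⟩ := mem_Der_adj.1 hE
  have h1 : ξ ∈ dv S (c • ξ) := by
    have h2 := Submodule.smul_mem _ (E c)⁻¹ (ap_mem hE1 (c • ξ))
    rwa [ap_smul, hE2, smul_zero, zero_add, inv_smul_smul₀ hE0] at h2
  refine le_antisymm ?_ (sup_le ?_ ((Submodule.span_singleton_le_iff_mem _ _).2 h1))
  · rintro _ ⟨D, hD, rfl⟩
    show ap D (c • ξ) ∈ _
    rw [ap_smul]
    exact Submodule.add_mem_sup (Submodule.smul_mem _ _ (ap_mem hD ξ))
      (Submodule.smul_mem _ _ (Submodule.mem_span_singleton_self ξ))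
  · rintro _ ⟨D, hD, rfl⟩
    have h2 := Submodule.smul_mem _ c⁻¹
      (sub_mem (ap_mem hD (c • ξ)) (Submodule.smul_mem _ (D c) h1))
    rwa [ap_smul, add_sub_cancel_right, inv_smul_smul₀ h0] at h2

/-- the equations of `c • ξ` are generated by forms -/
theorem hom_of_trans {c : ℂ} (hc : c ∉ cf (adj S ξ)) {f : P ι} (hf : Ov (cf S) f)
    (h0 : eval (c • ξ) f = 0) (d : ℕ) : eval ξ (homogeneousComponent d f) = 0 := by
  have hm : ∀ j, (lp 0 ξ f).coeff j ∈ cf (adj S ξ) := fun j => by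
    rw [gtay2_coeff]
    exact ov_eval (Ov.mono (ov_hom j hf) (cf_mono' (subset_adj _ _))) (rt_adj S ξ)
  obtain ⟨q, hq⟩ : lp 0 ξ f ∈ Polynomial.lifts (algebraMap (cf (adj S ξ)) ℂ) :=
    (Polynomial.lifts_iff_coeff_lifts _).2 fun j => ⟨⟨_, hm j⟩, rfl⟩
  have hq : q.map (algebraMap _ ℂ) = lp 0 ξ f := hq
  have h1 : q = 0 := by_contra fun hn => hc (cf_closed ⟨q, hn, by
    rw [← Polynomial.eval_map_algebraMap, hq, eval_lp, zero_add, h0]⟩)
  rw [← gtay2_coeff, ← hq, h1]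
  simp

/-- L3c -/
theorem l3c (hS : S.Countable) (ξ : ι → ℂ) : ∃ (c : ℂ) (𝔭 : Ideal (P ι)), c ≠ 0 ∧ 𝔭.IsPrime ∧
    HomI (w0 ι) 𝔭 ∧ ξ ∈ vZ 𝔭 ∧ finrank ℂ (dv S ξ ⊔ ℂ ∙ ξ : Submodule ℂ (ι → ℂ)) ≤ dm 𝔭 ∧
    td S ξ ≤ dm 𝔭 ∧ ∀ ξ' ∈ vZ 𝔭, Sp S (c • ξ) ξ' := by
  obtain ⟨c, hc, -⟩ := gen_one (adj_countable hS ξ)
  have h0 : c ≠ 0 := fun h => hc (h ▸ zero_mem _)
  obtain ⟨𝔭, h1, h2, h3, h4, h5⟩ := l3 S (c • ξ)
  have h6 : HomI (w0 ι) 𝔭 := by
    refine hmin ?_ h5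
    have e : Ideal.span {f | Ov (cf S) f ∧ eval (c • ξ) f = 0} = Ideal.span
        {f | (Ov (cf S) f ∧ eval (c • ξ) f = 0) ∧ ∃ e, f.IsWeightedHomogeneous (w0 ι) e} := by
      refine le_antisymm (Ideal.span_le.2 fun f hf => ?_) (Ideal.span_mono fun f hf => hf.1)
      rw [← sum_homogeneousComponent f]
      refine sum_mem fun d _ => Ideal.subset_span ⟨⟨ov_hom d hf.1, ?_⟩, _,
        isWH_w0.2 (homogeneousComponent_isHomogeneous d f)⟩
      rw [eval_smul_hom (homogeneousComponent_isHomogeneous d f), hom_of_trans hc hf.1 hf.2,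
        mul_zero]
    rw [e]
    exact homI_span fun f hf => hf.2
  rw [td, dv_smul hc] at h3
  refine ⟨c, 𝔭, h0, h1, h6, ?_, h3, (Submodule.finrank_mono le_sup_left).trans h3, h4⟩
  have h7 := cone_of_homI h6 c⁻¹ h2
  rwa [inv_smul_smul₀ h0] at h7

/-- SPEC -/
theorem spec (hS : S.Countable) (y : ι → ℂ) (v : κ → ℂ) {d : ℕ}
    (h : d + Fintype.card κ ≤ finrank ℂ
      (dv S (Sum.elim y v) ⊔ ℂ ∙ Sum.elim y v : Submodule ℂ (ι ⊕ κ → ℂ))) :
    ∃ (c : ℂ) (y₀ : ι → ℂ), c ≠ 0 ∧ d ≤ td S y₀ ∧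
      Sp S (Sum.elim (c • y) (c • v)) (Sum.elim y₀ 0) := by
  obtain ⟨c, 𝔭, h0, h1, h2, h3, h4, -, h5⟩ := l3c hS (Sum.elim y v)
  have h6 : (0 : ι ⊕ κ → ℂ) ∈ vZ 𝔭 := by simpa only [mem_zeroLocus_iff, aeval_zero, Algebra.algebraMap_self, RingHomCompTriple.comp_apply, zero_smul] using cone_of_homI h2 0 h3
  obtain ⟨𝔮, hq, -⟩ := exists_min_at (𝔞 := 𝔭 ⊔ Ideal.span (Set.range fun k : κ => X (Sum.inr k)))
    (mem_vZ_sup.2 ⟨h6, mem_vZ_span.2 (Set.forall_mem_range.2 fun k => by simp)⟩)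
  have h7 := cut h1 _ hq
  obtain ⟨ξ, h8, -, h9, -⟩ := gen hS hq.isPrime ((Ideal.ne_top_iff_one _).1 hq.isPrime.ne_top)
  obtain ⟨h10, h11⟩ := mem_vZ_sup.1 (gmeet_anti hq.le h8)
  have e : ξ = Sum.elim (ξ ∘ Sum.inl) 0 := by
    ext (i | k)
    · rfl
    · simpa using mem_vZ_span.1 h11 _ ⟨k, rfl⟩
  have h12 : td S ξ ≤ td S (ξ ∘ Sum.inl) := td_le_of_rt fun i => by
    rw [e]
    rcases i with i | k
    exacts [rt_adj S _ i, zero_mem _]
  refine ⟨c, ξ ∘ Sum.inl, h0, by omega, ?_⟩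
  rw [← e]
  convert h5 ξ h10 using 1
  ext (i | k) <;> rfl

/-- SPEC with one new coordinate -/
theorem spec_td (hS : S.Countable) (y : ι → ℂ) (v : ℂ) {d : ℕ} (h : d + 1 ≤ td S y) :
    ∃ (c : ℂ) (y₀ : ι → ℂ), c ≠ 0 ∧ d ≤ td S y₀ ∧
      Sp S (Sum.elim (c • y) fun _ : Unit => c * v) (Sum.elim y₀ fun _ => 0) := by
  refine spec hS y (fun _ : Unit => v) (le_trans ?_ (Submodule.finrank_mono le_sup_left))
  exact h.trans (td_comp_le S (Sum.elim y fun _ : Unit => v) Sum.inl)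

/-- SPEC for `(y, 1)` -/
theorem spec_one (hS : S.Countable) (y : ι → ℂ) :
    ∃ (c : ℂ) (y₀ : ι → ℂ), c ≠ 0 ∧ td S y ≤ td S y₀ ∧
      Sp S (Sum.elim (c • y) fun _ : Unit => c) (Sum.elim y₀ fun _ => 0) := by
  have h1 : (Sum.elim y fun _ : Unit => (1 : ℂ)) ∉ dv S (Sum.elim y fun _ : Unit => (1 : ℂ)) := by
    rintro ⟨D, -, e⟩
    exact one_ne_zero ((congrFun e (Sum.inr ())).symm.trans D.map_one_eq_zero)
  have h2 := Submodule.finrank_lt_finrank_of_lt (Submodule.lt_sup_iff_notMem.2 h1)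
  have h3 : td S y ≤ _ := td_comp_le S (Sum.elim y fun _ : Unit => (1 : ℂ)) Sum.inl
  obtain ⟨c, y₀, h4, h5, h6⟩ := spec hS y (fun _ : Unit => (1 : ℂ)) (d := td S y)
    (le_trans (Nat.succ_le_succ h3) h2)
  refine ⟨c, y₀, h4, h5, ?_⟩
  have e : (c • fun _ : Unit => (1 : ℂ)) = fun _ => c := funext fun _ => mul_one c
  rw [e] at h6
  exact h6

/-- independent vectors have a nonzero maximal minor -/
theorem exists_minor {A : Type} [Fintype A] [DecidableEq A] {v : A → κ → ℂ}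
    (h : LinearIndependent ℂ v) : ∃ r : A → κ, (Matrix.of fun a b => v a (r b)).det ≠ 0 := by
  obtain ⟨u, hu⟩ := gchart_dual h
  have h1 : Submodule.span ℂ (Set.range fun k a => v a k) = ⊤ := by
    refine eq_top_iff.2 fun w _ => ?_
    have e : w = ∑ k, (∑ b, w b * u b k) • fun a => v a k := by
      ext a
      have h2 : ∑ b, w b * (v a ⬝ᵥ u b) = w a := by simp only [hu, Matrix.one_apply, mul_ite, mul_one, mul_zero, Finset.sum_ite_eq, Finset.mem_univ, ↓ reduceIte]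
      simp only [Finset.sum_apply, Pi.smul_apply, smul_eq_mul, ← h2, dotProduct, Finset.mul_sum,
        Finset.sum_mul]
      rw [Finset.sum_comm]
      exact Finset.sum_congr rfl fun _ _ => Finset.sum_congr rfl fun _ _ => by ring
    rw [e]
    exact sum_mem fun k _ => Submodule.smul_mem _ _ (Submodule.subset_span ⟨k, rfl⟩)
  have h2 := Submodule.exists_fun_fin_finrank_span_eq ℂ (Set.range fun k a => v a k)
  rw [h1, finrank_top, finrank_fintype_fun_eq_card] at h2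
  obtain ⟨f, hf, -, hi⟩ := h2
  choose r hr using hf
  let e := Fintype.equivFin A
  refine ⟨r ∘ e, ?_⟩
  have h3 : LinearIndependent ℂ (Matrix.of fun a b => v a ((r ∘ e) b)).col := by
    have e' : (Matrix.of fun a b => v a ((r ∘ e) b)).col = f ∘ e := by
      ext b a
      exact congrFun (hr (e b)) a
    rw [e']
    exact hi.comp e e.injective
  exact ((Matrix.isUnit_iff_isUnit_det _).1 (Matrix.linearIndependent_cols_iff_isUnit.1 h3)).ne_zero

theorem indep_of_minor {A : Type} [Fintype A] [DecidableEq A] {v : A → κ → ℂ} (r : A → κ)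
    (h : (Matrix.of fun a b => v a (r b)).det ≠ 0) : LinearIndependent ℂ v :=
  LinearIndependent.of_comp (LinearMap.funLeft ℂ ℂ r)
    (Matrix.linearIndependent_rows_of_det_ne_zero h)

/-- RK -/
theorem rk_indep (h : Sp S ξ ξ') {A : Type} {v : A → κ → P ι} (hv : ∀ a k, Ov (cf S) (v a k))
    (hi : LinearIndependent ℂ fun a => ev ξ' (v a)) : LinearIndependent ℂ fun a => ev ξ (v a) := by
  classical
  have : Finite A := hi.finite
  have := Fintype.ofFinite A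
  obtain ⟨r, hr⟩ := exists_minor hi
  have e : ∀ y : ι → ℂ, eval y (Matrix.of fun a b => v a (r b)).det =
      (Matrix.of fun a b => ev y (v a) (r b)).det := fun y => RingHom.map_det _ _
  exact indep_of_minor r (e ξ ▸ h.ne (ov_det fun a b => hv a (r b)) (e ξ' ▸ hr))

theorem rk_le (h : Sp S ξ ξ') {A : Type} {v : A → κ → P ι} (hv : ∀ a k, Ov (cf S) (v a k)) :
    finrank ℂ (Submodule.span ℂ (Set.range fun a => ev ξ' (v a))) ≤
      finrank ℂ (Submodule.span ℂ (Set.range fun a => ev ξ (v a))) := by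
  obtain ⟨f, hf, -, hi⟩ :=
    Submodule.exists_fun_fin_finrank_span_eq ℂ (Set.range fun a => ev ξ' (v a))
  choose r hr using hf
  have h1 := rk_indep h (v := fun j => v (r j)) (fun j k => hv _ k)
    ((funext hr : (fun j => ev ξ' (v (r j))) = f) ▸ hi)
  have h2 := finrank_span_eq_card h1
  rw [Fintype.card_fin] at h2
  rw [← h2]
  exact Submodule.finrank_mono (Submodule.span_mono (Set.range_subset_iff.2 fun j => ⟨r j, rfl⟩))

/-- SPANCL -/
theorem spancl (h : Sp S ξ ξ') {A : Type} {v : A → κ → P ι} (hv : ∀ a k, Ov (cf S) (v a k))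
    {α : κ → P ι} (hα : ∀ k, Ov (cf S) (α k))
    (hr : finrank ℂ (Submodule.span ℂ (Set.range fun a => ev ξ (v a))) ≤
      finrank ℂ (Submodule.span ℂ (Set.range fun a => ev ξ' (v a))))
    (hm : ev ξ α ∈ Submodule.span ℂ (Set.range fun a => ev ξ (v a))) :
    ev ξ' α ∈ Submodule.span ℂ (Set.range fun a => ev ξ' (v a)) := by
  have h1 := rk_le h (v := fun o : Option A => o.elim α v)
    (fun o k => by cases o; exacts [hα k, hv _ k])
  have e : ∀ y : ι → ℂ, Submodule.span ℂ (Set.range fun o : Option A => ev y (o.elim α v)) =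
      Submodule.span ℂ (Set.range fun a => ev y (v a)) ⊔ ℂ ∙ ev y α := fun y => by
    rw [Option.range_eq, Submodule.span_insert, sup_comm]
    rfl
  rw [e, e, sup_eq_left.2 ((Submodule.span_singleton_le_iff_mem _ _).2 hm)] at h1
  by_contra hn
  have h2 := Submodule.finrank_lt_finrank_of_lt (Submodule.lt_sup_iff_notMem.2 hn)
  omega

/-- AVOID -/
theorem avoid (hS : S.Countable) {T : Set (ι → ℂ)} (hT : ∀ c : ℂ, c ≠ 0 → ∀ z ∈ T, c • z ∈ T)
    {d : ℕ} (h : ∀ z ∈ T, z ≠ 0 → td S z ≤ d) :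
    ∃ l : Fin d → ι → ℂ, ∀ z ∈ T, (∀ i, l i ⬝ᵥ z = 0) → z = 0 := by
  obtain ⟨l, hl, -⟩ := gen_top hS (Fin d × ι)
  refine ⟨fun i j => l (i, j), fun z hz h0 => by_contra fun hne => ?_⟩
  obtain ⟨c, hc, -⟩ := gen_one (adj_countable (adj_countable hS l) z)
  have hc0 : c ≠ 0 := fun h => hc (h ▸ zero_mem _)
  have h1 := h _ (hT c hc0 z hz) (smul_ne_zero hc0 hne)
  have h2 : 1 ≤ td (adj S l) (c • z) := by
    rw [td, dv_smul hc, ← finrank_span_singleton (K := ℂ) hne]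
    exact Submodule.finrank_mono le_sup_right
  let φ : (Fin d × ι → ℂ) →ₗ[ℂ] (Fin d → ℂ) :=
    { toFun := fun m i => ∑ j, m (i, j) * (c • z) j
      map_add' := fun m m' => by ext i; simp only [Pi.add_apply, Pi.smul_apply, smul_eq_mul, add_mul, Finset.sum_add_distrib]
      map_smul' := fun a m => by ext i; simp only [Pi.smul_apply, smul_eq_mul, mul_assoc, RingHom.id_apply, Finset.mul_sum] }
  have h3 : RtL (adj S (c • z)) φ := fun D hD m => by
    ext i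
    have h4 := ap_dot D (fun j => m (i, j)) (c • z)
    rw [(mem_Der_adj.1 hD).2, dotProduct_zero, add_zero] at h4
    exact h4
  have h4 : LinearMap.range φ = ⊤ := by
    classical
    obtain ⟨j, hj⟩ := Function.ne_iff.1 (smul_ne_zero hc0 hne)
    have hj : (c • z) j ≠ 0 := hj
    refine eq_top_iff.2 fun w _ => ⟨fun p => if p.2 = j then w p.1 / (c • z) j else 0, ?_⟩
    ext i
    show ∑ j', (if j' = j then w i / (c • z) j else 0) * (c • z) j' = w i
    simp only [ite_mul, zero_mul, Finset.sum_ite_eq', Finset.mem_univ, if_true]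
    exact div_mul_cancel₀ _ hj
  have h5 : td (adj S (c • z)) l ≤ finrank ℂ (LinearMap.ker φ) := by
    refine (Stab.comap (W := ⊥) (fun D _ w hw => ?_) h3).td_le (funext fun i => ?_)
    · rw [(Submodule.mem_bot ℂ).1 hw, ap_zero]
      exact zero_mem _
    · show (fun j => l (i, j)) ⬝ᵥ (c • z) = 0
      rw [dotProduct_smul, h0 i, smul_zero]
  have h6 := φ.finrank_range_add_finrank_ker
  rw [h4, finrank_top, finrank_fintype_fun_eq_card, finrank_fintype_fun_eq_card,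
    Fintype.card_fin] at h6
  have h7 := td_swap S l (c • z)
  rw [td_of_top hl] at h7
  omega

end gen

end Pool.Agent.MP_429080_ag.H73

/-! Second fundamental forms, charts and the generic configuration. -/

namespace Pool.Agent.MP_429080_ag.H73

open MvPolynomial Module Pool.Agent.EGH Pool.Agent.MP_d171e3_nt Pool.Agent.MP_429080_ag.H26
open Pool.Agent.MP_429080_ag.H26.T

set_option linter.unusedSectionVars false

/-- rational equations of a cone which also give the conormal spaces -/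
structure Gens {τ : Type} [Fintype τ] (S : Set ℂ) (Z : Set (τ → ℂ)) {m : ℕ} (f : Fin m → P τ) :
    Prop where
  ov : ∀ i, Ov (cf S) (f i)
  mem : ∀ i, f i ∈ vI Z
  zero : ∀ y, (∀ i, eval y (f i) = 0) → y ∈ Z
  nm : ∀ y ∈ Z, y ≠ 0 → Nm Z y = Submodule.span ℂ (Set.range fun i => grad (f i) y)

open Classical in
/-- the transpose -/
noncomputable def tr {ρ τ : Type} [Fintype ρ] [Fintype τ] (ψ : (ρ → ℂ) →ₗ[ℂ] (τ → ℂ)) :
    (τ → ℂ) →ₗ[ℂ] (ρ → ℂ) where
  toFun α := fun a => α ⬝ᵥ ψ (Pi.single a 1)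
  map_add' _ _ := by ext a; simp only [add_dotProduct, Pi.add_apply]
  map_smul' _ _ := by ext a; simp

section forms
variable {V : Type} [AddCommGroup V] [Module ℂ V]

abbrev Bil (V : Type) [AddCommGroup V] [Module ℂ V] : Type := V →ₗ[ℂ] V →ₗ[ℂ] ℂ

def Sy (β : Bil V) : Prop := ∀ u v, β u v = β v u

/-- orthogonal complement -/
def orth (β : Bil V) (W : Submodule ℂ V) : Submodule ℂ V where
  carrier := {u | ∀ w ∈ W, β u w = 0}
  zero_mem' := fun _ _ => by simp only [map_zero, LinearMap.zero_apply]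
  add_mem' := fun ha hb w h => by simp [ha w h, hb w h]
  smul_mem' := fun a v hv w h => by simp [hv w h]

theorem mem_orth {β : Bil V} {W : Submodule ℂ V} {u : V} :
    u ∈ orth β W ↔ ∀ w ∈ W, β u w = 0 := Iff.rfl

/-- radical of the restriction to `T` -/
def rad (β : Bil V) (T : Submodule ℂ V) : Submodule ℂ V := T ⊓ orth β T

theorem mem_rad {β : Bil V} {T : Submodule ℂ V} {u : V} :
    u ∈ rad β T ↔ u ∈ T ∧ ∀ w ∈ T, β u w = 0 := Iff.rfl

end forms

section second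
variable {σ : Type} [Fintype σ] {n : ℕ}

/-- the Hessian -/
noncomputable def hb (y : σ → ℂ) : P σ →ₗ[ℂ] Bil (σ → ℂ) where
  toFun G := LinearMap.mk₂ ℂ (fun u v => ∑ i, ∑ j, eval y (pderiv i (pderiv j G)) * u i * v j)
    (fun u u' v => by simp only [Pi.add_apply, mul_add, add_mul, Finset.sum_add_distrib])
    (fun a u v => by simp only [Pi.smul_apply, smul_eq_mul, mul_left_comm, mul_assoc, Finset.mul_sum])
    (fun u v v' => by simp only [Pi.add_apply, mul_add, Finset.sum_add_distrib])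
    (fun a u v => by simp only [Pi.smul_apply, smul_eq_mul, mul_left_comm, Finset.mul_sum])
  map_add' G G' := LinearMap.ext₂ fun u v => by simp only [map_add, add_mul, Finset.sum_add_distrib, LinearMap.mk₂_apply, LinearMap.add_apply]
  map_smul' a G := LinearMap.ext₂ fun u v => by simp only [Derivation.map_smul, smul_eval, mul_assoc, LinearMap.mk₂_apply, RingHom.id_apply, LinearMap.smul_apply, smul_eq_mul, Finset.mul_sum]

theorem hb_apply (y u v : σ → ℂ) (G : P σ) :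
    hb y G u v = ∑ i, ∑ j, eval y (pderiv i (pderiv j G)) * u i * v j := rfl

theorem exists_ch (C : Set (σ → ℂ)) (y : σ → ℂ) : ∃ s : (σ → ℂ) →ₗ[ℂ] P σ,
    ∀ α ∈ Nm C y, s α ∈ vI C ∧ grad (s α) y = α := by
  let W : Submodule ℂ (P σ) := (vI C).restrictScalars ℂ
  let f : W →ₗ[ℂ] (σ → ℂ) := (gradL y).comp W.subtype
  obtain ⟨r, hr⟩ := f.rangeRestrict.exists_rightInverse_of_surjective f.range_rangeRestrict
  obtain ⟨π, hπ⟩ := (LinearMap.range f).subtype.exists_leftInverse_of_injective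
    (Submodule.ker_subtype _)
  refine ⟨W.subtype.comp (r.comp π), fun α hα => ⟨(r (π α)).2, ?_⟩⟩
  obtain ⟨G, hG, rfl⟩ := mem_nm.1 hα
  have h1 : π (grad G y) = ⟨grad G y, ⟨⟨G, hG⟩, rfl⟩⟩ :=
    LinearMap.congr_fun hπ ⟨grad G y, ⟨⟨G, hG⟩, rfl⟩⟩
  have h2 := congrArg Subtype.val (LinearMap.congr_fun hr (π (grad G y)))
  rw [h1] at h2
  simp only [LinearMap.comp_apply, h1]
  exact h2

/-- a linear choice of equations with given gradient -/
noncomputable def ch (C : Set (σ → ℂ)) (y : σ → ℂ) : (σ → ℂ) →ₗ[ℂ] P σ := (exists_ch C y).choose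

theorem ch_spec {C : Set (σ → ℂ)} {y α : σ → ℂ} (h : α ∈ Nm C y) :
    ch C y α ∈ vI C ∧ grad (ch C y α) y = α := (exists_ch C y).choose_spec α h

/-- the second fundamental form -/
noncomputable def II (C : Set (σ → ℂ)) (y : σ → ℂ) : (σ → ℂ) →ₗ[ℂ] Bil (σ → ℂ) :=
  (hb y).comp (ch C y)

theorem II_apply (C : Set (σ → ℂ)) (y α : σ → ℂ) : II C y α = hb y (ch C y α) := rfl

/-- kernel of the second fundamental form in the direction `α` -/
noncomputable def Ky (C : Set (σ → ℂ)) (y α : σ → ℂ) : Submodule ℂ (σ → ℂ) :=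
  rad (II C y α) (tangent C y)

/-- the second fundamental form in a frame -/
noncomputable def BB (C : Set (σ → ℂ)) (x : σ → ℂ) (φ : (Fin n → ℂ) →ₗ[ℂ] (σ → ℂ)) :
    (σ → ℂ) →ₗ[ℂ] (Fin n → ℂ) →ₗ[ℂ] (Fin n → ℂ) :=
  LinearMap.mk₂ ℂ (fun α w j => II C x α (φ w) (φ (Pi.single j 1)))
    (fun _ _ _ => by ext j; simp) (fun _ _ _ => by ext j; simp)
    (fun _ _ _ => by ext j; simp) (fun _ _ _ => by ext j; simp)

theorem BB_apply (C : Set (σ → ℂ)) (x : σ → ℂ) (φ : (Fin n → ℂ) →ₗ[ℂ] (σ → ℂ)) (α : σ → ℂ)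
    (w : Fin n → ℂ) (j : Fin n) : BB C x φ α w j = II C x α (φ w) (φ (Pi.single j 1)) := rfl

/-- points where `h` is conormal -/
def Ct (C : Set (σ → ℂ)) (h y : σ → ℂ) : Prop := y ∈ C ∧ y ≠ 0 ∧ h ∈ Nm C y

/-- a free line along which `h` is conormal -/
structure Tl (C : Set (σ → ℂ)) (c : ℕ) (h x y : σ → ℂ) : Prop where
  sm : Sm C c
  line : ∀ s t : ℂ, s • x + t • y ∈ C
  ind : LinearIndependent ℂ ![x, y]
  free : Free C x
  nx : h ∈ Nm C x
  ns : ∀ s : ℂ, h ∈ Nm C (s • x + y)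

/-- a polynomial matrix evaluated at `y` and applied to `v` -/
noncomputable def mv (τ : σ → σ → P σ) (y v : σ → ℂ) : σ → ℂ := fun s => ∑ t, eval y (τ s t) * v t

/-- a rational chart for the tangent spaces and for the covector `h` -/
structure Cht (C : Set (σ → ℂ)) (S : Set ℂ) (h y₀ : σ → ℂ) {c : ℕ} (G : Fin c → P σ) (δ : P σ)
    (co : Fin c → P σ) (τ : σ → σ → P σ) : Prop where
  mem : ∀ i, G i ∈ vI C
  ovG : ∀ i, Ov (cf S) (G i)
  ovd : Ov (cf S) δ
  ovc : ∀ i, Ov (cf S) (co i)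
  ovt : ∀ s t, Ov (cf S) (τ s t)
  ne : eval y₀ δ ≠ 0
  rep : ∀ y, Ct C h y → eval y δ ≠ 0 → ∑ i, eval y (co i) • grad (G i) y = eval y δ • h
  tan : ∀ y ∈ C, y ≠ 0 → eval y δ ≠ 0 → ∀ v, mv τ y v ∈ tangent C y
  fix : ∀ y ∈ C, y ≠ 0 → ∀ v ∈ tangent C y, mv τ y v = eval y δ • v
  eqn : ∀ y ∈ C, y ≠ 0 → eval y δ ≠ 0 → ∀ v, (∀ i, grad (G i) y ⬝ᵥ v = 0) → v ∈ tangent C y

/-- local equations of the contact locus -/
noncomputable def Psi (h : σ → ℂ) {c : ℕ} (G : Fin c → P σ) (δ : P σ) (co : Fin c → P σ) :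
    σ → P σ := fun s => δ * C (h s) - ∑ i, co i * pderiv s (G i)

/-- the matrix of the second fundamental form in a chart -/
noncomputable def Qm {c : ℕ} (G : Fin c → P σ) (co : Fin c → P σ) (τ : σ → σ → P σ) :
    Matrix σ σ (P σ) := fun s t =>
  ∑ i, ∑ a, ∑ b, co i * pderiv a (pderiv b (G i)) * τ a s * τ b t

end second

section schur
variable {σ : Type} [Fintype σ]

/-- a matrix as a bilinear form -/
def bf {R : Type} [CommRing R] (M : Matrix σ σ R) (v w : σ → R) : R := ∑ s, ∑ t, v s * M s t * w t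

noncomputable def pe (u : σ → Polynomial ℂ) (s : ℂ) : σ → ℂ := fun i => (u i).eval s

end schur

/-- a generic point, a generic line through it and a generic hyperplane tangent along the line -/
structure Cf (σ : Type) [Fintype σ] (n c k : ℕ) where
  C : Set (σ → ℂ)
  S : Set ℂ
  m : ℕ
  G : Fin m → P σ
  x : σ → ℂ
  φ : (Fin n → ℂ) →ₗ[ℂ] (σ → ℂ)
  z : Fin n → ℂ
  h : σ → ℂ
  ctx : Ctt C x φ c k
  span : Submodule.span ℂ C = ⊤
  spanL : Submodule.span ℂ (tpl C x φ) = ⊤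
  h3 : 3 * k + 2 ≤ n
  cnt : S.Countable
  gens : Gens S C G
  genx : tangent C x ≤ dv S x
  rat : RtL (adj S x) φ
  zmem : z ∈ tpl C x φ
  zne : z ≠ 0
  genz : tangent (tpl C x φ) z ≤ dv (adj S x) z
  hmem : h ∈ Nm C x ⊓ LinearMap.ker ((BB C x φ).flip z)
  hne : h ≠ 0
  genh : Nm C x ⊓ LinearMap.ker ((BB C x φ).flip z) ≤ dv (adj (adj S x) z) h

namespace Cf
variable {σ : Type} [Fintype σ] {n c k : ℕ} (Q : Cf σ n c k)

def Sx : Set ℂ := adj Q.S Q.x
def Sh : Set ℂ := adj Q.S Q.h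
def S1 : Set ℂ := adj (adj Q.S Q.x) Q.h
noncomputable def A : Submodule ℂ (σ → ℂ) := Nm Q.C Q.x
def Z : Set (Fin n → ℂ) := tpl Q.C Q.x Q.φ
noncomputable def B : (σ → ℂ) →ₗ[ℂ] (Fin n → ℂ) →ₗ[ℂ] (Fin n → ℂ) := BB Q.C Q.x Q.φ
noncomputable def K : Submodule ℂ (Fin n → ℂ) := LinearMap.ker (Q.B Q.h)
noncomputable def K0 : Submodule ℂ (σ → ℂ) := Q.A ⊓ LinearMap.ker (Q.B.flip Q.z)
def Pp : Submodule ℂ (σ → ℂ) := dv Q.Sx Q.h
def H : Submodule ℂ (σ → ℂ) := dv Q.S Q.h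
def Lam : Submodule ℂ (σ → ℂ) := ann Q.H
noncomputable def T (w : Fin n → ℂ) : Submodule ℂ (Fin n → ℂ) := tangent Q.Z w
noncomputable def N (w : Fin n → ℂ) : Submodule ℂ (Fin n → ℂ) := Nm Q.Z w
noncomputable def J (w : Fin n → ℂ) : Submodule ℂ (Fin n → ℂ) := (Q.T w).map (Q.B Q.h)
noncomputable def BP (w : Fin n → ℂ) : Submodule ℂ (Fin n → ℂ) := Q.Pp.map (Q.B.flip w)
noncomputable def Kp (y : σ → ℂ) : Submodule ℂ (σ → ℂ) := Ky Q.C y Q.h
noncomputable def e : ℕ := finrank ℂ (Q.J Q.z)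
noncomputable def mu : ℕ := finrank ℂ Q.K0
noncomputable def g : ℕ := c - finrank ℂ Q.Pp
noncomputable def ka : ℕ := k - Q.e
noncomputable def s : ℕ := n - 1 - k - Q.e
noncomputable def ga : ℕ := finrank ℂ Q.K

/-- directions of lines along which `h` is tangent -/
def ZK (w : Fin n → ℂ) : Prop := w ∈ Q.Z ∧ w ∈ Q.K ∧ w ≠ 0

def Good (w : Fin n → ℂ) : Prop := Q.ZK w ∧ finrank ℂ (Q.BP w) = Q.e

def TGood (w : Fin n → ℂ) : Prop := Q.ZK w ∧ finrank ℂ (Q.J w) = Q.e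

/-- points on these lines -/
def Ln (y : σ → ℂ) : Prop := ∃ (a : ℂ) (w : Fin n → ℂ), Q.ZK w ∧ y = a • Q.x + Q.φ w

/-- the derivatives of `K` are isotropic -/
def A0 : Prop :=
  ∀ D ∈ Der Q.Sx, ∀ w ∈ Q.K, ∀ w' ∈ Q.K, Q.B Q.h (ap D w) ⬝ᵥ ap D w' = 0

/-- the component of the contact locus through `x` -/
structure Gam (𝔤 : Ideal (P σ)) : Prop where
  prime : 𝔤.IsPrime
  dim : Q.ga + 1 ≤ dm 𝔤
  ct : ∀ y ∈ vZ 𝔤, y ≠ 0 → Ct Q.C Q.h y
  jet : ∀ α ∈ Q.A, (∀ y ∈ vZ 𝔤, α ⬝ᵥ y = 0) → ∀ w ∈ Q.K, Q.B α w ∈ ann Q.K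

/-- coordinates on `K` and the main component of the lines in `K` -/
structure Sd (ι : (Fin Q.ga → ℂ) →ₗ[ℂ] (Fin n → ℂ)) (𝔰 : Ideal (P (Fin Q.ga))) : Prop where
  inj : Function.Injective ι
  range : LinearMap.range ι = Q.K
  rat : RtL Q.S1 ι
  prime : 𝔰.IsPrime
  hom : HomI (w0 (Fin Q.ga)) 𝔰
  mem : ∀ ζ ∈ vZ 𝔰, ι ζ ∈ Q.Z
  dim : Q.s + 1 ≤ dm 𝔰

end Cf

end Pool.Agent.MP_429080_ag.H73
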