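import Pool.Agent.MP_429080_ag.FR.A

attribute [-instance] ContinuousSemilinearMapClass.toSemilinearMapClass
  RingHomClass.toLinearMapClassNNRat CoalgHomClass.toSemilinearMapClass
  SemilinearIsometryClass.toSemilinearMapClass RingHomClass.toLinearMapClassRat
  instNonUnitalAlgHomClassOfNonUnitalAlgEquivClass NonUnitalNormedRing.toNormedAddCommGroup
  BialgHomClass.toAlgHomClass FunLike.toDecidableEq
  NonUnitalAlgHomClass.instSemilinearMapClassOfNonUnitalAlgSemiHomClassToMonoidHomRingHom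
  AlgHomClass.linearMapClass instCoeTCOfCoe NonUnitalAlgHomClass.toNonUnitalRingHomClass
  instCoeHTCTOfCoeTailOfCoeHTC MulSemiringActionSemiHomClass.toDistribMulActionSemiHomClass
  SemilinearEquivClass.instSemilinearMapClass IsometryClass.instCoeOutIsometryEquiv
  instCoeHTCOfCoeHeadOfCoeOTC MonTypeEquivalenceMon.monMonoid ContDiffMapSupportedInClass.toDFunLike
  TestFunctionClass.toDFunLike NumberField.instFiniteDimensional AlgEquivClass.toAlgHomClass
  Real.instRCLike littleWedderburn SemilatticeInf.toPartialOrder instSMulZeroClass instCoeTOfCoeDep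
  CentroidHomClass.toAddMonoidHomClass LieAdmissibleRing.toNonUnitalNonAssocRing
  LinearOrder.toDecidableEq RingEquivClass.toNonUnitalRingHomClass Submodule.IsLattice.finite
  instCoeTCOfCoe_1 NonUnitalRing.toNonUnitalNonAssocRing
  Group.IsPerfect.subsingleton_of_isMulCommutative MulRingSeminormClass.toMonoidWithZeroHomClass

/-! Hessians of equations along tangent spaces. -/

namespace Pool.Agent.MP_429080_ag.H73

open MvPolynomial Module Pool.Agent.EGH Pool.Agent.MP_d171e3_nt Pool.Agent.MP_429080_ag.H26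
open Pool.Agent.MP_429080_ag.H26.T

set_option linter.unusedSectionVars false

section hess
variable {σ : Type} [Fintype σ] {c : ℕ} {C : Set (σ → ℂ)} {x y u v : σ → ℂ}

theorem hs_apply (y u : σ → ℂ) (f : P σ) (i : σ) : om y u f 1 i = grad (pderiv i f) y ⬝ᵥ u :=
  lp_coeff_one _ _ _

theorem hs_add (y u u' : σ → ℂ) (f : P σ) : om y (u + u') f 1 = om y u f 1 + om y u' f 1 := by
  ext i
  simp only [hs_apply, Pi.add_apply, dotProduct_add]

theorem hs_smul (y u : σ → ℂ) (a : ℂ) (f : P σ) : om y (a • u) f 1 = a • om y u f 1 := by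
  ext i
  simp only [hs_apply, Pi.smul_apply, dotProduct_smul]

theorem hs_zero (y : σ → ℂ) (f : P σ) : om y 0 f 1 = 0 := by
  ext i
  simp only [hs_apply, Pi.zero_apply, dotProduct_zero]

theorem hs_sub (y u u' : σ → ℂ) (f : P σ) : om y (u - u') f 1 = om y u f 1 - om y u' f 1 := by
  ext i
  simp only [hs_apply, Pi.sub_apply, dotProduct_sub]

theorem hs_sub' (y u : σ → ℂ) (f g : P σ) (j : ℕ) : om y u (f - g) j = om y u f j - om y u g j := by
  ext i
  simp [om]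

theorem grad_sub (f g : P σ) (y : σ → ℂ) : grad (f - g) y = grad f y - grad g y :=
  map_sub (gradL y) f g

theorem hs_mul (y u v : σ → ℂ) (f g : P σ) : om y u (f * g) 1 ⬝ᵥ v =
    eval y f * (om y u g 1 ⬝ᵥ v) + eval y g * (om y u f 1 ⬝ᵥ v) +
      grad f y ⬝ᵥ u * (grad g y ⬝ᵥ v) + grad g y ⬝ᵥ u * (grad f y ⬝ᵥ v) := by
  have h : om y u (f * g) 1 = eval y f • om y u g 1 + eval y g • om y u f 1 +
      (grad f y ⬝ᵥ u) • grad g y + (grad g y ⬝ᵥ u) • grad f y := by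
    ext i
    simp only [hs_apply, Derivation.leibniz, smul_eq_mul, grad_add, grad_mul, add_dotProduct,
      smul_dotProduct, Pi.add_apply, Pi.smul_apply]
    simp only [grad]
    ring
  simp only [h, add_dotProduct, smul_dotProduct, smul_eq_mul]

/-- at a smooth point the Hessian of a singular equation vanishes on the tangent space -/
theorem hs_wd' {Z : Set (σ → ℂ)} (hp : (vI Z).IsPrime) (hy : y ∈ Z)
    (hr : Fintype.card σ ≤ dm (vI Z) + finrank ℂ (Nm Z y)) {G : P σ} (hG : G ∈ vI Z)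
    (hs : grad G y = 0) (hu : u ∈ tangent Z y) (hv : v ∈ tangent Z y) : om y u G 1 ⬝ᵥ v = 0 := by
  obtain ⟨f₀, h1, -, h2⟩ :=
    Submodule.exists_fun_fin_finrank_span_eq ℂ {v | ∃ f ∈ vI Z, grad f y = v}
  choose f hf hf' using h1
  have hi : LinearIndependent ℂ fun i => grad (f i) y := (funext hf' : _ = f₀) ▸ h2
  obtain ⟨h, hh, hm⟩ := loc hp (fun g hg => mem_van.1 hg y hy) f hf hi (by
    rw [Fintype.card_fin]; exact hr)
  obtain ⟨a, ha⟩ := (Submodule.mem_span_range_iff_exists_fun _).1 (hm G hG)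
  simp only [smul_eq_mul] at ha
  have hG0 : eval y G = 0 := mem_van.1 hG y hy
  have hf0 : ∀ i, eval y (f i) = 0 := fun i => mem_van.1 (hf i) y hy
  have ha0 : ∀ i, eval y (a i) = 0 := by
    have h1 := congrArg (fun g => grad g y) ha
    simp only [grad_sum, grad_mul, hf0, hG0, hs, zero_smul, smul_zero, add_zero] at h1
    exact Fintype.linearIndependent_iff.1 hi _ h1
  have h3 := congrArg (fun g => om y u g 1 ⬝ᵥ v) ha
  simp only [om_sum, sum_dotProduct, hs_mul, ha0, hf0, hG0, hs,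
    fun i => mem_tangent.1 hu _ (hf i), fun i => mem_tangent.1 hv _ (hf i), zero_dotProduct,
    zero_mul, mul_zero, add_zero, Finset.sum_const_zero] at h3
  exact (mul_eq_zero.1 h3.symm).resolve_left hh

theorem hs_wd (hC : Sm C c) (hy : y ∈ C) (h0 : y ≠ 0) {G : P σ} (hG : G ∈ vI C)
    (hs : grad G y = 0) (hu : u ∈ tangent C y) (hv : v ∈ tangent C y) : om y u G 1 ⬝ᵥ v = 0 :=
  hs_wd' hC.prime hy (by rw [hC.rk y hy h0, hC.dim]) hG hs hu hv

theorem hs_congr (hC : Sm C c) (hy : y ∈ C) (h0 : y ≠ 0) {G G' : P σ} (hG : G ∈ vI C)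
    (hG' : G' ∈ vI C) (hs : grad G y = grad G' y) (hu : u ∈ tangent C y) (hv : v ∈ tangent C y) :
    om y u G 1 ⬝ᵥ v = om y u G' 1 ⬝ᵥ v := by
  have h := hs_wd hC hy h0 (sub_mem hG hG') (by rw [grad_sub, hs, sub_self]) hu hv
  rwa [hs_sub', sub_dotProduct, sub_eq_zero] at h

theorem hs_self (hC : Cn C) {G : P σ} (hG : G ∈ vI C) (hv : v ∈ tangent C y) :
    om y y G 1 ⬝ᵥ v = 0 := by
  have h : ∑ i, lp y y (pderiv i G) * Polynomial.C (v i) = 0 := Polynomial.funext fun t => by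
    rw [grad_line, Polynomial.eval_zero]
    have e : y + t • y = (1 + t) • y := by rw [add_smul, one_smul]
    exact mem_tangent_nm.1 hv _ (gnm_le hC (1 + t) y (e ▸ grad_mem_nm hG _))
  rw [← om_dot, h, Polynomial.coeff_zero]

/-- rescaling of the variables -/
noncomputable def scl (a : ℂ) : P σ →ₐ[ℂ] P σ := aeval fun i => MvPolynomial.C a * X i

theorem eval_scl (a : ℂ) (y : σ → ℂ) (f : P σ) : eval y (scl a f) = eval (a • y) f := by
  rw [scl, gmeet_eval]
  simp only [map_mul, eval_C, eval_X]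
  rfl

theorem pderiv_scl (a : ℂ) (i : σ) (f : P σ) :
    pderiv i (scl a f) = a • scl a (pderiv i f) := by
  classical
  induction f using MvPolynomial.induction_on with
  | C b => simp [scl]
  | add p q hp hq => simp only [map_add, hp, hq, smul_add]
  | mul_X p j hp =>
    have e : scl a (X j : P σ) = MvPolynomial.C a * X j := by simp [scl]
    simp only [map_mul, map_add, e, Derivation.leibniz, hp, smul_eq_mul, pderiv_C, mul_zero,
      add_zero, pderiv_X, Pi.single_apply, smul_add, smul_eq_C_mul]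
    split_ifs <;> simp only [mul_one, map_one, mul_zero, zero_add, map_zero] <;> ring

theorem grad_scl (a : ℂ) (y : σ → ℂ) (f : P σ) : grad (scl a f) y = a • grad f (a • y) := by
  ext i
  simp only [grad, pderiv_scl, smul_eval, eval_scl, Pi.smul_apply, smul_eq_mul]

theorem hs_scl (a : ℂ) (y u : σ → ℂ) (f : P σ) :
    om y u (scl a f) 1 = (a * a) • om (a • y) u f 1 := by
  ext i
  simp only [hs_apply, pderiv_scl, grad_smul, grad_scl, smul_dotProduct, Pi.smul_apply,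
    smul_eq_mul, mul_assoc]

theorem scl_mem (hC : Cn C) (a : ℂ) {G : P σ} (hG : G ∈ vI C) : scl a G ∈ vI C :=
  mem_van.2 fun z hz => by rw [eval_scl, mem_van.1 hG _ (hC.cone a z hz)]

/-- the Hessian at `a • y` against the Hessian at `y` -/
theorem hs_scale (hC : Sm C c) (hy : y ∈ C) (h0 : y ≠ 0) {a : ℂ} (ha : a ≠ 0) {G G' : P σ}
    (hG : G ∈ vI C) (hG' : G' ∈ vI C) (hs : grad G' (a • y) = grad G y) (hu : u ∈ tangent C y)
    (hv : v ∈ tangent C y) : a * (om (a • y) u G' 1 ⬝ᵥ v) = om y u G 1 ⬝ᵥ v := by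
  have h := hs_congr hC hy h0 (scl_mem hC.toCn a hG') (Submodule.smul_of_tower_mem _ a hG)
    (by rw [grad_scl, hs, grad_smul]) hu hv
  rw [hs_scl, om_smul, smul_dotProduct, smul_dotProduct, smul_eq_mul, smul_eq_mul, mul_assoc] at h
  exact mul_left_cancel₀ ha h

end hess

section pencil
variable {σ : Type} [Fintype σ] {c : ℕ} {C : Set (σ → ℂ)} {x y : σ → ℂ}

theorem syz_eps (hC : Sm C c) (hl : ∀ s t : ℂ, s • x + t • y ∈ C) (hi : LinearIndependent ℂ ![x, y])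
    (hf : Free C x) (θ : P σ →ₗ[ℂ] Polynomial ℂ)
    (hθ : ∀ g, ∀ G ∈ vI C, θ (g * G) = lp y x g * θ G) (e : ℕ)
    (hdeg : ∀ d, ∀ G ∈ vI C, G.IsHomogeneous d → ∀ i, d + e ≤ i → (θ G).coeff i = 0) :
    ∃ β : σ → Polynomial ℂ, (∀ i, (β i).natDegree ≤ e) ∧
      ∀ G ∈ vI C, θ G = ∑ i, lp y x (pderiv i G) * β i := by
  obtain ⟨β, hβ⟩ := chart hC (fun u => by simpa [add_comm] using hl u 1) (fun u h => by
    have := (LinearIndependent.pair_iff.1 hi u 1 (by simpa only [one_smul, add_comm] using h)).2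
    exact one_ne_zero this) θ hθ
  obtain ⟨D, hD⟩ : ∃ D, ∀ i, (β i).natDegree ≤ e + D :=
    ⟨Finset.univ.sup fun i => (β i).natDegree, fun i =>
      (Finset.le_sup (f := fun i => (β i).natDegree) (Finset.mem_univ i)).trans
        (Nat.le_add_left _ _)⟩
  induction D generalizing β with
  | zero => exact ⟨β, hD, hβ⟩
  | succ D ih =>
    obtain ⟨b, hb⟩ := hf y (fun t => by simpa using hl 1 t) _
      (gsyz_top (y := y) hC.toCn hD fun d G hG hd => by
        rw [← hβ G hG]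
        exact hdeg _ G hG hd _ (by omega))
    refine ih (fun i => β i - (Polynomial.C ((β i).coeff (e + (D + 1))) * Polynomial.X +
      Polynomial.C (b i)) * Polynomial.X ^ (e + D)) (fun G hG => ?_) fun i => ?_
    · simp only [mul_sub, ← mul_assoc, Finset.sum_sub_distrib]
      rw [← Finset.sum_mul, gsyz_pair hC.toCn hb hG, zero_mul, sub_zero, hβ G hG]
    · refine Polynomial.natDegree_le_iff_coeff_eq_zero.2 fun N hN => ?_
      rw [add_mul, mul_assoc, ← pow_succ', Polynomial.coeff_sub, Polynomial.coeff_add,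
        Polynomial.coeff_C_mul_X_pow, Polynomial.coeff_C_mul_X_pow, if_neg hN.ne', add_zero]
      split_ifs with e'
      · rw [e', add_assoc, sub_self]
      · rw [sub_zero]
        exact Polynomial.coeff_eq_zero_of_natDegree_lt ((hD i).trans_lt (by omega))

theorem pen_top {f : P σ} {d e : ℕ} (hf : f.IsHomogeneous d) {q : Polynomial ℂ}
    (hq : q.natDegree ≤ e) : (lp y x f * q).coeff (d + e) = eval x f * q.coeff e := by
  rw [Polynomial.coeff_mul_add_eq_of_natDegree_le (gtay_deg hf y x) hq,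
    lp_rev hf x y (add_zero d), lp_coeff_zero]

theorem pen_low {f : P σ} {d : ℕ} (hf : f.IsHomogeneous d) (hd : d ≤ 1) (i j : σ) :
    pderiv j (pderiv i f) = 0 := by
  have h : (pderiv i f).IsHomogeneous 0 := by
    have := hf.pderiv (i := i)
    rwa [show d - 1 = 0 by omega] at this
  rw [← totalDegree_zero_iff_isHomogeneous, totalDegree_eq_zero_iff_eq_C] at h
  rw [h, pderiv_C]

/-- the Hessians on two polynomial tangent fields along a free line -/
theorem pencil_core (hC : Sm C c) (hl : ∀ s t : ℂ, s • x + t • y ∈ C)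
    (hi : LinearIndependent ℂ ![x, y]) (hf : Free C x) {v v' : σ → Polynomial ℂ} {e₁ e₂ e : ℕ}
    (he : e₁ + e₂ = e + 1) (hv : ∀ i, (v i).natDegree ≤ e₁) (hv' : ∀ i, (v' i).natDegree ≤ e₂)
    (ht : ∀ s, (fun i => (v i).eval s) ∈ tangent C (y + s • x))
    (ht' : ∀ s, (fun i => (v' i).eval s) ∈ tangent C (y + s • x)) :
    ∃ β : σ → Polynomial ℂ, (∀ i, (β i).natDegree ≤ e) ∧
      (∀ G ∈ vI C, ∀ s, om (y + s • x) (fun i => (v i).eval s) G 1 ⬝ᵥ (fun i => (v' i).eval s) =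
        grad G (y + s • x) ⬝ᵥ fun i => (β i).eval s) ∧
      ∀ G ∈ vI C, om x (fun i => (v i).coeff e₁) G 1 ⬝ᵥ (fun i => (v' i).coeff e₂) =
        grad G x ⬝ᵥ fun i => (β i).coeff e := by
  let θ : P σ →ₗ[ℂ] Polynomial ℂ :=
    { toFun := fun G => ∑ i, ∑ j, lp y x (pderiv j (pderiv i G)) * (v j * v' i)
      map_add' := fun a b => by simp only [map_add, add_mul, Finset.sum_add_distrib]
      map_smul' := fun a b => by simp only [Derivation.map_smul, map_smul, Algebra.smul_mul_assoc, RingHom.id_apply, Finset.smul_sum] }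
  have hθ : ∀ G, θ G = ∑ i, ∑ j, lp y x (pderiv j (pderiv i G)) * (v j * v' i) := fun _ => rfl
  have hev : ∀ G s, (θ G).eval s =
      om (y + s • x) (fun i => (v i).eval s) G 1 ⬝ᵥ (fun i => (v' i).eval s) := fun G s => by
    simp only [hθ, Polynomial.eval_finsetSum, Polynomial.eval_mul, eval_lp, dotProduct, hs_apply,
      grad, Finset.sum_mul, mul_assoc]
  have hm : ∀ s, y + s • x ∈ C := fun s => by simpa [add_comm] using hl s 1
  have hvv : ∀ i j, (v j * v' i).natDegree ≤ e + 1 := fun i j =>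
    Polynomial.natDegree_mul_le.trans (he ▸ add_le_add (hv j) (hv' i))
  obtain ⟨β, hβ, h⟩ := syz_eps hC hl hi hf θ (fun g G hG => Polynomial.funext fun s => by
    rw [Polynomial.eval_mul, hev, hev, hs_mul, eval_lp, mem_van.1 hG _ (hm s),
      mem_tangent.1 (ht s) G hG, mem_tangent.1 (ht' s) G hG]
    ring) e fun d G _ hd i hi => by
      rw [hθ, Polynomial.finsetSum_coeff]
      refine Finset.sum_eq_zero fun a _ => ?_
      rw [Polynomial.finsetSum_coeff]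
      refine Finset.sum_eq_zero fun b _ => ?_
      rcases le_or_gt d 1 with h1 | h1
      · rw [pen_low hd h1, map_zero, zero_mul, Polynomial.coeff_zero]
      · have h2 := gtay_deg ((hd.pderiv (i := a)).pderiv (i := b)) y x
        exact Polynomial.coeff_eq_zero_of_natDegree_lt
          ((Polynomial.natDegree_mul_le.trans (add_le_add h2 (hvv a b))).trans_lt (by omega))
  refine ⟨β, hβ, fun G hG s => ?_, fun G hG => ?_⟩
  · rw [← hev, h G hG]
    simp only [Polynomial.eval_finsetSum, Polynomial.eval_mul, eval_lp, dotProduct, grad]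
  · refine hom_induction hC.toCn.homI (p := fun G => om x (fun i => (v i).coeff e₁) G 1 ⬝ᵥ
      (fun i => (v' i).coeff e₂) = grad G x ⬝ᵥ fun i => (β i).coeff e) ?_ ?_ ?_ G hG
    · simp only [dotProduct, om, map_zero, Polynomial.coeff_zero, zero_mul, Finset.sum_const_zero, grad]
    · intro f g hf hg
      rw [om_add, grad_add, add_dotProduct, add_dotProduct, hf, hg]
    intro F d hG' hd
    have h1 := congrArg (fun q => Polynomial.coeff q (d - 1 + e)) (h F hG')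
    simp only [hθ, Polynomial.finsetSum_coeff, pen_top hd.pderiv (hβ _)] at h1
    simp only [dotProduct, hs_apply, grad, Finset.sum_mul]
    rw [← h1]
    refine Finset.sum_congr rfl fun a _ => Finset.sum_congr rfl fun b _ => ?_
    rcases le_or_gt d 1 with h2 | h2
    · simp only [pen_low hd h2, map_zero, zero_mul, Polynomial.coeff_zero]
    · rw [show d - 1 + e = d - 1 - 1 + (e + 1) by omega, pen_top hd.pderiv.pderiv (hvv a b), ← he,
        Polynomial.coeff_mul_add_eq_of_natDegree_le (hv b) (hv' a), mul_assoc]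

theorem pen_lin (a b : σ → ℂ) : ∃ v : σ → Polynomial ℂ, (∀ i, (v i).natDegree ≤ 1) ∧
    (∀ s, (fun i => (v i).eval s) = s • a + b) ∧ (fun i => (v i).coeff 1) = a :=
  ⟨fun i => Polynomial.C (a i) * Polynomial.X + Polynomial.C (b i),
    fun _ => Polynomial.natDegree_linear_le, fun s => by ext i; simp [mul_comm s],
    by ext i; simp⟩

theorem w0_mem (hC : Cn C) {w : σ → ℂ} (hw : w ∈ W0 C x y) (s : ℂ) :
    w ∈ tangent C (s • x + y) := by
  have h : Pair C x y 0 w := fun t => by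
    rw [zero_add]
    exact Submodule.smul_mem _ _ ((Submodule.mem_iInf _).1 hw t)
  simpa using pair_mem hC h s

/-- PENCIL for two pairs -/
theorem pencil_om (hC : Sm C c) (hl : ∀ s t : ℂ, s • x + t • y ∈ C)
    (hi : LinearIndependent ℂ ![x, y]) (hf : Free C x) {a b a' b' : σ → ℂ} (hp : Pair C x y a b)
    (hp' : Pair C x y a' b') : ∃ β : σ → ℂ, ∀ s : ℂ, ∀ G ∈ vI C, ∀ G' ∈ vI C,
      grad G (s • x + y) = grad G' x → om (s • x + y) (s • a + b) G 1 ⬝ᵥ (s • a' + b') =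
        s * (om x a G' 1 ⬝ᵥ a') + grad G' x ⬝ᵥ β := by
  obtain ⟨v, h1, h2, h3⟩ := pen_lin a b
  obtain ⟨v', h1', h2', h3'⟩ := pen_lin a' b'
  obtain ⟨β, hβ, h, h'⟩ := pencil_core hC hl hi hf (e := 1) rfl h1 h1'
    (fun s => by rw [h2, add_comm y]; exact pair_mem hC.toCn hp s)
    (fun s => by rw [h2', add_comm y]; exact pair_mem hC.toCn hp' s)
  refine ⟨fun i => (β i).coeff 0, fun s G hG G' hG' e => ?_⟩
  have h4 := h G hG s
  have h5 := h' G' hG'
  rw [h2, h2', add_comm y, e] at h4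
  rw [h3, h3'] at h5
  rw [h4, h5, ← smul_eq_mul, ← dotProduct_smul, ← dotProduct_add]
  congr 1
  ext i
  conv_lhs => rw [Polynomial.eq_X_add_C_of_natDegree_le_one (hβ i)]
  simp [mul_comm s]

/-- PENCIL for a constant tangent field -/
theorem pencil_om_w0 (hC : Sm C c) (hl : ∀ s t : ℂ, s • x + t • y ∈ C)
    (hi : LinearIndependent ℂ ![x, y]) (hf : Free C x) {w a b : σ → ℂ} (hw : w ∈ W0 C x y)
    (hp : Pair C x y a b) (s : ℂ) {G G' : P σ} (hG : G ∈ vI C) (hG' : G' ∈ vI C)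
    (e : grad G (s • x + y) = grad G' x) :
    om (s • x + y) w G 1 ⬝ᵥ (s • a + b) = om x w G' 1 ⬝ᵥ a := by
  obtain ⟨v', h1', h2', h3'⟩ := pen_lin a b
  obtain ⟨β, hβ, h, h'⟩ := pencil_core hC hl hi hf (v := fun i => Polynomial.C (w i)) (e₁ := 0)
    (e := 0) rfl (fun i => by simp) h1'
    (fun s => by simpa [add_comm y] using w0_mem hC.toCn hw s)
    (fun s => by rw [h2', add_comm y]; exact pair_mem hC.toCn hp s)
  have h4 := h G hG s
  have h5 := h' G' hG'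
  rw [h2', add_comm y, e] at h4
  rw [h3'] at h5
  simp only [Polynomial.eval_C, Polynomial.coeff_C_zero] at h4 h5
  rw [h4, h5]
  congr 1
  ext i
  conv_lhs => rw [Polynomial.eq_C_of_natDegree_le_zero (hβ i), Polynomial.eval_C]

end pencil

end Pool.Agent.MP_429080_ag.H73

/-! Gram matrices and pencils of bilinear forms. -/

namespace Pool.Agent.MP_429080_ag.H73

open Module Pool.Agent.EGH Pool.Agent.MP_d171e3_nt Pool.Agent.MP_429080_ag.H26
open Pool.Agent.MP_429080_ag.H26.T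

section gram
variable {V : Type} [AddCommGroup V] [Module ℂ V] [Module.Finite ℂ V] {T K : Submodule ℂ V}
  {B : V →ₗ[ℂ] V →ₗ[ℂ] ℂ} {ι : Type} [Fintype ι] [DecidableEq ι]

/-- an invertible Gram matrix bounds the kernel -/
theorem gram_rank (hK : ∀ u ∈ K, u ∈ T ∧ ∀ v ∈ T, B u v = 0) {v : ι → V} (hv : ∀ i, v i ∈ T)
    (hd : (Matrix.of fun i j => B (v i) (v j)).det ≠ 0) :
    finrank ℂ K + Fintype.card ι ≤ finrank ℂ T := by
  let f : V →ₗ[ℂ] (ι → ℂ) := LinearMap.pi fun j => B.flip (v j)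
  have h1 : T.map f = ⊤ := by
    refine eq_top_iff.2 fun w _ => ?_
    obtain ⟨l, hl⟩ := Matrix.vecMul_surjective_iff_isUnit.2
      ((Matrix.isUnit_iff_isUnit_det _).2 hd.isUnit) w
    refine ⟨∑ i, l i • v i, T.sum_mem fun i _ => T.smul_mem _ (hv i), ?_⟩
    rw [← hl]
    ext j
    simp only [f, LinearMap.pi_apply, map_sum, map_smul, LinearMap.flip_apply, smul_eq_mul, Matrix.vecMul, dotProduct, Matrix.of_apply]
  have h2 : K ≤ T ⊓ LinearMap.ker f := fun u hu =>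
    ⟨(hK u hu).1, funext fun j => (hK u hu).2 _ (hv j)⟩
  have h3 := finrank_map_add f T
  have h4 := Submodule.finrank_mono h2
  rw [h1, finrank_top, finrank_fintype_fun_eq_card] at h3
  omega

/-- a symmetric form has an invertible Gram matrix on a complement of its kernel -/
theorem exists_gram (hK : ∀ u, u ∈ K ↔ u ∈ T ∧ ∀ v ∈ T, B u v = 0)
    (hs : ∀ u ∈ T, ∀ v ∈ T, B u v = B v u) : ∃ (r : ℕ) (v : Fin r → V), (∀ i, v i ∈ T) ∧
      finrank ℂ K + r = finrank ℂ T ∧ (Matrix.of fun i j => B (v i) (v j)).det ≠ 0 := by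
  have hKT : K ≤ T := fun u hu => ((hK u).1 hu).1
  obtain ⟨U₀, hU₀⟩ := K.exists_isCompl
  have h1 : K ⊔ U₀ ⊓ T = T := by rw [← sup_inf_assoc_of_le _ hKT, hU₀.sup_eq_top, top_inf_eq]
  have h2 : K ⊓ (U₀ ⊓ T) = ⊥ := by rw [← inf_assoc, hU₀.inf_eq_bot, bot_inf_eq]
  have h3 := Submodule.finrank_sup_add_finrank_inf_eq K (U₀ ⊓ T)
  rw [h1, h2, finrank_bot] at h3
  let b := Module.finBasis ℂ (U₀ ⊓ T : Submodule ℂ V)
  refine ⟨_, fun i => b i, fun i => (b i).2.2, by omega, fun h => ?_⟩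
  obtain ⟨l, hl, h0⟩ := Matrix.exists_vecMul_eq_zero_iff.2 h
  let u : (U₀ ⊓ T : Submodule ℂ V) := ∑ i, l i • b i
  have h4 : ∀ j, B u (b j) = 0 := fun j => by
    have := congrFun h0 j
    simpa only [u, AddSubmonoidClass.coe_finsetSum, SetLike.val_smul, map_sum, map_smul, LinearMap.coe_sum, LinearMap.coe_smul, Finset.sum_apply, Pi.smul_apply, smul_eq_mul, Matrix.vecMul, dotProduct, Matrix.of_apply, Pi.zero_apply] using this
  have h5 : (u : V) ∈ K := (hK _).2 ⟨u.2.2, fun w hw => by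
    rw [← h1] at hw
    obtain ⟨k, hk, w', hw', rfl⟩ := Submodule.mem_sup.1 hw
    have e : w' = ∑ j, b.repr ⟨w', hw'⟩ j • (b j : V) := by
      have := congrArg Subtype.val (b.sum_repr ⟨w', hw'⟩).symm
      rwa [Submodule.coe_sum] at this
    rw [map_add, hs _ u.2.2 k (hKT hk), ((hK k).1 hk).2 _ u.2.2, e, map_sum]
    simp only [map_smul, h4, smul_eq_mul, mul_zero, Finset.sum_const_zero, add_zero]⟩
  have h6 : u = 0 := Subtype.ext ((Submodule.eq_bot_iff _).1 h2 _ ⟨h5, u.2⟩)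
  exact hl (funext (Fintype.linearIndependent_iff.1 b.linearIndependent l h6))

theorem det_pencil {M₀ : Matrix ι ι ℂ} (h : M₀.det ≠ 0) (M₁ : Matrix ι ι ℂ) (s : ℂ) :
    (s • M₀ + M₁).det = M₀.det * (-(M₀⁻¹ * M₁)).charpoly.eval s := by
  rw [Matrix.eval_charpoly, ← Matrix.det_mul, sub_neg_eq_add, mul_add, ← mul_assoc,
    Matrix.mul_nonsing_inv _ h.isUnit, one_mul, Matrix.scalar_apply, ← Matrix.smul_one_eq_diagonal,
    Matrix.mul_smul, mul_one]

theorem pencil_finite {M₀ : Matrix ι ι ℂ} (h : M₀.det ≠ 0) (M₁ : Matrix ι ι ℂ) :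
    {s : ℂ | (s • M₀ + M₁).det = 0}.Finite := by
  refine (Polynomial.finite_setOfPred_isRoot (-(M₀⁻¹ * M₁)).charpoly_monic.ne_zero).subset
    fun s hs => ?_
  rw [Set.mem_ofPred_eq, det_pencil h] at hs
  exact (mul_eq_zero.1 hs).resolve_left h

theorem pencil_root [Nonempty ι] {M₀ : Matrix ι ι ℂ} (h : M₀.det ≠ 0) (M₁ : Matrix ι ι ℂ) :
    ∃ s : ℂ, (s • M₀ + M₁).det = 0 := by
  obtain ⟨s, hs⟩ := IsAlgClosed.exists_root (-(M₀⁻¹ * M₁)).charpoly (by
    rw [Matrix.charpoly_degree_eq_dim]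
    exact_mod_cast Fintype.card_ne_zero)
  exact ⟨s, by rw [det_pencil h, hs.eq_zero, mul_zero]⟩

/-- semicontinuity of the kernel in a pencil -/
theorem sc_lin (hK : ∀ u, u ∈ K ↔ u ∈ T ∧ ∀ v ∈ T, B u v = 0)
    (hs : ∀ u ∈ T, ∀ v ∈ T, B u v = B v u) {T' K' : ℂ → Submodule ℂ V}
    {B' : ℂ → V →ₗ[ℂ] V →ₗ[ℂ] ℂ} (hK' : ∀ s, ∀ u ∈ K' s, u ∈ T' s ∧ ∀ v ∈ T' s, B' s u v = 0)
    (hT : ∀ s, finrank ℂ (T' s) ≤ finrank ℂ T) {R : V → V → Prop} (hR : ∀ a ∈ T, ∃ b, R a b)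
    (hm : ∀ a b, R a b → ∀ s, s • a + b ∈ T' s)
    (hp : ∀ a b a' b', R a b → R a' b' → ∃ β, ∀ s, B' s (s • a + b) (s • a' + b') = s * B a a' + β) :
    {s | finrank ℂ K < finrank ℂ (K' s)}.Finite := by
  obtain ⟨r, a, ha, hr, hd⟩ := exists_gram hK hs
  choose b hb using fun i => hR _ (ha i)
  choose β hβ using fun i j => hp _ _ _ _ (hb i) (hb j)
  refine (pencil_finite hd (Matrix.of β)).subset fun s hs => ?_
  by_contra hne
  have h1 := gram_rank (hK' s) (fun i => hm _ _ (hb i) s) fun h0 => hne (by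
    rw [Set.mem_ofPred_eq, ← h0]
    congr 1
    ext i j
    rw [Matrix.of_apply, hβ]
    rfl)
  have h2 := hT s
  rw [Fintype.card_fin] at h1
  rw [Set.mem_ofPred_eq] at hs
  omega

end gram

end Pool.Agent.MP_429080_ag.H73

/-! The second fundamental form and its behaviour along free lines. -/

namespace Pool.Agent.MP_429080_ag.H73

open MvPolynomial Module Pool.Agent.EGH Pool.Agent.MP_d171e3_nt Pool.Agent.MP_429080_ag.H26
open Pool.Agent.MP_429080_ag.H26.T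

set_option linter.unusedSectionVars false

variable {σ : Type} [Fintype σ] {C : Set (σ → ℂ)} {c n k m : ℕ} {S S' : Set ℂ} {G : Fin m → P σ}
  {D : Dr} {x y y₀ h α p u v : σ → ℂ} {φ : (Fin n → ℂ) →ₗ[ℂ] (σ → ℂ)}

section PartII

theorem hb_om (x a v : σ → ℂ) (f : P σ) : hb x f a v = om x a f 1 ⬝ᵥ v := by
  rw [hb_apply, Finset.sum_comm]
  simp only [dotProduct, hs_apply, grad, Finset.sum_mul]

theorem hb_sy (y : σ → ℂ) (f : P σ) : Sy (hb y f) := fun u v => by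
  rw [hb_om, hb_om, om_symm]

/-- JET: at a smooth point an equation with zero gradient has zero Hessian on the tangent space -/
theorem hess_zero {𝔭 : Ideal (P σ)} (hp : 𝔭.IsPrime) (hy : y ∈ vZ 𝔭)
    (hr : Fintype.card σ ≤ dm 𝔭 + finrank ℂ (Nm (vZ 𝔭) y)) {f : P σ} (hf : f ∈ 𝔭)
    (h0 : grad f y = 0) (hu : u ∈ tangent (vZ 𝔭) y) (hv : v ∈ tangent (vZ 𝔭) y) :
    hb y f u v = 0 := by
  have e : vI (vZ 𝔭) = 𝔭 := IsPrime.vanishingIdeal_zeroLocus 𝔭
  rw [hb_om]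
  exact hs_wd' (by rwa [e]) hy (by rwa [e]) (by rwa [e]) h0 hu hv

theorem II_sy (C : Set (σ → ℂ)) (y α : σ → ℂ) : Sy (II C y α) := hb_sy _ _

theorem II_eq (hC : Sm C c) (hy : y ∈ C) (h0 : y ≠ 0) {f : P σ} (hf : f ∈ vI C)
    (hu : u ∈ tangent C y) (hv : v ∈ tangent C y) : II C y (grad f y) u v = hb y f u v := by
  obtain ⟨h1, h2⟩ := ch_spec (grad_mem_nm hf y)
  rw [II_apply, hb_om, hb_om]
  exact hs_congr hC hy h0 h1 hf h2 hu hv

theorem II_smul (hC : Sm C c) (hy : y ∈ C) (h0 : y ≠ 0) {a : ℂ} (ha : a ≠ 0) (hα : α ∈ Nm C y)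
    (hu : u ∈ tangent C y) (hv : v ∈ tangent C y) : a * II C (a • y) α u v = II C y α u v := by
  obtain ⟨h1, h2⟩ := ch_spec hα
  obtain ⟨h3, h4⟩ := ch_spec ((nm_smul hC.toCn ha y).symm ▸ hα : α ∈ Nm C (a • y))
  rw [II_apply, II_apply, hb_om, hb_om]
  exact hs_scale hC hy h0 ha h1 h3 (h4.trans h2.symm) hu hv

theorem II_self (hC : Sm C c) (hy : y ∈ C) (h0 : y ≠ 0) (hα : α ∈ Nm C y)
    (hv : v ∈ tangent C y) : II C y α y v = 0 := by
  rw [II_apply, hb_om]
  exact hs_self hC.toCn (ch_spec hα).1 hv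

theorem mem_Ky : u ∈ Ky C y α ↔ u ∈ tangent C y ∧ ∀ v ∈ tangent C y, II C y α u v = 0 := Iff.rfl

theorem Ct.smul (hC : Cn C) (hy : Ct C h y) {a : ℂ} (ha : a ≠ 0) : Ct C h (a • y) :=
  ⟨hC.cone a y hy.1, smul_ne_zero ha hy.2.1, (nm_smul hC ha y).symm ▸ hy.2.2⟩

theorem Ky_smul (hC : Sm C c) (hy : Ct C h y) {a : ℂ} (ha : a ≠ 0) :
    Ky C (a • y) h = Ky C y h := by
  ext u
  rw [mem_Ky, mem_Ky, tangent_smul hC.toCn ha]
  refine and_congr_right fun hu => forall₂_congr fun v hv => ?_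
  rw [← II_smul hC hy.1 hy.2.1 ha hy.2.2 hu hv, mul_eq_zero, or_iff_right ha]

theorem self_mem_Ky (hC : Sm C c) (hy : Ct C h y) : y ∈ Ky C y h :=
  ⟨self_mem_tangent hC.toCn hy.1, fun _ hv => II_self hC hy.1 hy.2.1 hy.2.2 hv⟩

theorem tangent_rank (hC : Sm C c) (hy : y ∈ C) (h0 : y ≠ 0) :
    finrank ℂ (tangent C y) + c = Fintype.card σ := by
  rw [← dual_rank C y, hC.rk y hy h0, add_comm]

theorem ann_nm (C : Set (σ → ℂ)) (y : σ → ℂ) : ann (Nm C y) = tangent C y := by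
  ext v
  exact mem_tangent_nm.symm

theorem ann_tangent (C : Set (σ → ℂ)) (y : σ → ℂ) : ann (tangent C y) = Nm C y := by
  rw [← ann_nm, ann_ann]

theorem BB_dot (C : Set (σ → ℂ)) (x : σ → ℂ) (φ : (Fin n → ℂ) →ₗ[ℂ] (σ → ℂ)) (α : σ → ℂ)
    (w w' : Fin n → ℂ) : BB C x φ α w ⬝ᵥ w' = II C x α (φ w) (φ w') := by
  conv_rhs => rw [pi_eq_sum_univ' w']
  simp only [map_sum, map_smul, dotProduct, BB_apply, smul_eq_mul, mul_comm]

theorem BB_tay (H : Ctt C x φ c k) {f : P σ} (hf : f ∈ vI C) (w : Fin n → ℂ) :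
    BB C x φ (grad f x) w = grad (tay x φ 2 f) w := by
  ext j
  rw [BB_apply, II_eq H.sm H.mem H.ne hf (frame_mem H.frame _) (frame_mem H.frame _), hb_om,
    ← grad_tay, dotProduct_single_one]

end PartII

section PartPencil
variable {a b a' b' w : σ → ℂ}

theorem line_ne (hi : LinearIndependent ℂ ![x, y]) (s : ℂ) : s • x + y ≠ 0 := fun e =>
  one_ne_zero (LinearIndependent.pair_iff.1 hi s 1 (by rwa [one_smul])).2

theorem line_mem (hl : ∀ s t : ℂ, s • x + t • y ∈ C) (s : ℂ) : s • x + y ∈ C := by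
  simpa using hl s 1

/-- PENCIL for two pairs -/
theorem pencil (hC : Sm C c) (hl : ∀ s t : ℂ, s • x + t • y ∈ C)
    (hi : LinearIndependent ℂ ![x, y]) (hf : Free C x) (hp : Pair C x y a b)
    (hp' : Pair C x y a' b') : ∃ β : σ → ℂ, ∀ s : ℂ, ∀ α ∈ Nm C x, α ∈ Nm C (s • x + y) →
      II C (s • x + y) α (s • a + b) (s • a' + b') = s * II C x α a a' + α ⬝ᵥ β := by
  obtain ⟨β, hβ⟩ := pencil_om hC hl hi hf hp hp'
  refine ⟨β, fun s α h1 h2 => ?_⟩
  rw [II_apply, II_apply, hb_om, hb_om,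
    hβ s _ (ch_spec h2).1 _ (ch_spec h1).1 ((ch_spec h2).2.trans (ch_spec h1).2.symm),
    (ch_spec h1).2]

/-- PENCIL for a constant tangent field -/
theorem pencil_w0 (hC : Sm C c) (hl : ∀ s t : ℂ, s • x + t • y ∈ C)
    (hi : LinearIndependent ℂ ![x, y]) (hf : Free C x) (hw : w ∈ W0 C x y) (hp : Pair C x y a b)
    (s : ℂ) (h1 : α ∈ Nm C x) (h2 : α ∈ Nm C (s • x + y)) :
    II C (s • x + y) α w (s • a + b) = II C x α w a := by
  rw [II_apply, II_apply, hb_om, hb_om]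
  exact pencil_om_w0 hC hl hi hf hw hp s (ch_spec h2).1 (ch_spec h1).1
    ((ch_spec h2).2.trans (ch_spec h1).2.symm)

/-- SC -/
theorem sc (hC : Sm C c) (hl : ∀ s t : ℂ, s • x + t • y ∈ C) (hi : LinearIndependent ℂ ![x, y])
    (hf : Free C x) (h1 : α ∈ Nm C x) (h2 : ∀ s : ℂ, α ∈ Nm C (s • x + y)) :
    {s : ℂ | finrank ℂ (Ky C x α) < finrank ℂ (Ky C (s • x + y) α)}.Finite := by
  have hx : x ∈ C := by simpa using hl 1 0
  have h0 : x ≠ 0 := fun e => one_ne_zero (LinearIndependent.pair_iff.1 hi 1 0 (by simp [e])).1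
  refine sc_lin (T := tangent C x) (B := II C x α) (T' := fun s => tangent C (s • x + y))
    (B' := fun s => II C (s • x + y) α) (R := Pair C x y) (fun _ => Iff.rfl)
    (fun u _ v _ => II_sy C x α u v) (fun _ _ hu => hu) (fun s => ?_)
    (hf y fun t => by simpa using hl 1 t) (fun a b hp => pair_mem hC.toCn hp)
    fun a b a' b' hp hp' => ?_
  · have e1 := tangent_rank hC hx h0
    have e2 := tangent_rank hC (line_mem hl s) (line_ne hi s)
    omega
  · obtain ⟨β, hβ⟩ := pencil hC hl hi hf hp hp'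
    exact ⟨α ⬝ᵥ β, fun s => hβ s α h1 (h2 s)⟩

end PartPencil

end Pool.Agent.MP_429080_ag.H73

/-! Charts of the conormal bundle, derivations of the Hessian form, negativity. -/

namespace Pool.Agent.MP_429080_ag.H73

open MvPolynomial Module Pool.Agent.EGH Pool.Agent.MP_d171e3_nt Pool.Agent.MP_429080_ag.H26
open Pool.Agent.MP_429080_ag.H26.T

set_option linter.unusedSectionVars false

section chart
variable {σ : Type} [Fintype σ] {c m : ℕ} {Z : Set (σ → ℂ)} {G : Fin m → P σ} {S : Set ℂ}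
  {K : Subfield ℂ} {y y₀ h p u v : σ → ℂ} {D : Dr}

/-- a chart of the conormal bundle: `a` is `δ` times a family dual to the gradients of `g` -/
structure Chart (K : Subfield ℂ) (Z : Set (σ → ℂ)) (g : Fin c → P σ) (δ : P σ)
    (a : Fin c → σ → P σ) : Prop where
  mem : ∀ i, g i ∈ vI Z
  ovg : ∀ i, Ov K (g i)
  ovd : Ov K δ
  ova : ∀ i s, Ov K (a i s)
  dual : ∀ y i j, grad (g j) y ⬝ᵥ ev y (a i) = if i = j then eval y δ else 0

theorem Gens.mem_sp (hg : Gens S Z G) (hs : Sp S y y₀) (hy : y ∈ Z) : y₀ ∈ Z :=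
  hg.zero y₀ fun i => hs _ (hg.ov i) (mem_van.1 (hg.mem i) y hy)

theorem Gens.comb (hg : Gens S Z G) (l : Fin m → ℂ) : ∑ i, l i • G i ∈ vI Z :=
  sum_mem fun i _ => (vI Z).smul_of_tower_mem _ (hg.mem i)

theorem Gens.rep (hg : Gens S Z G) (hy : y ∈ Z) (h0 : y ≠ 0) (hh : h ∈ Nm Z y) :
    ∃ l : Fin m → ℂ, grad (∑ i, l i • G i) y = h := by
  rw [hg.nm y hy h0] at hh
  obtain ⟨l, rfl⟩ := (Submodule.mem_span_range_iff_exists_fun ℂ).1 hh
  exact ⟨l, by simp only [grad_sum, grad_smul]⟩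

theorem Gens.tan (hg : Gens S Z G) (hy : y ∈ Z) (h0 : y ≠ 0) :
    v ∈ tangent Z y ↔ ∀ i, grad (G i) y ⬝ᵥ v = 0 := by
  rw [mem_tangent_nm, hg.nm y hy h0, span_dot, Set.forall_mem_range]

/-- every cone has equations which are rational over a countable extension -/
theorem exists_gens99 (hC : Cn Z) (hS : S.Countable) : ∃ (S' : Set ℂ) (m : ℕ) (G : Fin m → P σ),
    S'.Countable ∧ S ⊆ S' ∧ Gens S' Z G ∧ vI Z = Ideal.span (Set.range G) := by
  obtain ⟨m, G, -, -, hI⟩ := exists_hom_gens hC.homI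
  obtain ⟨S', h1, h2, h3⟩ := exists_ov hS G
  refine ⟨S', m, G, h1, h2, ⟨h3, fun i => hI ▸ Ideal.subset_span ⟨i, rfl⟩, fun y hy => ?_,
    fun y hy _ => nm_gens hI hy⟩, hI⟩
  rw [← hC.closed, hI]
  exact mem_vZ_span.2 (Set.forall_mem_range.2 hy)

theorem chart_ex (hC : Sm Z c) (hg : Gens S Z G) (hy : y₀ ∈ Z) (h0 : y₀ ≠ 0) :
    ∃ (g : Fin c → P σ) (δ : P σ) (a : Fin c → σ → P σ),
      Chart (cf S) Z g δ a ∧ eval y₀ δ ≠ 0 := by
  classical
  have h1 := Submodule.exists_fun_fin_finrank_span_eq ℂ (Set.range fun i => grad (G i) y₀)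
  rw [← hg.nm _ hy h0, hC.rk _ hy h0] at h1
  obtain ⟨f, hf, -, hi⟩ := h1
  choose t ht using hf
  obtain ⟨r, hr⟩ := exists_minor ((funext ht : (fun j => grad (G (t j)) y₀) = f) ▸ hi)
  let M : Matrix (Fin c) (Fin c) (P σ) := Matrix.of fun a b => pderiv (r b) (G (t a))
  have hM : ∀ a b, Ov (cf S) (M a b) := fun a b => (hg.ov _).pderiv _
  refine ⟨fun j => G (t j), M.det, fun i s => ∑ b, if s = r b then M.adjugate b i else 0,
    ⟨fun i => hg.mem _, fun i => hg.ov _, ov_det hM, fun i s => ov_sum fun b _ => ?_,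
      fun y i j => ?_⟩, ?_⟩
  · split_ifs
    exacts [ov_adjugate hM _ _, ov_zero]
  · have h2 := congrArg (fun N => eval y (N j i)) M.mul_adjugate
    simp only [Matrix.mul_apply, map_sum, map_mul, Matrix.smul_apply, Matrix.one_apply,
      smul_eq_mul, mul_ite, mul_one, mul_zero, apply_ite (eval y), map_zero] at h2
    simp only [dotProduct, ev, map_sum, apply_ite (eval y), map_zero, Finset.mul_sum, mul_ite,
      mul_zero, eq_comm (a := i)]
    rw [Finset.sum_comm, ← h2]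
    simp only [Finset.sum_ite_eq', Finset.mem_univ, if_true]
    rfl
  · rw [RingHom.map_det]
    exact hr

variable {g : Fin c → P σ} {δ : P σ} {a : Fin c → σ → P σ}

theorem Chart.mono {K' : Subfield ℂ} (hc : Chart K Z g δ a) (hK : K ≤ K') : Chart K' Z g δ a :=
  ⟨hc.mem, fun i => Ov.mono (hc.ovg i) hK, Ov.mono hc.ovd hK, fun i s => Ov.mono (hc.ova i s) hK,
    hc.dual⟩

theorem Chart.coef (hc : Chart K Z g δ a) (y : σ → ℂ) (l : Fin c → ℂ) (i : Fin c) :
    (∑ j, l j • grad (g j) y) ⬝ᵥ ev y (a i) = eval y δ * l i := by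
  simp only [sum_dotProduct, smul_dotProduct, hc.dual, smul_eq_mul, mul_ite, mul_zero, Finset.sum_ite_eq, Finset.mem_univ, ↓ reduceIte, mul_comm]

theorem Chart.indep (hc : Chart K Z g δ a) (hd : eval y δ ≠ 0) :
    LinearIndependent ℂ fun i => grad (g i) y :=
  Fintype.linearIndependent_iff.2 fun l hl i => by
    have h1 := hc.coef y l i
    rw [hl, zero_dotProduct] at h1
    exact (mul_eq_zero.1 h1.symm).resolve_left hd

theorem Chart.nm_eq (hc : Chart K Z g δ a) (hC : Sm Z c) (hy : y ∈ Z) (hd : eval y δ ≠ 0) :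
    Nm Z y = Submodule.span ℂ (Set.range fun i => grad (g i) y) := by
  refine (Submodule.eq_of_le_of_finrank_le (Submodule.span_le.2 (Set.range_subset_iff.2
    fun i => grad_mem_nm (hc.mem i) y)) ?_).symm
  have h1 := nm_rank_le hC.prime hy
  have h2 := hC.dim
  rw [finrank_span_eq_card (hc.indep hd), Fintype.card_fin]
  omega

/-- coordinates of a conormal vector -/
theorem Chart.rep (hc : Chart K Z g δ a) (hC : Sm Z c) (hy : y ∈ Z) (hd : eval y δ ≠ 0)
    (hh : h ∈ Nm Z y) : eval y δ • h = ∑ i, (h ⬝ᵥ ev y (a i)) • grad (g i) y := by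
  rw [hc.nm_eq hC hy hd] at hh
  obtain ⟨l, rfl⟩ := (Submodule.mem_span_range_iff_exists_fun ℂ).1 hh
  simp only [hc.coef]
  simp only [Finset.smul_sum, mul_smul]

theorem Chart.mem_tangent (hc : Chart K Z g δ a) (hC : Sm Z c) (hy : y ∈ Z) (hd : eval y δ ≠ 0) :
    v ∈ tangent Z y ↔ ∀ i, grad (g i) y ⬝ᵥ v = 0 := by
  rw [mem_tangent_nm, hc.nm_eq hC hy hd, span_dot, Set.forall_mem_range]

/-- the projection onto the tangent space -/
noncomputable def prT (g : Fin c → P σ) (δ : P σ) (a : Fin c → σ → P σ) (y v : σ → ℂ) : σ → ℂ :=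
  eval y δ • v - ∑ i, (grad (g i) y ⬝ᵥ v) • ev y (a i)

theorem Chart.prT_mem (hc : Chart K Z g δ a) (hC : Sm Z c) (hy : y ∈ Z) (hd : eval y δ ≠ 0)
    (v : σ → ℂ) : prT g δ a y v ∈ tangent Z y :=
  (hc.mem_tangent hC hy hd).2 fun j => by
    simp only [prT, dotProduct_sub, dotProduct_smul, smul_eq_mul, mul_comm, dotProduct_sum, hc.dual, mul_ite, zero_mul, Finset.sum_ite_eq', Finset.mem_univ, ↓ reduceIte, sub_self]

theorem Chart.prT_eq (hc : Chart K Z g δ a) (hv : v ∈ tangent Z y) :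
    prT g δ a y v = eval y δ • v := by
  simp only [prT, H26.mem_tangent.1 hv _ (hc.mem _), zero_smul, Finset.sum_const_zero, sub_zero]

theorem prT_sum (g : Fin c → P σ) (δ : P σ) (a : Fin c → σ → P σ) [DecidableEq σ] (y v : σ → ℂ) :
    prT g δ a y v = ∑ t, v t • prT g δ a y (Pi.single t 1) := by
  conv_lhs => rw [pi_eq_sum_univ' v]
  simp only [prT, dotProduct_sum, dotProduct_smul, Finset.smul_sum, smul_sub,
    Finset.sum_sub_distrib, Finset.sum_smul, smul_comm (eval y δ), smul_assoc]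
  rw [Finset.sum_comm]

/-- the projection of a coordinate vector, as a polynomial vector -/
noncomputable def prP (g : Fin c → P σ) (δ : P σ) (a : Fin c → σ → P σ) [DecidableEq σ]
    (t s : σ) : P σ := (if s = t then δ else 0) - ∑ i, pderiv t (g i) * a i s

theorem ev_prP (g : Fin c → P σ) (δ : P σ) (a : Fin c → σ → P σ) [DecidableEq σ] (y : σ → ℂ)
    (t : σ) : ev y (prP g δ a t) = prT g δ a y (Pi.single t 1) := by
  ext s
  simp only [ev, prP, map_sub, apply_ite (eval y), map_zero, map_sum, map_mul, prT, dotProduct_single, grad, mul_one, Pi.sub_apply, Pi.smul_apply, Pi.single_apply, smul_eq_mul, mul_ite, mul_zero, Finset.sum_apply]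

theorem Chart.ov_prP [DecidableEq σ] (hc : Chart K Z g δ a) (t s : σ) : Ov K (prP g δ a t s) := by
  refine ov_sub ?_ (ov_sum fun i _ => ov_mul ((hc.ovg i).pderiv t) (hc.ova i s))
  split_ifs
  exacts [hc.ovd, ov_zero]

/-- a linear form with polynomial coefficients -/
noncomputable def dotP {ρ : Type} (h : σ → ℂ) (q : σ → P ρ) : P ρ := ∑ t, C (h t) * q t

theorem eval_dotP {ρ : Type} (h : σ → ℂ) (q : σ → P ρ) (y : ρ → ℂ) :
    eval y (dotP h q) = h ⬝ᵥ ev y q := by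
  simp only [dotP, map_sum, map_mul, eval_C, dotProduct, ev]

theorem ov_dotP {ρ : Type} {q : σ → P ρ} (hh : ∀ t, h t ∈ K) (hq : ∀ t, Ov K (q t)) :
    Ov K (dotP h q) := ov_sum fun t _ => ov_mul (ov_C (hh t)) (hq t)

/-- the Hessian form as a polynomial in the base point -/
noncomputable def hsP (F : P σ) (u v : σ → ℂ) : P σ :=
  dotP v fun s => dotP u fun t => pderiv t (pderiv s F)

theorem eval_hsP (F : P σ) (u v y : σ → ℂ) : eval y (hsP F u v) = om y u F 1 ⬝ᵥ v := by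
  rw [hsP, eval_dotP, dotProduct_comm]
  congr 1
  ext s
  rw [hs_apply, dotProduct_comm]
  exact eval_dotP _ _ _

theorem ov_hsP {F : P σ} (hF : Ov K F) (hu : ∀ t, u t ∈ K) (hv : ∀ t, v t ∈ K) :
    Ov K (hsP F u v) := ov_dotP hv fun s => ov_dotP hu fun t => (hF.pderiv s).pderiv t

/-- the Hessian form of a conormal vector in a chart -/
theorem Chart.hs (hc : Chart K Z g δ a) (hC : Sm Z c) (hy : y ∈ Z) (h0 : y ≠ 0)
    (hd : eval y δ ≠ 0) {F : P σ} (hF : F ∈ vI Z) (hu : u ∈ tangent Z y) (hv : v ∈ tangent Z y) :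
    eval y δ * (om y u F 1 ⬝ᵥ v) = ∑ i, (grad F y ⬝ᵥ ev y (a i)) * (om y u (g i) 1 ⬝ᵥ v) := by
  have h1 := hs_congr hC hy h0 (G := eval y δ • F) (G' := ∑ i, (grad F y ⬝ᵥ ev y (a i)) • g i)
    ((vI Z).smul_of_tower_mem _ hF)
    (sum_mem fun i _ => (vI Z).smul_of_tower_mem _ (hc.mem i))
    (by simp only [grad_smul, grad_sum]; exact hc.rep hC hy hd (grad_mem_nm hF y)) hu hv
  simpa only [om_smul, om_sum, smul_dotProduct, sum_dotProduct, smul_eq_mul] using h1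

/-- the equations of the contact locus of `h` -/
noncomputable def psi (g : Fin c → P σ) (δ : P σ) (a : Fin c → σ → P σ) (h : σ → ℂ) (s : σ) :
    P σ := C (h s) * δ - ∑ i, dotP h (a i) * pderiv s (g i)

theorem ev_psi (g : Fin c → P σ) (δ : P σ) (a : Fin c → σ → P σ) (h y : σ → ℂ) :
    ev y (psi g δ a h) = eval y δ • h - ∑ i, (h ⬝ᵥ ev y (a i)) • grad (g i) y := by
  ext s
  simp only [ev, psi, mul_comm, map_sub, map_mul, eval_C, map_sum, eval_dotP, Pi.sub_apply, Pi.smul_apply, smul_eq_mul, Finset.sum_apply, grad]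

theorem Chart.ov_psi (hc : Chart K Z g δ a) (hh : ∀ t, h t ∈ K) (s : σ) :
    Ov K (psi g δ a h s) :=
  ov_sub (ov_mul (ov_C (hh s)) hc.ovd)
    (ov_sum fun i _ => ov_mul (ov_dotP hh (hc.ova i)) ((hc.ovg i).pderiv s))

theorem Chart.psi_zero (hc : Chart K Z g δ a) (hC : Sm Z c) (hy : y ∈ Z) (hd : eval y δ ≠ 0)
    (hh : h ∈ Nm Z y) (s : σ) : eval y (psi g δ a h s) = 0 :=
  congrFun ((ev_psi g δ a h y).trans (sub_eq_zero.2 (hc.rep hC hy hd hh))) s

theorem Chart.of_psi (hc : Chart K Z g δ a) (hd : eval y δ ≠ 0)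
    (hs : ∀ s, eval y (psi g δ a h s) = 0) : h ∈ Nm Z y := by
  have h1 : ev y (psi g δ a h) = 0 := funext hs
  rw [ev_psi, sub_eq_zero] at h1
  rw [← inv_smul_smul₀ hd h, h1]
  exact Submodule.smul_mem _ _
    (sum_mem fun i _ => Submodule.smul_mem _ _ (grad_mem_nm (hc.mem i) y))

/-- KER -/
theorem Chart.ker (hc : Chart K Z g δ a) (hC : Sm Z c) (hy : y ∈ Z) (h0 : y ≠ 0)
    (hd : eval y δ ≠ 0) {F : P σ} (hF : F ∈ vI Z) (hp : p ∈ tangent Z y)
    (hs : ∀ s, grad (psi g δ a (grad F y) s) y ⬝ᵥ p = 0) (hv : v ∈ tangent Z y) :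
    om y p F 1 ⬝ᵥ v = 0 := by
  refine (mul_eq_zero.1 ((hc.hs hC hy h0 hd hF hp hv).trans ?_)).resolve_left hd
  have h1 : ∀ s, grad (psi g δ a (grad F y) s) y ⬝ᵥ p = (grad δ y ⬝ᵥ p) * grad F y s -
      ∑ i, ((grad F y ⬝ᵥ ev y (a i)) * om y p (g i) 1 s +
        (grad (dotP (grad F y) (a i)) y ⬝ᵥ p) * grad (g i) y s) := fun s => by
    rw [psi, grad_sub, ← smul_eq_C_mul, grad_smul, grad_sum, sub_dotProduct, smul_dotProduct,
      sum_dotProduct, smul_eq_mul, mul_comm]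
    congr 1
    refine Finset.sum_congr rfl fun i _ => ?_
    rw [grad_mul, add_dotProduct, smul_dotProduct, smul_dotProduct, eval_dotP, hs_apply,
      smul_eq_mul, smul_eq_mul, mul_comm (eval y _)]
    rfl
  have h2 : (grad δ y ⬝ᵥ p) • grad F y - ∑ i, ((grad F y ⬝ᵥ ev y (a i)) • om y p (g i) 1 +
      (grad (dotP (grad F y) (a i)) y ⬝ᵥ p) • grad (g i) y) = 0 := by
    ext s
    simpa only [Pi.sub_apply, Pi.smul_apply, Finset.sum_apply, Pi.add_apply, smul_eq_mul,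
      Pi.zero_apply] using (h1 s).symm.trans (hs s)
  have h3 := congrArg (· ⬝ᵥ v) h2
  simpa only [sub_dotProduct, smul_dotProduct, H26.mem_tangent.1 hv _ hF, smul_eq_mul, mul_zero, sum_dotProduct, add_dotProduct, H26.mem_tangent.1 hv _ (hc.mem _), add_zero, zero_sub, zero_dotProduct, neg_eq_zero] using h3

/-- conormality of a rational vector is preserved by specialisation -/
theorem sp_nm (hC : Sm Z c) (hg : Gens S Z G)
    (hs : Sp S y y₀) (hy : y ∈ Z) (h0 : y₀ ≠ 0) (hr : Rt S h) (hh : h ∈ Nm Z y) :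
    h ∈ Nm Z y₀ := by
  obtain ⟨g, δ, a, hc, hd⟩ := chart_ex hC hg (hg.mem_sp hs hy) h0
  exact hc.of_psi hd fun s => hs _ (hc.ov_psi hr s) (hc.psi_zero hC hy (hs.ne hc.ovd hd) hh s)

/-- tangency of a rational vector is preserved by specialisation -/
theorem sp_ne (hs : Sp S y y₀) (h0 : y₀ ≠ 0) : y ≠ 0 :=
  fun h1 => h0 ((hs.eq_of_rt fun _ => h1 ▸ zero_mem _).trans h1)

theorem sp_tangent (hg : Gens S Z G) (hs : Sp S y y₀) (hy : y ∈ Z) (h0 : y₀ ≠ 0) (hr : Rt S p)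
    (hp : p ∈ tangent Z y) : p ∈ tangent Z y₀ := by
  refine (hg.tan (hg.mem_sp hs hy) h0).2 fun i => ?_
  have e : ∀ w, eval w (dotP p fun t => pderiv t (G i)) = grad (G i) w ⬝ᵥ p := fun w =>
    (eval_dotP _ _ _).trans (dotProduct_comm _ _)
  exact (e _).symm.trans (hs _ (ov_dotP hr fun t => (hg.ov i).pderiv t)
    ((e _).trans (H26.mem_tangent.1 hp _ (hg.mem i))))

/-- vanishing of the Hessian form on rational vectors is preserved by specialisation -/
theorem sp_hs (hC : Sm Z c) (hg : Gens S Z G)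
    (hs : Sp S y y₀) (hy : y ∈ Z) (h0 : y₀ ≠ 0) (hr : Rt S h) (hp : Rt S p) {F F₀ : P σ}
    (hF : F ∈ vI Z) (hF₀ : F₀ ∈ vI Z) (e : grad F y = h) (e₀ : grad F₀ y₀ = h)
    (hpt : p ∈ tangent Z y) (hk : ∀ v ∈ tangent Z y, om y p F 1 ⬝ᵥ v = 0)
    (hv : v ∈ tangent Z y₀) : om y₀ p F₀ 1 ⬝ᵥ v = 0 := by
  classical
  have hy₀ := hg.mem_sp hs hy
  have h1 : y ≠ 0 := sp_ne hs h0
  obtain ⟨g, δ, a, hc, hd⟩ := chart_ex hC hg hy₀ h0
  have hd' := hs.ne hc.ovd hd
  have hp₀ := sp_tangent hg hs hy h0 hp hpt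
  let A : σ → P σ := fun t => ∑ i, dotP h (a i) *
    ∑ s, (dotP p fun r => pderiv r (pderiv s (g i))) * prP g δ a t s
  have hA : ∀ t w, eval w (A t) =
      ∑ i, (h ⬝ᵥ ev w (a i)) * (om w p (g i) 1 ⬝ᵥ prT g δ a w (Pi.single t 1)) := fun t w => by
    simp only [A, map_sum, map_mul, eval_dotP, ← ev_prP]
    refine Finset.sum_congr rfl fun i _ => congrArg _ (Finset.sum_congr rfl fun s _ => ?_)
    rw [hs_apply, dotProduct_comm]
    rfl
  have h2 : ∀ t, om y₀ p F₀ 1 ⬝ᵥ prT g δ a y₀ (Pi.single t 1) = 0 := fun t => by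
    refine (mul_eq_zero.1 ?_).resolve_left hd
    rw [hc.hs hC hy₀ h0 hd hF₀ hp₀ (hc.prT_mem hC hy₀ hd _), e₀, ← hA]
    refine hs _ (ov_sum fun i _ => ov_mul (ov_dotP hr (hc.ova i)) (ov_sum fun s _ => ov_mul
      (ov_dotP hp fun r => ((hc.ovg i).pderiv s).pderiv r) (hc.ov_prP t s))) ?_
    rw [hA, ← e, ← hc.hs hC hy h1 hd' hF hpt (hc.prT_mem hC hy hd' _),
      hk _ (hc.prT_mem hC hy hd' _), mul_zero]
  refine (mul_eq_zero.1 ?_).resolve_left hd
  rw [← smul_eq_mul, ← dotProduct_smul, ← hc.prT_eq hv, prT_sum, dotProduct_sum]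
  simp only [dotProduct_smul, h2, smul_zero, Finset.sum_const_zero]

/-- KER for tangent vectors of a subvariety of the contact locus -/
theorem ker_tangent (hC : Sm Z c) {𝔤 : Ideal (P σ)} (hg : 𝔤.IsPrime)
    (hl : ∀ w ∈ vZ 𝔤, w ≠ 0 → w ∈ Z ∧ h ∈ Nm Z w) (hy : y ∈ vZ 𝔤) (h0 : y ≠ 0)
    (hp : p ∈ tangent (vZ 𝔤) y) {F : P σ} (hF : F ∈ vI Z) (e : grad F y = h) :
    p ∈ tangent Z y ∧ ∀ v ∈ tangent Z y, om y p F 1 ⬝ᵥ v = 0 := by
  obtain ⟨S, m, G, -, -, hG, -⟩ := exists_gens99 hC.toCn Set.countable_empty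
  obtain ⟨g, δ, a, hc, hd⟩ := chart_ex hC hG (hl y hy h0).1 h0
  obtain ⟨j, hj⟩ := Function.ne_iff.1 h0
  have hn : δ * X j ∉ 𝔤 := fun hn => mul_ne_zero hd hj (by simpa only [mul_eq_zero, map_mul, eval_X] using mem_vZ.1 hy _ hn)
  have h1 : ∀ f, (∀ w ∈ Z, h ∈ Nm Z w → eval w δ ≠ 0 → eval w f = 0) → grad f y ⬝ᵥ p = 0 :=
    fun f hf => H26.mem_tangent.1 hp f (by
      rw [vI_vZ hg]
      refine mem_of_vanish hg hn fun w hw h2 => ?_
      rw [map_mul, eval_X] at h2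
      have h3 := hl w hw fun h4 => right_ne_zero_of_mul h2 (by rw [h4]; rfl)
      exact hf w h3.1 h3.2 (left_ne_zero_of_mul h2))
  have h2 : p ∈ tangent Z y := H26.mem_tangent.2 fun f hf => h1 f fun w hw _ _ => mem_van.1 hf w hw
  subst e
  exact ⟨h2, fun v hv => hc.ker hC (hl y hy h0).1 h0 hd hF h2
    (fun s => h1 _ fun w hw h3 h4 => hc.psi_zero hC hw h4 h3 s) hv⟩

theorem sec_quot {F : P σ} (hF : Ov K F) (hp : ∀ t, p t ∈ K) : ∃ R : P (σ ⊕ Unit), Ov K R ∧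
    (∀ (w : σ → ℂ) (t : ℂ), eval (w + t • p) F = eval w F + t * eval (Sum.elim w fun _ => t) R) ∧
    ∀ w : σ → ℂ, eval (Sum.elim w fun _ => 0) R = grad F w ⬝ᵥ p := by
  obtain ⟨f, rfl⟩ := ov_iff.1 hF
  clear hF
  induction f using MvPolynomial.induction_on with
  | C a => exact ⟨0, ov_zero, fun w t => by simp only [map_C, Subfield.subtype_apply, eval_C, map_zero, mul_zero, add_zero], fun w => by simp only [map_zero, dotProduct, grad, map_C, Subfield.subtype_apply, derivation_C, zero_mul, Finset.sum_const_zero]⟩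
  | add f f' h h' =>
    obtain ⟨R, h0, h1, h2⟩ := h
    obtain ⟨R', h0', h1', h2'⟩ := h'
    refine ⟨R + R', ov_add h0 h0', fun w t => ?_, fun w => ?_⟩
    · rw [map_add, map_add, map_add, map_add, h1, h1']
      ring
    · rw [map_add, map_add, grad_add, add_dotProduct, h2, h2']
  | mul_X f i h =>
    obtain ⟨R, h0, h1, h2⟩ := h
    refine ⟨R * (X (Sum.inl i) + X (Sum.inr ()) * C (p i)) +
      rename Sum.inl (map K.subtype f) * C (p i), ov_add (ov_mul h0 (ov_add (ov_X' _)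
        (ov_mul (ov_X' _) (ov_C (hp i))))) (ov_mul (ov_rename _ (ov_iff.2 ⟨f, rfl⟩))
        (ov_C (hp i))), fun w t => ?_, fun w => ?_⟩
    · simp only [map_add, map_mul, map_X, eval_rename, eval_X, eval_C, h1, Pi.add_apply,
        Pi.smul_apply, smul_eq_mul, Sum.elim_inl, Sum.elim_inr, Sum.elim_comp_inl]
      ring
    · simp only [map_add, map_mul, map_X, eval_rename, eval_X, eval_C, h2, grad_mul,
        add_dotProduct, smul_dotProduct, gzak_grad_X, smul_eq_mul, Sum.elim_inl, Sum.elim_inr,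
        Sum.elim_comp_inl]
      ring

/-- the secant limit -/
theorem secant {t : ℂ} (ht : t ≠ 0) (hs : Sp S (Sum.elim y fun _ : Unit => t)
    (Sum.elim y₀ fun _ => 0)) (hp : Rt S p) {F : P σ} (hF : Ov (cf S) F) (h1 : eval y F = 0)
    (h2 : eval (y + t • p) F = 0) : grad F y₀ ⬝ᵥ p = 0 := by
  obtain ⟨R, h3, h4, h5⟩ := sec_quot hF hp
  rw [h4, h1, zero_add] at h2
  exact (h5 _).symm.trans (hs _ h3 ((mul_eq_zero.1 h2).resolve_left ht))

theorem sp_shift {t : ℂ} (hs : Sp S (Sum.elim y fun _ : Unit => t) (Sum.elim y₀ fun _ => 0))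
    (hp : Rt S p) : Sp S (y + t • p) y₀ := by
  have h1 := hs.ev (s := fun i => X (Sum.inl i) + X (Sum.inr ()) * C (p i))
    fun i => ov_add (ov_X' _) (ov_mul (ov_X' _) (ov_C (hp i)))
  convert h1 using 1 <;> ext i <;> simp [ev]

/-- KER for a secant limit -/
theorem ker_secant (hC : Sm Z c) (hg : Gens S Z G) {t : ℂ} (ht : t ≠ 0)
    (hs : Sp S (Sum.elim y fun _ : Unit => t) (Sum.elim y₀ fun _ => 0)) (h0 : y₀ ≠ 0)
    (hr : Rt S h) (hp : Rt S p) (hy : y ∈ Z) (hh : h ∈ Nm Z y) (hy' : y + t • p ∈ Z)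
    (hh' : h ∈ Nm Z (y + t • p)) :
    y₀ ∈ Z ∧ h ∈ Nm Z y₀ ∧ p ∈ tangent Z y₀ ∧
      ∀ F ∈ vI Z, grad F y₀ = h → ∀ v ∈ tangent Z y₀, om y₀ p F 1 ⬝ᵥ v = 0 := by
  have h1 : Sp S y y₀ := hs.comp Sum.inl
  have h2 := hg.mem_sp h1 hy
  obtain ⟨g, δ, a, hc, hd⟩ := chart_ex hC hg h2 h0
  have h3 : p ∈ tangent Z y₀ := (hc.mem_tangent hC h2 hd).2 fun i =>
    secant ht hs hp (hc.ovg i) (mem_van.1 (hc.mem i) _ hy) (mem_van.1 (hc.mem i) _ hy')
  refine ⟨h2, sp_nm hC hg h1 hy h0 hr hh, h3, fun F hF e v hv => ?_⟩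
  subst e
  exact hc.ker hC h2 h0 hd hF h3 (fun s => secant ht hs hp (hc.ov_psi hr s)
    (hc.psi_zero hC hy (h1.ne hc.ovd hd) hh s)
    (hc.psi_zero hC hy' ((sp_shift hs hp).ne hc.ovd hd) hh' s)) hv

theorem ne_of_td {ι : Type} [Fintype ι] {ξ : ι → ℂ} (h : 1 ≤ td S ξ) : ξ ≠ 0 := by
  rintro rfl
  rw [(td_eq_zero (ξ := 0)).2 fun _ => zero_mem _] at h
  exact absurd h (by norm_num)

/-- NEG -/
theorem neg_om (hS : S.Countable) (hC : Sm Z c) (hg : Gens S Z G) (hy : y ∈ Z) (htd : 2 ≤ td S y) {F : P σ} (hF : F ∈ vI Z)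
    (hr : Rt S (grad F y)) (hp : Rt S p) (hpt : p ∈ tangent Z y) : om y p F 1 ⬝ᵥ p = 0 := by
  by_contra hn
  obtain ⟨t, y₀, ht, h1, hs⟩ := spec_td hS y (om y p F 1 ⬝ᵥ p)⁻¹ (d := 1) htd
  have h0 : y ≠ 0 := ne_of_td (le_trans one_le_two htd)
  have h2 : Sp S (t • y) y₀ := hs.comp Sum.inl
  have h3 := hC.cone t y hy
  obtain ⟨g, δ, a, hc, hd⟩ := chart_ex hC hg (hg.mem_sp h2 h3) (ne_of_td h1)
  obtain ⟨F', hF', e⟩ := mem_nm.1 ((nm_smul hC.toCn ht y).ge (grad_mem_nm hF y))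
  have h4 := (tangent_smul hC.toCn ht y).ge hpt
  have h5 := hc.hs hC h3 (smul_ne_zero ht h0) (h2.ne hc.ovd hd) hF' h4 h4
  have h6 := hs_scale hC hy h0 ht hF hF' e hpt hpt
  have h7 := hs.eval_eq (f := rename Sum.inl δ) (g := X (Sum.inr ()) *
    rename Sum.inl (∑ i, dotP (grad F y) (a i) * hsP (g i) p p)) (ov_rename _ hc.ovd)
    (ov_mul (ov_X' _) (ov_rename _ (ov_sum fun i _ =>
      ov_mul (ov_dotP hr (hc.ova i)) (ov_hsP (hc.ovg i) hp hp)))) (by
    simp only [map_mul, eval_rename, eval_X, Sum.elim_inr, Sum.elim_comp_inl, map_sum, eval_dotP,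
      eval_hsP]
    rw [← e, ← h5, ← h6]
    have h8 : om (t • y) p F' 1 ⬝ᵥ p ≠ 0 := fun h => hn (by rw [← h6, h, mul_zero])
    field_simp)
  exact hd (by simpa only [eval_rename, Sum.elim_comp_inl, map_sum, map_mul, eval_X, Sum.elim_inr, zero_mul] using h7)

/-- DER, first part -/
theorem der_mem (hg : Gens S Z G) (hD : D ∈ Der S) (hy : y ∈ Z) (h0 : y ≠ 0) :
    ap D y ∈ tangent Z y := (hg.tan hy h0).2 fun i => by
  rw [← ap_eval hD (hg.ov i), mem_van.1 (hg.mem i) y hy, map_zero]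

/-- DER, second part -/
theorem der_om (hC : Sm Z c) (hg : Gens S Z G) (hD : D ∈ Der S) (hy : y ∈ Z) (h0 : y ≠ 0)
    {F : P σ} (hF : F ∈ vI Z) (hu : u ∈ tangent Z y) :
    ap D (grad F y) ⬝ᵥ u = om y (ap D y) F 1 ⬝ᵥ u := by
  obtain ⟨l, hl⟩ := hg.rep hy h0 (grad_mem_nm hF y)
  rw [← hs_congr hC hy h0 (hg.comb l) hF hl (der_mem hg hD hy h0) hu, ← hl]
  refine (der_grad hg.ov (toK D hD) l u).trans ?_
  rw [H26.mem_tangent.1 hu _ (hg.comb _), zero_add]
  rfl

theorem Gens.stab_nm (hg : Gens S Z G) (hy : y ∈ Z) (h0 : y ≠ 0) (hr : Rt S y) :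
    Stab S (Nm Z y) := by
  rw [hg.nm y hy h0]
  exact stab_span (Set.forall_mem_range.2 fun i s => ov_eval ((hg.ov i).pderiv s) hr)

theorem tangent_eq_ann (Z : Set (σ → ℂ)) (y : σ → ℂ) : tangent Z y = ann (Nm Z y) :=
  Submodule.ext fun _ => mem_tangent_nm

theorem Gens.stab_tangent (hg : Gens S Z G) (hy : y ∈ Z) (h0 : y ≠ 0) (hr : Rt S y) :
    Stab S (tangent Z y) := tangent_eq_ann Z y ▸ (hg.stab_nm hy h0 hr).ann

theorem ap_om {F : P σ} (hF : Ov (cf S) F) (hD : D ∈ Der S) (hy : ap D y = 0) (u : σ → ℂ) :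
    ap D (om y u F 1) = om y (ap D u) F 1 := by
  ext s
  rw [ap_apply, hs_apply, hs_apply, ap_dot]
  have h1 : ap D (grad (pderiv s F) y) = 0 := funext fun t =>
    (ap_eval hD ((hF.pderiv s).pderiv t) y).trans (by rw [hy, dotProduct_zero]; rfl)
  rw [h1, zero_dotProduct, zero_add]

/-- DER, third part: at a rational point a derivation is a derivation of the Hessian form -/
theorem der_om3 (hC : Sm Z c) (hg : Gens S Z G) (hD : D ∈ Der S) (hy : y ∈ Z) (h0 : y ≠ 0)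
    (hr : Rt S y) {F F' : P σ} (hF : F ∈ vI Z) (hF' : F' ∈ vI Z)
    (e : grad F' y = ap D (grad F y)) (hu : u ∈ tangent Z y) (hv : v ∈ tangent Z y) :
    D (om y u F 1 ⬝ᵥ v) =
      om y u F' 1 ⬝ᵥ v + om y (ap D u) F 1 ⬝ᵥ v + om y u F 1 ⬝ᵥ ap D v := by
  have hT := hg.stab_tangent hy h0 hr D hD
  obtain ⟨l, hl⟩ := hg.rep hy h0 (grad_mem_nm hF y)
  have hl' : grad (∑ i, D (l i) • G i) y = grad F' y := by
    rw [e, ← hl]
    simp only [grad_sum, grad_smul, ap_sum, ap_smul]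
    refine Finset.sum_congr rfl fun i _ => ?_
    rw [Rt.ap (ξ := grad (G i) y) (fun s => ov_eval ((hg.ov i).pderiv s) hr) hD,
      smul_zero, zero_add]
  rw [← hs_congr hC hy h0 (hg.comb l) hF hl hu hv,
    ← hs_congr hC hy h0 (hg.comb l) hF hl (hT u hu) hv,
    ← hs_congr hC hy h0 (hg.comb l) hF hl hu (hT v hv),
    ← hs_congr hC hy h0 (hg.comb _) hF' hl' hu hv, ap_dot]
  simp only [om_sum, om_smul, ap_sum, ap_smul, ap_om (hg.ov _) hD (hr.ap hD),
    Finset.sum_add_distrib, add_dotProduct]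
  ring

end chart

end Pool.Agent.MP_429080_ag.H73

/-! The second fundamental form: derivations, charts, negativity. -/

namespace Pool.Agent.MP_429080_ag.H73

open MvPolynomial Module Pool.Agent.EGH Pool.Agent.MP_d171e3_nt Pool.Agent.MP_429080_ag.H26
open Pool.Agent.MP_429080_ag.H26.T

set_option linter.unusedSectionVars false

variable {σ : Type} [Fintype σ] {C : Set (σ → ℂ)} {c n k m : ℕ} {S S' : Set ℂ} {G : Fin m → P σ}
  {D : Dr} {x y y₀ h α p u v : σ → ℂ} {φ : (Fin n → ℂ) →ₗ[ℂ] (σ → ℂ)}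

section PartDer

theorem II_om (C : Set (σ → ℂ)) (y α u v : σ → ℂ) :
    II C y α u v = om y u (ch C y α) 1 ⬝ᵥ v := hb_om _ _ _ _

theorem Gens.mono (hg : Gens S C G) (hS : S ⊆ cf S') : Gens S' C G :=
  ⟨fun i => Ov.mono (hg.ov i) (cf_mono hS), hg.mem, hg.zero, hg.nm⟩

theorem Gens.mono' (hg : Gens S C G) (hS : S ⊆ S') : Gens S' C G := hg.mono (hS.trans subset_cf)

theorem Gens.sp (hg : Gens S C G) (hs : Sp S y y₀) (hy : y ∈ C) : y₀ ∈ C :=
  hg.zero y₀ fun i => hs _ (hg.ov i) (mem_van.1 (hg.mem i) y hy)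

theorem der_tan (hg : Gens S C G) (hD : D ∈ Der S) (hy : y ∈ C) (h0 : y ≠ 0) :
    ap D y ∈ tangent C y := der_mem hg hD hy h0

theorem dv_le_tangent (hg : Gens S C G) (hy : y ∈ C) (h0 : y ≠ 0) : dv S y ≤ tangent C y := by
  rintro _ ⟨D, hD, rfl⟩
  exact der_tan hg hD hy h0

/-- DER -/
theorem der1 (hC : Sm C c) (hg : Gens S C G) (hD : D ∈ Der S) (hy : y ∈ C) (h0 : y ≠ 0)
    (hα : α ∈ Nm C y) (hu : u ∈ tangent C y) : ap D α ⬝ᵥ u = II C y α (ap D y) u := by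
  have h1 := der_om hC hg hD hy h0 (ch_spec hα).1 hu
  rwa [(ch_spec hα).2, ← II_om] at h1

theorem stab_nm (hg : Gens S C G) (hy : y ∈ C) (h0 : y ≠ 0) (hr : Rt S y) : Stab S (Nm C y) :=
  hg.stab_nm hy h0 hr

theorem stab_tan (hg : Gens S C G) (hy : y ∈ C) (h0 : y ≠ 0) (hr : Rt S y) :
    Stab S (tangent C y) := hg.stab_tangent hy h0 hr

theorem der2 (hC : Sm C c) (hg : Gens S C G) (hD : D ∈ Der S) (hy : y ∈ C) (h0 : y ≠ 0)
    (hr : Rt S y) (hα : α ∈ Nm C y) (hu : u ∈ tangent C y) (hv : v ∈ tangent C y) :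
    D (II C y α u v) = II C y (ap D α) u v + II C y α (ap D u) v + II C y α u (ap D v) := by
  have h1 := ch_spec (stab_nm hg hy h0 hr D hD α hα)
  simp only [II_om]
  exact der_om3 hC hg hD hy h0 hr (ch_spec hα).1 h1.1 (by rw [h1.2, (ch_spec hα).2]) hu hv

theorem stab_Ky (hC : Sm C c) (hg : Gens S C G) (hy : Ct C h y) (hr : Rt S y) (hh : Rt S h) :
    Stab S (Ky C y h) := by
  intro D hD u hu
  have hT := stab_tan hg hy.1 hy.2.1 hr D hD
  refine ⟨hT u hu.1, fun v hv => ?_⟩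
  have h1 := der2 hC hg hD hy.1 hy.2.1 hr hy.2.2 hu.1 hv
  rw [hu.2 v hv, hu.2 _ (hT v hv), hh.ap hD] at h1
  simpa only [map_zero, LinearMap.zero_apply, zero_add, add_zero] using h1.symm

theorem dv_le_Ky (hC : Sm C c) (hg : Gens S C G) (hy : Ct C h y) (hh : Rt S h) :
    dv S y ≤ Ky C y h := by
  rintro _ ⟨D, hD, rfl⟩
  refine ⟨der_tan hg hD hy.1 hy.2.1, fun v hv => ?_⟩
  have h1 := der1 hC hg hD hy.1 hy.2.1 hy.2.2 hv
  rw [hh.ap hD, zero_dotProduct] at h1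
  exact h1.symm

theorem der_BB (H : Ctt C x φ c k) (hg : Gens S C G) (hD : D ∈ Der S) (hr : Rt S x)
    (hφ : RtL S φ) (hα : α ∈ Nm C x) (w : Fin n → ℂ) :
    ap D (BB C x φ α w) = BB C x φ (ap D α) w + BB C x φ α (ap D w) := by
  ext j
  rw [ap_apply, Pi.add_apply, BB_apply, BB_apply, BB_apply,
    der2 H.sm hg hD H.mem H.ne hr hα (frame_mem H.frame _) (frame_mem H.frame _),
    (rtL_iff.1 hφ j).ap hD, map_zero, add_zero, hφ D hD]

/-- the contact locus is closed under specialisation -/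
theorem Ct.sp (hC : Sm C c) (hg : Gens S C G) (hh : Rt S h) (hy : Ct C h y) (hs : Sp S y y₀)
    (h0 : y₀ ≠ 0) : Ct C h y₀ := ⟨hg.sp hs hy.1, h0, sp_nm hC hg hs hy.1 h0 hh hy.2.2⟩

end PartDer

section PartChart
variable {F : Fin c → P σ} {δ : P σ} {co : Fin c → P σ} {τ : σ → σ → P σ}

theorem mv_sum [DecidableEq σ] (τ : σ → σ → P σ) (y v : σ → ℂ) :
    mv τ y v = ∑ t, v t • mv τ y (Pi.single t 1) := by
  ext s
  simp only [mv, mul_comm, Finset.sum_apply, Pi.smul_apply, Pi.single_apply, ite_mul, one_mul, zero_mul, Finset.sum_ite_eq', Finset.mem_univ, ↓ reduceIte, smul_eq_mul]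

theorem mv_single [DecidableEq σ] (τ : σ → σ → P σ) (y : σ → ℂ) (t s : σ) :
    mv τ y (Pi.single t 1) s = eval y (τ s t) := by
  simp only [mv, Pi.single_apply, mul_ite, mul_one, mul_zero, Finset.sum_ite_eq', Finset.mem_univ, ↓ reduceIte]

/-- CHART -/
theorem exists_cht (hC : Sm C c) (hg : Gens S C G) (hh : Rt S h) (hy : y₀ ∈ C) (h0 : y₀ ≠ 0) :
    ∃ (F : Fin c → P σ) (δ : P σ) (co : Fin c → P σ) (τ : σ → σ → P σ),
      Cht C S h y₀ F δ co τ := by
  classical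
  obtain ⟨g, δ, a, hc, hd⟩ := chart_ex hC hg hy h0
  have e : ∀ y v, mv (fun s t => prP g δ a t s) y v = prT g δ a y v := fun y v => by
    rw [mv_sum, prT_sum]
    refine Finset.sum_congr rfl fun t _ => congrArg _ ?_
    rw [← ev_prP]
    exact funext fun s => mv_single _ _ _ _
  refine ⟨g, δ, fun i => dotP h (a i), fun s t => prP g δ a t s, hc.mem, hc.ovg, hc.ovd,
    fun i => ov_dotP hh (hc.ova i), fun s t => hc.ov_prP t s, hd, fun y hy hδ => ?_,
    fun y hy _ hδ v => e y v ▸ hc.prT_mem hC hy hδ v, fun y _ _ v hv => (e y v).trans (hc.prT_eq hv),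
    fun y hy _ hδ v hv => (hc.mem_tangent hC hy hδ).2 hv⟩
  simp only [eval_dotP]
  exact (hc.rep hC hy.1 hδ hy.2.2).symm

theorem Cht.II_eq (H : Cht C S h y₀ F δ co τ) (hC : Sm C c) (hy : Ct C h y) (hδ : eval y δ ≠ 0)
    (hu : u ∈ tangent C y) (hv : v ∈ tangent C y) :
    ∑ i, eval y (co i) * hb y (F i) u v = eval y δ * II C y h u v := by
  have h1 := H73.II_eq hC hy.1 hy.2.1 (f := ∑ i, eval y (co i) • F i)
    (sum_mem fun i _ => (vI C).smul_of_tower_mem _ (H.mem i)) hu hv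
  simp only [grad_sum, grad_smul, H.rep y hy hδ] at h1
  simpa only [map_smul, map_sum, LinearMap.smul_apply, LinearMap.sum_apply, smul_eq_mul]
    using h1.symm

theorem Cht.ov_Qm (H : Cht C S h y₀ F δ co τ) (s t : σ) : Ov (cf S) (Qm F co τ s t) :=
  ov_sum fun i _ => ov_sum fun a _ => ov_sum fun b _ => ov_mul (ov_mul (ov_mul (H.ovc i)
    (((H.ovG i).pderiv b).pderiv a)) (H.ovt a s)) (H.ovt b t)

theorem Cht.eval_Qm [DecidableEq σ] (H : Cht C S h y₀ F δ co τ) (hC : Sm C c) (hy : Ct C h y)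
    (hδ : eval y δ ≠ 0) (s t : σ) : eval y (Qm F co τ s t) =
      eval y δ * II C y h (mv τ y (Pi.single s 1)) (mv τ y (Pi.single t 1)) := by
  rw [← H.II_eq hC hy hδ (H.tan y hy.1 hy.2.1 hδ _) (H.tan y hy.1 hy.2.1 hδ _)]
  simp only [Qm, map_sum, map_mul, hb_apply, mv_single, Finset.mul_sum, mul_assoc]

theorem Cht.bf_Qm (H : Cht C S h y₀ F δ co τ) (hC : Sm C c) (hy : Ct C h y) (hδ : eval y δ ≠ 0)
    (v w : σ → ℂ) : bf ((Qm F co τ).map (eval y)) v w =
      eval y δ * II C y h (mv τ y v) (mv τ y w) := by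
  classical
  rw [mv_sum τ y v, mv_sum τ y w]
  simp only [bf, Matrix.map_apply, H.eval_Qm hC hy hδ, map_sum, map_smul, LinearMap.sum_apply,
    LinearMap.smul_apply, smul_eq_mul, Finset.mul_sum]
  rw [Finset.sum_comm]
  exact Finset.sum_congr rfl fun t _ => Finset.sum_congr rfl fun s _ => by ring

theorem Cht.ov_Psi (H : Cht C S h y₀ F δ co τ) (hh : Rt S h) (s : σ) :
    Ov (cf S) (Psi h F δ co s) :=
  ov_sub (ov_mul H.ovd (ov_C (hh s))) (ov_sum fun i _ => ov_mul (H.ovc i) ((H.ovG i).pderiv s))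

theorem Cht.psi_zero (H : Cht C S h y₀ F δ co τ) (hy : Ct C h y) (hδ : eval y δ ≠ 0) (s : σ) :
    eval y (Psi h F δ co s) = 0 := by
  have h1 := congrFun (H.rep y hy hδ) s
  simp only [Finset.sum_apply, Pi.smul_apply, smul_eq_mul, grad] at h1
  simp only [Psi, map_sub, map_mul, map_sum, eval_C, h1, sub_self]

/-- KER -/
theorem Cht.ker (H : Cht C S h y₀ F δ co τ) (hC : Sm C c) (hy : Ct C h y₀)
    (h1 : ∀ i, grad (F i) y₀ ⬝ᵥ p = 0) (h2 : ∀ s, grad (Psi h F δ co s) y₀ ⬝ᵥ p = 0) :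
    p ∈ Ky C y₀ h := by
  have hp := H.eqn y₀ hy.1 hy.2.1 H.ne p h1
  refine ⟨hp, fun v hv => (mul_eq_zero.1 ?_).resolve_left H.ne⟩
  rw [← H.II_eq hC hy H.ne hp hv]
  have h3 : (grad δ y₀ ⬝ᵥ p) • h - ∑ i, (eval y₀ (co i) • om y₀ p (F i) 1 +
      (grad (co i) y₀ ⬝ᵥ p) • grad (F i) y₀) = 0 := by
    ext s
    have h4 := h2 s
    rw [Psi, grad_sub, mul_comm, ← smul_eq_C_mul, grad_smul, grad_sum, sub_dotProduct,
      smul_dotProduct, sum_dotProduct, smul_eq_mul, mul_comm] at h4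
    simp only [grad_mul, add_dotProduct, smul_dotProduct, ← hs_apply, smul_eq_mul] at h4
    simp only [Pi.sub_apply, Pi.smul_apply, Finset.sum_apply, Pi.add_apply, smul_eq_mul,
      Pi.zero_apply, ← h4, mul_comm (grad (co _) y₀ ⬝ᵥ p)]
    rfl
  have h5 := congrArg (· ⬝ᵥ v) h3
  simpa only [hb_om, sub_dotProduct, smul_dotProduct, mem_tangent_nm.1 hv _ hy.2.2, smul_eq_mul, mul_zero, sum_dotProduct, add_dotProduct, H26.mem_tangent.1 hv _ (H.mem _), add_zero, zero_sub, zero_dotProduct, neg_eq_zero] using h5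

theorem Ky_sp (hC : Sm C c) (hg : Gens S C G) (hh : Rt S h) (hp : Rt S p) (hy : Ct C h y)
    (hs : Sp S y y₀) (h0 : y₀ ≠ 0) (hk : p ∈ Ky C y h) : p ∈ Ky C y₀ h := by
  have h1 := ch_spec hy.2.2
  have h2 := ch_spec (hy.sp hC hg hh hs h0).2.2
  exact ⟨sp_tangent hg hs hy.1 h0 hp hk.1, fun v hv => (II_om _ _ _ _ _).trans
    (sp_hs hC hg hs hy.1 h0 hh hp h1.1 h2.1 h1.2 h2.2 hk.1
      (fun w hw => (II_om _ _ _ _ _).symm.trans (hk.2 w hw)) hv)⟩

theorem Cht.span_mv [DecidableEq σ] (H : Cht C S h y₀ F δ co τ) (hy : y ∈ C) (h0 : y ≠ 0)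
    (hδ : eval y δ ≠ 0) :
    Submodule.span ℂ (Set.range fun s => mv τ y (Pi.single s 1)) = tangent C y := by
  refine le_antisymm (Submodule.span_le.2 (Set.range_subset_iff.2 fun s => H.tan y hy h0 hδ _))
    fun v hv => ?_
  rw [← inv_smul_smul₀ hδ v, ← H.fix y hy h0 v hv, mv_sum]
  exact Submodule.smul_mem _ _ (sum_mem fun t _ =>
    Submodule.smul_mem _ _ (Submodule.subset_span ⟨t, rfl⟩))

/-- the rank of the matrix of the second fundamental form -/
theorem Cht.rank_Qm (H : Cht C S h y₀ F δ co τ) (hC : Sm C c) (hy : Ct C h y)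
    (hδ : eval y δ ≠ 0) :
    finrank ℂ (Submodule.span ℂ (Set.range fun s => ev y (Qm F co τ s))) +
      finrank ℂ (Ky C y h) = finrank ℂ (tangent C y) := by
  classical
  let f : (σ → ℂ) →ₗ[ℂ] (σ → ℂ) :=
    LinearMap.pi fun t => eval y δ • (II C y h).flip (mv τ y (Pi.single t 1))
  have hT := H.span_mv hy.1 hy.2.1 hδ
  have h1 : (tangent C y).map f = Submodule.span ℂ (Set.range fun s => ev y (Qm F co τ s)) := by
    rw [← hT, Submodule.map_span, ← Set.range_comp]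
    exact congrArg (fun g => Submodule.span ℂ (Set.range g))
      (funext fun s => funext fun t => (H.eval_Qm hC hy hδ s t).symm)
  have h2 : tangent C y ⊓ LinearMap.ker f = Ky C y h := by
    ext u
    refine and_congr_right fun _ => ⟨fun hu v hv => ?_, fun hu => funext fun t => ?_⟩
    · rw [← hT] at hv
      refine (Submodule.span_le (p := LinearMap.ker (II C y h u))).2
        (Set.range_subset_iff.2 fun t => ?_) hv
      exact (mul_eq_zero.1 (congrFun hu t)).resolve_left hδ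
    · exact mul_eq_zero_of_right _ (hu _ (H.tan y hy.1 hy.2.1 hδ _))
  rw [← h1, ← h2]
  exact finrank_map_add f _

theorem Ky_rank_sp (hC : Sm C c) (hg : Gens S C G) (hh : Rt S h) (hy : Ct C h y)
    (hs : Sp S y y₀) (h0 : y₀ ≠ 0) : finrank ℂ (Ky C y h) ≤ finrank ℂ (Ky C y₀ h) := by
  have hy₀ := hy.sp hC hg hh hs h0
  obtain ⟨F, δ, co, τ, H⟩ := exists_cht hC hg hh hy₀.1 h0
  have h1 := H.rank_Qm hC hy (hs.ne H.ovd H.ne)
  have h2 := H.rank_Qm hC hy₀ H.ne
  have h3 := rk_le hs H.ov_Qm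
  have h4 := tangent_rank hC hy.1 hy.2.1
  have h5 := tangent_rank hC hy₀.1 h0
  omega

end PartChart

section PartNeg

/-- NEG -/
theorem neg (hC : Sm C c) (hg : Gens S C G) (hS : S.Countable) (hh : Rt S h) (hp : Rt S p)
    (hy : Ct C h y) (ht : p ∈ tangent C y) (h2 : 2 ≤ td S y) : II C y h p p = 0 :=
  (II_om _ _ _ _ _).trans (neg_om hS hC hg hy.1 h2 (ch_spec hy.2.2).1
    ((ch_spec hy.2.2).2.symm ▸ hh) hp ht)

/-- a nonzero symmetric form has a generic vector which is not isotropic -/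
theorem gen_quad (hS : S.Countable) {E : Submodule ℂ (σ → ℂ)} {β : Bil (σ → ℂ)} (hβ : Sy β)
    (hu : u ∈ E) (hv : v ∈ E) (h : β u v ≠ 0) :
    ∃ p ∈ E, β p p ≠ 0 ∧ E ≤ dv S p ∧ ∀ w ∈ E, Sp S p w := by
  classical
  have e : ∀ w, eval w (∑ s, ∑ t, MvPolynomial.C (β (Pi.single s 1) (Pi.single t 1)) * X s * X t :
      P σ) = β w w := fun w => by
    conv_rhs => rw [pi_eq_sum_univ' w]
    simp only [map_sum, map_mul, eval_C, eval_X, map_smul, LinearMap.sum_apply,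
      LinearMap.smul_apply, smul_eq_mul, Finset.mul_sum]
    rw [Finset.sum_comm]
    exact Finset.sum_congr rfl fun t _ => Finset.sum_congr rfl fun s _ => by ring
  obtain ⟨w, hw, h1⟩ : ∃ w ∈ E, β w w ≠ 0 := by
    by_contra hn
    push Not at hn
    have h2 := hn _ (add_mem hu hv)
    simp only [map_add, LinearMap.add_apply, hn u hu, hn v hv, hβ v u] at h2
    exact h (by linear_combination (1 / 2 : ℂ) * h2)
  obtain ⟨p, h3, h4, h5⟩ := gen_sub' hS E hw ((e w).symm ▸ h1)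
  exact ⟨p, h3, e p ▸ h4, h5⟩

/-- NEG for a subspace -/
theorem neg_sub (hC : Sm C c) (hg : Gens S C G) (hS : S.Countable) (hh : Rt S h) (hy : Ct C h y)
    {E R : Submodule ℂ (σ → ℂ)} (hE : E ≤ tangent C y) (hER : E ≤ R) (hR : Stab S R)
    (hd : finrank ℂ R + 2 ≤ td S y + finrank ℂ E) (hu : u ∈ E) (hv : v ∈ E) :
    II C y h u v = 0 := by
  by_contra hn
  obtain ⟨p, h1, h2, h3, -⟩ := gen_quad (adj_countable hS y) (II_sy C y h) hu hv hn
  have h4 := td_count h3 hR (hER h1)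
  exact h2 (neg hC (hg.mono' (subset_adj S p)) (adj_countable hS p) (hh.mono' (subset_adj S p))
    (rt_adj S p) hy (hE h1) (by omega))

/-- secants of the contact locus degenerate to the kernel -/
theorem sec_ker (hC : Sm C c) (hg : Gens S C G) (hS : S.Countable) (hh : Rt S h) (hp : Rt S p)
    (hy : Ct C h y) (hy' : Ct C h (y + p)) (h1 : 1 ≤ td S y) :
    ∃ (a : ℂ) (y₀ : σ → ℂ), a ≠ 0 ∧ y₀ ≠ 0 ∧ Sp S (a • y) y₀ ∧ p ∈ Ky C y₀ h := by
  obtain ⟨a, y₀, ha, h2, hs⟩ := spec_one hS y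
  have h0 := ne_of_td (h1.trans h2)
  have h3 := hy.smul hC.toCn ha
  have h4 := hy'.smul hC.toCn ha
  rw [smul_add] at h4
  obtain ⟨-, h5, h6, h7⟩ := ker_secant hC hg ha hs h0 hh hp h3.1 h3.2.2 h4.1 h4.2.2
  exact ⟨a, y₀, ha, h0, hs.comp Sum.inl, h6, fun v hv => (II_om _ _ _ _ _).trans
    (h7 _ (ch_spec h5).1 (ch_spec h5).2 v hv)⟩

/-- the component of the contact locus through a point whose kernel consists of derivatives -/
theorem exists_ct (hC : Sm C c) (hg : Gens S C G) (hh : Rt S h) (hy : Ct C h y)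
    (hk : Ky C y h ≤ dv S y) : ∃ 𝔤 : Ideal (P σ), 𝔤.IsPrime ∧ finrank ℂ (Ky C y h) ≤ dm 𝔤 ∧
      (∀ y' ∈ vZ 𝔤, y' ≠ 0 → Ct C h y') ∧ ∀ α ∈ Nm C y, (∀ y' ∈ vZ 𝔤, α ⬝ᵥ y' = 0) →
        ∀ u ∈ Ky C y h, ∀ v ∈ Ky C y h, II C y α u v = 0 := by
  obtain ⟨𝔤, h1, h2, h3, h4, -⟩ := l3 S y
  have h5 : finrank ℂ (Ky C y h) ≤ dm 𝔤 := (Submodule.finrank_mono hk).trans h3
  have h6 : ∀ y' ∈ vZ 𝔤, y' ≠ 0 → Ct C h y' := fun y' hy' h0 => hy.sp hC hg hh (h4 y' hy') h0
  refine ⟨𝔤, h1, h5, h6, fun α hα h7 u hu v hv => ?_⟩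
  have h8 : tangent (vZ 𝔤) y ≤ Ky C y h := fun p hp => by
    obtain ⟨h9, h10⟩ := ker_tangent hC h1 (fun w hw h0 => ⟨(h6 w hw h0).1, (h6 w hw h0).2.2⟩) h2
      hy.2.1 hp (ch_spec hy.2.2).1 (ch_spec hy.2.2).2
    exact ⟨h9, fun w hw => (II_om _ _ _ _ _).trans (h10 w hw)⟩
  have h9 := nm_rank_le (Z := vZ 𝔤) ((vI_vZ h1).symm ▸ h1) h2
  rw [vI_vZ h1] at h9
  have h10 := dual_rank (vZ 𝔤) y
  have h11 := Submodule.finrank_mono h8
  have h12 : tangent (vZ 𝔤) y = Ky C y h := Submodule.eq_of_le_of_finrank_le h8 (by omega)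
  have hl : ∀ i, pderiv i (∑ j, MvPolynomial.C (α j) * X j : P σ) = MvPolynomial.C (α i) :=
    fun i => by
      classical
      simp only [map_sum, Derivation.leibniz, pderiv_X, Pi.single_apply, smul_eq_mul, mul_ite, mul_one, mul_zero, derivation_C, add_zero, Finset.sum_ite_eq', Finset.mem_univ, ↓ reduceIte]
  have h13 := hess_zero h1 h2 (by omega) (f := ch C y α - ∑ j, MvPolynomial.C (α j) * X j) (by
    rw [← vI_vZ h1]
    refine mem_van.2 fun w hw => ?_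
    rw [map_sub, eval_dot, h7 w hw, sub_zero]
    refine mem_van.1 (ch_spec hα).1 w (hg.sp (h4 w hw) hy.1)) (by
    rw [grad_sub, (ch_spec hα).2, sub_eq_zero]
    exact funext fun i => by rw [grad, hl, eval_C]) (h12.ge hu) (h12.ge hv)
  rw [map_sub, LinearMap.sub_apply, LinearMap.sub_apply, hb_apply y u v (∑ j, _)] at h13
  simpa only [hl, pderiv_C, map_zero, zero_mul, Finset.sum_const_zero, sub_zero,
    II_apply] using h13

end PartNeg

end Pool.Agent.MP_429080_ag.H73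

/-! The second fundamental form along a line. -/

namespace Pool.Agent.MP_429080_ag.H73

open MvPolynomial Module Pool.Agent.EGH Pool.Agent.MP_d171e3_nt Pool.Agent.MP_429080_ag.H26
open Pool.Agent.MP_429080_ag.H26.T

set_option linter.unusedSectionVars false

variable {σ : Type} [Fintype σ] {C : Set (σ → ℂ)} {c m : ℕ} {S : Set ℂ} {G : Fin m → P σ}
  {D : Dr} {x y h a b a' b' w : σ → ℂ}

section PartPen

theorem Tl.ct (H : Tl C c h x y) (s : ℂ) : Ct C h (s • x + y) :=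
  ⟨line_mem H.line s, line_ne H.ind s, H.ns s⟩

theorem Tl.ctx (H : Tl C c h x y) : Ct C h x :=
  ⟨by simpa using H.line 1 0,
    fun e => one_ne_zero (LinearIndependent.pair_iff.1 H.ind 1 0 (by simp [e])).1, H.nx⟩

/-- `syz` with a degree bound -/
theorem syzN (hC : Sm C c) (hl : ∀ s t : ℂ, s • x + t • y ∈ C) (hi : LinearIndependent ℂ ![x, y])
    (hf : Free C x) (θ : P σ →ₗ[ℂ] Polynomial ℂ)
    (hθ : ∀ g, ∀ G ∈ vI C, θ (g * G) = lp y x g * θ G) (ε : ℕ)
    (hdeg : ∀ d, ∀ G ∈ vI C, G.IsHomogeneous d → ∀ i, d + ε ≤ i → (θ G).coeff i = 0) :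
    ∃ β : σ → Polynomial ℂ, (∀ i, (β i).natDegree ≤ ε) ∧
      ∀ G ∈ vI C, θ G = ∑ i, lp y x (pderiv i G) * β i := syz_eps hC hl hi hf θ hθ ε hdeg

/-- PENCIL -/
theorem Tl.pencil1 (H : Tl C c h x y) (hp : Pair C x y a b) (hp' : Pair C x y a' b') :
    ∃ κ : ℂ, ∀ s : ℂ, II C (s • x + y) h (s • a + b) (s • a' + b') = s * II C x h a a' + κ :=
  (pencil H.sm H.line H.ind H.free hp hp').elim fun β hβ =>
    ⟨h ⬝ᵥ β, fun s => hβ s h H.nx (H.ns s)⟩

theorem Tl.pencil0 (H : Tl C c h x y) (hw : w ∈ W0 C x y) (hp : Pair C x y a b) (s : ℂ) :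
    II C (s • x + y) h w (s • a + b) = II C x h w a :=
  pencil_w0 H.sm H.line H.ind H.free hw hp s H.nx (H.ns s)

/-- SC -/
theorem Tl.sc (H : Tl C c h x y) : ∀ᶠ s : ℂ in Filter.cofinite,
    finrank ℂ (Ky C (s • x + y) h) ≤ finrank ℂ (Ky C x h) :=
  Filter.eventually_cofinite.2 (by simpa using H73.sc H.sm H.line H.ind H.free H.nx H.ns)

theorem W0_le (hC : Cn C) (s : ℂ) : W0 C x y ≤ tangent C (s • x + y) := fun _ hw => w0_mem hC hw s

theorem W0_le_x : W0 C x y ≤ tangent C x := fun w hw => by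
  simpa using (Submodule.mem_iInf _).1 hw 0

theorem x_mem_W0 (hl : ∀ s t : ℂ, s • x + t • y ∈ C) : x ∈ W0 C x y :=
  mem_W0.2 fun _ hG j => om_x hl hG j

theorem y_mem_W0 (hl : ∀ s t : ℂ, s • x + t • y ∈ C) : y ∈ W0 C x y :=
  (Submodule.mem_iInf _).2 fun t => mem_tangent_of_line fun e => by
    have := hl 1 (t + e)
    rwa [add_smul, one_smul, ← add_assoc] at this

theorem pair_der (hg : Gens S C G) (hD : D ∈ Der S) (hl : ∀ s t : ℂ, s • x + t • y ∈ C)
    (hi : LinearIndependent ℂ ![x, y]) : Pair C x y (ap D x) (ap D y) := fun t => by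
  have h1 := der_tan hg hD (y := x + t • y) (by simpa using hl 1 t)
    fun e => one_ne_zero (LinearIndependent.pair_iff.1 hi 1 t (by rwa [one_smul])).1
  rw [ap_add, ap_smul, ← add_assoc] at h1
  exact (Submodule.add_mem_iff_left _
    (Submodule.smul_mem _ _ ((Submodule.mem_iInf _).1 (y_mem_W0 hl) t))).1 h1

theorem Tl.W0_Ky (H : Tl C c h x y) (hw : w ∈ W0 C x y) (hk : w ∈ Ky C x h) (s : ℂ) :
    w ∈ Ky C (s • x + y) h := ⟨W0_le H.sm.toCn s hw, fun v hv => by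
  obtain ⟨a, b, hp, rfl⟩ := span_pairs H.sm H.line H.ind H.free s hv
  rw [H.pencil0 hw hp, hk.2 a (gline_fst hp)]⟩

theorem Tl.free_der (H : Tl C c h x y) (hg : Gens S C G) (hh : Rt S h) (hD : D ∈ Der S) (s : ℂ) :
    s • ap D x + ap D y ∈ Ky C (s • x + y) h := by
  have h1 := dv_le_Ky H.sm hg (H.ct s) hh (ap_mem hD _)
  rw [ap_add, ap_smul, add_right_comm] at h1
  exact (Submodule.add_mem_iff_left _ (Submodule.smul_mem _ _
    (H.W0_Ky (x_mem_W0 H.line) (self_mem_Ky H.sm H.ctx) s))).1 h1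

end PartPen

end Pool.Agent.MP_429080_ag.H73
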