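import Pool.Agent.MP_429080_ag.FR.B

attribute [-instance] Subfield.instModuleSubtypeMem NonUnitalNormedRing.toNormedAddCommGroup
  ContinuousSemilinearMapClass.toSemilinearMapClass Algebra.IsFiniteSplit.instFree
  MonTypeEquivalenceMon.monMonoid Fintype.decidableForallFintype
  NonUnitalAlgHomClass.instLinearMapClass instNonUnitalAlgHomClassOfNonUnitalAlgEquivClass
  FunLike.toDecidableEq instCoeTCOfCoe Submodule.IsLattice.finite NumberField.instFiniteDimensional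
  NonUnitalAlgHomClass.toNonUnitalRingHomClass littleWedderburn Nontrivial.to_nonempty
  IsFormallyReal.instIsReduced TestFunctionClass.toDFunLike instCoeHTCTOfCoeTailOfCoeHTC
  SemilatticeInf.toPartialOrder instSMulZeroClass NonUnitalRing.toNonUnitalNonAssocRing
  ContDiffMapSupportedInClass.toDFunLike BialgHomClass.toAlgHomClass instCoeHTCOfCoeHeadOfCoeOTC
  ContinuousAddMonoidHom.instCoeOutOfAddMonoidHomClassOfContinuousMapClass
  MulSemiringActionSemiHomClass.toDistribMulActionSemiHomClass bot_nonempty NormedRing.toRing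
  CoalgHomClass.toSemilinearMapClass IdemSemiring.toSemiring
  SemilinearIsometryClass.toSemilinearMapClass NormedCommRing.toCommRing Zero.instNonempty
  IsometryClass.instCoeOutIsometryEquiv DivisionRing.toRing instCoeTCOfCoe_1
  LinearOrder.toDecidableEq Real.instRCLike HomeomorphClass.instCoeOutHomeomorph
  Vector.instDecidableForallForallMemOfDecidablePred NonUnitalSemiring.toNonUnitalNonAssocSemiring
  LieAdmissibleRing.toNonUnitalNonAssocRing ConnectedSpace.toNonempty SeminormedRing.toRing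
  RingHomClass.toLinearMapClassRat RingHomClass.toLinearMapClassNNRat
  NonUnitalAlgHomClass.instSemilinearMapClassOfNonUnitalAlgSemiHomClassToMonoidHomRingHom
  CentroidHomClass.toAddMonoidHomClass One.instNonempty AddCommMonoidWithOne.toAddCommMonoid
  Distrib.toAdd instCoeTOfCoeDep NoMinOrder.infinite CategoryTheory.CountableCategory.countableObj
  SeminormedCommRing.toCommRing AddTorsor.nonempty MulRingSeminormClass.toMonoidWithZeroHomClass
  NonUnitalNormedCommRing.toNonUnitalCommRing BialgHomClass.toMonoidHomClass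

/-! The kernel jumps on a line which is not good. -/

namespace Pool.Agent.MP_429080_ag.H73

open MvPolynomial Module Pool.Agent.EGH Pool.Agent.MP_d171e3_nt Pool.Agent.MP_429080_ag.H26
open Pool.Agent.MP_429080_ag.H26.T

set_option linter.unusedSectionVars false

section lin
variable {V : Type} [AddCommGroup V] [Module ℂ V] [Module.Finite ℂ V] {T S : Submodule ℂ V}
  {β : Bil V}

theorem perp_rank (hs : Sy β) (hS : S ≤ T) :
    finrank ℂ S + finrank ℂ (T ⊓ orth β S : Submodule ℂ V) =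
      finrank ℂ T + finrank ℂ (S ⊓ rad β T : Submodule ℂ V) := by
  have h := LinearMap.BilinForm.finrank_add_finrank_orthogonal'
    (B := LinearMap.BilinForm.restrict β T) (S.comap T.subtype)
  have e1 : (S.comap T.subtype).map T.subtype = S := by
    rw [Submodule.map_comap_subtype, inf_eq_right.2 hS]
  have e2 : ((LinearMap.BilinForm.restrict β T).orthogonal (S.comap T.subtype)).map T.subtype =
      T ⊓ orth β S := by
    ext u
    constructor
    · rintro ⟨u, hu, rfl⟩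
      exact ⟨u.2, fun w hw => (hs _ _).trans (hu ⟨w, hS hw⟩ hw)⟩
    · rintro ⟨h1, h2⟩
      exact ⟨⟨u, h1⟩, fun w hw => (hs _ _).trans (h2 w hw), rfl⟩
  have e3 : (S.comap T.subtype ⊓ LinearMap.ker (LinearMap.BilinForm.restrict β T)).map T.subtype =
      S ⊓ rad β T := by
    ext u
    constructor
    · rintro ⟨u, ⟨h1, h2⟩, rfl⟩
      exact ⟨h1, u.2, fun w hw => LinearMap.congr_fun h2 ⟨w, hw⟩⟩
    · rintro ⟨h1, h2, h3⟩
      exact ⟨⟨u, h2⟩, ⟨h1, LinearMap.ext fun w => h3 w w.2⟩, rfl⟩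
  rw [← e2, ← e3, Submodule.finrank_map_subtype_eq, Submodule.finrank_map_subtype_eq, ← h,
    ← Submodule.finrank_map_subtype_eq T (S.comap T.subtype), e1]

theorem perp_perp (hs : Sy β) (hS : S ≤ T) : T ⊓ orth β (T ⊓ orth β S) = S ⊔ rad β T := by
  have h1 := perp_rank hs hS
  have h2 := perp_rank hs (inf_le_left : T ⊓ orth β S ≤ T)
  have h3 := Submodule.finrank_sup_add_finrank_inf_eq S (rad β T)
  have h4 : rad β T ≤ T ⊓ orth β S := fun u hu => ⟨hu.1, fun w hw => hu.2 w (hS hw)⟩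
  rw [inf_eq_right.2 h4] at h2
  refine (Submodule.eq_of_le_of_finrank_le (sup_le (fun u hu => ⟨hS hu, fun w hw => ?_⟩)
    fun u hu => ⟨hu.1, fun w hw => hu.2 w hw.1⟩) (by omega)).symm
  exact (hs _ _).trans (hw.2 u hu)

theorem perp_rad (hs : Sy β) (hS : S ≤ T) (hi : ∀ u ∈ S, ∀ v ∈ S, β u v = 0) :
    rad β (T ⊓ orth β S) = S ⊔ rad β T := by
  have h : S ⊔ rad β T ≤ T ⊓ orth β S :=
    sup_le (fun u hu => ⟨hS hu, hi u hu⟩) fun u hu => ⟨hu.1, fun w hw => hu.2 w (hS hw)⟩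
  refine le_antisymm (fun u hu => perp_perp hs hS ▸ ⟨hu.1.1, hu.2⟩) fun u hu => ⟨h hu, ?_⟩
  rw [← perp_perp hs hS] at hu
  exact hu.2

/-- vectors with an invertible Gram matrix of the right size span modulo the radical -/
theorem gram_span (hs : Sy β) {r : ℕ} {v : Fin r → V} (hv : ∀ i, v i ∈ T)
    (hr : finrank ℂ T ≤ finrank ℂ (rad β T) + r)
    (hd : (Matrix.of fun i j => β (v i) (v j)).det ≠ 0) {u : V} (hu : u ∈ T) :
    ∃ l : Fin r → ℂ, u - ∑ i, l i • v i ∈ rad β T := by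
  obtain ⟨l, hl⟩ := Matrix.vecMul_surjective_iff_isUnit.2
    ((Matrix.isUnit_iff_isUnit_det _).2 hd.isUnit) fun j => β u (v j)
  have hS : Submodule.span ℂ (Set.range v) ≤ T := Submodule.span_le.2 (Set.range_subset_iff.2 hv)
  have h1 := perp_rank hs hS
  have h2 := gram_rank (T := Submodule.span ℂ (Set.range v)) (B := β)
    (K := Submodule.span ℂ (Set.range v) ⊓ rad β T) (fun u hu => ⟨hu.1, fun w hw => hu.2.2 w (hS hw)⟩)
    (fun i => Submodule.subset_span ⟨i, rfl⟩) hd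
  rw [Fintype.card_fin] at h2
  have h3 : rad β T = T ⊓ orth β (Submodule.span ℂ (Set.range v)) :=
    Submodule.eq_of_le_of_finrank_le (fun u hu => ⟨hu.1, fun w hw => hu.2 w (hS hw)⟩) (by omega)
  refine ⟨l, h3 ▸ ⟨T.sub_mem hu (T.sum_mem fun i _ => T.smul_mem _ (hv i)), fun w hw => ?_⟩⟩
  obtain ⟨a, rfl⟩ := (Submodule.mem_span_range_iff_exists_fun _).1 hw
  rw [map_sum]
  refine Finset.sum_eq_zero fun j _ => ?_
  have := congrFun hl j
  simp only [Matrix.vecMul, dotProduct, Matrix.of_apply] at this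
  simp only [map_sub, map_sum, map_smul, LinearMap.sub_apply, ← this, LinearMap.coe_sum, LinearMap.coe_smul, Finset.sum_apply, Pi.smul_apply, smul_eq_mul, sub_self, mul_zero]

/-- the kernel jumps somewhere in a pencil -/
theorem reg_lin {W : Submodule ℂ V} (hs : Sy β) {T' : ℂ → Submodule ℂ V} {β' : ℂ → Bil V}
    (hs' : ∀ s, Sy (β' s)) (hT : ∀ s, finrank ℂ T ≤ finrank ℂ (T' s)) (hW : W ≤ T)
    {Q : Submodule ℂ (V × V)} (hQ : ∀ a ∈ T, ∃ b, (a, b) ∈ Q) (hQ1 : ∀ q ∈ Q, q.1 ∈ T)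
    (hm : ∀ q ∈ Q, ∀ s, s • q.1 + q.2 ∈ T' s)
    (hsp : ∀ s, ∀ v ∈ T' s, ∃ q ∈ Q, v = s • q.1 + q.2)
    (h0 : ∀ b, (0, b) ∈ Q → b ∈ W) (h1 : ∀ w ∈ W, (w, 0) ∈ Q) (h2 : ∀ w ∈ W, (0, w) ∈ Q)
    (hp : ∀ q ∈ Q, ∀ q' ∈ Q, ∃ b, ∀ s, β' s (s • q.1 + q.2) (s • q'.1 + q'.2) = s * β q.1 q'.1 + b)
    (hw : ∀ w ∈ W, ∀ q ∈ Q, ∀ s, β' s w (s • q.1 + q.2) = β w q.1)
    (hf : ∀ a ∈ rad β T, ∃ b, (a, b) ∈ Q ∧ ∀ s, s • a + b ∈ rad (β' s) (T' s))
    (hne : finrank ℂ (rad β T) + 2 * finrank ℂ W ≠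
      finrank ℂ T + 2 * finrank ℂ (W ⊓ rad β T : Submodule ℂ V)) :
    ∃ s, finrank ℂ (rad β T) < finrank ℂ (rad (β' s) (T' s)) := by
  have hi : ∀ u ∈ W, ∀ v ∈ W, β u v = 0 := fun u hu v hv => by
    simpa only [zero_smul, add_zero, map_zero] using (hw u hu _ (h1 v hv) 0).symm
  have hW' : ∀ s, W ≤ T' s := fun s w hw => by simpa using hm _ (h2 w hw) s
  have hi' : ∀ s, ∀ u ∈ W, ∀ v ∈ W, β' s u v = 0 := fun s u hu v hv => by
    simpa only [smul_zero, zero_add, map_zero] using hw u hu _ (h2 v hv) s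
  obtain ⟨r, a, ha, hr, hd⟩ := exists_gram (T := T ⊓ orth β W) (K := rad β (T ⊓ orth β W)) (B := β)
    (fun _ => Iff.rfl) fun u _ v _ => hs u v
  have e1 := perp_rank hs hW
  have e2 := Submodule.finrank_sup_add_finrank_inf_eq W (rad β T)
  have hsp0 := fun u (hu : u ∈ T ⊓ orth β W) => gram_span hs ha hr.ge hd hu
  rw [perp_rad hs hW hi] at hr hsp0
  have : Nonempty (Fin r) := ⟨⟨0, by omega⟩⟩
  choose b hb using fun i => hQ _ (ha i).1
  choose m hm' using fun i j => hp _ (hb i) _ (hb j)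
  obtain ⟨s, hs0⟩ := pencil_root hd (Matrix.of m)
  obtain ⟨l, hl, hl0⟩ := Matrix.exists_vecMul_eq_zero_iff.2 hs0
  refine ⟨s, ?_⟩
  let g : (Fin r → ℂ) →ₗ[ℂ] V := Fintype.linearCombination ℂ fun i => s • a i + b i
  have hg : ∀ l, g l = ∑ i, l i • (s • a i + b i) := fun l => Fintype.linearCombination_apply _ _ _
  have hgm : ∀ l, g l ∈ T' s ⊓ orth (β' s) W := fun l => hg l ▸ Submodule.sum_mem _ fun i _ =>
    Submodule.smul_mem _ _ ⟨hm _ (hb i) s, fun w hw' => by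
      rw [hs', hw w hw' _ (hb i), hs]
      exact (ha i).2 w hw'⟩
  have hdec : ∀ v ∈ T' s ⊓ orth (β' s) W, ∃ l, v - g l ∈ W ⊔ rad (β' s) (T' s) := by
    rintro v ⟨hv, hv'⟩
    obtain ⟨⟨a', b'⟩, hq, rfl⟩ := hsp s v hv
    obtain ⟨l', hl'⟩ := hsp0 a' ⟨hQ1 _ hq, fun w hw' => by
      rw [hs, ← hw w hw' _ hq s, hs']
      exact hv' w hw'⟩
    obtain ⟨w, hw', k, hk, e⟩ := Submodule.mem_sup.1 hl'
    obtain ⟨bk, hbk, hbk'⟩ := hf k hk
    have h3 := Q.sub_mem (Q.sub_mem (Q.sub_mem hq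
      (Q.sum_mem fun i (_ : i ∈ Finset.univ) => Q.smul_mem (l' i) (hb i))) (h1 w hw')) hbk
    have e3 : (a', b') - ∑ i, l' i • (a i, b i) - (w, 0) - (k, bk) =
        (0, b' - ∑ i, l' i • b i - bk) := by
      ext
      · simp only [Prod.smul_mk, Prod.fst_sub, Prod.fst_sum, ← e, add_sub_cancel_left, sub_self]
      · simp only [Prod.smul_mk, Prod.snd_sub, Prod.snd_sum, sub_zero]
    rw [e3] at h3
    refine ⟨l', Submodule.mem_sup.2 ⟨s • w + (b' - ∑ i, l' i • b i - bk),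
      W.add_mem (W.smul_mem s hw') (h0 _ h3), s • k + bk, hbk' s, ?_⟩⟩
    have e4 : a' = w + k + ∑ i, l' i • a i := by rw [e, sub_add_cancel]
    simp only [hg, e4, smul_add, Finset.sum_add_distrib, Finset.smul_sum, smul_comm s]
    abel
  have hζ : g l ∈ W ⊔ rad (β' s) (T' s) := by
    rw [← perp_rad (hs' s) (hW' s) (hi' s)]
    refine ⟨hgm l, fun v hv => ?_⟩
    obtain ⟨l', hl'⟩ := hdec v hv
    rw [← perp_rad (hs' s) (hW' s) (hi' s)] at hl'
    have h4 : β' s (g l) (g l') = 0 := by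
      rw [hg l', map_sum]
      refine Finset.sum_eq_zero fun j _ => ?_
      have h5 := congrFun hl0 j
      simp only [Matrix.vecMul, dotProduct, Matrix.add_apply, Matrix.smul_apply, Matrix.of_apply,
        smul_eq_mul, Pi.zero_apply, ← hm'] at h5
      simp only [hg l, map_smul, map_sum, LinearMap.sum_apply, LinearMap.smul_apply, smul_eq_mul,
        h5, mul_zero]
    have h5 := hl'.2 _ (hgm l)
    rwa [hs', map_sub, h4, sub_zero] at h5
  have f1 := perp_rank (hs' s) (hW' s)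
  have f2 := Submodule.finrank_sup_add_finrank_inf_eq W (rad (β' s) (T' s))
  have f3 : finrank ℂ (W ⊓ rad β T : Submodule ℂ V) ≤
      finrank ℂ (W ⊓ rad (β' s) (T' s) : Submodule ℂ V) :=
    Submodule.finrank_mono fun w hw' => ⟨hw'.1, hW' s hw'.1, fun v hv => by
      obtain ⟨q, hq, rfl⟩ := hsp s v hv
      rw [hw w hw'.1 q hq, hw'.2.2 _ (hQ1 q hq)]⟩
  have f4 : finrank ℂ (T' s ⊓ orth (β' s) W : Submodule ℂ V) ≤
      finrank ℂ (LinearMap.range g ⊔ (W ⊔ rad (β' s) (T' s)) : Submodule ℂ V) :=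
    Submodule.finrank_mono fun v hv => by
      obtain ⟨l', hl'⟩ := hdec v hv
      exact Submodule.mem_sup.2 ⟨g l', ⟨l', rfl⟩, _, hl', add_sub_cancel _ _⟩
  have f5 := Submodule.finrank_sup_add_finrank_inf_eq (LinearMap.range g) (W ⊔ rad (β' s) (T' s))
  have f6 := finrank_map_add g ((W ⊔ rad (β' s) (T' s)).comap g)
  have f7 := g.finrank_range_add_finrank_ker
  have f8 : 0 < finrank ℂ ((W ⊔ rad (β' s) (T' s)).comap g) :=
    Module.finrank_pos_iff_exists_ne_zero.2 ⟨⟨l, hζ⟩, fun e => hl (congrArg Subtype.val e)⟩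
  have f9 : finrank ℂ ((W ⊔ rad (β' s) (T' s)).comap g ⊓ LinearMap.ker g : Submodule ℂ _) ≤
      finrank ℂ (LinearMap.ker g) := Submodule.finrank_mono inf_le_right
  have f10 := hT s
  rw [Submodule.map_comap_eq] at f6
  rw [finrank_fintype_fun_eq_card, Fintype.card_fin] at f7
  omega

end lin

section geo
variable {σ : Type} [Fintype σ] {C : Set (σ → ℂ)} {c n k : ℕ} {x y α : σ → ℂ}

/-- the space of pairs -/
noncomputable def Prs (C : Set (σ → ℂ)) (x y : σ → ℂ) : Submodule ℂ ((σ → ℂ) × (σ → ℂ)) :=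
  ⨅ t : ℂ, (tangent C (x + t • y)).comap
    (LinearMap.fst ℂ (σ → ℂ) (σ → ℂ) + t • LinearMap.snd ℂ (σ → ℂ) (σ → ℂ))

theorem mem_Prs {q : (σ → ℂ) × (σ → ℂ)} : q ∈ Prs C x y ↔ Pair C x y q.1 q.2 :=
  Submodule.mem_iInf _

theorem reg_II (hC : Sm C c) (hl : ∀ s t : ℂ, s • x + t • y ∈ C) (hi : LinearIndependent ℂ ![x, y])
    (hf : Free C x) (h1 : α ∈ Nm C x) (h2 : ∀ s : ℂ, α ∈ Nm C (s • x + y))
    (hfree : ∀ a ∈ Ky C x α, ∃ b, Pair C x y a b ∧ ∀ s : ℂ, s • a + b ∈ Ky C (s • x + y) α)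
    (hne : finrank ℂ (Ky C x α) + 2 * finrank ℂ (W0 C x y) ≠
      finrank ℂ (tangent C x) + 2 * finrank ℂ (W0 C x y ⊓ Ky C x α : Submodule ℂ (σ → ℂ))) :
    ∃ s : ℂ, finrank ℂ (Ky C x α) < finrank ℂ (Ky C (s • x + y) α) := by
  have hx : x ∈ C := by simpa using hl 1 0
  have h0 : x ≠ 0 := fun e => one_ne_zero (LinearIndependent.pair_iff.1 hi 1 0 (by simp [e])).1
  have hW : ∀ w ∈ W0 C x y, ∀ t : ℂ, w ∈ tangent C (x + t • y) := fun w hw =>
    (Submodule.mem_iInf _).1 hw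
  refine reg_lin (W := W0 C x y) (Q := Prs C x y) (T' := fun s => tangent C (s • x + y))
    (β' := fun s => II C (s • x + y) α) (II_sy C x α) (fun s => II_sy C _ α) (fun s => ?_)
    (fun w hw => by simpa using hW w hw 0) (fun a ha => ?_) (fun q hq => gline_fst (mem_Prs.1 hq))
    (fun q hq => pair_mem hC.toCn (mem_Prs.1 hq)) (fun s v hv => ?_) (fun b hb => ?_)
    (fun w hw => mem_Prs.2 fun t => by simpa using hW w hw t)
    (fun w hw => mem_Prs.2 fun t => by simpa only [zero_add] using Submodule.smul_mem _ t (hW w hw t))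
    (fun q hq q' hq' => ?_)
    (fun w hw q hq s => pencil_w0 hC hl hi hf hw (mem_Prs.1 hq) s h1 (h2 s))
    (fun a ha => ?_) hne
  · have e1 := tangent_rank hC hx h0
    have e2 := tangent_rank hC (line_mem hl s) (line_ne hi s)
    omega
  · obtain ⟨b, hb⟩ := hf y (fun t => by simpa using hl 1 t) a ha
    exact ⟨b, mem_Prs.2 hb⟩
  · obtain ⟨a, b, hp, e⟩ := span_pairs hC hl hi hf s hv
    exact ⟨(a, b), mem_Prs.2 hp, e⟩
  · exact mem_W0.2 fun G hG j => by simpa only [dotProduct_zero, zero_add] using (pair_iff.1 (mem_Prs.1 hb) G hG).2 j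
  · obtain ⟨β, hβ⟩ := pencil hC hl hi hf (mem_Prs.1 hq) (mem_Prs.1 hq')
    exact ⟨α ⬝ᵥ β, fun s => hβ s α h1 (h2 s)⟩
  · obtain ⟨b, hb, hb'⟩ := hfree a ha
    exact ⟨b, mem_Prs.2 hb, hb'⟩

namespace Cf
variable (Q : Cf σ n c k) {w : Fin n → ℂ}

/-- pairing with the frame -/
noncomputable def rps : (σ → ℂ) →ₗ[ℂ] (Fin n → ℂ) :=
  LinearMap.pi fun j => (II Q.C Q.x Q.h).flip (Q.φ (Pi.single j 1))

theorem rps_phi (w : Fin n → ℂ) : Q.rps (Q.φ w) = Q.B Q.h w := rfl

theorem rps_dot (a : σ → ℂ) (w : Fin n → ℂ) : Q.rps a ⬝ᵥ w = II Q.C Q.x Q.h a (Q.φ w) := by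
  conv_rhs => rw [pi_eq_sum_univ' w]
  simp only [map_sum, map_smul, dotProduct, smul_eq_mul, mul_comm]
  rfl

theorem rct : Ct Q.C Q.h Q.x := ⟨Q.ctx.mem, Q.ctx.ne, Q.hmem.1⟩

theorem rps_x : Q.rps Q.x = 0 := funext fun _ =>
  (self_mem_Ky Q.ctx.sm Q.rct).2 _ (frame_mem Q.ctx.frame _)

theorem rps_ker : tangent Q.C Q.x ⊓ LinearMap.ker Q.rps = Q.Kp Q.x := by
  ext a
  refine and_congr_right fun ha => ⟨fun h v hv => ?_, fun h => funext fun j =>
    h _ (frame_mem Q.ctx.frame _)⟩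
  obtain ⟨w, s, rfl⟩ := frame_decomp Q.ctx.frame hv
  rw [map_add, map_smul, ← rps_dot, LinearMap.mem_ker.1 h, zero_dotProduct, II_sy,
    (self_mem_Ky Q.ctx.sm Q.rct).2 _ ha, smul_zero, add_zero]

theorem rps_tan : (tangent Q.C Q.x).map Q.rps = LinearMap.range (Q.B Q.h) := by
  refine le_antisymm ?_ ?_
  · rintro _ ⟨a, ha, rfl⟩
    obtain ⟨w, s, rfl⟩ := frame_decomp Q.ctx.frame ha
    exact ⟨w, by rw [map_add, map_smul, rps_x, smul_zero, add_zero, rps_phi]⟩
  · rintro _ ⟨w, rfl⟩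
    exact ⟨Q.φ w, frame_mem Q.ctx.frame w, rfl⟩

theorem rtan_rank {y : σ → ℂ} (hy : Ct Q.C Q.h y) : finrank ℂ (tangent Q.C y) = n + 1 := by
  have h1 := tangent_rank Q.ctx.sm hy.1 hy.2.1
  have h2 := Q.ctx.card
  omega

theorem rkx_rank : finrank ℂ (Q.Kp Q.x) = Q.ga + 1 := by
  have h1 := finrank_map_add Q.rps (tangent Q.C Q.x)
  have h2 := (Q.B Q.h).finrank_range_add_finrank_ker
  rw [rps_ker, rps_tan, Q.rtan_rank Q.rct] at h1
  rw [finrank_fintype_fun_eq_card, Fintype.card_fin] at h2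
  have h3 : Q.ga = finrank ℂ (LinearMap.ker (Q.B Q.h)) := rfl
  omega

theorem rps_w0 (hw : w ∈ Q.Z) (h0 : w ≠ 0) : (W0 Q.C Q.x (Q.φ w)).map Q.rps = Q.J w := by
  refine le_antisymm ?_ ?_
  · rintro _ ⟨a, ha, rfl⟩
    obtain ⟨t, s, rfl⟩ := frame_decomp Q.ctx.frame (a := a)
      (by simpa using (Submodule.mem_iInf _).1 ha 0)
    refine ⟨t, mem_tangent_nm.2 ?_, by rw [map_add, map_smul, rps_x, smul_zero, add_zero, rps_phi]⟩
    rw [Z, Q.ctx.nm_eq hw h0, NT, span_dot]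
    rintro _ ⟨G, hG, j, rfl⟩
    rcases j with _ | j
    · rw [tay_zero Q.ctx.mem hG, grad_zero, zero_dotProduct]
    · have h1 := mem_W0.1 ha G hG j
      rwa [dotProduct_add, dotProduct_smul, om_x hw.1 hG, smul_zero, add_zero, ← grad_tay] at h1
  · rintro _ ⟨t, ht, rfl⟩
    exact ⟨Q.φ t, mem_W0.2 fun G hG j => by
      rw [← grad_tay]
      exact mem_tangent.1 ht _ (tay_mem Q.ctx.sm.toCn hG _), rfl⟩

theorem ZK.ind {Q : Cf σ n c k} (hw : Q.ZK w) : LinearIndependent ℂ ![Q.x, Q.φ w] :=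
  frame_indep Q.ctx.frame Q.ctx.ne hw.2.2

theorem ZK.ct {Q : Cf σ n c k} (hw : Q.ZK w) (s : ℂ) : Ct Q.C Q.h (s • Q.x + Q.φ w) := by
  refine ⟨line_mem hw.1.1 s, line_ne hw.ind s, ?_⟩
  have h1 : Q.φ w ∈ Q.Kp Q.x := Q.rps_ker ▸ ⟨frame_mem Q.ctx.frame w, hw.2.1⟩
  obtain ⟨h2, h3⟩ := ch_spec Q.hmem.1
  have h4 := psi0 Q.ctx.sm hw.1.1 hw.ind Q.ctx.free h2 (fun a ha => by
    rw [← hb_om]
    exact h1.2 a ha) s
  rwa [h3] at h4

/-- REG -/
theorem reg38 (hρ : Q.ga + 2 * Q.e = n) (hw : Q.ZK w) (hn : ¬ Q.TGood w)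
    (hfree : ∀ a ∈ Q.Kp Q.x, ∃ b, Pair Q.C Q.x (Q.φ w) a b ∧
      ∀ s : ℂ, s • a + b ∈ Q.Kp (s • Q.x + Q.φ w)) :
    ∃ a : ℂ, Q.ga + 2 ≤ finrank ℂ (Q.Kp (a • Q.x + Q.φ w)) := by
  have h1 := Q.rkx_rank
  obtain ⟨s, hs⟩ := reg_II Q.ctx.sm hw.1.1 hw.ind Q.ctx.free Q.hmem.1 (fun s => (hw.ct s).2.2) hfree
    fun e => hn ⟨hw, by
      have h2 := finrank_map_add Q.rps (W0 Q.C Q.x (Q.φ w))
      have h3 : W0 Q.C Q.x (Q.φ w) ⊓ LinearMap.ker Q.rps = W0 Q.C Q.x (Q.φ w) ⊓ Q.Kp Q.x := by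
        rw [← rps_ker, ← inf_assoc, inf_eq_left.2 (show W0 Q.C Q.x (Q.φ w) ≤ tangent Q.C Q.x from
          fun a ha => by simpa using (Submodule.mem_iInf _).1 ha 0)]
      rw [h3, Q.rps_w0 hw.1 hw.2.2] at h2
      rw [Q.rtan_rank Q.rct] at e
      unfold Kp at h1 h2
      omega⟩
  exact ⟨s, by unfold Kp at h1 ⊢; omega⟩

end Cf

end geo

end Pool.Agent.MP_429080_ag.H73

namespace Pool.Agent.MP_429080_ag.H73

open MvPolynomial Module Pool.Agent.EGH Pool.Agent.MP_d171e3_nt Pool.Agent.MP_429080_ag.H26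
open Pool.Agent.MP_429080_ag.H26.T

set_option linter.unusedSectionVars false

section PartForms
variable {V : Type} [AddCommGroup V] [Module ℂ V] [FiniteDimensional ℂ V] {β : Bil V}
  {T W E : Submodule ℂ V}

theorem polar (hs : Sy β) (h : ∀ u ∈ W, β u u = 0) : ∀ u ∈ W, ∀ v ∈ W, β u v = 0 := by
  intro u hu v hv
  have h1 := h _ (add_mem hu hv)
  simp only [map_add, LinearMap.add_apply, h u hu, h v hv, hs v u] at h1
  linear_combination h1 / 2

theorem orth_rank (hs : Sy β) (hW : W ≤ T) :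
    finrank ℂ (T ⊓ orth β W : Submodule ℂ V) + finrank ℂ W =
      finrank ℂ T + finrank ℂ (W ⊓ rad β T : Submodule ℂ V) :=
  (add_comm _ _).trans (perp_rank hs hW)

theorem orth_orth (hs : Sy β) (hW : W ≤ T) : T ⊓ orth β (T ⊓ orth β W) = W ⊔ rad β T :=
  perp_perp hs hW

theorem iso_ker (hs : Sy β) (hE : E ≤ T) (h : ∀ u ∈ E, ∀ v ∈ E, β u v = 0) :
    2 * finrank ℂ E ≤ finrank ℂ T + finrank ℂ (rad β T) := by
  have h1 := perp_rank hs hE
  have h2 := Submodule.finrank_mono (show E ≤ T ⊓ orth β E from fun u hu => ⟨hE hu, h u hu⟩)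
  have h3 := Submodule.finrank_mono (inf_le_right : E ⊓ rad β T ≤ _)
  omega

theorem rank_inf_ker {V' : Type} [AddCommGroup V'] [Module ℂ V'] (f : V →ₗ[ℂ] V')
    (W : Submodule ℂ V) :
    finrank ℂ (W.map f) + finrank ℂ (W ⊓ LinearMap.ker f : Submodule ℂ V) = finrank ℂ W := by
  have := finrank_map_add f W
  omega

end PartForms

end Pool.Agent.MP_429080_ag.H73

namespace Pool.Agent.MP_429080_ag.H73

open MvPolynomial Module Pool.Agent.EGH Pool.Agent.MP_d171e3_nt Pool.Agent.MP_429080_ag.H26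
open Pool.Agent.MP_429080_ag.H26.T

set_option linter.unusedSectionVars false

section PartAnn
variable {τ ρ : Type} [Fintype τ] [Fintype ρ] {W W' : Submodule ℂ (τ → ℂ)} {S : Set ℂ}

theorem ann_anti (h : W ≤ W') : ann W' ≤ ann W := fun _ hv α hα => hv α (h hα)

theorem le_ann_comm : W ≤ ann W' ↔ W' ≤ ann W :=
  ⟨fun h _ hv _ hα => (dotProduct_comm _ _).trans (h hα _ hv),
    fun h _ hv _ hα => (dotProduct_comm _ _).trans (h hα _ hv)⟩

theorem ann_sup (W W' : Submodule ℂ (τ → ℂ)) : ann (W ⊔ W') = ann W ⊓ ann W' :=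
  eq_of_forall_le_iff fun U => by
    rw [le_ann_comm, sup_le_iff, le_inf_iff, le_ann_comm (W := U), le_ann_comm (W := U)]

theorem ann_inf (W W' : Submodule ℂ (τ → ℂ)) : ann (W ⊓ W') = ann W ⊔ ann W' := by
  rw [← ann_ann (ann W ⊔ _), ann_sup, ann_ann, ann_ann]

theorem ann_inf_rank (W W' : Submodule ℂ (τ → ℂ)) :
    finrank ℂ W + finrank ℂ (W' ⊓ ann W : Submodule ℂ (τ → ℂ)) =
      finrank ℂ (W ⊓ ann W' : Submodule ℂ (τ → ℂ)) + finrank ℂ W' := by
  have h1 := ann_finrank (W' ⊓ ann W)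
  rw [ann_inf, ann_ann] at h1
  have h2 := Submodule.finrank_sup_add_finrank_inf_eq (ann W') W
  have h3 := ann_finrank W'
  rw [inf_comm] at h2
  omega

theorem range_eq_ann {B : (τ → ℂ) →ₗ[ℂ] (τ → ℂ)} (hs : ∀ u v, B u ⬝ᵥ v = B v ⬝ᵥ u) :
    LinearMap.range B = ann (LinearMap.ker B) := by
  classical
  rw [← ann_ann (LinearMap.range B)]
  congr 1
  ext v
  refine ⟨fun h => dotProduct_eq_zero _ fun u => (hs _ _).trans (h _ ⟨u, rfl⟩), ?_⟩
  rintro h _ ⟨u, rfl⟩
  rw [hs, LinearMap.mem_ker.1 h, zero_dotProduct]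

theorem iso_half {B : (τ → ℂ) →ₗ[ℂ] (τ → ℂ)} (hs : ∀ u v, B u ⬝ᵥ v = B v ⬝ᵥ u)
    (h : ∀ u ∈ W, ∀ v ∈ W, B u ⬝ᵥ v = 0) :
    2 * finrank ℂ (W.map B) + finrank ℂ (LinearMap.ker B) ≤ Fintype.card τ := by
  have h1 : W ⊔ LinearMap.ker B ≤ ann (W.map B) := by
    refine sup_le ?_ ?_
    · rintro v hv _ ⟨u, hu, rfl⟩
      exact h u hu v hv
    · rintro v hv _ ⟨u, -, rfl⟩
      rw [hs, LinearMap.mem_ker.1 hv, zero_dotProduct]
  have h2 := Submodule.finrank_mono h1
  have h3 := ann_finrank (W.map B)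
  have h4 := Submodule.finrank_sup_add_finrank_inf_eq W (LinearMap.ker B)
  have h5 := finrank_map_add B W
  omega

theorem der_ext (D : Dr) (hW : W ≤ W') (h : ∀ w ∈ W, ap D w ∈ W') :
    ∃ R : Submodule ℂ (τ → ℂ), W' ≤ R ∧ (∀ u ∈ W', ap D u ∈ R) ∧
      finrank ℂ R + finrank ℂ W ≤ 2 * finrank ℂ W' := by
  obtain ⟨U₀, hU₀⟩ := W.exists_isCompl
  have e : W ⊔ (W' ⊓ U₀) = W' := by
    rw [inf_comm, ← sup_inf_assoc_of_le _ hW, hU₀.sup_eq_top, top_inf_eq]
  have r1 := Submodule.finrank_sup_add_finrank_inf_eq W (W' ⊓ U₀)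
  rw [e, ← inf_assoc, inf_right_comm, hU₀.inf_eq_bot, bot_inf_eq, finrank_bot] at r1
  let b := Module.finBasis ℂ (W' ⊓ U₀ : Submodule ℂ (τ → ℂ))
  let T := Submodule.span ℂ (Set.range fun i => ap D (b i).1)
  have r2 : finrank ℂ T ≤ _ := (finrank_range_le_card _).trans (Fintype.card_fin _).le
  have r3 := Submodule.finrank_sup_add_finrank_inf_eq W' T
  refine ⟨W' ⊔ T, le_sup_left, fun u hu => ?_, by omega⟩
  rw [← e] at hu
  obtain ⟨w, hw, v, hv, rfl⟩ := Submodule.mem_sup.1 hu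
  have h1 := congrArg Subtype.val (b.sum_repr ⟨v, hv⟩)
  simp only [Submodule.coe_sum, Submodule.coe_smul] at h1
  rw [ap_add, ← h1, ap_sum]
  refine add_mem (Submodule.mem_sup_left (h w hw)) (sum_mem fun i _ => ?_)
  rw [ap_smul]
  exact add_mem (Submodule.mem_sup_right (Submodule.smul_mem _ _ (Submodule.subset_span ⟨i, rfl⟩)))
    (Submodule.mem_sup_left (Submodule.smul_mem _ _ (b i).2.1))

theorem tr_dot (ψ : (ρ → ℂ) →ₗ[ℂ] (τ → ℂ)) (α : τ → ℂ) (v : ρ → ℂ) :
    tr ψ α ⬝ᵥ v = α ⬝ᵥ ψ v := by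
  classical
  conv_rhs => rw [pi_eq_sum_univ' v, map_sum, dotProduct_sum]
  refine Finset.sum_congr rfl fun a _ => ?_
  rw [map_smul, dotProduct_smul, smul_eq_mul, mul_comm (v a)]
  congr!

theorem tr_eq_zero {ψ : (ρ → ℂ) →ₗ[ℂ] (τ → ℂ)} {α : τ → ℂ} :
    tr ψ α = 0 ↔ α ∈ ann (LinearMap.range ψ) := by
  classical
  refine ⟨fun h => ?_, fun h => dotProduct_eq_zero _ fun v => ?_⟩
  · rintro _ ⟨v, rfl⟩
    rw [dotProduct_comm, ← tr_dot, h, zero_dotProduct]
  · rw [tr_dot, dotProduct_comm]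
    exact h _ ⟨v, rfl⟩

theorem map_tr (ψ : (ρ → ℂ) →ₗ[ℂ] (τ → ℂ)) (W : Submodule ℂ (τ → ℂ)) :
    W.map (tr ψ) = ann ((ann W).comap ψ) := by
  rw [← ann_ann (W.map _)]
  congr 1
  ext v
  simp only [mem_ann, Submodule.mem_comap, Submodule.mem_map, forall_exists_index, and_imp,
    forall_apply_eq_imp_iff₂, tr_dot]

theorem grad_pull (ψ : (ρ → ℂ) →ₗ[ℂ] (τ → ℂ)) (f : P τ) (v : ρ → ℂ) :
    grad (pull ψ f) v = tr ψ (grad f (ψ v)) := by
  classical
  refine dotProduct_eq _ _ fun w => ?_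
  rw [tr_dot, ← lp_coeff_one, ← lp_coeff_one]
  congr 1
  refine Polynomial.funext fun t => ?_
  rw [eval_lp, eval_lp, eval_pull, map_add, map_smul]

theorem comap_rank {ψ : (ρ → ℂ) →ₗ[ℂ] (τ → ℂ)} (hψ : Function.Injective ψ)
    (W : Submodule ℂ (τ → ℂ)) :
    finrank ℂ (W.comap ψ) = finrank ℂ (W ⊓ LinearMap.range ψ : Submodule ℂ (τ → ℂ)) := by
  rw [(Submodule.equivMapOfInjective ψ hψ _).finrank_eq, Submodule.map_comap_eq, inf_comm]

theorem RtL.left_inv {ψ : (ρ → ℂ) →ₗ[ℂ] (τ → ℂ)} (h : RtL S ψ) (hψ : Function.Injective ψ) :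
    ∃ χ : (τ → ℂ) →ₗ[ℂ] (ρ → ℂ), RtL S χ ∧ ∀ v, χ (ψ v) = v := by
  classical
  let M : Matrix τ ρ (cf S) := fun i a => ⟨ψ (Pi.single a 1) i, rtL_iff.1 h a i⟩
  have e : ψ = Matrix.toLin' (M.map (cf S).subtype) := by
    ext a i
    simp [M]
  obtain ⟨g, hg⟩ := (Matrix.toLin' M).exists_leftInverse_of_injective
    (LinearMap.ker_eq_bot'.2 fun v hv => by
      have : ψ ((cf S).subtype ∘ v) = 0 := funext fun i => by
        rw [e, Matrix.toLin'_apply, ← RingHom.map_mulVec, ← Matrix.toLin'_apply, hv]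
        rfl
      exact funext fun a => Subtype.ext (congrFun ((map_eq_zero_iff ψ hψ).1 this) a))
  have h1 : LinearMap.toMatrix' g * M = 1 := by
    rw [← LinearMap.toMatrix'_toLin' M, ← LinearMap.toMatrix'_comp, hg, LinearMap.toMatrix'_id]
  refine ⟨Matrix.toLin' ((LinearMap.toMatrix' g).map (cf S).subtype), rtL_iff.2 fun j i => ?_,
    fun v => ?_⟩
  · simp
  · rw [e, ← Matrix.toLin'_mul_apply, ← Matrix.map_mul, h1]
    simp only [Subfield.coe_subtype, ZeroMemClass.coe_zero, OneMemClass.coe_one, Matrix.map_one, Matrix.toLin'_one, LinearMap.id_coe, id_eq]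

theorem ov_pull {ψ : (ρ → ℂ) →ₗ[ℂ] (τ → ℂ)} (h : RtL S ψ) {f : P τ} (hf : Ov (cf S) f) :
    Ov (cf S) (pull ψ f) := by
  classical
  refine ov_aeval (fun i => ov_sum fun j _ => ov_mul (ov_C ?_) (ov_X' j)) hf
  convert rtL_iff.1 h j i
  rfl

/-- a number which is transcendental and avoids a finite set -/
theorem gen_cof (hS : S.Countable) {p : ℂ → Prop} (hp : ∀ᶠ s in Filter.cofinite, p s) :
    ∃ a : ℂ, a ∉ cf S ∧ p a := by
  obtain ⟨a, ha, -⟩ := gen_one (hS.union (Filter.eventually_cofinite.1 hp).countable)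
  exact ⟨a, fun h => ha (cf_mono' Set.subset_union_left h),
    not_not.1 fun h => ha (subset_cf (Or.inr h))⟩

end PartAnn

end Pool.Agent.MP_429080_ag.H73

/-! Linear sections of cones. -/

namespace Pool.Agent.MP_429080_ag.H73

open MvPolynomial Module Pool.Agent.EGH Pool.Agent.MP_d171e3_nt Pool.Agent.MP_429080_ag.H26
open Pool.Agent.MP_429080_ag.H26.T

set_option linter.unusedSectionVars false

section PartSec
variable {τ ρ : Type} [Fintype τ] [Fintype ρ] {𝔭 : Ideal (P τ)} {S : Set ℂ}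

theorem cn_vZ (hp : 𝔭.IsPrime) (hh : HomI (w0 τ) 𝔭) (h : 0 < dm 𝔭) : Cn (vZ 𝔭) :=
  ⟨by rw [vI_vZ hp], fun a _ hz => cone_of_homI hh a hz, (vI_vZ hp).symm ▸ hp,
    exists_ne_pt hp h 0⟩

theorem cut_sub (hp : 𝔭.IsPrime) (hh : HomI (w0 τ) 𝔭) (W : Submodule ℂ (τ → ℂ)) :
    ∃ 𝔷 : Ideal (P τ), 𝔷.IsPrime ∧ HomI (w0 τ) 𝔷 ∧ 𝔭 ≤ 𝔷 ∧ (∀ y ∈ vZ 𝔷, y ∈ W) ∧
      dm 𝔭 + finrank ℂ W ≤ dm 𝔷 + Fintype.card τ := by
  let E := (Module.finBasis ℂ ((τ → ℂ) ⧸ W)).equivFun
  let ψ := E.toLinearMap.comp W.mkQ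
  obtain ⟨𝔷, hz, -⟩ := exists_min_at (𝔞 := 𝔭 ⊔ Ideal.span (Set.range fun i =>
    lin ((LinearMap.proj i).comp ψ))) (y := 0) (mem_vZ_sup.2
      ⟨zero_mem_vZ (adm_w0 _).posw hh hp.ne_top,
        mem_vZ_span.2 (by rintro _ ⟨i, rfl⟩; rw [eval_lin, map_zero])⟩)
  have e1 := cut hp _ hz
  have e2 := W.finrank_quotient_add_finrank
  rw [Fintype.card_fin] at e1
  rw [finrank_fintype_fun_eq_card] at e2
  refine ⟨𝔷, hz.isPrime, hmin (hh.sup (homI_span ?_)) hz, le_sup_left.trans hz.le,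
    fun y hy => ?_, by omega⟩
  · rintro _ ⟨i, rfl⟩
    exact ⟨_, isWH_w0.2 (lin_hom _)⟩
  · have h2 := (mem_vZ_sup.1 (gmeet_anti hz.le hy)).2
    exact (Submodule.Quotient.mk_eq_zero W).1 (E.map_eq_zero_iff.1 (funext fun i =>
      (eval_lin _ y).symm.trans (mem_vZ_span.1 h2 _ ⟨i, rfl⟩)))

theorem meet_sub (hp : 𝔭.IsPrime) (hh : HomI (w0 τ) 𝔭) {K W : Submodule ℂ (τ → ℂ)}
    (hK : ∀ y ∈ vZ 𝔭, y ∈ K) (hW : W ≤ K) (h : finrank ℂ K < dm 𝔭 + finrank ℂ W) :
    ∃ y ∈ vZ 𝔭, y ≠ 0 ∧ y ∈ W := by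
  obtain ⟨U, hU⟩ := K.exists_isCompl
  obtain ⟨𝔷, h1, -, h2, h3, h4⟩ := cut_sub hp hh (W ⊔ U)
  have e1 := Submodule.finrank_add_eq_of_isCompl hU
  have e2 := Submodule.finrank_sup_add_finrank_inf_eq W U
  rw [(hU.disjoint.mono_left hW).eq_bot, finrank_bot] at e2
  rw [finrank_fintype_fun_eq_card] at e1
  obtain ⟨y, hy, h0⟩ := exists_ne_pt h1 (by omega) 0
  have hy' := gmeet_anti h2 hy
  refine ⟨y, hy', h0, ?_⟩
  obtain ⟨a, ha, b, hb, rfl⟩ := Submodule.mem_sup.1 (h3 y hy)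
  rw [Submodule.disjoint_def.1 hU.disjoint b ((K.add_mem_iff_right (hW ha)).1 (hK _ hy')) hb,
    add_zero]
  exact ha

theorem exists_gens {Z : Set (τ → ℂ)} (hZ : Cn Z) (hS : S.Countable) :
    ∃ (S' : Set ℂ) (m : ℕ) (G : Fin m → P τ), S'.Countable ∧ S ⊆ S' ∧ Gens S' Z G := by
  obtain ⟨m, G, -, -, e⟩ := exists_hom_gens hZ.homI
  obtain ⟨S', h1, h2, h3⟩ := exists_ov hS G
  refine ⟨S', m, G, h1, h2, h3, fun i => e ▸ Ideal.subset_span ⟨i, rfl⟩, fun y hy => ?_,
    fun y hy _ => nm_gens e hy⟩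
  rw [← hZ.closed, e]
  exact mem_vZ_span.2 (by rintro _ ⟨i, rfl⟩; exact hy i)

end PartSec

end Pool.Agent.MP_429080_ag.H73

namespace Pool.Agent.MP_429080_ag.H73

open MvPolynomial Module Pool.Agent.EGH Pool.Agent.MP_d171e3_nt Pool.Agent.MP_429080_ag.H26
open Pool.Agent.MP_429080_ag.H26.T

set_option linter.unusedSectionVars false

section PartSec
variable {τ ρ : Type} [Fintype τ] [Fintype ρ] {𝔭 : Ideal (P τ)} {S : Set ℂ}

/-- every closed cone is closed under specialisation over a countable extension -/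
theorem exists_sp (𝔭 : Ideal (P τ)) (hS : S.Countable) : ∃ S' : Set ℂ, S'.Countable ∧ S ⊆ S' ∧
    ∀ y ∈ vZ 𝔭, ∀ y', Sp S' y y' → y' ∈ vZ 𝔭 := by
  obtain ⟨s, rfl⟩ := IsNoetherian.noetherian 𝔭
  obtain ⟨S', h1, h2, h3⟩ := exists_ov hS fun f : s => f.1
  refine ⟨S', h1, h2, fun y hy y' h => ?_⟩
  have e : Set.range (fun f : s => f.1) = s := Subtype.range_coe
  have := h.mem_vZ h3
  rw [e] at this
  exact this hy

variable {x : τ → ℂ} {φ : (ρ → ℂ) →ₗ[ℂ] (τ → ℂ)}

theorem exists_line (hx : Rt S x) (hφ : RtL S φ)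
    (hi : ∀ (s : ℂ) w, s • x + φ w = 0 → w = 0 ∧ s = 0) :
    ∃ ψ : (ρ ⊕ Unit → ℂ) →ₗ[ℂ] (τ → ℂ), RtL S ψ ∧ Function.Injective ψ ∧
      ∀ v, ψ v = v (Sum.inr ()) • x + φ (v ∘ Sum.inl) := by
  refine ⟨(LinearMap.proj (Sum.inr ())).smulRight x + φ.comp (LinearMap.funLeft ℂ ℂ Sum.inl),
    fun D hD v => ?_, (injective_iff_map_eq_zero _).2 fun v hv => ?_, fun _ => rfl⟩
  · show ap D (v _ • x + φ (v ∘ Sum.inl)) = D (v _) • x + φ (ap D (v ∘ Sum.inl))
    rw [ap_add, ap_smul, hx.ap hD, smul_zero, zero_add, hφ D hD]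
  · obtain ⟨h1, h2⟩ := hi _ _ hv
    ext (i | i)
    exacts [congrFun h1 i, h2]

theorem td_line_le (hx : Rt S x) (hφ : RtL S φ)
    (hi : ∀ (s : ℂ) w, s • x + φ w = 0 → w = 0 ∧ s = 0) (a : ℂ) (w : ρ → ℂ) :
    td S w ≤ td S (a • x + φ w) := by
  obtain ⟨ψ, h1, h2, h3⟩ := exists_line hx hφ hi
  have h4 := td_map h1 h2 (Sum.elim w fun _ => a)
  rw [h3, td_tower] at h4
  exact (Nat.le_add_right _ _).trans h4.ge

theorem td_line (hx : Rt S x) (hφ : RtL S φ)
    (hi : ∀ (s : ℂ) w, s • x + φ w = 0 → w = 0 ∧ s = 0) {a : ℂ} {w : ρ → ℂ}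
    (ha : a ∉ cf (adj S w)) : td S (a • x + φ w) = td S w + 1 := by
  obtain ⟨ψ, h1, h2, h3⟩ := exists_line hx hφ hi
  have h4 := td_map h1 h2 (Sum.elim w fun _ => a)
  have h5 := td_le_card (adj S w) fun _ : Unit => a
  have h6 : td (adj S w) (fun _ : Unit => a) ≠ 0 := fun h => ha (td_eq_zero.1 h ())
  rw [h3, td_tower] at h4
  rw [Fintype.card_unit] at h5
  exact h4.trans (by omega)

theorem sp_line (hx : Rt S x) (hφ : RtL S φ)
    (hi : ∀ (s : ℂ) w, s • x + φ w = 0 → w = 0 ∧ s = 0) {a : ℂ} {w : ρ → ℂ} {y₀ : τ → ℂ}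
    (h : Sp S (a • x + φ w) y₀) : ∃ (a₀ : ℂ) (w₀ : ρ → ℂ), y₀ = a₀ • x + φ w₀ ∧ Sp S w w₀ := by
  obtain ⟨ψ, h1, h2, h3⟩ := exists_line hx hφ hi
  obtain ⟨χ, h4, h5⟩ := h1.left_inv h2
  have h6 : Sp S (ψ (Sum.elim w fun _ => a)) y₀ := by rwa [h3]
  obtain ⟨v, rfl⟩ := h6.mem_stab (W := LinearMap.range ψ)
    (by rintro D hD _ ⟨v, rfl⟩; exact ⟨_, (h1 D hD v).symm⟩) ⟨_, rfl⟩
  have h7 := h6.map h4
  rw [h5, h5] at h7
  exact ⟨_, _, h3 v, h7.comp Sum.inl⟩

theorem td_add {y p : τ → ℂ} (hy : Rt S y) : td S (y + p) = td S p := by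
  have e : dv S (y + p) = dv S p := by
    ext v
    simp only [mem_dv]
    exact exists_congr fun D => and_congr_right fun hD => by rw [ap_add, hy.ap hD, zero_add]
  rw [td, td, e]

end PartSec

end Pool.Agent.MP_429080_ag.H73

/-! Polynomial families of symmetric forms: the order of vanishing on the kernel. -/

namespace Pool.Agent.MP_429080_ag.H73

open MvPolynomial Module Pool.Agent.EGH Pool.Agent.MP_d171e3_nt Pool.Agent.MP_429080_ag.H26
open Pool.Agent.MP_429080_ag.H26.T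

set_option linter.unusedSectionVars false

section od
variable {j : ℕ} {a a' : ℂ} {f g : ℂ → ℂ}

/-- `f s = a * s ^ j + …` for a polynomial function `f` -/
def Od (j : ℕ) (a : ℂ) (f : ℂ → ℂ) : Prop :=
  ∃ r : Polynomial ℂ, r.eval 0 = a ∧ ∀ s, f s = s ^ j * r.eval s

theorem Od.congr (h : Od j a f) (e : ∀ s, g s = f s) : Od j a g := by
  rwa [funext e]

theorem od_zero (j : ℕ) : Od j 0 fun _ => 0 := ⟨0, by simp, by simp⟩

theorem Od.add (h : Od j a f) (h' : Od j a' g) : Od j (a + a') fun s => f s + g s := by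
  obtain ⟨r, rfl, h⟩ := h
  obtain ⟨r', rfl, h'⟩ := h'
  exact ⟨r + r', by simp, fun s => by simp only [h, h', Polynomial.eval_add, mul_add]⟩

theorem Od.smul (h : Od j a f) (b : ℂ) : Od j (b * a) fun s => b * f s := by
  obtain ⟨r, rfl, h⟩ := h
  exact ⟨Polynomial.C b * r, by simp, fun s => by simp [h, mul_left_comm b]⟩

theorem Od.sum {A : Type} (t : Finset A) {a : A → ℂ} {f : A → ℂ → ℂ} (h : ∀ i, Od j (a i) (f i)) :
    Od j (∑ i ∈ t, a i) fun s => ∑ i ∈ t, f i s := by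
  classical
  induction t using Finset.induction_on with
  | empty => simpa using od_zero j
  | insert i t hi ih => simpa [Finset.sum_insert hi] using (h i).add ih

theorem Od.succ (h : Od j a f) : Od (j + 1) a fun s => s * f s := by
  obtain ⟨r, rfl, h⟩ := h
  exact ⟨r, rfl, fun s => by simp only [h, pow_succ', mul_assoc]⟩

theorem Od.low (h : Od (j + 1) a f) : Od j 0 f := by
  obtain ⟨r, rfl, h⟩ := h
  exact ⟨Polynomial.X * r, by simp, fun s => by rw [h]; simp [pow_succ, mul_assoc]⟩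

theorem Od.le {i : ℕ} (h : Od j a f) (hi : i ≤ j) : ∃ a', Od i a' f := by
  induction j, hi using Nat.le_induction generalizing a with
  | base => exact ⟨a, h⟩
  | succ j _ ih => exact ih h.low

theorem Od.unique (h : Od j a f) (h' : Od j a' f) : a = a' := by
  obtain ⟨r, rfl, h⟩ := h
  obtain ⟨r', rfl, h'⟩ := h'
  have e : Polynomial.X ^ j * r = Polynomial.X ^ j * r' := Polynomial.funext fun s => by
    simp [← h, ← h']
  rw [mul_left_cancel₀ (pow_ne_zero j Polynomial.X_ne_zero) e]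

theorem od_all (h : ∀ j, ∃ a, Od j a f) (s : ℂ) : f s = 0 := by
  obtain ⟨_, r, -, h0⟩ := h 0
  obtain ⟨_, r', -, h1⟩ := h (r.natDegree + 1)
  have e : r = Polynomial.X ^ (r.natDegree + 1) * r' := Polynomial.funext fun s => by
    simpa [h0] using h1 s
  by_cases hr : r = 0
  · simp [h0, hr]
  · have := Polynomial.natDegree_le_of_dvd ⟨r', e⟩ hr
    simp at this

theorem Od.scale (h : Od j a f) (b : ℂ) : Od j (b ^ (j + 1) * a) fun s => b * f (b * s) := by
  obtain ⟨r, rfl, h⟩ := h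
  refine ⟨Polynomial.C (b ^ (j + 1)) * r.comp (Polynomial.C b * Polynomial.X),
    by simp [Polynomial.eval_comp], fun s => ?_⟩
  simp only [h, Polynomial.eval_mul, Polynomial.eval_C, Polynomial.eval_comp, Polynomial.eval_X]
  ring

end od

section fam
variable {σ : Type} [Fintype σ] {T T' : ℂ → Submodule ℂ (σ → ℂ)} {β β' : ℂ → Bil (σ → ℂ)}
  {u w : σ → Polynomial ℂ} {j : ℕ} {p : σ → ℂ} {a a' : ℂ}

theorem pe_add (u w : σ → Polynomial ℂ) (s : ℂ) : pe (u + w) s = pe u s + pe w s := by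
  ext i; simp [pe]

theorem pe_sub (u w : σ → Polynomial ℂ) (s : ℂ) : pe (u - w) s = pe u s - pe w s := by
  ext i; simp [pe]

theorem pe_smul (b : ℂ) (u : σ → Polynomial ℂ) (s : ℂ) : pe (b • u) s = b • pe u s := by
  ext i; simp [pe]

theorem pe_sum {A : Type} (t : Finset A) (u : A → σ → Polynomial ℂ) (s : ℂ) :
    pe (∑ i ∈ t, u i) s = ∑ i ∈ t, pe (u i) s := by
  ext i; simp [pe, Polynomial.eval_finsetSum]

/-- polynomial sections -/
def Sn (T : ℂ → Submodule ℂ (σ → ℂ)) : Submodule ℂ (σ → Polynomial ℂ) where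
  carrier := {u | ∀ s, pe u s ∈ T s}
  zero_mem' := fun s => by
    have : pe (0 : σ → Polynomial ℂ) s = 0 := by ext i; simp [pe]
    rw [this]
    exact zero_mem _
  add_mem' := fun ha hb s => by
    rw [pe_add]
    exact add_mem (ha s) (hb s)
  smul_mem' := fun b _ ha s => by
    rw [pe_smul]
    exact Submodule.smul_mem _ b (ha s)

theorem mem_Sn : u ∈ Sn T ↔ ∀ s, pe u s ∈ T s := Iff.rfl

structure Fm (T : ℂ → Submodule ℂ (σ → ℂ)) (β : ℂ → Bil (σ → ℂ)) : Prop where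
  sy : ∀ s, Sy (β s)
  cl : ∀ u, {s | pe u s ∉ T s}.Finite → u ∈ Sn T
  onto : ∀ s, ∀ v ∈ T s, ∃ u ∈ Sn T, pe u s = v
  poly : ∀ u ∈ Sn T, ∀ w ∈ Sn T, ∃ a, Od 0 a fun s => β s (pe u s) (pe w s)

/-- sections in the kernel up to order `j` -/
def Kn (T : ℂ → Submodule ℂ (σ → ℂ)) (β : ℂ → Bil (σ → ℂ)) (j : ℕ) (u : σ → Polynomial ℂ) : Prop :=
  u ∈ Sn T ∧ ∀ w ∈ Sn T, ∃ a, Od j a fun s => β s (pe u s) (pe w s)

def Ar (T : ℂ → Submodule ℂ (σ → ℂ)) (β : ℂ → Bil (σ → ℂ)) (j : ℕ) (p : σ → ℂ) (a : ℂ) : Prop :=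
  ∃ u, Kn T β j u ∧ pe u 0 = p ∧ Od j a fun s => β s (pe u s) (pe u s)

theorem Fm.div (F : Fm T β) (hu : u ∈ Sn T) (h0 : pe u 0 = 0) :
    ∃ w ∈ Sn T, ∀ s, pe u s = s • pe w s := by
  have h : ∀ s, pe u s = s • pe (fun i => (u i).divX) s := fun s => funext fun i => by
    have h1 : (u i).coeff 0 = 0 := by
      rw [Polynomial.coeff_zero_eq_eval_zero]
      exact congrFun h0 i
    have h2 := congrArg (Polynomial.eval s) (u i).X_mul_divX_add
    simpa [h1, pe] using h2.symm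
  refine ⟨_, F.cl _ ((Set.finite_singleton (0 : ℂ)).subset fun s hs => ?_), h⟩
  by_contra h1
  refine hs ?_
  have h2 := Submodule.smul_mem _ s⁻¹ (mem_Sn.1 hu s)
  rwa [h, smul_smul, inv_mul_cancel₀ h1, one_smul] at h2

theorem Fm.unique (F : Fm T β) (h : Ar T β j p a) (h' : Ar T β j p a') : a = a' := by
  obtain ⟨u, hu, h0, h⟩ := h
  obtain ⟨u', hu', h0', h'⟩ := h'
  obtain ⟨w, hw, e⟩ := F.div (sub_mem hu.1 hu'.1) (by rw [pe_sub, h0, h0', sub_self])
  obtain ⟨b, hb⟩ := hu.2 w hw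
  obtain ⟨b', hb'⟩ := hu'.2 w hw
  refine h.unique (((h'.add hb.succ.low).add hb'.succ.low).congr fun s => ?_) |>.trans (by simp)
  have e1 : pe u s = pe u' s + s • pe w s := by rw [← e, pe_sub, add_sub_cancel]
  have e2 := F.sy s (pe w s) (pe u' s)
  conv_lhs => rw [F.sy s]; arg 2; rw [e1]
  rw [map_add, map_smul, F.sy s (pe u s) (pe u' s)]
  conv_lhs => arg 1; arg 2; rw [e1]
  simp only [map_add, map_smul, smul_eq_mul]
  ring

theorem Ar.smul (h : Ar T β j p a) (b : ℂ) : Ar T β j (b • p) (b * (b * a)) := by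
  obtain ⟨u, hu, h0, h⟩ := h
  refine ⟨b • u, ⟨Submodule.smul_mem _ b hu.1, fun w hw => ?_⟩, by rw [pe_smul, h0],
    ((h.smul b).smul b).congr fun s => by simp [pe_smul]⟩
  obtain ⟨a', h'⟩ := hu.2 w hw
  exact ⟨_, (h'.smul b).congr fun s => by simp [pe_smul]⟩

/-- a section orthogonal to a maximal nondegenerate family -/
theorem Fm.kn (F : Fm T β) {r : ℕ} {e : Fin r → σ → Polynomial ℂ} (he : ∀ i, e i ∈ Sn T)
    (hr : finrank ℂ (T 0) ≤ finrank ℂ (rad (β 0) (T 0)) + r)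
    (hd : (Matrix.of fun i k => β 0 (pe (e i) 0) (pe (e k) 0)).det ≠ 0) (hu : u ∈ Sn T)
    (h0 : ∀ i s, β s (pe u s) (pe (e i) s) = 0)
    (h1 : ∀ p ∈ rad (β 0) (T 0), ∃ t ∈ Sn T, pe t 0 = p ∧
      ∃ a, Od j a fun s => β s (pe u s) (pe t s)) : Kn T β j u := by
  have key : ∀ i ≤ j, ∀ w ∈ Sn T, ∃ a, Od i a fun s => β s (pe u s) (pe w s) := by
    intro i
    induction i with
    | zero => exact fun _ w hw => F.poly u hu w hw
    | succ i ih =>
      intro hi w hw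
      obtain ⟨l, hl⟩ := gram_span (F.sy 0) (fun i => mem_Sn.1 (he i) 0) hr hd (mem_Sn.1 hw 0)
      obtain ⟨t, ht, ht0, a, ha⟩ := h1 _ hl
      obtain ⟨q, hq, e1⟩ := F.div (sub_mem (sub_mem hw
        (Submodule.sum_mem _ fun i (_ : i ∈ Finset.univ) => Submodule.smul_mem _ (l i) (he i))) ht)
        (by simp only [pe_sub, pe_sum, pe_smul, ht0, sub_self])
      obtain ⟨b, hb⟩ := ih (by omega) q hq
      obtain ⟨a', ha'⟩ := ha.le hi
      refine ⟨_, (ha'.add hb.succ).congr fun s => ?_⟩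
      have e2 : pe w s = ∑ i, l i • pe (e i) s + pe t s + s • pe q s := by
        rw [← e1]
        simp only [pe_sub, pe_sum, pe_smul]
        abel
      simp only [e2, map_add, map_sum, map_smul, h0, smul_eq_mul, mul_zero, Finset.sum_const_zero, zero_add]
  exact ⟨hu, key j le_rfl⟩

/-- the bordered vector -/
noncomputable def brd {R : Type} [CommRing R] {r : ℕ} (M : Matrix (Fin r) (Fin r) R)
    (m : Fin r → R) (p : σ → R) (e : Fin r → σ → R) : σ → R :=
  fun i => M.det * p i - ∑ a, ∑ b, m a * M.adjugate a b * e b i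

theorem map_brd {R R' : Type} [CommRing R] [CommRing R'] (f : R →+* R') {r : ℕ}
    (M : Matrix (Fin r) (Fin r) R) (m : Fin r → R) (p : σ → R) (e : Fin r → σ → R) (i : σ) :
    f (brd M m p e i) =
      brd (M.map f) (fun a => f (m a)) (fun i => f (p i)) (fun a i => f (e a i)) i := by
  have h := f.map_adjugate M
  simp only [RingHom.mapMatrix_apply] at h
  simp only [brd, map_sub, map_mul, map_sum, RingHom.map_det, RingHom.mapMatrix_apply, ← h,
    Matrix.map_apply]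

theorem brd_eq {r : ℕ} (M : Matrix (Fin r) (Fin r) ℂ) (m : Fin r → ℂ) (p : σ → ℂ)
    (e : Fin r → σ → ℂ) :
    brd M m p e = M.det • p - ∑ a, ∑ b, (m a * M.adjugate a b) • e b := by
  ext i
  simp only [brd, Pi.sub_apply, Pi.smul_apply, smul_eq_mul, Finset.sum_apply]

theorem brd_orth (B : Bil (σ → ℂ)) (d : ℂ) {r : ℕ} {M : Matrix (Fin r) (Fin r) ℂ} {m : Fin r → ℂ}
    {e : Fin r → σ → ℂ} (hM : ∀ a b, M a b = d * B (e a) (e b)) (hm : ∀ a, m a = d * B p (e a))
    (k : Fin r) : d * B (brd M m p e) (e k) = 0 := by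
  have h : ∀ a, ∑ b, M.adjugate a b * M b k = if a = k then M.det else 0 := fun a => by
    rw [← Matrix.mul_apply, Matrix.adjugate_mul, Matrix.smul_apply, Matrix.one_apply]
    simp only [smul_eq_mul, mul_ite, mul_one, mul_zero]
  have h2 : d * ∑ a, ∑ b, m a * M.adjugate a b * B (e b) (e k) = m k * M.det := by
    rw [Finset.mul_sum, ← Finset.sum_ite_eq_of_mem' Finset.univ k (fun a => m a * M.det)
      (Finset.mem_univ k)]
    refine Finset.sum_congr rfl fun a _ => ?_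
    rw [← mul_zero (m a), ← mul_ite, ← h, Finset.mul_sum, Finset.mul_sum]
    exact Finset.sum_congr rfl fun b _ => by rw [hM]; ring
  simp only [brd_eq, map_sub, map_sum, map_smul, LinearMap.sub_apply, LinearMap.sum_apply,
    LinearMap.smul_apply, smul_eq_mul, mul_sub, h2]
  rw [hm]
  ring

theorem gram_pick {V ι : Type} [AddCommGroup V] [Module ℂ V] [Module.Finite ℂ V] {B : Bil V}
    {W : Submodule ℂ V} (hs : Sy B) {v : ι → V} (hv : Submodule.span ℂ (Set.range v) = W) :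
    ∃ (r : ℕ) (I : Fin r → ι), finrank ℂ (rad B W) + r = finrank ℂ W ∧
      (Matrix.of fun i k => B (v (I i)) (v (I k))).det ≠ 0 := by
  obtain ⟨f, h1, h2, h3⟩ :=
    Submodule.exists_fun_fin_finrank_span_eq ℂ (Set.range fun t => (rad B W).mkQ (v t))
  choose I hI using h1
  have hm : ∀ t, v t ∈ W := fun t => hv ▸ Submodule.subset_span ⟨t, rfl⟩
  have h4 : Submodule.span ℂ (Set.range fun t => (rad B W).mkQ (v t)) = W.map (rad B W).mkQ := by
    have := Submodule.map_span (rad B W).mkQ (Set.range v)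
    rw [hv, ← Set.range_comp] at this
    exact this.symm
  refine ⟨_, I, ?_, fun h => ?_⟩
  · have h5 := finrank_map_add (rad B W).mkQ W
    rw [Submodule.ker_mkQ, inf_eq_right.2 (show rad B W ≤ W from inf_le_left)] at h5
    rw [h4, add_comm, h5]
  · obtain ⟨l, hl, h0⟩ := Matrix.exists_vecMul_eq_zero_iff.2 h
    have h5 : ∑ i, l i • v (I i) ∈ W := W.sum_mem fun i _ => W.smul_mem _ (hm _)
    have h6 : ∑ i, l i • v (I i) ∈ rad B W := ⟨h5, fun w hw => by
      have h7 : (rad B W).mkQ w ∈ Submodule.span ℂ (Set.range f) := by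
        rw [h2, h4]
        exact ⟨w, hw, rfl⟩
      obtain ⟨μ, hμ⟩ := (Submodule.mem_span_range_iff_exists_fun _).1 h7
      have h8 : ∑ i, μ i • v (I i) - w ∈ rad B W := by
        rw [← Submodule.Quotient.eq, ← Submodule.mkQ_apply, ← Submodule.mkQ_apply, ← hμ]
        simp only [map_sum, map_smul, hI]
      have h9 := h8.2 _ h5
      rw [hs, map_sub, map_sum, Finset.sum_eq_zero, zero_sub, neg_eq_zero] at h9
      · exact h9
      · intro k _
        have := congrFun h0 k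
        simp only [Matrix.vecMul, dotProduct, Matrix.of_apply, Pi.zero_apply] at this
        simp only [map_smul, LinearMap.map_sum₂, LinearMap.smul_apply, smul_eq_mul, this, mul_zero]⟩
    refine hl (funext (Fintype.linearIndependent_iff.1 h3 l ?_))
    have h7 := (Submodule.Quotient.mk_eq_zero _).2 h6
    rw [← Submodule.mkQ_apply] at h7
    simpa only [map_sum, map_smul, hI] using h7

theorem indep_cofinite {q : ℕ} {t : Fin q → σ → Polynomial ℂ}
    (h : LinearIndependent ℂ fun i => pe (t i) 0) :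
    {s | ¬ LinearIndependent ℂ fun i => pe (t i) s}.Finite := by
  obtain ⟨r, hr⟩ := exists_minor h
  have e : ∀ s, (Matrix.of fun a b => t a (r b)).det.eval s =
      (Matrix.of fun a b => pe (t a) s (r b)).det := fun s => by
    rw [← Polynomial.coe_evalRingHom, RingHom.map_det]
    rfl
  refine (Polynomial.finite_setOfPred_isRoot (p := (Matrix.of fun a b => t a (r b)).det)
    fun h0 => hr (by rw [← e, h0, Polynomial.eval_zero])).subset fun s hs => ?_
  by_contra hn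
  exact hs (indep_of_minor r fun h0 => hn ((e s).trans h0))

/-- the order of vanishing on the kernel and its leading form -/
theorem Fm.ord (F : Fm T β)
    (hf : {s | finrank ℂ (rad (β 0) (T 0)) ≤ finrank ℂ (rad (β s) (T s))}.Finite) :
    ∃ (j : ℕ) (f : P σ), (∃ p ∈ rad (β 0) (T 0), eval p f ≠ 0) ∧
      ∀ p ∈ rad (β 0) (T 0), Ar T β j p (eval p f) := by
  obtain ⟨r, v, hv, hr, hd⟩ := exists_gram (T := T 0) (K := rad (β 0) (T 0)) (B := β 0)
    (fun _ => Iff.rfl) fun u _ v _ => F.sy 0 u v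
  choose e he he0 using fun i => F.onto 0 _ (hv i)
  simp only [← he0] at hd
  choose _ M _ hM using fun i k => F.poly _ (he i) _ (he k)
  simp only [pow_zero, one_mul] at hM
  have hM' : ∀ s, (Matrix.of M).map (Polynomial.evalRingHom s) =
      Matrix.of fun i k => β s (pe (e i) s) (pe (e k) s) := fun s => by
    ext i k
    exact (hM i k s).symm
  have h1 : ∀ p ∈ rad (β 0) (T 0), ∃ t ∈ Sn T, pe t 0 = p ∧
      ∀ i s, β s (pe t s) (pe (e i) s) = 0 := by
    intro p hp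
    obtain ⟨u, hu, hu0⟩ := F.onto 0 p hp.1
    choose _ m _ hm using fun i => F.poly _ hu _ (he i)
    simp only [pow_zero, one_mul] at hm
    have h2 : ∀ s, pe (brd (Matrix.of M) m u e) s =
        brd (Matrix.of fun i k => β s (pe (e i) s) (pe (e k) s))
          (fun i => β s (pe u s) (pe (e i) s)) (pe u s) fun i => pe (e i) s := fun s => by
      ext i
      have := map_brd (Polynomial.evalRingHom s) (Matrix.of M) m u e i
      rw [hM'] at this
      simp only [hm]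
      exact this
    refine ⟨(Matrix.of fun i k => β 0 (pe (e i) 0) (pe (e k) 0)).det⁻¹ • brd (Matrix.of M) m u e,
      Submodule.smul_mem _ _ (mem_Sn.2 fun s => ?_), ?_, fun i s => ?_⟩
    · rw [h2, brd_eq]
      exact sub_mem (Submodule.smul_mem _ _ (mem_Sn.1 hu s)) (sum_mem fun a _ => sum_mem fun b _ =>
        Submodule.smul_mem _ _ (mem_Sn.1 (he b) s))
    · rw [pe_smul, h2, brd_eq, hu0]
      simp only [fun i => hp.2 _ (mem_Sn.1 (he i) 0), zero_mul, zero_smul, Finset.sum_const_zero, sub_zero, smul_smul, inv_mul_cancel₀ hd, one_smul]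
    · have := brd_orth (β s) 1 (p := pe u s) (e := fun i => pe (e i) s)
        (M := Matrix.of fun i k => β s (pe (e i) s) (pe (e k) s))
        (m := fun i => β s (pe u s) (pe (e i) s)) (fun _ _ => (one_mul _).symm)
        (fun _ => (one_mul _).symm) i
      rw [pe_smul, h2, map_smul, LinearMap.smul_apply, ← one_mul (β s _ _), this, smul_zero]
  let b := Module.finBasis ℂ (rad (β 0) (T 0))
  choose t ht ht0 hte using fun i => h1 _ (b i).2
  have hi : LinearIndependent ℂ fun i => pe (t i) 0 := by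
    simp only [ht0]
    exact b.linearIndependent.map' (rad (β 0) (T 0)).subtype (Submodule.ker_subtype _)
  obtain ⟨π, hπ⟩ := (Fintype.linearCombination ℂ fun i => pe (t i) 0).exists_leftInverse_of_injective
    (LinearMap.ker_eq_bot.2 hi.fintypeLinearCombination_injective)
  have hπ' : ∀ l, π (∑ i, l i • pe (t i) 0) = l := fun l => by
    simpa only [map_sum, map_smul, LinearMap.coe_comp, Function.comp_apply, Fintype.linearCombination_apply, LinearMap.id_coe, id_eq] using LinearMap.congr_fun hπ l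
  have hb : ∀ p ∈ rad (β 0) (T 0), ∑ i, π p i • pe (t i) 0 = p := fun p hp => by
    have e1 : ∑ i, b.repr ⟨p, hp⟩ i • pe (t i) 0 = p := by
      have := congrArg Subtype.val (b.sum_repr ⟨p, hp⟩)
      rw [Submodule.coe_sum] at this
      simp only [ht0]
      exact this
    conv_lhs => rw [← e1, hπ']
    exact e1
  have hs : ∀ l : Fin _ → ℂ, ∑ i, l i • t i ∈ Sn T := fun l =>
    sum_mem fun i _ => Submodule.smul_mem _ _ (ht i)
  have key : ∀ j (a : Fin _ → Fin _ → ℂ),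
      (∀ i k, Od j (a i k) fun s => β s (pe (t i) s) (pe (t k) s)) → ∀ l l' : Fin _ → ℂ,
      Od j (∑ i, ∑ k, l i * l' k * a i k)
        fun s => β s (pe (∑ i, l i • t i) s) (pe (∑ i, l' i • t i) s) := fun j a ha l l' =>
    (Od.sum _ fun i => Od.sum _ fun k => (ha i k).smul (l i * l' k)).congr fun s => by
      simp only [pe_sum, pe_smul, LinearMap.map_sum₂, LinearMap.map_smul₂]
      simp only [map_sum, map_smul, smul_eq_mul, Finset.mul_sum, mul_assoc]
  have key2 : ∀ j (a : Fin _ → Fin _ → ℂ),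
      (∀ i k, Od j (a i k) fun s => β s (pe (t i) s) (pe (t k) s)) → ∀ l : Fin _ → ℂ,
      Kn T β j (∑ i, l i • t i) := fun j a ha l =>
    F.kn he hr.ge hd (hs l) (fun i s => by simp only [pe_sum, pe_smul, map_sum, map_smul, LinearMap.coe_sum, LinearMap.coe_smul, Finset.sum_apply, Pi.smul_apply, hte, smul_eq_mul, mul_zero, Finset.sum_const_zero]) fun p hp =>
      ⟨_, hs (π p), by simp only [pe_sum, pe_smul, hb p hp], _, key j a ha l (π p)⟩
  by_contra hn
  have h3 : ∀ j, ∃ a : Fin _ → Fin _ → ℂ,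
      ∀ i k, Od j (a i k) fun s => β s (pe (t i) s) (pe (t k) s) := by
    intro j
    induction j with
    | zero =>
      choose a ha using fun i k => F.poly _ (ht i) _ (ht k)
      exact ⟨a, ha⟩
    | succ j ih =>
      obtain ⟨a, ha⟩ := ih
      have h4 : ∀ l : Fin _ → ℂ, ∑ i, ∑ k, l i * l k * a i k = 0 := fun l => by
        by_contra h5
        have ev : ∀ p, eval p (∑ i, ∑ k, lin ((LinearMap.proj i).comp π) *
            lin ((LinearMap.proj k).comp π) * C (a i k)) = ∑ i, ∑ k, π p i * π p k * a i k :=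
          fun p => by simp only [map_sum, map_mul, eval_lin, LinearMap.coe_comp, LinearMap.coe_proj, Function.comp_apply, Function.eval, eval_C]
        refine hn ⟨j, _, ⟨∑ i, l i • pe (t i) 0, sum_mem fun i _ => Submodule.smul_mem _ _
          (ht0 i ▸ (b i).2), by rwa [ev, hπ']⟩, fun p hp => ⟨_, key2 j a ha (π p), ?_, ?_⟩⟩
        · simp only [pe_sum, pe_smul, hb p hp]
        · rw [ev]
          exact key j a ha _ _
      have h5 : ∀ i k, a i k = 0 := fun i k => by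
        have e1 := h4 (Pi.single i 1)
        have e2 := h4 (Pi.single k 1)
        have e3 := h4 (Pi.single i 1 + Pi.single k 1)
        have e4 : a i k = a k i := (ha i k).unique ((ha k i).congr fun s => F.sy s _ _)
        simp only [Pi.add_apply, add_mul, mul_add, Finset.sum_add_distrib, Pi.single_apply, ite_mul,
          mul_ite, one_mul, zero_mul, mul_zero, mul_one, Finset.sum_ite_eq', Finset.mem_univ,
          if_true] at e1 e2 e3
        linear_combination (e3 - e1 - e2 + e4) / 2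
      have h6 : ∀ i k, ∃ a', Od (j + 1) a' fun s => β s (pe (t i) s) (pe (t k) s) := fun i k => by
        obtain ⟨q, h7, h8⟩ := ha i k
        refine ⟨_, q.divX, rfl, fun s => ?_⟩
        have h9 := congrArg (Polynomial.eval s) q.X_mul_divX_add
        rw [Polynomial.coeff_zero_eq_eval_zero, h7, h5] at h9
        rw [h8, ← h9]
        simp [pow_succ, mul_assoc]
      choose a' ha' using h6
      exact ⟨a', ha'⟩
  have h4 : ∀ i s, pe (t i) s ∈ rad (β s) (T s) := fun i s => ⟨mem_Sn.1 (ht i) s, fun v hv => by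
    obtain ⟨w, hw, rfl⟩ := F.onto s v hv
    refine od_all (f := fun s => β s (pe (t i) s) (pe w s)) (fun j => ?_) s
    obtain ⟨a, ha⟩ := h3 j
    simpa only [Pi.single_apply, ite_smul, one_smul, zero_smul, Finset.sum_ite_eq', Finset.mem_univ, ↓ reduceIte] using (key2 j a ha (Pi.single i 1)).2 w hw⟩
  obtain ⟨s, hs⟩ := (hf.union (indep_cofinite hi)).exists_notMem
  rw [Set.mem_union, not_or, Set.mem_ofPred_eq, Set.mem_ofPred_eq, not_not] at hs
  refine hs.1 ?_
  have h5 := finrank_span_eq_card hs.2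
  rw [Fintype.card_fin] at h5
  exact h5.ge.trans (Submodule.finrank_mono (Submodule.span_le.2 (Set.range_subset_iff.2
    fun i => h4 i s)))

theorem Ar.scale {b : ℂ} (hb : b ≠ 0) (hT : ∀ s, T' s = T (b * s))
    (hβ : ∀ s, ∀ u ∈ T' s, ∀ v ∈ T' s, β' s u v = b * β (b * s) u v) (h : Ar T β j p a) :
    Ar T' β' j p (b ^ (j + 1) * a) := by
  obtain ⟨u, hu, h0, h⟩ := h
  have e : ∀ (d : ℂ) (w : σ → Polynomial ℂ) s,
      pe (fun i => (w i).comp (Polynomial.C d * Polynomial.X)) s = pe w (d * s) := fun d w s => by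
    ext i
    simp [pe, Polynomial.eval_comp]
  have hu' : ∀ s, pe u (b * s) ∈ T' s := fun s => hT s ▸ mem_Sn.1 hu.1 _
  refine ⟨fun i => (u i).comp (Polynomial.C b * Polynomial.X),
    ⟨mem_Sn.2 fun s => e b u s ▸ hu' s, fun w hw => ?_⟩, by rw [e, mul_zero, h0],
    (h.scale b).congr fun s => by rw [e, hβ s _ (hu' s) _ (hu' s)]⟩
  obtain ⟨a', h'⟩ := hu.2 (fun i => (w i).comp (Polynomial.C b⁻¹ * Polynomial.X))
    (mem_Sn.2 fun s => by
      have := mem_Sn.1 hw (b⁻¹ * s)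
      rwa [hT, mul_inv_cancel_left₀ hb, ← e] at this)
  exact ⟨_, (h'.scale b).congr fun s => by
    rw [e, e, inv_mul_cancel_left₀ hb, hβ s _ (hu' s) _ (mem_Sn.1 hw s)]⟩

end fam

end Pool.Agent.MP_429080_ag.H73

/-! The locus where the kernel of the second fundamental form jumps is small. -/

namespace Pool.Agent.MP_429080_ag.H73

open MvPolynomial Module Pool.Agent.EGH Pool.Agent.MP_d171e3_nt Pool.Agent.MP_429080_ag.H26
open Pool.Agent.MP_429080_ag.H26.T

set_option linter.unusedSectionVars false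

variable {σ : Type} [Fintype σ] {C : Set (σ → ℂ)} {c n k m : ℕ} {S : Set ℂ} {G : Fin m → P σ}
  {x y y₀ h p : σ → ℂ}

theorem exists_coeff {K : Subfield ℂ} (hx : ∀ i, x i ∈ K) (j : ℕ) : ∀ b : P σ, Ov K b →
    ∃ b' : P σ, Ov K b' ∧ ∀ y, eval y b' = j.factorial * (lp y x b).coeff j := by
  induction j with
  | zero => exact fun b hb => ⟨b, hb, fun y => by simp [lp_coeff_zero]⟩
  | succ j ih =>
    intro b hb
    obtain ⟨b', h1, h2⟩ := ih (∑ i, pderiv i b * MvPolynomial.C (x i))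
      (ov_sum fun i _ => ov_mul (hb.pderiv i) (ov_C (hx i)))
    refine ⟨b', h1, fun y => ?_⟩
    have e : lp y x (∑ i, pderiv i b * MvPolynomial.C (x i)) = (lp y x b).derivative := by
      simp only [map_sum, map_mul, algHom_C, Polynomial.algebraMap_eq, lp_deriv]
    rw [h2, e, Polynomial.coeff_derivative, Nat.factorial_succ]
    push_cast
    ring

theorem sp_line38 (hg : Gens S C G) (hx : Rt S x) (hs : Sp S y y₀) (hl : ∀ s : ℂ, y + s • x ∈ C)
    (s : ℂ) : y₀ + s • x ∈ C := by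
  refine hg.zero _ fun i => ?_
  have h : lp y₀ x (G i) = 0 := Polynomial.ext fun j => by
    obtain ⟨b, h1, h2⟩ := exists_coeff hx j _ (hg.ov i)
    have h3 := hs b h1 (by rw [h2, gchart_zero hl (hg.mem i), Polynomial.coeff_zero, mul_zero])
    rw [h2] at h3
    exact (mul_eq_zero.1 h3).resolve_left (Nat.cast_ne_zero.2 j.factorial_ne_zero)
  rw [← eval_lp, h, Polynomial.eval_zero]

theorem line_of (hC : Cn C) (hx : x ∈ C) (hl : ∀ s : ℂ, y + s • x ∈ C) (s t : ℂ) :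
    s • x + t • y ∈ C := by
  by_cases ht : t = 0
  · rw [ht, zero_smul, add_zero]
    exact hC.cone s x hx
  · have := hC.cone t _ (hl (t⁻¹ * s))
    rwa [smul_add, smul_smul, mul_inv_cancel_left₀ ht, add_comm] at this

theorem line_ct (hC : Sm C c) (hf : Free C x) (hx : Ct C h x) (hy : y ∈ Ky C x h)
    (hl : ∀ s t : ℂ, s • x + t • y ∈ C) (hi : LinearIndependent ℂ ![x, y]) (s : ℂ) :
    Ct C h (y + s • x) := by
  rw [add_comm]
  refine ⟨line_mem hl s, line_ne hi s, ?_⟩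
  obtain ⟨h2, h3⟩ := ch_spec hx.2.2
  have h4 := psi0 hC hl hi hf h2 (fun a ha => by
    rw [← hb_om]
    exact hy.2 a ha) s
  rwa [h3] at h4

theorem line_fm (hC : Sm C c) (hf : Free C x) (hl : ∀ s t : ℂ, s • x + t • y ∈ C)
    (hi : LinearIndependent ℂ ![x, y]) (hc : ∀ s : ℂ, Ct C h (y + s • x)) :
    Fm (fun s => tangent C (y + s • x)) fun s => II C (y + s • x) h := by
  refine ⟨fun s => II_sy _ _ _, fun u hu => mem_Sn.2 fun s => mem_tangent.2 fun f hf => ?_,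
    fun s v hv => ?_, fun u hu w hw => ?_⟩
  · have e : ∀ s, (∑ i, lp y x (pderiv i f) * u i).eval s = grad f (y + s • x) ⬝ᵥ pe u s :=
      fun s => by simp only [Polynomial.eval_finsetSum, Polynomial.eval_mul, eval_lp, dotProduct, grad, pe]
    have h0 : ∑ i, lp y x (pderiv i f) * u i = 0 :=
      Polynomial.eq_zero_of_infinite_isRoot _ (hu.infinite_compl.mono fun t ht =>
        (e t).trans (mem_tangent.1 (not_not.1 ht) f hf))
    rw [← e, h0, Polynomial.eval_zero]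
  · obtain ⟨a, b, hp, rfl⟩ := span_pairs hC hl hi hf s (add_comm y _ ▸ hv)
    obtain ⟨u, -, hu, -⟩ := pen_lin a b
    exact ⟨u, mem_Sn.2 fun t => by
      rw [add_comm y, show pe u t = _ from hu t]
      exact pair_mem hC.toCn hp t, hu s⟩
  · obtain ⟨b, -, hb, -⟩ := pencil_core hC hl hi hf (v := u) (v' := w)
      (e₁ := Finset.univ.sup (fun i => (u i).natDegree) + 1)
      (e₂ := Finset.univ.sup fun i => (w i).natDegree) (add_right_comm _ _ _)
      (fun i => (Finset.le_sup (f := fun i => (u i).natDegree) (Finset.mem_univ i)).trans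
        (Nat.le_succ _))
      (fun i => Finset.le_sup (f := fun i => (w i).natDegree) (Finset.mem_univ i))
      (mem_Sn.1 hu) (mem_Sn.1 hw)
    refine ⟨_, ∑ i, Polynomial.C (h i) * b i, rfl, fun s => ?_⟩
    obtain ⟨h1, h2⟩ := ch_spec (hc s).2.2
    have h3 := hb _ h1 s
    rw [h2] at h3
    simp only [II_apply, hb_om, pow_zero, one_mul]
    refine h3.trans ?_
    simp only [dotProduct, Polynomial.eval_finsetSum, Polynomial.eval_mul, Polynomial.eval_C]

theorem bf_single [DecidableEq σ] (M : Matrix σ σ ℂ) (v : σ → ℂ) (t : σ) :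
    bf M v (Pi.single t 1) = ∑ s, v s * M s t := by
  simp only [bf, Pi.single_apply, mul_ite, mul_one, mul_zero, Finset.sum_ite_eq', Finset.mem_univ, ↓ reduceIte]

/-- the leading form in a chart -/
theorem lead_chart {F : Fin c → P σ} {δ : P σ} {co : Fin c → P σ} {τ : σ → σ → P σ}
    (H : Cht C S h y₀ F δ co τ) (hC : Sm C c) (hx : Rt S x) (hp : Rt S p) (h0 : Ct C h y₀) (j : ℕ) :
    ∃ Δ b : P σ, Ov (cf S) Δ ∧ Ov (cf S) b ∧ eval y₀ Δ ≠ 0 ∧ ∀ (y : σ → ℂ) (a : ℂ),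
      (∀ s : ℂ, Ct C h (y + s • x)) →
      Fm (fun s => tangent C (y + s • x)) (fun s => II C (y + s • x) h) → eval y Δ ≠ 0 →
      finrank ℂ (Ky C y₀ h) ≤ finrank ℂ (Ky C y h) → p ∈ Ky C y h →
      (∀ q ∈ Ky C y h, ∃ a', Ar (fun s => tangent C (y + s • x)) (fun s => II C (y + s • x) h)
        j q a') →
      Ar (fun s => tangent C (y + s • x)) (fun s => II C (y + s • x) h) j p a →
      eval y b = eval y Δ * a := by
  classical
  obtain ⟨r, I, hr, hd⟩ := gram_pick (II_sy C y₀ h) (H.span_mv h0.1 h0.2.1 H.ne)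
  let M : Matrix (Fin r) (Fin r) (P σ) := Matrix.of fun a b => Qm F co τ (I a) (I b)
  let U : σ → P σ := brd M (fun a => ∑ s, MvPolynomial.C (p s) * Qm F co τ s (I a))
    (fun i => ∑ t, τ i t * MvPolynomial.C (p t)) fun a i => τ i (I a)
  have hM : ∀ y, Ct C h y → eval y δ ≠ 0 → ∀ a b, M.map (eval y) a b = eval y δ *
      II C y h (mv τ y (Pi.single (I a) 1)) (mv τ y (Pi.single (I b) 1)) := fun y hy hδ a b => by
    rw [← H.bf_Qm hC hy hδ, bf_single]
    simp only [M, Matrix.map_apply, Matrix.of_apply, Pi.single_apply, ite_mul, one_mul, zero_mul, Finset.sum_ite_eq', Finset.mem_univ, ↓ reduceIte]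
  have hdet : ∀ y, Ct C h y → eval y δ ≠ 0 → eval y M.det = eval y δ ^ r * (Matrix.of fun a b =>
      II C y h (mv τ y (Pi.single (I a) 1)) (mv τ y (Pi.single (I b) 1))).det := fun y hy hδ => by
    conv_rhs => arg 1; rw [← Fintype.card_fin r]
    rw [RingHom.map_det, ← Matrix.det_smul]
    congr 1
    ext a b
    exact hM y hy hδ a b
  have hU : ∀ y, ev y U = brd (M.map (eval y)) (fun a => bf ((Qm F co τ).map (eval y)) p
      (Pi.single (I a) 1)) (mv τ y p) fun a => mv τ y (Pi.single (I a) 1) := fun y => by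
    ext i
    refine (map_brd (eval y) _ _ _ _ i).trans ?_
    congr 1
    · ext a
      simp only [map_sum, map_mul, eval_C, bf_single, Matrix.map_apply]
    · ext a
      simp only [map_sum, map_mul, eval_C, mv]
    · ext a s
      simp [mv, Pi.single_apply]
  have oM : ∀ a b, Ov (cf S) (M a b) := fun a b => H.ov_Qm _ _
  have oU : ∀ i, Ov (cf S) (U i) := fun i => ov_sub
    (ov_mul (ov_det oM) (ov_sum fun t _ => ov_mul (H.ovt _ _) (ov_C (hp t))))
    (ov_sum fun a _ => ov_sum fun b _ => ov_mul (ov_mul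
      (ov_sum fun s _ => ov_mul (ov_C (hp s)) (H.ov_Qm _ _)) (ov_adjugate oM a b)) (H.ovt _ _))
  obtain ⟨b, ob, hb⟩ := exists_coeff hx j
    (∑ i, co i * ∑ s, ∑ t, pderiv s (pderiv t (F i)) * U s * U t)
    (ov_sum fun i _ => ov_mul (H.ovc i) (ov_sum fun s _ => ov_sum fun t _ =>
      ov_mul (ov_mul (((H.ovG i).pderiv t).pderiv s) (oU s)) (oU t)))
  refine ⟨MvPolynomial.C (j.factorial : ℂ) * δ ^ 3 * M.det ^ 2, b,
    ov_mul (ov_mul (ov_C (natCast_mem _ _)) (ov_pow H.ovd 3)) (ov_pow (ov_det oM) 2), ob, ?_,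
    fun y a hc Fy hΔ hk hpy hful ha => ?_⟩
  · simp only [map_mul, map_pow, eval_C, hdet y₀ h0 H.ne]
    exact mul_ne_zero (mul_ne_zero (Nat.cast_ne_zero.2 j.factorial_ne_zero) (pow_ne_zero _ H.ne))
      (pow_ne_zero _ (mul_ne_zero (pow_ne_zero _ H.ne) hd))
  simp only [map_mul, map_pow, eval_C] at hΔ ⊢
  have hy : Ct C h y := by simpa using hc 0
  have hδ : eval y δ ≠ 0 := fun e => hΔ (by simp only [e, ne_eq, OfNat.ofNat_ne_zero, not_false_eq_true, zero_pow, mul_zero, zero_mul])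
  have hD : eval y M.det ≠ 0 := fun e => hΔ (by simp only [e, ne_eq, OfNat.ofNat_ne_zero, not_false_eq_true, zero_pow, mul_zero])
  have hfin : {s : ℂ | eval (y + s • x) δ = 0}.Finite :=
    (Polynomial.finite_setOfPred_isRoot (p := lp y x δ) fun e => hδ (by
      rw [← lp_coeff_zero y x, e, Polynomial.coeff_zero])).subset fun s hs =>
        (eval_lp y x δ s).trans hs
  have hpe : ∀ (q : σ → P σ) s, pe (fun i => lp y x (q i)) s = ev (y + s • x) q := fun q s =>
    funext fun i => eval_lp _ _ _ _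
  have hE : ∀ a s, pe (fun i => lp y x (τ i (I a))) s = mv τ (y + s • x) (Pi.single (I a) 1) :=
    fun a s => by
      rw [hpe]
      ext i
      simp only [ev, mv, Pi.single_apply, mul_ite, mul_one, mul_zero, Finset.sum_ite_eq', Finset.mem_univ, ↓ reduceIte]
  have hEm : ∀ a, (fun i => lp y x (τ i (I a))) ∈ Sn fun s => tangent C (y + s • x) := fun a =>
    Fy.cl _ (hfin.subset fun s hs => by
      by_contra hn
      exact hs (hE a s ▸ H.tan _ (hc s).1 (hc s).2.1 hn _))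
  have hUm : (fun i => lp y x (U i)) ∈ Sn fun s => tangent C (y + s • x) :=
    Fy.cl _ (hfin.subset fun s hs => by
      by_contra hn
      refine hs ?_
      rw [hpe, hU, brd_eq]
      exact sub_mem (Submodule.smul_mem _ _ (H.tan _ (hc s).1 (hc s).2.1 hn _))
        (sum_mem fun a _ => sum_mem fun b _ =>
          Submodule.smul_mem _ _ (H.tan _ (hc s).1 (hc s).2.1 hn _)))
  have hkn : Kn (fun s => tangent C (y + s • x)) (fun s => II C (y + s • x) h) j
      fun i => lp y x (U i) := by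
    refine Fy.kn hEm ?_ ?_ hUm (fun a s => ?_) fun q hq => ?_
    · have e1 := tangent_rank hC hy.1 hy.2.1
      have e2 := tangent_rank hC h0.1 h0.2.1
      show finrank ℂ (tangent C (y + (0 : ℂ) • x)) ≤ finrank ℂ (Ky C (y + (0 : ℂ) • x) h) + r
      rw [zero_smul, add_zero]
      unfold Ky at hk ⊢
      omega
    · simp only [hE, zero_smul, add_zero]
      exact fun e => hD (by rw [hdet y hy hδ, e, mul_zero])
    · obtain ⟨_, q, -, hq⟩ := Fy.poly _ hUm _ (hEm a)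
      simp only [pow_zero, one_mul] at hq
      have h1 : q = 0 := Polynomial.eq_zero_of_infinite_isRoot _ (hfin.infinite_compl.mono
        fun t ht => by
          have h2 := brd_orth (II C (y + t • x) h) (eval (y + t • x) δ) (hM _ (hc t) ht)
            (fun a => H.bf_Qm hC (hc t) ht p (Pi.single (I a) 1)) a
          rw [← hU, ← hpe, ← hE, hq] at h2
          exact (mul_eq_zero.1 h2).resolve_left ht)
      rw [hq, h1, Polynomial.eval_zero]
    · obtain ⟨a', t, ht, ht0, -⟩ := hful q (by simpa [Ky] using hq)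
      obtain ⟨a'', h1⟩ := ht.2 _ hUm
      exact ⟨t, ht.1, ht0, a'', h1.congr fun s => II_sy _ _ _ _ _⟩
  obtain ⟨a', ha'⟩ := hkn.2 _ hUm
  have h1 : a' = eval y M.det * eval y δ * (eval y M.det * eval y δ * a) := by
    refine Fy.unique ⟨_, hkn, ?_, ha'⟩ (ha.smul _)
    rw [hpe, zero_smul, add_zero, hU, brd_eq, H.fix y hy.1 hy.2.1 p hpy.1, smul_smul,
      RingHom.map_det, Finset.sum_eq_zero, sub_zero]
    · rfl
    · intro a _
      rw [H.bf_Qm hC hy hδ, H.fix y hy.1 hy.2.1 p hpy.1, LinearMap.map_smul₂,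
        hpy.2 _ (H.tan y hy.1 hy.2.1 hδ _)]
      simp only [smul_eq_mul, mul_zero, zero_mul, zero_smul, Finset.sum_const_zero]
  obtain ⟨q, hq0, hq⟩ := ha'
  have h2 : lp y x (∑ i, co i * ∑ s, ∑ t, pderiv s (pderiv t (F i)) * U s * U t) =
      Polynomial.X ^ j * (lp y x δ * q) :=
    Polynomial.eq_of_infinite_eval_eq _ _ (hfin.infinite_compl.mono fun t ht => by
      have h3 := H.II_eq hC (hc t) ht (mem_Sn.1 hUm t) (mem_Sn.1 hUm t)
      rw [show II C (y + t • x) h _ _ = _ from hq t, hpe] at h3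
      rw [Set.mem_ofPred_eq, eval_lp]
      simp only [Polynomial.eval_mul, Polynomial.eval_pow, Polynomial.eval_X, eval_lp]
      rw [mul_left_comm, ← h3]
      simp only [map_sum, map_mul, hb_apply, ev])
  rw [hb, h2, Polynomial.coeff_X_pow_mul', if_pos le_rfl, Nat.sub_self, Polynomial.mul_coeff_zero,
    lp_coeff_zero, Polynomial.coeff_zero_eq_eval_zero, hq0, h1]
  ring

/-- R, in terms of a stable space containing all kernels -/
theorem rr_core (hC : Sm C c) (hg : Gens S C G) (hS : S.Countable) (hx : Rt S x) (hh : Rt S h)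
    (hf : Free C x) (hcx : Ct C h x) {L : Submodule ℂ (σ → ℂ)} (hL : Stab S L)
    (hK : ∀ y, Ct C h y → Ky C y h ≤ L) (N : ℕ) : ∀ y ∈ Ky C x h, (∀ s : ℂ, y + s • x ∈ C) →
      y ≠ 0 → finrank ℂ (Ky C x h) < finrank ℂ (Ky C y h) →
      finrank ℂ L < finrank ℂ (Ky C y h) + N →
      td S y + 2 * finrank ℂ (Ky C y h) ≤ 2 * finrank ℂ L + 1 := by
  have base : ∀ y ∈ Ky C x h, (∀ s : ℂ, y + s • x ∈ C) → y ≠ 0 →
      finrank ℂ (Ky C x h) < finrank ℂ (Ky C y h) → LinearIndependent ℂ ![x, y] ∧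
      (∀ s : ℂ, Ct C h (y + s • x)) ∧
      Fm (fun s => tangent C (y + s • x)) fun s => II C (y + s • x) h := by
    intro y hy hl h0 hr
    have hi : LinearIndependent ℂ ![x, y] := LinearIndependent.pair_iff.2 fun s t e => by
      by_cases ht : t = 0
      · rw [ht, zero_smul, add_zero] at e
        exact ⟨(smul_eq_zero.1 e).resolve_right hcx.2.1, ht⟩
      · have e1 : y = (t⁻¹ * -s) • x := by
          rw [mul_smul, neg_smul, neg_eq_of_add_eq_zero_right e, inv_smul_smul₀ ht]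
        rw [e1, Ky_smul hC hcx fun e2 => h0 (by rw [e1, e2, zero_smul])] at hr
        exact absurd hr (lt_irrefl _)
    have hl' := line_of hC.toCn hcx.1 hl
    have hc := line_ct hC hf hcx hy hl' hi
    exact ⟨hi, hc, line_fm hC hf hl' hi hc⟩
  induction N with
  | zero =>
    intro y hy hl h0 hr hN
    have hc : Ct C h y := by simpa using (base y hy hl h0 hr).2.1 0
    have := Submodule.finrank_mono (hK y hc)
    omega
  | succ N ih =>
    intro y hy hl h0 hr hN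
    obtain ⟨hi, hc, Fy⟩ := base y hy hl h0 hr
    have hcy : Ct C h y := by simpa using hc 0
    have hle := Submodule.finrank_mono (hK y hcy)
    obtain ⟨j, f, ⟨p₀, hp₀, hf₀⟩, hA⟩ := Fy.ord ((sc hC (line_of hC.toCn hcx.1 hl) hi hf hcx.2.2
      fun s => add_comm y _ ▸ (hc s).2.2).subset fun s hs => by
        have h1 : finrank ℂ (Ky C (y + (0 : ℂ) • x) h) ≤ finrank ℂ (Ky C (y + s • x) h) := hs
        rw [zero_smul, add_zero, add_comm y] at h1
        exact hr.trans_le h1)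
    have e0 : rad (II C (y + (0 : ℂ) • x) h) (tangent C (y + (0 : ℂ) • x)) = Ky C y h := by
      rw [zero_smul, add_zero, Ky]
    simp only [e0] at hp₀ hA
    obtain ⟨p, hp, hfp, hgen, -⟩ := gen_sub' (adj_countable hS y) (Ky C y h) hp₀ hf₀
    have t1 := td_swap S y p
    have t2 : finrank ℂ (Ky C y h) ≤ td (adj S y) p := Submodule.finrank_mono hgen
    have t3 := hL.td_le (hK y hcy hp)
    rcases le_or_gt (td (adj S p) y) 1 with t4 | t4
    · omega
    obtain ⟨v, hv⟩ := IsAlgClosed.exists_pow_nat_eq (eval p f)⁻¹ j.succ_pos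
    obtain ⟨d, hd⟩ := Nat.exists_eq_add_of_lt t4
    obtain ⟨t, y₀, ht, t5, hs⟩ := spec_td (adj_countable hS p) y v (d := 1 + d) hd.ge
    have hs' : Sp (adj S p) (t • y) y₀ := hs.comp Sum.inl
    have hg' := hg.mono' (subset_adj S p)
    have hh' := hh.mono' (subset_adj S p)
    have hx' := hx.mono' (subset_adj S p)
    have h0' : y₀ ≠ 0 := ne_of_td (le_trans (by omega) t5)
    have hct := hcy.smul hC.toCn ht
    have hc0 := hct.sp hC hg' hh' hs' h0'
    have eK := Ky_smul hC hcy ht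
    have hp0 := Ky_sp hC hg' hh' (rt_adj S p) hct hs' h0' (eK.ge hp)
    have t6 := Ky_rank_sp hC hg' hh' hct hs' h0'
    have hlt : ∀ s : ℂ, t • y + s • x = t • (y + (t⁻¹ * s) • x) := fun s => by
      rw [smul_add, smul_smul, mul_inv_cancel_left₀ ht]
    have hlt' : ∀ s : ℂ, t • y + s • x ∈ C := fun s => by
      rw [hlt]
      exact hC.cone t _ (hl _)
    rw [eK] at t6
    rcases t6.lt_or_eq with t7 | t7
    · have t8 := ih y₀ (hs'.mem_stab (stab_Ky hC hg' hcx hx' hh') (Submodule.smul_mem _ t hy))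
        (sp_line38 hg' hx' hs' hlt') h0' (hr.trans t7) (by omega)
      have t9 := td_swap S y₀ p
      have t10 := (stab_Ky hC (hg.mono' (subset_adj S y₀)) hc0 (rt_adj S y₀)
        (hh.mono' (subset_adj S y₀))).td_le hp0
      omega
    exfalso
    obtain ⟨F, δ, co, τ, H⟩ := exists_cht hC hg' hh' hc0.1 h0'
    obtain ⟨Δ, b, o1, o2, hΔ, hb⟩ := lead_chart H hC hx' (rt_adj S p) hc0 j
    obtain ⟨-, hc', Fy'⟩ := base (t • y) (Submodule.smul_mem _ t hy) hlt' hct.2.1 (by rwa [eK])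
    have hsc : ∀ q ∈ Ky C y h, Ar (fun s => tangent C (t • y + s • x))
        (fun s => II C (t • y + s • x) h) j q (t⁻¹ ^ (j + 1) * eval q f) := fun q hq =>
      (hA q hq).scale (inv_ne_zero ht) (fun s => by rw [hlt, tangent_smul hC.toCn ht])
        fun s u hu w hw => by
          rw [hlt, tangent_smul hC.toCn ht] at hu hw
          rw [hlt, ← II_smul hC (hc _).1 (hc _).2.1 ht (hc _).2.2 hu hw, inv_mul_cancel_left₀ ht]
    have h1 := hb (t • y) _ hc' Fy' (hs'.ne o1 hΔ) (by rw [eK, t7]) (eK.ge hp)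
      (fun q hq => ⟨_, hsc q (eK.le hq)⟩) (hsc p hp)
    have h2 := hs.eval_eq (f := rename Sum.inl Δ) (g := X (Sum.inr ()) ^ (j + 1) * rename Sum.inl b)
      (ov_rename _ o1) (ov_mul (ov_pow (ov_X' _) _) (ov_rename _ o2)) (by
        simp only [map_mul, map_pow, eval_rename, eval_X, Sum.elim_inr, Sum.elim_comp_inl, h1,
          mul_pow, show v ^ (j + 1) = _ from hv, inv_pow]
        field_simp)
    exact hΔ (by simpa [eval_rename] using h2)

end Pool.Agent.MP_429080_ag.H73
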