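import Pool.Agent.MP_429080_ag.H91.Ln

attribute [-instance] SetLike.smul' RKHS.instFunLike
  ContinuousSemilinearMapClass.toSemilinearMapClass Subalgebra.algebra' SubalgebraClass.toAlgebra
  instCharZeroOfIsSemireal NormedCommRing.toCommRing Module.FaithfullyFlat.of_isIntegral_of_isDomain
  CoalgHomClass.toSemilinearMapClass SeminormedCommRing.toCommRing RingHomClass.toLinearMapClassNNRat
  instNonUnitalAlgHomClassOfNonUnitalAlgEquivClass instNontrivialOfCharZero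
  AddMonoidAlgebra.distribSMul SemilinearIsometryClass.toSemilinearMapClass
  RingHomClass.toLinearMapClassRat MonTypeEquivalenceMon.monMonoid instIsFractionRing
  IsAffineAddMonoid.toIsCancelAdd BialgHomClass.toAlgHomClass littleWedderburn instCoeOTCOfCoeTC
  Field.instIsIntegrallyClosed
  NonUnitalAlgHomClass.instSemilinearMapClassOfNonUnitalAlgSemiHomClassToMonoidHomRingHom
  Polynomial.charZero GroupConeClass.toSubmonoidClass
  ContinuousMonoidHom.instCoeOutOfMonoidHomClassOfContinuousMapClass IsFormallyReal.instIsReduced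
  SemilatticeInf.toPartialOrder NonUnitalAlgHomClass.toNonUnitalRingHomClass
  BialgHomClass.toMonoidHomClass Algebra.IsFiniteSplit.instFree MonoidHomClass.toMulHomClass
  NormedAlgebra.toAlgebra LeftPreLieAlgebra.toModule AlgHomClass.linearMapClass
  GrpTypeEquivalenceGrp.grpGroup forall_prop_decidable Ideal.instIsTwoSided LinearOrder.toDecidableLE
  ValuationClass.toMonoidWithZeroHomClass
  MulSemiringActionSemiHomClass.toDistribMulActionSemiHomClass TestFunctionClass.toDFunLike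
  NumberField.instFiniteDimensional NormedSpace.toModule RightPreLieAlgebra.toModule
  Submodule.IsLattice.finite LinearOrder.toDecidableEq KleeneAlgebra.toIdemSemiring
  CompletePartialOrder.toPartialOrder IsometryClass.instCoeOutIsometryEquiv
  GradedMonoid.GradeZero.smul LieAlgebra.toModule SemilinearEquivClass.instSemilinearMapClass
  CentroidHomClass.toAddMonoidHomClass
  ContinuousAddMonoidHom.instCoeOutOfAddMonoidHomClassOfContinuousMapClass Field.instIsLocalRing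
  LocalizedModule.instCommSemiring instCoeTOfCoeDep ContDiffMapSupportedInClass.toDFunLike
  IdemCommSemiring.toIdemSemiring Fintype.decidableExistsFintype
  MulSemiringActionSemiHomClass.toRingHomClass instCoeHTCT IsPurelyInseparable.instOfHasExponent
  Submodule.IsLattice.free MulRingSeminormClass.toMonoidWithZeroHomClass SubmoduleClass.module

/-! The strong form of the theorem on tangencies. -/

namespace Pool.Agent.MP_429080_ag.H26

open MvPolynomial Module Pool.Agent.EGH Pool.Agent.MP_d171e3_nt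
open Pool.Agent.MP_429080_ag.H26.T
open scoped Pointwise

set_option linter.unusedSectionVars false

section SZa

variable {ρ α K : Type} [Fintype ρ] [Fintype α] [Field K] [Algebra ℂ K]

/-- the point `(c y, c, a)` with values in `K[c]` -/
noncomputable def szPhi (y : ρ → K) (a : α → K) : P (ρ ⊕ Option α) →ₐ[ℂ] Polynomial K :=
  aeval (Sum.elim (fun j => Polynomial.X * Polynomial.C (y j))
    fun o => o.elim Polynomial.X fun i => Polynomial.C (a i))

theorem sz_int (y : ρ → K) (a : α → K) (B : Subalgebra ℂ K) (ha : ∀ i, a i ∈ B)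
    (h : ∀ w : ρ ⊕ Option α → ℂ, (∀ g, szPhi y a g = 0 → eval w g = 0) →
      w (Sum.inr none) = 0 → ∀ j, w (Sum.inl j) = 0) (j : ρ) : IsIntegral B (y j) := by
  classical
  let S : Set K := insert 1 (Set.range y)
  let N : Submodule B K := Submodule.span B S
  have h1 : (1 : K) ∈ N := Submodule.subset_span (Set.mem_insert _ _)
  have hy : ∀ j, y j ∈ N := fun j => Submodule.subset_span (Set.mem_insert_of_mem _ ⟨j, rfl⟩)
  have hc : ∀ g m, (szPhi y a g).coeff m ∈ N ^ m := by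
    intro g
    induction g using MvPolynomial.induction_on with
    | C c =>
      intro m
      rw [szPhi, aeval_C, Polynomial.algebraMap_apply, Polynomial.coeff_C]
      split_ifs with hm
      · rw [hm, pow_zero]
        exact Submodule.mem_one.2 ⟨⟨_, B.algebraMap_mem c⟩, rfl⟩
      · exact zero_mem _
    | add p q hp hq =>
      intro m
      rw [map_add, Polynomial.coeff_add]
      exact add_mem (hp m) (hq m)
    | mul_X p v hp =>
      have hX : ∀ u ∈ N, ∀ m,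
          (szPhi y a p * (Polynomial.X * Polynomial.C u)).coeff m ∈ N ^ m := fun u hu m => by
        rw [← mul_assoc, Polynomial.coeff_mul_C]
        cases m with
        | zero =>
          rw [Polynomial.mul_coeff_zero, Polynomial.coeff_X_zero, mul_zero, zero_mul]
          exact zero_mem _
        | succ m =>
          rw [Polynomial.coeff_mul_X, pow_succ]
          exact Submodule.mul_mem_mul (hp m) hu
      intro m
      rw [map_mul]
      rcases v with j | _ | i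
      · rw [show szPhi y a (X (Sum.inl j)) = _ from aeval_X _ _]
        exact hX _ (hy j) m
      · rw [show szPhi y a (X (Sum.inr none)) = Polynomial.X * Polynomial.C 1 from
          (aeval_X _ _).trans (by simp)]
        exact hX _ h1 m
      · rw [show szPhi y a (X (Sum.inr (some i))) = Polynomial.C (a i) from aeval_X _ _,
          Polynomial.coeff_mul_C, mul_comm]
        exact (N ^ m).smul_mem ⟨_, ha i⟩ (hp m)
  let 𝔫 : Ideal (P (ρ ⊕ Option α)) :=
    Ideal.span (insert (X (Sum.inr none)) (Set.range fun j => X (Sum.inl j)))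
  have hl : ∀ n, ∀ x ∈ S ^ n, ∃ g ∈ 𝔫 ^ n, szPhi y a g = Polynomial.X ^ n * Polynomial.C x := by
    intro n
    induction n with
    | zero =>
      intro x hx
      rw [pow_zero, Set.mem_one] at hx
      exact ⟨1, by simp, by simp only [map_one, pow_zero, hx, mul_one]⟩
    | succ n ih =>
      intro x hx
      rw [pow_succ] at hx
      obtain ⟨u, hu, v, hv, rfl⟩ := Set.mem_mul.1 hx
      obtain ⟨g, hg, e⟩ := ih u hu
      rcases hv with rfl | ⟨j, rfl⟩
      · refine ⟨g * X (Sum.inr none), ?_, ?_⟩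
        · rw [pow_succ]
          exact Ideal.mul_mem_mul hg (Ideal.subset_span (Set.mem_insert _ _))
        · rw [map_mul, e, show szPhi y a (X (Sum.inr none)) = Polynomial.X from aeval_X _ _,
            mul_one]
          ring
      · refine ⟨g * X (Sum.inl j), ?_, ?_⟩
        · rw [pow_succ]
          exact Ideal.mul_mem_mul hg (Ideal.subset_span (Set.mem_insert_of_mem _ ⟨j, rfl⟩))
        · rw [map_mul, e, show szPhi y a (X (Sum.inl j)) = Polynomial.X * Polynomial.C (y j) from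
            aeval_X _ _, map_mul]
          ring
  have hr : 𝔫 ≤ (RingHom.ker (szPhi y a) ⊔ Ideal.span {X (Sum.inr none)}).radical := by
    refine Ideal.span_le.2 fun g hg => mem_radical_of fun w hw => ?_
    obtain ⟨h2, h3⟩ := mem_vZ_sup.1 hw
    have h4 := mem_vZ_span.1 h3 _ rfl
    rcases hg with rfl | ⟨j, rfl⟩
    · exact h4
    · rw [eval_X] at h4 ⊢
      exact h w (fun g hg => mem_vZ.1 h2 g hg) h4 j
  obtain ⟨M, hM⟩ := Ideal.exists_pow_le_of_le_radical_of_fg hr (IsNoetherian.noetherian _)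
  have hs : N ^ (M + 1) ≤ N ^ M := by
    rw [Submodule.span_pow S (M + 1), Submodule.span_le]
    intro x hx
    obtain ⟨g, hg, e⟩ := hl _ x hx
    obtain ⟨k, hk, s, hs, rfl⟩ :=
      Submodule.mem_sup.1 (hM (Ideal.pow_le_pow_right M.le_succ hg))
    obtain ⟨b, rfl⟩ := Ideal.mem_span_singleton'.1 hs
    rw [map_add, RingHom.mem_ker.1 hk, zero_add, map_mul,
      show szPhi y a (X (Sum.inr none)) = Polynomial.X from aeval_X _ _] at e
    have e2 := congrArg (fun q => q.coeff (M + 1)) e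
    simp only [Polynomial.coeff_mul_X, Polynomial.coeff_mul_C, Polynomial.coeff_X_pow_self,
      one_mul] at e2
    exact e2 ▸ hc b M
  refine isIntegral_of_smul_mem_submodule (N ^ M) (fun h0 => ?_)
    ((Submodule.fg_span ((Set.finite_range y).insert 1)).pow M) _ fun n hn => hs ?_
  · have h2 := Submodule.pow_mem_pow N h1 M
    rw [h0, one_pow, Submodule.mem_bot] at h2
    exact one_ne_zero h2
  · rw [pow_succ', smul_eq_mul]
    exact Submodule.mul_mem_mul (hy j) hn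

theorem sz_hom {f : P ρ} {d : ℕ} (h : f.IsHomogeneous d) (v : ρ → K) :
    aeval (fun j => Polynomial.X * Polynomial.C (v j)) f =
      Polynomial.X ^ d * Polynomial.C (aeval v f) := by
  rw [aeval_def, aeval_def, eval₂_eq', eval₂_eq', map_sum, Finset.mul_sum]
  refine Finset.sum_congr rfl fun m hm => ?_
  have h1 : ∑ i, m i = d := by
    rw [← Finsupp.degree_eq_sum]
    exact (hw0_iff m d).1 (isWH_w0.2 h (mem_support_iff.1 hm))
  simp only [mul_pow, Finset.prod_mul_distrib, Finset.prod_pow_eq_pow_sum, h1, map_mul, map_prod,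
    map_pow, Polynomial.algebraMap_apply]
  ring

theorem sz_inl {f : P ρ} {d : ℕ} (h : f.IsHomogeneous d) (y : ρ → K) (a : α → K) :
    szPhi y a (rename Sum.inl f) = Polynomial.X ^ d * Polynomial.C (aeval y f) := by
  rw [szPhi, aeval_rename, ← sz_hom h]
  rfl

theorem sz_cone {I : Ideal (P ρ)} (hI' : HomI (w0 ρ) I) {y : ρ → K} {a : α → K}
    (h : ∀ f ∈ I, aeval y f = 0) {w : ρ ⊕ Option α → ℂ}
    (hw : ∀ g, szPhi y a g = 0 → eval w g = 0) : w ∘ Sum.inl ∈ vZ I :=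
  mem_vZ.2 (hom_induction hI' (map_zero _) (fun f g hf hg => by rw [map_add, hf, hg, add_zero])
    fun f d hf hd => by
      rw [← eval_rename]
      exact hw _ (by rw [sz_inl hd, h f hf, map_zero, mul_zero]))

theorem sz_loc (A : Subalgebra ℂ K) (r : A) (hr : (r : K) ≠ 0) (y : K)
    (h : ∀ B : Subalgebra ℂ K, (∀ u, IsIntegral A u → u ∈ B) → (r : K)⁻¹ ∈ B → IsIntegral B y) :
    ∃ m : ℕ, IsIntegral A (r ^ m • y) := by
  let L := Localization.Away r
  have hu : IsUnit (algebraMap A K r) := IsUnit.mk0 _ hr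
  let _ : Algebra L K := (IsLocalization.Away.lift r hu).toAlgebra
  have : IsScalarTower A L K :=
    IsScalarTower.of_algebraMap_eq fun x => (IsLocalization.Away.lift_eq r hu x).symm
  let B : Subalgebra ℂ K :=
    { carrier := {u | IsIntegral L u}
      mul_mem' := IsIntegral.mul
      add_mem' := IsIntegral.add
      algebraMap_mem' := fun c =>
        (isIntegral_algebraMap (R := A) (A := K) (x := algebraMap ℂ A c)).tower_top }
  have h1 : (r : K)⁻¹ = algebraMap L K (IsLocalization.Away.invSelf r) := by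
    refine (eq_inv_of_mul_eq_one_right ?_).symm
    rw [show (r : K) = algebraMap L K (algebraMap A L r) from
      IsScalarTower.algebraMap_apply A L K r, ← map_mul, IsLocalization.Away.mul_invSelf, map_one]
  have h2 : IsIntegral (integralClosure L K) y :=
    h B (fun u hu => hu.tower_top) (h1 ▸ isIntegral_algebraMap)
  obtain ⟨⟨_, m, rfl⟩, hm⟩ :=
    (isIntegral_trans (R := L) y h2).exists_multiple_integral_of_isLocalization (.powers r)
  exact ⟨m, hm⟩

theorem sz_hart (A : Subalgebra ℂ K) [IsIntegrallyClosed A] {r s : A} (hr : Prime r)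
    (hs : ¬r ∣ s) {m m' : ℕ} {y : K} (hu : IsIntegral A (r ^ m • y))
    (hv : IsIntegral A (s ^ m' • y)) :
    ∃ (n : ℕ) (c : ℕ → A), c n = 1 ∧ ∑ i ∈ Finset.range (n + 1), (c i : K) * y ^ i = 0 := by
  have hs0 : s ≠ 0 := fun h => hs (h ▸ dvd_zero r)
  have h1 := IsIntegrallyClosed.minpoly_smul (pow_ne_zero m' hs0) hu
  rw [smul_comm, IsIntegrallyClosed.minpoly_smul (pow_ne_zero m hr.ne_zero) hv] at h1
  set μ := minpoly A (r ^ m • y) with hμ
  have h2 := congrArg Polynomial.natDegree h1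
  rw [Polynomial.natDegree_scaleRoots, Polynomial.natDegree_scaleRoots] at h2
  have h3 : ∀ i, ∃ c, μ.coeff i = (r ^ m) ^ (μ.natDegree - i) * c := fun i => by
    have h4 := congrArg (fun q => q.coeff i) h1
    simp only [Polynomial.coeff_scaleRoots, h2] at h4
    rw [← pow_mul]
    refine hr.pow_dvd_of_dvd_mul_right _ (fun h5 => hs (hr.dvd_of_dvd_pow
      (hr.dvd_of_dvd_pow (n := μ.natDegree - i) h5 : r ∣ s ^ m'))) ?_
    rw [← h4, pow_mul]
    exact dvd_mul_left _ _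
  choose c hc using h3
  refine ⟨μ.natDegree, c, ?_, ?_⟩
  · have h4 := hc μ.natDegree
    rw [Nat.sub_self, pow_zero, one_mul] at h4
    exact h4 ▸ minpoly.monic hu
  · have h4 := minpoly.aeval A (r ^ m • y)
    rw [← hμ, Polynomial.aeval_eq_sum_range] at h4
    refine (mul_eq_zero.1 (Eq.trans ?_ h4)).resolve_left
      (pow_ne_zero μ.natDegree (pow_ne_zero m fun h => hr.ne_zero (Subtype.ext h) : (r : K) ^ m ≠ 0))
    rw [Finset.mul_sum]
    refine Finset.sum_congr rfl fun i hi => ?_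
    obtain ⟨e, he⟩ := Nat.exists_eq_add_of_le (Nat.lt_succ_iff.1 (Finset.mem_range.1 hi))
    rw [hc i, he, Nat.add_sub_cancel_left, Subalgebra.smul_def, Subalgebra.smul_def]
    push_cast
    simp only [smul_eq_mul]
    ring

theorem sz_tay {S : Type} [CommRing S] [Algebra ℂ S] (u v : ρ → S) (s : S) (G : P ρ) :
    ∃ Q, aeval (fun i => u i + s * v i) G =
      aeval u G + s * (∑ i, aeval u (pderiv i G) * v i + s * Q) := by
  classical
  induction G using MvPolynomial.induction_on with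
  | C a => exact ⟨0, by simp only [algHom_C, derivation_C, map_zero, zero_mul, Finset.sum_const_zero, mul_zero, add_zero]⟩
  | add p q hp hq =>
    obtain ⟨Q, h⟩ := hp
    obtain ⟨Q', h'⟩ := hq
    refine ⟨Q + Q', ?_⟩
    simp only [map_add, h, h', add_mul, Finset.sum_add_distrib]
    ring
  | mul_X p i hp =>
    obtain ⟨Q, h⟩ := hp
    refine ⟨(∑ j, aeval u (pderiv j p) * v j + s * Q) * v i + Q * u i, ?_⟩
    have e : ∑ j, aeval u (pderiv j (p * X i)) * v j =
        (∑ j, aeval u (pderiv j p) * v j) * u i + aeval u p * v i := by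
      simp only [Derivation.leibniz, pderiv_X, smul_eq_mul, map_add, map_mul, aeval_X, add_mul,
        Finset.sum_add_distrib, Finset.sum_mul, Pi.single_apply, apply_ite, map_zero,
        mul_one, mul_zero, ite_mul, zero_mul, Finset.sum_ite_eq, Finset.mem_univ,
        if_true]
      rw [add_comm]
      exact congrArg₂ _ (Finset.sum_congr rfl fun j _ => by ring) rfl
    rw [map_mul, map_mul, h, e, aeval_X, aeval_X]
    ring

end SZa

section SZb

variable {τ ρ : Type} [Fintype τ] [Fintype ρ]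

/-- the linear form with the given coefficients -/
noncomputable def szL : (τ → ℂ) →ₗ[ℂ] P τ := Fintype.linearCombination ℂ X

theorem szL_aeval {S : Type} [CommRing S] [Algebra ℂ S] (v : τ → S) (l : τ → ℂ) :
    aeval v (szL l) = ∑ i, l i • v i := by
  simp only [szL, Fintype.linearCombination_apply, map_sum, map_smul, aeval_X]

theorem szL_eval (v l : τ → ℂ) : eval v (szL l) = l ⬝ᵥ v := by
  simp only [szL, Fintype.linearCombination_apply, map_sum, smul_eval, eval_X, dotProduct]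

theorem szL_grad (l v : τ → ℂ) : grad (szL l) v = l := by
  classical
  ext j
  simp only [grad, szL, Fintype.linearCombination_apply, map_sum, Derivation.map_smul, pderiv_X, Pi.single_apply, smul_ite, smul_zero, Finset.sum_ite_eq', Finset.mem_univ, ↓ reduceIte, smul_eval, map_one, mul_one]

theorem szL_hom (l : τ → ℂ) : (szL l).IsHomogeneous 1 := by
  rw [szL, Fintype.linearCombination_apply]
  exact IsHomogeneous.sum _ _ _ fun i _ =>
    (homogeneousSubmodule τ ℂ 1).smul_mem _ (isHomogeneous_X ℂ i)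

theorem sz_step {I : Ideal (P τ)} {d : ℕ}
    (h : ∀ 𝔭 : Ideal (P τ), 𝔭.IsPrime → I ≤ 𝔭 → dm 𝔭 ≤ d + 1) (W : Submodule ℂ (τ → ℂ))
    (h0 : W ≠ ⊥) (hW : Fintype.card τ ≤ d + finrank ℂ W) :
    ∃ l ∈ W, l ≠ 0 ∧
      ∀ 𝔭 : Ideal (P τ), 𝔭.IsPrime → I ⊔ Ideal.span {szL l} ≤ 𝔭 → dm 𝔭 ≤ d := by
  let S : Set (Ideal (P τ)) := insert ⊥ {p | p ∈ I.minimalPrimes ∧ ∃ l ∈ W, szL l ∉ p}
  have := (((Ideal.finite_minimalPrimes_of_isNoetherianRing _ I).subset
    fun _ hp => hp.1 : Set.Finite {p | p ∈ I.minimalPrimes ∧ ∃ l ∈ W, szL l ∉ p}).insert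
    ⊥).to_subtype
  obtain ⟨l, hl⟩ : ∃ l : W, ∀ p ∈ S, szL (l : τ → ℂ) ∉ p := by
    by_contra hc
    push Not at hc
    obtain ⟨p, hp⟩ := Subspace.exists_eq_top_of_iUnion_eq_univ (k := ℂ) (E := W)
      (p := fun p : S => (p.1.restrictScalars ℂ).comap (szL.comp W.subtype))
      (Set.eq_univ_of_forall fun a => by
        obtain ⟨p, hp, hz⟩ := hc a
        exact Set.mem_iUnion.2 ⟨⟨p, hp⟩, hz⟩)
    have h1 : ∀ l ∈ W, szL l ∈ p.1 := fun l hl =>
      (hp ▸ Submodule.mem_top : (⟨l, hl⟩ : W) ∈ (p.1.restrictScalars ℂ).comap (szL.comp W.subtype))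
    rcases p.2 with h2 | ⟨-, l, hl, h2⟩
    · refine h0 ((Submodule.eq_bot_iff W).2 fun l hl => ?_)
      rw [← szL_grad l 0, (Ideal.mem_bot.1 (h2 ▸ h1 l hl) : szL l = 0), grad_zero]
    · exact h2 (h1 l hl)
  refine ⟨l, l.2, fun h1 => hl ⊥ (Set.mem_insert _ _) (by rw [h1, map_zero]; exact zero_mem _),
    fun 𝔭 hp hle => ?_⟩
  obtain ⟨p, hp1, hp2⟩ := Ideal.exists_minimalPrimes_le (le_sup_left.trans hle)
  by_cases h2 : ∃ l ∈ W, szL l ∉ p
  · have h3 := hdim_lt hp1.isPrime hp (hl p (Set.mem_insert_of_mem _ ⟨hp1, h2⟩))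
      (sup_le hp2 (le_sup_right.trans hle))
    have h4 := h p hp1.isPrime hp1.le
    omega
  · push Not at h2
    obtain ⟨z, hz, -⟩ := exists_pt hp ((Ideal.ne_top_iff_one _).1 hp.ne_top)
    have h3 := jac hp hz (fun i => szL (finBasis ℂ W i : τ → ℂ))
      (fun i => hp2 (h2 _ (finBasis ℂ W i).2)) (by
        simp only [szL_grad]
        exact (finBasis ℂ W).linearIndependent.map' W.subtype W.ker_subtype)
    rw [Fintype.card_fin] at h3
    omega

theorem sz_sop [Nontrivial (τ → ℂ)] (d : ℕ) : ∀ I : Ideal (P τ), HomI (w0 τ) I →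
    (∀ 𝔭 : Ideal (P τ), 𝔭.IsPrime → I ≤ 𝔭 → dm 𝔭 ≤ d) →
    ∃ t : Fin d → τ → ℂ, ∀ v ∈ vZ I, (∀ i, t i ⬝ᵥ v = 0) → v = 0 := by
  induction d with
  | zero =>
    refine fun I hI' h => ⟨Fin.elim0, fun v hv _ => funext fun i => ?_⟩
    obtain ⟨p, hp, hv'⟩ := exists_min_at hv
    by_contra h0
    have h1 := hdim_pos (adm_w0 τ).posw hp.isPrime (hmin hI' hp) (v := i)
      fun h2 => h0 (by simpa using mem_vZ.1 hv' _ h2)
    have h2 := h p hp.isPrime hp.le
    omega
  | succ d ih =>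
    intro I hI' h
    obtain ⟨l, -, -, hl⟩ := sz_step h ⊤ top_ne_bot (by simp only [finrank_top, finrank_fintype_fun_eq_card, le_add_iff_nonneg_left, zero_le])
    obtain ⟨t, ht⟩ := ih _ (hI'.sup_one (isWH_w0.2 (szL_hom l))) hl
    refine ⟨Fin.cons l t, fun v hv h1 => ht v (mem_vZ_sup.2 ⟨hv, mem_vZ_span.2 ?_⟩)
      fun i => h1 i.succ⟩
    rintro _ rfl
    rw [szL_eval]
    exact h1 0

/-- the product of two zero sets -/
def szU (𝔮 : Ideal (P ρ)) (𝔭 : Ideal (P τ)) : Set (ρ ⊕ τ → ℂ) :=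
  {w | w ∘ Sum.inl ∈ vZ 𝔮 ∧ w ∘ Sum.inr ∈ vZ 𝔭}

theorem sz_mem {𝔮 : Ideal (P ρ)} {𝔭 : Ideal (P τ)} {g : P (ρ ⊕ τ)} :
    g ∈ vI (szU 𝔮 𝔭) ↔ ∀ y ∈ vZ 𝔮, ∀ z ∈ vZ 𝔭, eval (Sum.elim y z) g = 0 :=
  mem_van.trans ⟨fun h _ hy _ hz => h _ ⟨hy, hz⟩,
    fun h w hw => Sum.elim_comp_inl_inr w ▸ h _ hw.1 _ hw.2⟩

theorem sz_e1 (f : P (ρ ⊕ τ)) (a : ρ → ℂ) (b : τ → ℂ) :
    eval b (aeval (Sum.elim (fun i => C (a i)) X) f) = eval (Sum.elim a b) f := by
  rw [gmeet_eval]
  congr 2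
  ext (i | i) <;> simp

theorem sz_e2 (f : P (ρ ⊕ τ)) (a : ρ → ℂ) (b : τ → ℂ) :
    eval a (aeval (Sum.elim X fun i => C (b i)) f) = eval (Sum.elim a b) f := by
  rw [gmeet_eval]
  congr 2
  ext (i | i) <;> simp

theorem sz_prime {𝔮 : Ideal (P ρ)} {𝔭 : Ideal (P τ)} (hq : 𝔮.IsPrime) (hp : 𝔭.IsPrime) :
    (vI (szU 𝔮 𝔭)).IsPrime := by
  refine ⟨(Ideal.ne_top_iff_one _).2 fun h => ?_, fun {f g} h => ?_⟩
  · obtain ⟨y, hy, -⟩ := exists_pt hq ((Ideal.ne_top_iff_one _).1 hq.ne_top)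
    obtain ⟨z, hz, -⟩ := exists_pt hp ((Ideal.ne_top_iff_one _).1 hp.ne_top)
    simpa using sz_mem.1 h y hy z hz
  · by_contra hc
    simp only [sz_mem, not_or, not_forall] at hc
    obtain ⟨⟨y1, hy1, z1, hz1, h1⟩, y2, hy2, z2, hz2, h2⟩ := hc
    obtain ⟨y, hy, h3⟩ := exists_pt hq fun hm => (hq.mem_or_mem hm).elim
      (fun h3 => h1 ((sz_e2 f y1 z1).symm.trans (mem_vZ.1 hy1 _ h3)))
      fun h3 => h2 ((sz_e2 g y2 z2).symm.trans (mem_vZ.1 hy2 _ h3))
    rw [map_mul, sz_e2, sz_e2, mul_ne_zero_iff] at h3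
    obtain ⟨z, hz, h4⟩ := exists_pt hp fun hm => (hp.mem_or_mem hm).elim
      (fun h4 => h3.1 ((sz_e1 f y z1).symm.trans (mem_vZ.1 hz1 _ h4)))
      fun h4 => h3.2 ((sz_e1 g y z2).symm.trans (mem_vZ.1 hz2 _ h4))
    rw [map_mul, sz_e1, sz_e1, ← map_mul] at h4
    exact h4 (sz_mem.1 h y hy z hz)

theorem sz_dim {𝔮 : Ideal (P ρ)} {𝔭 : Ideal (P τ)} (hq : 𝔮.IsPrime) (hp : 𝔭.IsPrime) :
    dm 𝔮 + dm 𝔭 ≤ dm (vI (szU 𝔮 𝔭)) := by
  have := sz_prime hq hp
  obtain ⟨c, -, hc⟩ := exists_indep 𝔮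
  obtain ⟨c', -, hc'⟩ := exists_indep 𝔭
  rw [indep_iff_comap] at hc hc'
  have h1 : (vI (szU 𝔮 𝔭)).comap (rename (Sum.map c c') : P _ →ₐ[ℂ] P (ρ ⊕ τ)) ≤ ⊥ := by
    intro f hf
    have h : ∀ y ∈ vZ 𝔮, ∀ z ∈ vZ 𝔭, eval (Sum.elim (y ∘ c) (z ∘ c')) f = 0 := fun y hy z hz => by
      rw [← Sum.elim_comp_map, ← eval_rename]
      exact sz_mem.1 hf y hy z hz
    have s1 : ∀ y ∈ vZ 𝔮, ∀ b, eval (Sum.elim (y ∘ c) b) f = 0 := fun y hy b => by
      rw [← sz_e1, gmeet_dense hp hc' fun y' hy' => (sz_e1 _ _ _).trans (h y hy y' hy'), map_zero]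
    refine Ideal.mem_bot.2 (MvPolynomial.funext fun x => ?_)
    rw [← Sum.elim_comp_inl_inr x, ← sz_e2,
      gmeet_dense hq hc fun y hy => (sz_e2 _ _ _).trans (s1 y hy _), map_zero, map_zero]
  simpa only [ge_iff_le, Fintype.card_sum, Fintype.card_fin] using card_le_dm ((indep_iff_comap _).2 h1)

theorem sz_field {𝔍 : Ideal (P ρ)} (hp : 𝔍.IsPrime) :
    ∃ (K : Type) (_ : Field K) (_ : Algebra ℂ K) (χ : P ρ →ₐ[ℂ] K), (∀ g, χ g = 0 ↔ g ∈ 𝔍) ∧
      (∀ u, ∃ f g, u = χ f * (χ g)⁻¹) ∧ (dm 𝔍 : Cardinal) ≤ Algebra.trdeg ℂ K := by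
  have hi := IsFractionRing.injective (P ρ ⧸ 𝔍) (FractionRing (P ρ ⧸ 𝔍))
  refine ⟨FractionRing (P ρ ⧸ 𝔍), inferInstance, inferInstance,
    (IsScalarTower.toAlgHom ℂ _ _).comp (Ideal.Quotient.mkₐ ℂ 𝔍), fun g => ?_, fun u => ?_, ?_⟩
  · exact (map_eq_zero_iff _ hi).trans Ideal.Quotient.eq_zero_iff_mem
  · obtain ⟨a, b, -, rfl⟩ := IsFractionRing.div_surjective (A := P ρ ⧸ 𝔍) u
    obtain ⟨f, rfl⟩ := Ideal.Quotient.mk_surjective a
    obtain ⟨g, rfl⟩ := Ideal.Quotient.mk_surjective b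
    exact ⟨f, g, div_eq_mul_inv _ _⟩
  · rw [dm_cast]
    exact trdeg_le_of_injective (IsScalarTower.toAlgHom ℂ _ _) hi

end SZb

section SZc

variable {τ ρ K : Type} [Fintype τ] [Fintype ρ] [Field K] [Algebra ℂ K] {Z : Set (τ → ℂ)} {k : ℕ}

theorem sz_fin (hZ : Cn Z) (κ : (ρ → ℂ) →ₗ[ℂ] (τ → ℂ)) {𝔮 : Ideal (P ρ)} (hh : HomI (w0 ρ) 𝔮)
    {l : τ → ℂ} (hl : ∀ y ∈ vZ 𝔮, y ≠ 0 → l ∈ Nm Z (κ y))
    (y : ρ → K) (p : τ → K) (h1 : ∀ f ∈ 𝔮, aeval y f = 0)
    (h2 : ∀ G ∈ vI Z, aeval (fun i => aeval y (pull κ (X i))) G = 0)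
    (h3 : ∀ G ∈ vI Z, aeval (fun i => aeval y (pull κ (X i)) + p i) G = 0)
    (h0 : aeval p (szL l) ≠ 0) (B : Subalgebra ℂ K) (hp : ∀ i, p i ∈ B)
    (hi : (aeval p (szL l))⁻¹ ∈ B) (j : ρ) : IsIntegral B (y j) := by
  let a : Option τ → K := fun o => o.elim (aeval p (szL l))⁻¹ p
  refine sz_int y a B (fun o => by cases o; exacts [hi, hp _]) (fun w hw hc => ?_) j
  have hq := sz_cone hh h1 hw
  by_contra hne
  have hη : w ∘ Sum.inl ≠ 0 := fun h => hne fun j => congrFun h j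
  let v : τ → P (ρ ⊕ Option (Option τ)) := fun i => X (Sum.inr (some (some i)))
  have hv : ∀ i, szPhi y a (v i) = Polynomial.C (p i) := fun i => aeval_X _ _
  have e1 : l ⬝ᵥ (fun i => w (Sum.inr (some (some i)))) ≠ 0 := fun h => by
    have h4 := hw (X (Sum.inr (some none)) * aeval v (szL l) - 1) (by
      rw [map_sub, map_mul, map_one, show szPhi y a (X (Sum.inr (some none))) =
        Polynomial.C (aeval p (szL l))⁻¹ from aeval_X _ _, comp_aeval_apply, funext hv,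
        show aeval (fun i => Polynomial.C (p i)) (szL l) = Polynomial.C (aeval p (szL l)) from
          (comp_aeval_apply p Polynomial.CAlgHom _).symm, ← map_mul, inv_mul_cancel₀ h0, map_one,
        sub_self])
    rw [map_sub, map_mul, gmeet_eval, szL_eval] at h4
    simp only [v, eval_X, h] at h4
    simp at h4
  refine e1 (mem_tangent_nm.1 ((mem_tangent_hom hZ).2 fun G hG d hd => ?_) _ (hl _ hq hη))
  let u : τ → P (ρ ⊕ Option (Option τ)) := fun i => rename Sum.inl (pull κ (X i))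
  have hu : ∀ i, szPhi y a (u i) = Polynomial.X * Polynomial.C (aeval y (pull κ (X i))) :=
    fun i => by rw [sz_inl (pull_hom κ (isHomogeneous_X ℂ i)), pow_one]
  have hs : szPhi y a (X (Sum.inr none)) = Polynomial.X := aeval_X _ _
  obtain ⟨Q, hQ⟩ := sz_tay u v (X (Sum.inr none)) G
  have h4 := congrArg (szPhi y a) hQ
  rw [map_add, map_mul, comp_aeval_apply, comp_aeval_apply, funext hu, sz_hom hd, h2 G hG,
    show (fun i => szPhi y a (u i + X (Sum.inr none) * v i)) =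
      fun i => Polynomial.X * Polynomial.C (aeval y (pull κ (X i)) + p i) from funext fun i => by
        rw [map_add, map_mul, hu, hs, hv, map_add, mul_add],
    sz_hom hd, h3 G hG, map_zero, mul_zero, zero_add, hs] at h4
  have h5 := hw _ ((mul_eq_zero.1 h4.symm).resolve_left Polynomial.X_ne_zero)
  rw [map_add, map_mul, eval_X, hc, zero_mul, add_zero, map_sum] at h5
  refine Eq.trans (Finset.sum_congr rfl fun i _ => ?_) h5
  rw [map_mul, gmeet_eval, eval_X, show (fun i => eval w (u i)) = κ (w ∘ Sum.inl) from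
    funext fun i => by rw [eval_rename, eval_pull, eval_X]]
  rfl

/-- the theorem on tangencies -/
theorem sz (hZ : Sm Z k) (hs : Submodule.span ℂ Z = ⊤) (κ : (ρ → ℂ) →ₗ[ℂ] (τ → ℂ))
    {𝔮 : Ideal (P ρ)} (hq : 𝔮.IsPrime) (hh : HomI (w0 ρ) 𝔮) (ho : ∀ y ∈ vZ 𝔮, κ y ∈ Z)
    (hne : ∃ y ∈ vZ 𝔮, y ≠ 0) {Ω : Submodule ℂ (τ → ℂ)} (h0 : Ω ≠ ⊥)
    (hΩ : ∀ y ∈ vZ 𝔮, y ≠ 0 → Ω ≤ Nm Z (κ y)) : dm 𝔮 + finrank ℂ Ω ≤ k + 1 := by
  by_contra hc
  have hmem : ∀ z, z ∈ vZ (vI Z) ↔ z ∈ Z := fun z => by rw [hZ.closed]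
  have hJ := sz_prime hq hZ.prime
  have hd := sz_dim hq hZ.prime
  have hk := hZ.dim
  have hω : finrank ℂ Ω ≤ Fintype.card τ := Ω.finrank_le.trans (finrank_fintype_fun_eq_card ℂ).le
  obtain ⟨K, _, _, χ, hχ, hK, htr⟩ := sz_field hJ
  obtain ⟨d, hd2⟩ : ∃ d, dm (vI (szU 𝔮 (vI Z))) = d + 1 + 1 :=
    ⟨dm (vI (szU 𝔮 (vI Z))) - 2, by omega⟩
  let u : τ → P (ρ ⊕ τ) := fun i => rename Sum.inl (pull κ (X i))
  let pp : τ → P (ρ ⊕ τ) := fun i => X (Sum.inr i) - u i
  let y : ρ → K := fun j => χ (X (Sum.inl j))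
  let p : τ → K := fun i => χ (pp i)
  have hu : ∀ a b, (fun i => eval (Sum.elim a b) (u i)) = κ a := fun a b => funext fun i => by
    rw [eval_rename, eval_pull, eval_X, Sum.elim_comp_inl]
  have hpp : ∀ a b, (fun i => eval (Sum.elim a b) (pp i)) = b - κ a := fun a b => funext fun i => by
    rw [map_sub, eval_X, congrFun (hu a b) i]
    rfl
  have hA : ∀ {β : Type} (s : β → P (ρ ⊕ τ)) (f : P β), aeval (fun i => χ (s i)) f = 0 ↔
      ∀ a ∈ vZ 𝔮, ∀ b ∈ Z, eval (fun i => eval (Sum.elim a b) (s i)) f = 0 := fun s f => by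
    simp only [← comp_aeval_apply, hχ, sz_mem, hmem, gmeet_eval]
  have hy : ∀ i, aeval y (pull κ (X i)) = χ (u i) := fun i => by
    rw [← comp_aeval_apply]
    exact congrArg χ (DFunLike.congr_fun (rename_eq_aeval Sum.inl) _).symm
  have h00 := zero_mem_vZ (adm_w0 ρ).posw hh hq.ne_top
  have hp0 : ∀ l : τ → ℂ, l ≠ 0 → aeval p (szL l) ≠ 0 := fun l hl h => by
    obtain ⟨z, hz, h1⟩ := exists_dot_ne hs hl
    have h2 := (hA pp _).1 h 0 h00 z hz
    rw [hpp, map_zero, sub_zero, szL_eval] at h2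
    exact h1 h2
  have hI : RingHom.ker (aeval p : P τ →ₐ[ℂ] K) = vI {v | ∃ a ∈ vZ 𝔮, ∃ b ∈ Z, v = b - κ a} := by
    ext f
    rw [RingHom.mem_ker, hA pp, mem_van]
    refine ⟨?_, fun h a ha b hb => hpp a b ▸ h _ ⟨a, ha, b, hb, rfl⟩⟩
    rintro h _ ⟨a, ha, b, hb, rfl⟩
    exact hpp a b ▸ h a ha b hb
  have hIh : HomI (w0 τ) (RingHom.ker (aeval p : P τ →ₐ[ℂ] K)) := by
    rw [hI]
    refine homI_cone ?_
    rintro c _ ⟨a, ha, b, hb, rfl⟩
    exact ⟨c • a, cone_of_homI hh c ha, c • b, hZ.cone c b hb, by rw [map_smul, smul_sub]⟩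
  have hIp : (RingHom.ker (aeval p : P τ →ₐ[ℂ] K)).IsPrime := RingHom.ker_isPrime _
  have hId : dm (RingHom.ker (aeval p : P τ →ₐ[ℂ] K)) ≤ d + 1 + 1 := by
    obtain ⟨c, -, hc⟩ := exists_indep (RingHom.ker (aeval p : P τ →ₐ[ℂ] K))
    rw [indep_iff_comap] at hc
    rw [← hd2, ← Fintype.card_fin (dm (RingHom.ker _))]
    refine card_le_dm (x := fun i => Ideal.Quotient.mkₐ ℂ _ (pp (c i)))
      (algebraicIndependent_iff.2 fun f hf => Ideal.mem_bot.1 (hc ?_))
    rw [← comp_aeval_apply] at hf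
    have h1 := (hχ _).2 (Ideal.Quotient.eq_zero_iff_mem.1 hf)
    rw [comp_aeval_apply] at h1
    rw [Ideal.mem_comap, RingHom.mem_ker, aeval_rename]
    exact h1
  obtain ⟨l₀, hl₀, hl₀', s₀⟩ := sz_step (d := d + 1)
    (fun 𝔭 hp h => (dm_anti hIp hp h).trans hId) Ω h0 (by omega)
  obtain ⟨l₁, hl₁, hl₁', s₁⟩ := sz_step s₀ Ω h0 (by omega)
  have : Nontrivial (τ → ℂ) := ⟨l₀, 0, hl₀'⟩
  obtain ⟨t', ht'⟩ := sz_sop d _
    ((hIh.sup_one (isWH_w0.2 (szL_hom l₀))).sup_one (isWH_w0.2 (szL_hom l₁))) s₁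
  let t : Option (Option (Fin d)) → τ → ℂ := fun o => o.elim l₀ fun o => o.elim l₁ t'
  let tb : Option (Option (Fin d)) → K := fun i => aeval p (szL (t i))
  let A := Algebra.adjoin ℂ (Set.range tb)
  have hA' : ∀ i, tb i ∈ A := fun i => Algebra.subset_adjoin ⟨i, rfl⟩
  have hp : ∀ i, IsIntegral A (p i) := sz_int p tb A hA' fun w hw hc => by
    have h1 : ∀ i, t i ⬝ᵥ (w ∘ Sum.inl) = 0 := fun i => by
      have h2 := hw (rename Sum.inl (szL (t i)) - X (Sum.inr none) * X (Sum.inr (some i))) (by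
        rw [map_sub, map_mul, sz_inl (szL_hom _), pow_one,
          show szPhi p tb (X (Sum.inr none)) = Polynomial.X from aeval_X _ _,
          show szPhi p tb (X (Sum.inr (some i))) = Polynomial.C (tb i) from aeval_X _ _, sub_self])
      rwa [map_sub, map_mul, eval_X, hc, zero_mul, sub_zero, eval_rename, szL_eval] at h2
    refine congrFun (ht' _ (mem_vZ_sup.2 ⟨mem_vZ_sup.2 ⟨sz_cone hIh (fun f hf => hf) hw,
      mem_vZ_span.2 ?_⟩, mem_vZ_span.2 ?_⟩) fun i => h1 (some (some i)))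
    · rintro _ rfl
      exact (szL_eval _ _).trans (h1 none)
    · rintro _ rfl
      exact (szL_eval _ _).trans (h1 (some none))
  have hm : ∀ i, t i ∈ Ω → t i ≠ 0 → ∀ j, ∃ m : ℕ,
      IsIntegral A ((⟨tb i, hA' i⟩ : A) ^ m • y j) := fun i h1 h2 j =>
    sz_loc A _ (hp0 _ h2) _ fun B h3 h4 => sz_fin hZ.toCn κ hh (fun y hy h => hΩ y hy h h1) y p
      (fun f hf => (hA _ f).2 fun a ha b _ => by simpa using mem_vZ.1 ha f hf)
      (fun G hG => by
        rw [funext hy]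
        exact (hA u G).2 fun a ha b _ => hu a b ▸ mem_van.1 hG _ (ho a ha))
      (fun G hG => by
        rw [show (fun i => aeval y (pull κ (X i)) + p i) = fun i => χ (X (Sum.inr i)) from
          funext fun i => by rw [hy, ← map_add, add_sub_cancel]]
        exact (hA _ G).2 fun a _ b hb => by simpa using mem_van.1 hG b hb)
      (hp0 _ h2) B (fun i => h3 _ (hp i)) h4 j
  have hyA : ∀ j, IsAlgebraic A (y j) := fun j => by
    obtain ⟨m, h⟩ := hm none hl₀ hl₀' j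
    exact h.isAlgebraic.of_smul (mem_nonZeroDivisors_of_ne_zero
      (pow_ne_zero m fun h1 => hp0 _ hl₀' (congrArg Subtype.val h1)))
  have hal : ∀ {β : Type} (s : β → K), (∀ i, IsAlgebraic A (s i)) → ∀ f : P β,
      IsAlgebraic A (aeval s f) := fun s h f => by
    induction f using MvPolynomial.induction_on with
    | C c => exact aeval_C s c ▸ isAlgebraic_algebraMap (R := A) (A := K) (algebraMap ℂ A c)
    | add f g hf hg => exact map_add (aeval s) f g ▸ hf.add hg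
    | mul_X f i hf =>
      rw [map_mul, aeval_X]
      exact hf.mul (h i)
  have hχA : ∀ f, IsAlgebraic A (χ f) := fun f => by
    rw [aeval_unique χ]
    refine hal _ ?_ f
    rintro (j | i)
    · exact hyA j
    · rw [show (χ ∘ X) (Sum.inr i) = aeval y (pull κ (X i)) + p i from by
        rw [hy, ← map_add, add_sub_cancel]
        rfl]
      exact (hal y hyA _).add (hp i).isAlgebraic
  have : Algebra.IsAlgebraic A K := ⟨fun v => by
    obtain ⟨f, g, rfl⟩ := hK v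
    exact (hχA f).mul (hχA g).inv⟩
  have hT := (Algebra.IsAlgebraic.isTranscendenceBasis_of_le_trdeg_of_finite ℂ tb
    (le_trans (by rw [hd2]; simp only [Cardinal.mk_fintype, Fintype.card_option, Fintype.card_fin, Nat.cast_add, Nat.cast_one, Std.le_refl]) htr)).1
  have : IsIntegrallyClosed A := IsIntegrallyClosed.of_equiv hT.aevalEquiv.toRingEquiv
  have he : ∀ i, hT.aevalEquiv (X i) = ⟨tb i, hA' i⟩ := fun i => Subtype.ext (aeval_X tb i)
  obtain ⟨y₀, hy₀, hy₀'⟩ := hne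
  refine hy₀' (funext fun j => ?_)
  obtain ⟨m, h1⟩ := hm none hl₀ hl₀' j
  obtain ⟨m', h2⟩ := hm (some none) hl₁ hl₁' j
  obtain ⟨n, c, hc1, hc2⟩ := sz_hart A
    (he none ▸ (MulEquiv.prime_iff hT.aevalEquiv).2 X_prime) (fun h => by
      rw [← he, ← he, map_dvd_iff, X_dvd_X] at h
      exact absurd h (by simp)) h1 h2
  let tt : Option (Option (Fin d)) → P (ρ ⊕ τ) := fun i => aeval pp (szL (t i))
  have h3 : ∑ i ∈ Finset.range (n + 1),
      aeval tt (hT.aevalEquiv.symm (c i)) * X (Sum.inl j) ^ i ∈ vI (szU 𝔮 (vI Z)) := by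
    rw [← hχ, map_sum]
    refine Eq.trans (Finset.sum_congr rfl fun i _ => ?_) hc2
    rw [map_mul, map_pow, comp_aeval_apply, show (fun i => χ (tt i)) = tb from
      funext fun i => comp_aeval_apply _ _ _, ← hT.algebraMap_aevalEquiv, AlgEquiv.apply_symm_apply]
    rfl
  have h4 : ∑ i ∈ Finset.range (n + 1),
      Polynomial.monomial i (eval 0 (hT.aevalEquiv.symm (c i)) * y₀ j ^ i) = 0 := by
    refine Polynomial.funext fun s => ?_
    have h5 := cone_of_homI hh s hy₀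
    have h6 := sz_mem.1 h3 _ h5 _ ((hmem _).2 (ho _ h5))
    rw [Polynomial.eval_zero, Polynomial.eval_finsetSum, ← h6, map_sum]
    refine Finset.sum_congr rfl fun i _ => ?_
    rw [Polynomial.eval_monomial, map_mul, map_pow, eval_X, gmeet_eval,
      show (fun i => eval (Sum.elim (s • y₀) (κ (s • y₀))) (tt i)) = 0 from funext fun i => by
        rw [gmeet_eval, hpp, sub_self, szL_eval, dotProduct_zero]
        rfl]
    simp only [Sum.elim_inl, Pi.smul_apply, smul_eq_mul]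
    ring
  have h5 := congrArg (fun q => q.coeff n) h4
  simp only [Polynomial.finsetSum_coeff, Polynomial.coeff_monomial, Finset.sum_ite_eq',
    Finset.self_mem_range_succ, if_true, hc1, map_one, one_mul, Polynomial.coeff_zero] at h5
  exact pow_eq_zero_iff'.1 h5 |>.1

end SZc

end Pool.Agent.MP_429080_ag.H26

/-! Complete intersections recognised at one point of each component. -/

namespace Pool.Agent.MP_429080_ag.H26

open MvPolynomial Module Pool.Agent.EGH Pool.Agent.MP_d171e3_nt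
open Pool.Agent.MP_429080_ag.H26.T

set_option linter.unusedSectionVars false

section CIa

variable {τ ν μ : Type} [Fintype τ] [Fintype ν] [Fintype μ]

theorem ci_hom {f : μ → P τ} {d : μ → ℕ} (hf : ∀ m, (f m).IsHomogeneous (d m)) :
    HomI (w0 τ) (Ideal.span (Set.range f)) :=
  homI_span (by rintro _ ⟨i, rfl⟩; exact ⟨_, isWH_w0.2 (hf i)⟩)

theorem ci_min_dim (f : μ → P τ) {𝔮 : Ideal (P τ)}
    (hq : 𝔮 ∈ (Ideal.span (Set.range f)).minimalPrimes) :
    Fintype.card τ ≤ dm 𝔮 + Fintype.card μ := by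
  have hc := cut (𝔮 := ⊥) (𝔭 := 𝔮) Ideal.isPrime_bot f (by rwa [bot_sup_eq])
  rwa [dm_bot] at hc

theorem ci_dp (f : μ → P τ) (d : μ → ℕ) (hd : ∀ m, 0 < d m)
    (hf : ∀ m, (f m).IsHomogeneous (d m)) (hk : Fintype.card μ < Fintype.card τ)
    (hdim : ∀ 𝔮 : Ideal (P τ), 𝔮.IsPrime → Ideal.span (Set.range f) ≤ 𝔮 →
      dm 𝔮 + Fintype.card μ ≤ Fintype.card τ) :
    Dp (Fintype.card τ - Fintype.card μ) (Ideal.span (Set.range f)) := by
  let e := (Fintype.equivFin μ).symm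
  have hr : Set.range (f ∘ e) = Set.range f := e.surjective.range_comp f
  have h := gsat2_dp (f ∘ e) (d ∘ e) (fun i => hd _) (fun i => hf _) hk (by rwa [hr]) Finset.univ
  rwa [Finset.coe_univ, Set.image_univ, Finset.card_univ, Fintype.card_fin, hr] at h

/-- a prime containing forms `f`, of codimension at most their number, such that each component
of their zero set meets it at a point where the gradients are independent -/
theorem ci_pt (f : μ → P τ) (d : μ → ℕ) (hd : ∀ m, 0 < d m)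
    (hf : ∀ m, (f m).IsHomogeneous (d m)) (hk : Fintype.card μ < Fintype.card τ)
    {𝔭 : Ideal (P τ)} (hp : 𝔭.IsPrime) (hh : HomI (w0 τ) 𝔭) (hle : ∀ m, f m ∈ 𝔭)
    (hdim : Fintype.card τ ≤ dm 𝔭 + Fintype.card μ)
    (hpt : ∀ 𝔮 ∈ (Ideal.span (Set.range f)).minimalPrimes, ∃ w ∈ vZ 𝔮, w ∈ vZ 𝔭 ∧
      LinearIndependent ℂ fun m => grad (f m) w) :
    𝔭 = Ideal.span (Set.range f) ∧ dm 𝔭 + Fintype.card μ = Fintype.card τ ∧
      Dp (Fintype.card τ - Fintype.card μ) 𝔭 := by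
  have hle' : Ideal.span (Set.range f) ≤ 𝔭 := Ideal.span_le.2 (Set.range_subset_iff.2 hle)
  have hA : ∀ 𝔮 : Ideal (P τ), 𝔮.IsPrime → Ideal.span (Set.range f) ≤ 𝔮 → 𝔭 ≤ 𝔮 := by
    intro 𝔮 _ h
    obtain ⟨𝔮', hq, h2⟩ := Ideal.exists_minimalPrimes_le h
    obtain ⟨w, hw, hw', hi⟩ := hpt 𝔮' hq
    obtain ⟨h, hh, hg⟩ := loc hp hw' f hle hi hdim
    exact fun g hg' => h2 ((hq.isPrime.mem_or_mem (hq.le (hg g hg'))).resolve_left
      fun h' => hh (mem_vZ.1 hw h h'))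
  obtain ⟨𝔮₀, hq₀, -⟩ := Ideal.exists_minimalPrimes_le hle'
  obtain ⟨w, -, hw', hi⟩ := hpt 𝔮₀ hq₀
  have hj := jac hp hw' f hle hi
  obtain ⟨h, hh0, hg⟩ := loc hp hw' f hle hi hdim
  have hD := ci_dp f d hd hf hk fun 𝔮 hq h => by
    have := dm_anti hp hq (hA 𝔮 hq h)
    omega
  have e : 𝔭 = Ideal.span (Set.range f) := by
    refine le_antisymm ?_ hle'
    by_contra hn
    obtain ⟨p, e, h1, h2, h3⟩ := hh.exists_hom hn
    rcases isWH_w0_cases h3 with h0 | ⟨d', -, hp'⟩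
    · exact h2 (h0 ▸ Submodule.zero_mem _)
    obtain ⟨𝔮, h4, h5, h6⟩ := dp_dim _ (ci_hom hf) hD hp' h2
    have h7 := hA 𝔮 h4 ((le_col _ _).trans h5)
    have h8 : 𝔭 < 𝔮 := lt_of_le_of_ne h7 fun e =>
      hh0 (mem_vZ.1 hw' h (e ▸ h5 (mem_col.2 (hg p h1))))
    have := dm_lt h8
    omega
  exact ⟨e, by omega, e ▸ hD⟩

/-- a subfamily of a family of forms generating a prime of the expected dimension, with
independent gradients at one point, generates a prime -/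
theorem ci_sub {ι : Type} [Fintype ι] (f : μ → P τ) (d : μ → ℕ) (hd : ∀ m, 0 < d m)
    (hf : ∀ m, (f m).IsHomogeneous (d m)) (hk : Fintype.card μ < Fintype.card τ)
    (hp : (Ideal.span (Set.range f)).IsPrime)
    (hdim : dm (Ideal.span (Set.range f)) + Fintype.card μ ≤ Fintype.card τ)
    {w : τ → ℂ} (hw : ∀ m, eval w (f m) = 0) (hi : LinearIndependent ℂ fun m => grad (f m) w)
    (a : ι → μ) (ha : Function.Injective a) :
    (Ideal.span (Set.range fun i => f (a i))).IsPrime ∧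
      dm (Ideal.span (Set.range fun i => f (a i))) + Fintype.card ι = Fintype.card τ ∧
      Dp (Fintype.card τ - Fintype.card ι) (Ideal.span (Set.range fun i => f (a i))) := by
  classical
  have hca := Fintype.card_le_of_injective a ha
  have hH : HomI (w0 τ) (Ideal.span (Set.range fun i => f (a i))) := ci_hom fun i => hf (a i)
  have hw' : ∀ 𝔮 ∈ (Ideal.span (Set.range fun i => f (a i))).minimalPrimes, w ∈ vZ 𝔮 := by
    intro 𝔮 hq
    have h1 := ci_min_dim _ hq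
    have h0 : (0 : τ → ℂ) ∈ vZ (𝔮 ⊔ Ideal.span (Set.range
        fun m : ((Finset.univ.image a)ᶜ : Finset μ) => f m)) :=
      mem_vZ_sup.2 ⟨zero_mem_vZ (adm_w0 τ).posw (hmin hH hq) hq.isPrime.ne_top,
        mem_vZ_span.2 (by rintro _ ⟨m, rfl⟩; exact gsat2_eval0 (hd m) (hf m))⟩
    obtain ⟨𝔭, h2, -⟩ := exists_min_at h0
    have h3 := cut hq.isPrime _ h2
    rw [Fintype.card_coe, Finset.card_compl, Finset.card_image_of_injective _ ha,
      Finset.card_univ] at h3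
    have h4 : Ideal.span (Set.range f) ≤ 𝔭 := Ideal.span_le.2 (by
      rintro _ ⟨m, rfl⟩
      refine h2.le ?_
      by_cases hm : m ∈ Finset.univ.image a
      · obtain ⟨i, -, rfl⟩ := Finset.mem_image.1 hm
        exact Submodule.mem_sup_left (hq.le (Ideal.subset_span ⟨i, rfl⟩))
      · exact Submodule.mem_sup_right (Ideal.subset_span ⟨⟨m, Finset.mem_compl.2 hm⟩, rfl⟩))
    have h5 : Ideal.span (Set.range f) = 𝔭 := by
      by_contra hn
      have := h2.isPrime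
      have := dm_lt (lt_of_le_of_ne h4 hn)
      omega
    refine gmeet_anti (le_sup_left.trans (h2.le.trans h5.ge)) (mem_vZ_span.2 ?_)
    rintro _ ⟨m, rfl⟩
    exact hw m
  obtain ⟨𝔮, hq, -⟩ := exists_min_at (𝔞 := Ideal.span (Set.range fun i => f (a i))) (y := w)
    (mem_vZ_span.2 (by rintro _ ⟨i, rfl⟩; exact hw _))
  obtain ⟨e, h1, h2⟩ := ci_pt (fun i => f (a i)) (fun i => d (a i)) (fun i => hd _) (fun i => hf _)
    (by omega) hq.isPrime (hmin hH hq) (fun i => hq.le (Ideal.subset_span ⟨i, rfl⟩))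
    (ci_min_dim _ hq) fun 𝔮' hq' => ⟨w, hw' _ hq', hw' _ hq, hi.comp a ha⟩
  exact ⟨e ▸ hq.isPrime, e ▸ h1, e ▸ h2⟩

/-- forms with independent gradients along a large cone generate a prime ideal -/
theorem ce_ci {τ μ : Type} [Fintype τ] [Fintype μ] (f : μ → P τ) (d : μ → ℕ) (hd : ∀ m, 0 < d m)
    (hf : ∀ m, (f m).IsHomogeneous (d m)) {zz : Ideal (P τ)} (hzz : zz.IsPrime)
    (hzh : HomI (w0 τ) zz) (hfz : ∀ m, f m ∈ zz) (hc : Fintype.card μ < dm zz)
    (hind : ∀ w ∈ vZ zz, w ≠ 0 → LinearIndependent ℂ fun m => grad (f m) w) :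
    (Ideal.span (Set.range f)).IsPrime ∧
      dm (Ideal.span (Set.range f)) + Fintype.card μ = Fintype.card τ ∧
      Dp (Fintype.card τ - Fintype.card μ) (Ideal.span (Set.range f)) := by
  obtain ⟨𝔭, hp, hle⟩ := Ideal.exists_minimalPrimes_le
    (Ideal.span_le.2 (Set.range_subset_iff.2 hfz) : Ideal.span (Set.range f) ≤ zz)
  have h0 := dm_anti Ideal.isPrime_bot hzz bot_le
  rw [dm_bot] at h0
  obtain ⟨e, h1, h2⟩ := ci_pt f d hd hf (by omega) hp.isPrime (hmin (ci_hom hf) hp)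
    (fun m => hp.le (Ideal.subset_span ⟨m, rfl⟩)) (ci_min_dim f hp) fun 𝔮 hq => by
      have := ci_min_dim f hq
      obtain ⟨w, h0, hw, hw'⟩ := meet hq.isPrime hzz (hmin (ci_hom hf) hq) hzh (by omega)
      exact ⟨w, hw, gmeet_anti hle hw', hind w hw' h0⟩
  exact ⟨e ▸ hp.isPrime, e ▸ h1, e ▸ h2⟩

theorem grad_pull (j : (τ → ℂ) →ₗ[ℂ] (ν → ℂ)) (F : P ν) (w u : τ → ℂ) :
    grad (pull j F) w ⬝ᵥ u = grad F (j w) ⬝ᵥ j u := by
  classical
  induction F using MvPolynomial.induction_on with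
  | C a =>
    have h1 : grad (pull j (C a)) w = 0 := by ext i; simp [grad, pull]
    have h2 : grad (C a : P ν) (j w) = 0 := by ext i; simp [grad]
    rw [h1, h2, zero_dotProduct, zero_dotProduct]
  | add p q hp hq => rw [map_add, grad_add, grad_add, add_dotProduct, add_dotProduct, hp, hq]
  | mul_X p i hp =>
    have h1 : grad (pull j (X i)) w ⬝ᵥ u = j u i := by
      have := euler (pull_hom j (isHomogeneous_X ℂ i)) u
      rw [eval_pull, eval_X, Nat.cast_one, one_mul] at this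
      rw [← this]
      congr 1
      ext t
      simp only [grad, pull, lin, LinearMap.coe_comp, LinearMap.coe_proj, Function.comp_apply, Function.eval, aeval_eq_bind₁, bind₁_X_right, map_sum, Derivation.leibniz, pderiv_X, Pi.single_apply, apply_ite, smul_eq_mul, mul_one, mul_zero, derivation_C, add_zero, Finset.sum_ite_eq', Finset.mem_univ, ↓ reduceIte, eval_C]
    have h2 : grad (X i : P ν) (j w) ⬝ᵥ j u = j u i := by
      simp only [dotProduct, grad, pderiv_X, Pi.single_apply, MonoidWithZeroHom.map_ite_one_zero, ite_mul, one_mul, zero_mul, Finset.sum_ite_eq, Finset.mem_univ, ↓ reduceIte]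
    rw [map_mul, grad_mul, grad_mul, add_dotProduct, add_dotProduct, smul_dotProduct,
      smul_dotProduct, smul_dotProduct, smul_dotProduct, hp, h1, h2, eval_pull, eval_pull]

/-- restriction of linear forms along `j` -/
noncomputable def res (j : (τ → ℂ) →ₗ[ℂ] (ν → ℂ)) : (ν → ℂ) →ₗ[ℂ] (τ → ℂ) := by
  classical exact (LinearMap.toMatrix' j).vecMulLinear

theorem res_dot (j : (τ → ℂ) →ₗ[ℂ] (ν → ℂ)) (α : ν → ℂ) (u : τ → ℂ) :
    res j α ⬝ᵥ u = α ⬝ᵥ j u := by
  classical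
  unfold res
  rw [Matrix.vecMulLinear_apply, ← Matrix.dotProduct_mulVec]
  congr 1
  convert LinearMap.toMatrix'_mulVec j u

theorem grad_pull_res (j : (τ → ℂ) →ₗ[ℂ] (ν → ℂ)) (F : P ν) (w : τ → ℂ) :
    grad (pull j F) w = res j (grad F (j w)) := by
  classical
  ext t
  have := (grad_pull j F w (Pi.single t 1)).trans (res_dot j _ _).symm
  simpa only [dotProduct_single, mul_one] using this

theorem res_eq_zero {j : (τ → ℂ) →ₗ[ℂ] (ν → ℂ)} {α : ν → ℂ} :
    res j α = 0 ↔ ∀ u, α ⬝ᵥ j u = 0 := by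
  classical
  refine ⟨fun h u => by rw [← res_dot, h, zero_dotProduct], fun h => funext fun t => ?_⟩
  simpa only [Pi.zero_apply, dotProduct_single, mul_one] using (res_dot j α (Pi.single t 1)).trans (h _)

/-- ranks of the part of `N = ann T` killing `K = ker B`, and of the restriction of `N` to `K` -/
theorem res_rank {N T : Submodule ℂ (ν → ℂ)} (h : ∀ v, v ∈ T ↔ ∀ α ∈ N, α ⬝ᵥ v = 0)
    (B : (ν → ℂ) →ₗ[ℂ] (ν → ℂ)) {j : (τ → ℂ) →ₗ[ℂ] (ν → ℂ)} (hj : Function.Injective j)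
    (hK : LinearMap.range j = LinearMap.ker B) :
    finrank ℂ ↥(N ⊓ LinearMap.ker (res j)) + Fintype.card τ + finrank ℂ (T.map B) =
        Fintype.card ν ∧
      finrank ℂ (N.map (res j)) + finrank ℂ ↥(N ⊓ LinearMap.ker (res j)) = finrank ℂ N := by
  have key : ∀ {V W : Type} [AddCommGroup V] [Module ℂ V] [AddCommGroup W] [Module ℂ W]
      [FiniteDimensional ℂ V] (S : Submodule ℂ V) (φ : V →ₗ[ℂ] W),
      finrank ℂ (S.map φ) + finrank ℂ ↥(S ⊓ LinearMap.ker φ) = finrank ℂ S := by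
    intro V W _ _ _ _ _ S φ
    have h1 := LinearMap.finrank_range_add_finrank_ker (φ.domRestrict S)
    rwa [LinearMap.range_domRestrict, LinearMap.ker_domRestrict, ← Submodule.finrank_map_subtype_eq,
      Submodule.map_comap_subtype] at h1
  refine ⟨?_, key _ _⟩
  have h1 : ∀ α, α ∈ N ⊓ LinearMap.ker (res j) ↔ ∀ v ∈ T ⊔ LinearMap.range j, v ⬝ᵥ α = 0 := by
    intro α
    rw [Submodule.mem_inf, ann_iff h, LinearMap.mem_ker, res_eq_zero]
    refine ⟨fun ⟨a, b⟩ v hv => ?_, fun a => ⟨fun v hv => ?_, fun u => ?_⟩⟩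
    · obtain ⟨x, hx, _, ⟨u, rfl⟩, rfl⟩ := Submodule.mem_sup.1 hv
      rw [dotProduct_comm, dotProduct_add, a x hx, b u, add_zero]
    · rw [dotProduct_comm]
      exact a v (Submodule.mem_sup_left hv)
    · rw [dotProduct_comm]
      exact a _ (Submodule.mem_sup_right ⟨u, rfl⟩)
  have h2 := ann_rank h1
  have h3 := key (T ⊔ LinearMap.range j) B
  have h4 : (LinearMap.range j).map B = ⊥ := by
    rw [hK]
    exact le_bot_iff.1 (by rintro _ ⟨v, hv, rfl⟩; exact hv)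
  rw [← hK, inf_eq_right.2 le_sup_right, Submodule.map_sup, h4, sup_bot_eq,
    LinearMap.finrank_range_of_inj hj, finrank_fintype_fun_eq_card] at h3
  omega

/-- CI of the paper, hypotheses as in `tail` -/
theorem ci_main {e g κ : ℕ} {Z : Set (ν → ℂ)} (hZ : Sm Z (e + κ))
    (h3 : 3 * (e + κ) + 2 ≤ Fintype.card ν) (hg : g ≤ κ) (he : κ < e)
    (B : (ν → ℂ) →ₗ[ℂ] (ν → ℂ)) (j : (τ → ℂ) →ₗ[ℂ] (ν → ℂ)) (hj : Function.Injective j)
    (hK : LinearMap.range j = LinearMap.ker B) (hγ : Fintype.card τ + 2 * e = Fintype.card ν)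
    {ss : Ideal (P τ)} (hss : ss.IsPrime) (hsh : HomI (w0 τ) ss) (hsZ : ∀ w ∈ vZ ss, j w ∈ Z)
    (hsd : Fintype.card τ ≤ dm ss + κ)
    (hμ : Fintype.card μ = κ) (F : μ → P ν) (d : μ → ℕ) (hd : ∀ m, 0 < d m)
    (hF : ∀ m, (F m).IsHomogeneous (d m)) (hFZ : ∀ m, F m ∈ vI Z)
    (a : Fin g → μ) (ha : Function.Injective a)
    {zz : Ideal (P τ)} (hzz : zz.IsPrime) (hzh : HomI (w0 τ) zz) (hsz : ss ≤ zz)
    (hzd : Fintype.card τ + 1 ≤ dm zz + 2 * g + κ)
    (hind : ∀ w ∈ vZ zz, w ≠ 0 → LinearIndependent ℂ fun m => grad (pull j (F m)) w) :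
    ss = Ideal.span (Set.range fun m => pull j (F m)) ∧ dm ss + κ = Fintype.card τ ∧
      Dp (Fintype.card τ - κ) ss ∧
      (∀ w ∈ vZ ss, w ≠ 0 → finrank ℂ ((tangent Z (j w)).map B) = e →
        LinearIndependent ℂ fun m => grad (pull j (F m)) w) ∧
      (Ideal.span (Set.range fun i => pull j (F (a i)))).IsPrime ∧
      dm (Ideal.span (Set.range fun i => pull j (F (a i)))) + g = Fintype.card τ ∧
      Dp (Fintype.card τ - g) (Ideal.span (Set.range fun i => pull j (F (a i)))) := by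
  have hmem : ∀ G ∈ vI Z, pull j G ∈ ss := fun G hG => by
    rw [← vI_vZ hss]
    exact mem_van.2 fun w hw => (eval_pull j w G).trans (mem_van.1 hG _ (hsZ w hw))
  have hf : ∀ m, (pull j (F m)).IsHomogeneous (d m) := fun m => pull_hom j (hF m)
  obtain ⟨e1, e2, e3⟩ := ci_pt (fun m => pull j (F m)) d hd hf (by omega) hss hsh
    (fun m => hmem _ (hFZ m)) (by omega) fun 𝔮 hq => by
      have := ci_min_dim _ hq
      obtain ⟨w, h0, hw, hw'⟩ := meet hq.isPrime hzz (hmin (ci_hom hf) hq) hzh (by omega)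
      exact ⟨w, hw, gmeet_anti hsz hw', hind w hw' h0⟩
  obtain ⟨w, hw, h0⟩ := exists_ne_pt hzz (by omega) 0
  obtain ⟨e4, e5, e6⟩ := ci_sub (fun m => pull j (F m)) d hd hf (by omega) (e1 ▸ hss) (e1 ▸ e2.le)
    (fun m => mem_vZ.1 (gmeet_anti hsz hw) _ (hmem _ (hFZ m))) (hind w hw h0) a ha
  rw [Fintype.card_fin] at e5 e6
  rw [hμ] at e2 e3
  refine ⟨e1, e2, e3, fun w hw h0 hT => ?_, e4, e5, e6⟩
  obtain ⟨r1, r2⟩ := res_rank (N := Nm Z (j w)) (fun _ => mem_tangent_nm) B hj hK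
  rw [hZ.rk _ (hsZ w hw) fun h => h0 (hj (h.trans (map_zero j).symm))] at r2
  have hle : (Nm Z (j w)).map (res j) ≤
      Submodule.span ℂ (Set.range fun m => grad (pull j (F m)) w) := by
    rintro _ ⟨α, hα, rfl⟩
    obtain ⟨G, hG, rfl⟩ := mem_nm.1 hα
    rw [← grad_pull_res, ← nm_gens (C := vZ ss) ((vI_vZ hss).trans e1) hw]
    exact grad_mem_nm ((vI_vZ hss).symm ▸ hmem G hG) w
  have h1 := Submodule.finrank_mono hle
  have h2 := finrank_range_le_card (R := ℂ) fun m => grad (pull j (F m)) w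
  exact linearIndependent_iff_card_eq_finrank_span.2 (by unfold Set.finrank at h2 ⊢; omega)

end CIa

end Pool.Agent.MP_429080_ag.H26

/-! Degeneracy loci of polynomial matrices. -/

namespace Pool.Agent.MP_429080_ag.H26

open MvPolynomial Filter Module Pool.Agent.EGH Pool.Agent.MP_d171e3_nt
open Pool.Agent.MP_429080_ag.H26.T

set_option linter.unusedSectionVars false

section PartDeg

variable {τ ι μ : Type} [Fintype τ] [Fintype ι] [Fintype μ]

theorem ce_ind [DecidableEq μ] {x l : μ → ι → ℂ} (h : (Matrix.of fun a b => x a ⬝ᵥ l b).det ≠ 0) :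
    LinearIndependent ℂ x := by
  refine LinearIndependent.of_comp (Matrix.of l).mulVecLin ?_
  have e : ⇑(Matrix.of l).mulVecLin ∘ x = fun a => (Matrix.of fun a b => x a ⬝ᵥ l b) a := by
    funext a b
    exact dotProduct_comm _ _
  rw [e]
  exact Matrix.linearIndependent_rows_of_det_ne_zero h

/-- the pairing of a polynomial vector with a constant vector -/
noncomputable def ce_dot (q : ι → P τ) (l : ι → ℂ) : P τ := ∑ i, q i * C (l i)

theorem ce_dot_eval (w : τ → ℂ) (q : ι → P τ) (l : ι → ℂ) : eval w (ce_dot q l) = ev w q ⬝ᵥ l := by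
  simp only [ce_dot, map_sum, map_mul, eval_C, dotProduct, ev]

theorem ce_det [DecidableEq μ] (w : τ → ℂ) (v : μ → ι → P τ) (l : μ → ι → ℂ) :
    eval w (Matrix.of fun a b => ce_dot (v a) (l b)).det =
      (Matrix.of fun a b => ev w (v a) ⬝ᵥ l b).det := by
  rw [RingHom.map_det]
  congr 1
  ext a b
  exact ce_dot_eval w _ _

/-- independence is an open condition -/
theorem ce_open (v : μ → ι → P τ) {w₀ : τ → ℂ} (h : LinearIndependent ℂ fun m => ev w₀ (v m)) :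
    ∃ δ : P τ, eval w₀ δ ≠ 0 ∧ ∀ w, eval w δ ≠ 0 → LinearIndependent ℂ fun m => ev w (v m) := by
  classical
  obtain ⟨l, hl⟩ := gchart_dual h
  refine ⟨(Matrix.of fun a b => ce_dot (v a) (l b)).det, ?_, fun w hw => ?_⟩
  · have e : (Matrix.of fun a b => ev w₀ (v a) ⬝ᵥ l b) = 1 := Matrix.ext hl
    rw [ce_det, e, Matrix.det_one]
    exact one_ne_zero
  · rw [ce_det] at hw
    exact ce_ind hw

/-- dependence is a closed condition -/
theorem ce_closed {𝔭 : Ideal (P τ)} (hp : 𝔭.IsPrime) (v : μ → ι → P τ) {Δ : P τ} (hΔ : Δ ∉ 𝔭)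
    (h : ∀ w ∈ vZ 𝔭, eval w Δ ≠ 0 → ¬ LinearIndependent ℂ fun m => ev w (v m)) :
    ∀ w ∈ vZ 𝔭, ¬ LinearIndependent ℂ fun m => ev w (v m) := fun w hw hi => by
  obtain ⟨δ, h1, h2⟩ := ce_open v hi
  have h3 : Δ * δ ∉ 𝔭 := fun hm =>
    (hp.mem_or_mem hm).elim hΔ fun h4 => h1 (mem_vZ.1 hw _ h4)
  obtain ⟨y, hy, h4⟩ := exists_pt hp h3
  rw [map_mul, mul_ne_zero_iff] at h4
  exact h y hy h4.1 (h2 y h4.2)

theorem ce_M [DecidableEq μ] [DecidableEq ι] {c : μ → ℂ} {m₀ : μ} (hc : c m₀ = 1)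
    (I : {m // m ≠ m₀} ↪ ι) : ∃ M : μ → ι → ℂ, ∑ m, c m • M m = 0 ∧
      ∀ m m' : {m // m ≠ m₀}, M m (I m') = if m = m' then 1 else 0 := by
  let M : μ → ι → ℂ := fun m => if h : m = m₀ then
    -∑ m' : {m // m ≠ m₀}, c m' • (Pi.single (I m') 1 : ι → ℂ) else Pi.single (I ⟨m, h⟩) 1
  have h1 : ∀ m : {m // m ≠ m₀}, M m = Pi.single (I m) 1 := fun m => dif_neg m.2
  refine ⟨M, ?_, fun m m' => ?_⟩
  · rw [Fintype.sum_eq_add_sum_subtype_ne _ m₀, hc, one_smul]
    simp only [h1]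
    rw [show M m₀ = _ from dif_pos rfl, neg_add_cancel]
  · rw [h1, Pi.single_apply]
    simp only [EmbeddingLike.apply_eq_iff_eq, eq_comm]

theorem ce_shift {n : Type} [Fintype n] [DecidableEq n] (A : Matrix n n ℂ) :
    ∃ t : ℂ, (Matrix.of fun a b => A a b + t * if a = b then 1 else 0).det ≠ 0 := by
  by_contra hn
  refine (Matrix.charpoly_monic (-A)).ne_zero (Polynomial.funext fun t => ?_)
  rw [Matrix.eval_charpoly, Polynomial.eval_zero]
  refine of_not_not fun h => hn ⟨t, fun h' => h ?_⟩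
  rw [← h']
  congr 1
  ext a b
  simp [Matrix.diagonal_apply, add_comm]

theorem ce_proj {𝔭 : Ideal (P (τ ⊕ Unit))} (hp : 𝔭.IsPrime) (ht : X (Sum.inr ()) ∈ 𝔭) :
    dm 𝔭 ≤ dm (𝔭.comap (rename Sum.inl : P τ →ₐ[ℂ] P (τ ⊕ Unit))) := by
  obtain ⟨c, -, hc⟩ := exists_indep 𝔭
  have h1 : ∀ i, ∃ a, c i = Sum.inl a := fun i => by
    rcases h : c i with a | ⟨⟩
    · exact ⟨a, rfl⟩
    · have h2 := hc.ne_zero i
      rw [h] at h2
      exact absurd (Ideal.Quotient.eq_zero_iff_mem.2 ht) h2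
  choose c' hc' using h1
  have h2 := (indep_iff_comap c).1 hc
  have hp' : (𝔭.comap (rename Sum.inl : P τ →ₐ[ℂ] P (τ ⊕ Unit))).IsPrime := Ideal.comap_isPrime _ _
  have h3 := card_le_dm ((indep_iff_comap
    (𝔭 := 𝔭.comap (rename Sum.inl : P τ →ₐ[ℂ] P (τ ⊕ Unit))) c').2 fun f hf => h2 (by
      rw [Ideal.mem_comap, Ideal.mem_comap, rename_rename] at hf
      rw [Ideal.mem_comap, funext hc']
      exact hf))
  rwa [Fintype.card_fin] at h3

/-- local equations of the degeneracy locus where the corank is one -/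
theorem ce_eqs [DecidableEq μ] [DecidableEq ι] {ρ : Type} [Fintype ρ] (A : μ → ι → P ρ) (m₀ : μ)
    (I : {m // m ≠ m₀} ↪ ι) : ∃ u : {i // i ∉ Set.range I} → P ρ,
      (∀ (y : ρ → ℂ) (c : μ → ℂ), c m₀ = 1 → ∑ m, c m • ev y (A m) = 0 → ∀ i, eval y (u i) = 0) ∧
      ∀ y : ρ → ℂ, eval y (Matrix.of fun m m' : {m // m ≠ m₀} => A m (I m')).det ≠ 0 →
        (∀ i, eval y (u i) = 0) → ¬ LinearIndependent ℂ fun m => ev y (A m) := by
  let A' : Matrix {m // m ≠ m₀} {m // m ≠ m₀} (P ρ) := Matrix.of fun m m' => A m (I m')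
  let cc : {m // m ≠ m₀} → P ρ := Matrix.vecMul (fun m' => A m₀ (I m')) A'.adjugate
  let u : ι → P ρ := fun i => A'.det * A m₀ i - ∑ m, cc m * A m i
  have h1 : ∀ m', u (I m') = 0 := fun m' => by
    have h2 : Matrix.vecMul cc A' = A'.det • fun m' => A m₀ (I m') := by
      rw [Matrix.vecMul_vecMul, Matrix.adjugate_mul, Matrix.vecMul_smul, Matrix.vecMul_one]
    exact sub_eq_zero.2 (congrFun h2 m').symm
  refine ⟨fun i => u i, fun y c hc h i => ?_, fun y hy h hi => ?_⟩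
  · rw [Fintype.sum_eq_add_sum_subtype_ne _ m₀, hc, one_smul] at h
    have h2 : ∀ i, eval y (A m₀ i) = -∑ m : {m // m ≠ m₀}, c m * eval y (A m i) := fun i => by
      have := congrFun h i
      rw [Pi.add_apply, Finset.sum_apply] at this
      exact eq_neg_of_add_eq_zero_left this
    have h3 : ∀ m, eval y (cc m) = -(eval y A'.det * c m) := fun m => by
      have h4 : Matrix.vecMul (Matrix.vecMul (fun m : {m // m ≠ m₀} => c m) (A'.map (eval y)))
          (A'.adjugate.map (eval y)) = eval y A'.det • fun m : {m // m ≠ m₀} => c m := by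
        rw [Matrix.vecMul_vecMul, ← Matrix.map_mul, Matrix.mul_adjugate]
        ext m
        simp only [Matrix.vecMul, dotProduct, ne_eq, Matrix.map_apply, Matrix.smul_apply, Matrix.one_apply, apply_ite, smul_eq_mul, mul_comm, one_mul, zero_mul, map_zero, mul_zero, Finset.sum_ite_eq', Finset.mem_univ, ↓ reduceIte, Pi.smul_apply]
      have h5 := congrFun h4 m
      rw [Pi.smul_apply, smul_eq_mul] at h5
      rw [← h5]
      simp only [cc, ne_eq, A', Matrix.vecMul, dotProduct, map_sum, map_mul, h2, neg_mul, Finset.sum_neg_distrib, Matrix.map_apply, Matrix.of_apply]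
    simp only [u, map_sub, map_mul, map_sum, h3, h2 i, Finset.mul_sum, mul_neg, neg_mul,
      Finset.sum_neg_distrib, mul_assoc, sub_self]
  · have h2 : ∀ i, eval y (u i) = 0 := fun i => by
      by_cases hi : i ∈ Set.range I
      · obtain ⟨m', rfl⟩ := hi
        rw [h1, map_zero]
      · exact h ⟨i, hi⟩
    refine hy ((dif_pos rfl).symm.trans (Fintype.linearIndependent_iff.1 hi
      (fun m => if h : m = m₀ then eval y A'.det else -eval y (cc ⟨m, h⟩)) ?_ m₀))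
    rw [Fintype.sum_eq_add_sum_subtype_ne _ m₀, dif_pos rfl]
    funext i
    have h3 := h2 i
    simp only [u, map_sub, map_mul, map_sum] at h3
    rw [Pi.add_apply, Finset.sum_apply, Pi.zero_apply, ← h3, sub_eq_add_neg,
      ← Finset.sum_neg_distrib]
    refine congrArg₂ _ rfl (Finset.sum_congr rfl fun m _ => ?_)
    rw [dif_neg m.2]
    exact neg_mul _ _

/-- the degeneracy locus of a matrix of polynomials -/
theorem ce_deg {𝔮 : Ideal (P τ)} (hq : 𝔮.IsPrime) {w₀ : τ → ℂ} (hw : w₀ ∈ vZ 𝔮) (v : μ → ι → P τ)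
    (hc : Fintype.card μ ≤ Fintype.card ι + 1) (h : ¬ LinearIndependent ℂ fun m => ev w₀ (v m)) :
    ∃ 𝔭 : Ideal (P τ), 𝔭.IsPrime ∧ 𝔮 ≤ 𝔭 ∧ w₀ ∈ vZ 𝔭 ∧
      dm 𝔮 + Fintype.card μ ≤ dm 𝔭 + Fintype.card ι + 1 ∧
      ∀ w ∈ vZ 𝔭, ¬ LinearIndependent ℂ fun m => ev w (v m) := by
  classical
  obtain ⟨c, m₀, hc1, hc0⟩ : ∃ (c : μ → ℂ) (m₀ : μ), c m₀ = 1 ∧ ∑ m, c m • ev w₀ (v m) = 0 := by
    obtain ⟨c, h1, m₀, h2⟩ := Fintype.not_linearIndependent_iff.1 h
    refine ⟨(c m₀)⁻¹ • c, m₀, inv_mul_cancel₀ h2, ?_⟩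
    simp only [Pi.smul_apply, smul_eq_mul, mul_smul, ← Finset.smul_sum, h1, smul_zero]
  have hcard : Fintype.card {m // m ≠ m₀} + 1 = Fintype.card μ := by
    have := Fintype.card_pos_iff.2 ⟨m₀⟩
    rw [Fintype.card_subtype_compl, Fintype.card_subtype_eq]
    omega
  obtain ⟨I⟩ : Nonempty ({m // m ≠ m₀} ↪ ι) := Function.Embedding.nonempty_of_card_le (by omega)
  obtain ⟨M, hM, hM'⟩ := ce_M hc1 I
  let A : μ → ι → P (τ ⊕ Unit) := fun m i =>
    rename Sum.inl (v m i) + X (Sum.inr ()) * C (M m i)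
  have hA : ∀ y m, ev y (A m) = ev (y ∘ Sum.inl) (v m) + y (Sum.inr ()) • M m := fun y m => by
    funext i
    simp [A, ev, eval_rename]
  obtain ⟨u, hu1, hu2⟩ := ce_eqs A m₀ I
  have hl := ext_prime Unit (pt_max w₀).isPrime
  have hlw : ∀ y : τ ⊕ Unit → ℂ, y ∈ vZ ((vI {w₀}).map (rename Sum.inl : P τ →ₐ[ℂ] P (τ ⊕ Unit))) ↔
      y ∘ Sum.inl = w₀ := fun y => by
    rw [mem_vZ_ext]
    refine ⟨fun hy => _root_.funext fun a => ?_, fun hy => hy ▸ gdim_le.2 le_rfl⟩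
    have := mem_vZ.1 hy (X a - C (w₀ a)) (gdim_pt.2 (by simp))
    simpa [sub_eq_zero] using this
  have hle : 𝔮.map (rename Sum.inl : P τ →ₐ[ℂ] P (τ ⊕ Unit)) ⊔ Ideal.span (Set.range u) ≤
      (vI {w₀}).map (rename Sum.inl : P τ →ₐ[ℂ] P (τ ⊕ Unit)) := by
    refine sup_le (Ideal.map_mono (gdim_le.1 hw)) (Ideal.span_le.2 ?_)
    rintro _ ⟨i, rfl⟩
    rw [← vI_vZ hl]
    refine mem_van.2 fun y hy => hu1 y c hc1 ?_ i
    simp only [hA, (hlw y).1 hy, smul_add, Finset.sum_add_distrib, hc0, zero_add,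
      smul_comm _ (y (Sum.inr ())), ← Finset.smul_sum, hM, smul_zero]
  obtain ⟨𝔭₁, hp₁, hle₁⟩ := Ideal.exists_minimalPrimes_le hle
  have hd₁ := cut (ext_prime Unit hq) u hp₁
  have hd₀ := ext_dm Unit hq
  have hJ : Fintype.card {i // i ∉ Set.range I} + Fintype.card {m // m ≠ m₀} = Fintype.card ι := by
    rw [Fintype.card_subtype_compl, Fintype.card_range]
    omega
  have hΔ : (Matrix.of fun m m' : {m // m ≠ m₀} => A m (I m')).det ∉ 𝔭₁ := fun hm => by
    obtain ⟨t, ht⟩ := ce_shift (Matrix.of fun m m' : {m // m ≠ m₀} => ev w₀ (v m) (I m'))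
    have h1 := mem_vZ.1 ((hlw (Sum.elim w₀ fun _ => t)).2 rfl) _ (hle₁ hm)
    rw [RingHom.map_det] at h1
    refine ht ((congrArg Matrix.det (Matrix.ext fun m m' => ?_)).trans h1)
    have h2 := congrFun (hA (Sum.elim w₀ fun _ => t) m) (I m')
    rw [Pi.add_apply, Pi.smul_apply, hM'] at h2
    exact h2.symm
  have hdep := ce_closed hp₁.isPrime A hΔ fun y hy h0 => hu2 y h0 fun i =>
    mem_vZ.1 hy _ (hp₁.le (Ideal.mem_sup_right (Ideal.subset_span ⟨i, rfl⟩)))
  have hy₀ : Sum.elim w₀ (fun _ : Unit => (0 : ℂ)) ∈ vZ (𝔭₁ ⊔ Ideal.span {X (Sum.inr ())}) :=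
    mem_vZ_sup.2 ⟨gmeet_anti hle₁ ((hlw _).2 rfl), mem_vZ_span.2 fun f hf => by
      rw [Set.mem_singleton_iff.1 hf, eval_X]
      rfl⟩
  obtain ⟨𝔭₂, hp₂, hy₂⟩ := exists_min_at hy₀
  have := hp₁.isPrime
  have hd₂ := dm_le_succ hp₂
  have ht : X (Sum.inr ()) ∈ 𝔭₂ := hp₂.le (Ideal.mem_sup_right (Ideal.subset_span rfl))
  have h12 : 𝔭₁ ≤ 𝔭₂ := le_sup_left.trans hp₂.le
  have hd₃ := ce_proj hp₂.isPrime ht
  have := hp₂.isPrime
  refine ⟨𝔭₂.comap (rename Sum.inl : P τ →ₐ[ℂ] P (τ ⊕ Unit)), Ideal.comap_isPrime _ _,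
    Ideal.map_le_iff_le_comap.1 ((le_sup_left.trans hp₁.le).trans h12), fun f hf => ?_, ?_,
    fun w hw hi => ?_⟩
  · have h1 := mem_vZ.1 hy₂ _ (Ideal.mem_comap.1 hf)
    rwa [eval_rename] at h1
  · rw [Fintype.card_unit] at hd₀
    omega
  · obtain ⟨δ, h1, h2⟩ := ce_open v hi
    obtain ⟨y, hy, h3⟩ := exists_pt hp₂.isPrime (g := rename Sum.inl δ)
      fun hm => h1 (mem_vZ.1 hw _ (Ideal.mem_comap.2 hm))
    rw [eval_rename] at h3
    have h4 : y (Sum.inr ()) = 0 := (eval_X _).symm.trans (mem_vZ.1 hy _ ht)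
    refine hdep y (gmeet_anti h12 hy) ?_
    simp only [hA, h4, zero_smul, add_zero]
    exact h2 _ h3

/-- the degeneracy locus of sections of a family of subspaces -/
theorem ce_degW {𝔮 : Ideal (P τ)} (hq : 𝔮.IsPrime) {w₀ : τ → ℂ} (hw : w₀ ∈ vZ 𝔮) (h0 : w₀ ≠ 0)
    (W : (τ → ℂ) → Submodule ℂ (ι → ℂ)) {r : ℕ} (hr : finrank ℂ (W w₀) = r)
    (hr' : ∀ w ∈ vZ 𝔮, w ≠ 0 → finrank ℂ (W w) ≤ r)
    (hs : ∀ x ∈ W w₀, ∃ q : ι → P τ, ev w₀ q = x ∧ ∀ w, ev w q ∈ W w) (v : μ → ι → P τ)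
    (hv : ∀ m w, ev w (v m) ∈ W w) (hc : Fintype.card μ ≤ r + 1)
    (h : ¬ LinearIndependent ℂ fun m => ev w₀ (v m)) :
    ∃ 𝔭 : Ideal (P τ), 𝔭.IsPrime ∧ 𝔮 ≤ 𝔭 ∧ w₀ ∈ vZ 𝔭 ∧ dm 𝔮 + Fintype.card μ ≤ dm 𝔭 + r + 1 ∧
      ∀ w ∈ vZ 𝔭, ¬ LinearIndependent ℂ fun m => ev w (v m) := by
  classical
  let b := finBasisOfFinrankEq ℂ (W w₀) hr
  choose s hs1 hs2 using fun i => hs (b i) (b i).2
  have hb : LinearIndependent ℂ fun i => ev w₀ (s i) := by
    simp only [hs1]
    exact b.linearIndependent.map' (W w₀).subtype (Submodule.ker_subtype _)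
  obtain ⟨l, hl⟩ := gchart_dual hb
  have hL : ∀ w, (fun m => ev w fun i => ce_dot (v m) (l i)) =
      ⇑(Matrix.of l).mulVecLin ∘ fun m => ev w (v m) := fun w => by
    funext m i
    exact (ce_dot_eval w _ _).trans (dotProduct_comm _ _)
  obtain ⟨𝔭, hp, hqp, hwp, hd, hdep⟩ := ce_deg hq hw (fun m i => ce_dot (v m) (l i))
    (by rwa [Fintype.card_fin]) fun hi => h (LinearIndependent.of_comp _ (hL w₀ ▸ hi))
  rw [Fintype.card_fin] at hd
  obtain ⟨a, ha⟩ := Function.ne_iff.1 h0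
  have hΔ : X a * (Matrix.of fun i i' => ce_dot (s i) (l i')).det ∉ 𝔭 := fun hm => by
    have h1 := mem_vZ.1 hwp _ hm
    have e : (Matrix.of fun i i' => ev w₀ (s i) ⬝ᵥ l i') = 1 := Matrix.ext hl
    rw [map_mul, eval_X, ce_det, e, Matrix.det_one, mul_one] at h1
    exact ha h1
  refine ⟨𝔭, hp, hqp, hwp, hd, ce_closed hp v hΔ fun w hwq h1 hi => hdep w hwq ?_⟩
  rw [map_mul, eval_X, ce_det, mul_ne_zero_iff] at h1
  have h2 : Submodule.span ℂ (Set.range fun i => ev w (s i)) = W w := by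
    refine Submodule.eq_of_le_of_finrank_le (Submodule.span_le.2 ?_) ?_
    · rintro _ ⟨i, rfl⟩
      exact hs2 i w
    · rw [finrank_span_eq_card (ce_ind h1.2), Fintype.card_fin]
      exact hr' w (gmeet_anti hqp hwq) fun h3 => h1.1 (congrFun h3 a)
  rw [hL]
  refine hi.map (Submodule.disjoint_def.2 fun x hx hk => ?_)
  have h3 : x ∈ W w := by
    refine Submodule.span_le.2 ?_ hx
    rintro _ ⟨m, rfl⟩
    exact hv m w
  rw [← h2] at h3
  obtain ⟨c, rfl⟩ := (Submodule.mem_span_range_iff_exists_fun ℂ).1 h3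
  have h4 : Matrix.vecMul c (Matrix.of fun i i' => ev w (s i) ⬝ᵥ l i') = 0 := by
    funext i'
    have h5 : l i' ⬝ᵥ ∑ i, c i • ev w (s i) = 0 := congrFun (LinearMap.mem_ker.1 hk) i'
    rw [dotProduct_comm, sum_dotProduct] at h5
    simpa only [Matrix.vecMul, dotProduct, Matrix.of_apply, Finset.mul_sum, Pi.zero_apply, Pi.smul_apply, smul_eq_mul, mul_assoc] using h5
  rw [Matrix.eq_zero_of_vecMul_eq_zero h1.2 h4]
  simp only [Pi.zero_apply, zero_smul, Finset.sum_const_zero]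

end PartDeg

section PartFrame

variable {ν τ μ : Type} [Fintype ν] [Fintype τ] [Fintype μ]

theorem ce_ker {B : (ν → ℂ) →ₗ[ℂ] (ν → ℂ)} (hs : ∀ v w, B v ⬝ᵥ w = B w ⬝ᵥ v)
    {j : (τ → ℂ) →ₗ[ℂ] (ν → ℂ)} (hK : LinearMap.range j = LinearMap.ker B) :
    LinearMap.ker (res j) = LinearMap.range B := by
  classical
  have h1 : ∀ v, v ∈ LinearMap.range j ↔ ∀ α ∈ LinearMap.range B, α ⬝ᵥ v = 0 := fun v => by
    rw [hK, LinearMap.mem_ker]
    refine ⟨fun h => ?_, fun h => _root_.funext fun i => ?_⟩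
    · rintro _ ⟨u, rfl⟩
      rw [hs, h, zero_dotProduct]
    · simpa only [Pi.zero_apply, dotProduct_single, mul_one] using (hs v (Pi.single i 1)).trans (h _ ⟨_, rfl⟩)
  ext α
  rw [ann_iff h1, LinearMap.mem_ker, res_eq_zero]
  refine ⟨fun h => ?_, fun h u => h _ ⟨u, rfl⟩⟩
  rintro _ ⟨u, rfl⟩
  exact h u

/-- F3 -/
theorem ce_lin {e k : ℕ} {Z : Set (ν → ℂ)} (hZ : Sm Z k)
    {Q : P ν} (hQ : Q.IsHomogeneous 2) (hQZ : Q ∈ vI Z) (B : (ν → ℂ) →ₗ[ℂ] (ν → ℂ))
    (hB : ∀ v, B v = grad Q v) (j : (τ → ℂ) →ₗ[ℂ] (ν → ℂ)) (hj : Function.Injective j)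
    (hK : LinearMap.range j = LinearMap.ker B) (hγ : Fintype.card τ + 2 * e = Fintype.card ν)
    {w : τ → ℂ} (hw : j w ∈ Z) (h0 : w ≠ 0) :
    (tangent Z (j w)).map B ≤ Nm Z (j w) ⊓ LinearMap.range B ∧
      finrank ℂ ((tangent Z (j w)).map B) +
        finrank ℂ (Nm Z (j w) ⊓ LinearMap.range B : Submodule ℂ (ν → ℂ)) = 2 * e ∧
      finrank ℂ ((tangent Z (j w)).map B) ≤ e ∧
      (finrank ℂ ((tangent Z (j w)).map B) = e →
        (tangent Z (j w)).map B = Nm Z (j w) ⊓ LinearMap.range B) := by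
  obtain ⟨B', h1, h2, h3⟩ := exists_polar hQ
  obtain rfl : B = B' := LinearMap.ext fun v => by rw [hB, h1]
  have ht := quad_tangent hZ hQ hQZ hw (fun h => h0 (hj (h.trans (map_zero j).symm)))
    ((hB _).symm.trans (LinearMap.mem_ker.1 (hK ▸ LinearMap.mem_range_self j w)))
  have hr : (tangent Z (j w)).map B ≤ Nm Z (j w) ⊓ LinearMap.range B := by
    rintro _ ⟨v, hv, rfl⟩
    refine ⟨nm_iff.2 fun u hu => ?_, ⟨v, rfl⟩⟩
    have e1 := h3 (v + u)
    rw [ht _ (Submodule.add_mem _ hv hu), map_add, add_dotProduct, dotProduct_add, dotProduct_add,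
      h3, h3, ht v hv, ht u hu, h2 u v] at e1
    linear_combination e1 / 2
  have e1 := Submodule.finrank_mono hr
  have e2 := (res_rank (N := Nm Z (j w)) (fun _ => mem_tangent_nm) B hj hK).1
  rw [ce_ker h2 hK] at e2
  exact ⟨hr, by omega, by omega, fun h => Submodule.eq_of_le_of_finrank_le hr (by omega)⟩

/-- completion of an independent family to a basis of a subspace -/
theorem ce_compl {V : Type} [AddCommGroup V] [Module ℂ V] [FiniteDimensional ℂ V]
    {N : Submodule ℂ V} {x : μ → V} (hx : LinearIndependent ℂ x) (hN : ∀ m, x m ∈ N) {e : ℕ}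
    (he : finrank ℂ N = e + Fintype.card μ) : ∃ y : Fin e → V, (∀ i, y i ∈ N) ∧
      ∀ c : μ → Fin e → ℂ, LinearIndependent ℂ fun i => y i - ∑ m, c m i • x m := by
  let U := Submodule.span ℂ (Set.range x)
  have hU : U ≤ N := Submodule.span_le.2 (Set.range_subset_iff.2 hN)
  have h1 : finrank ℂ (N.map U.mkQ) = e := by
    have h2 := LinearMap.finrank_range_add_finrank_ker (U.mkQ.domRestrict N)
    rw [LinearMap.range_domRestrict, LinearMap.ker_domRestrict, ← Submodule.finrank_map_subtype_eq,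
      Submodule.map_comap_subtype, Submodule.ker_mkQ, inf_eq_right.2 hU,
      finrank_span_eq_card hx] at h2
    omega
  let b := finBasisOfFinrankEq ℂ _ h1
  choose y hy hy' using fun i => Submodule.mem_map.1 (b i).2
  refine ⟨y, hy, fun c => LinearIndependent.of_comp U.mkQ ?_⟩
  have h2 : ⇑U.mkQ ∘ (fun i => y i - ∑ m, c m i • x m) = ⇑(N.map U.mkQ).subtype ∘ b := by
    funext i
    have h3 : U.mkQ (∑ m, c m i • x m) = 0 := (Submodule.Quotient.mk_eq_zero U).2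
      (Submodule.sum_mem _ fun m _ => U.smul_mem _ (Submodule.subset_span ⟨m, rfl⟩))
    rw [Function.comp_apply, map_sub, h3, sub_zero, hy']
    rfl
  rw [h2]
  exact b.linearIndependent.map' _ (Submodule.ker_subtype _)

theorem ce_ev_grad (j : (τ → ℂ) →ₗ[ℂ] (ν → ℂ)) (G : P ν) (w : τ → ℂ) :
    ev w (fun a => pull j (pderiv a G)) = grad G (j w) := by
  funext a
  simp only [ev, grad, eval_pull]

/-- CI + EN + FRAME, hypotheses as in `tail` -/
theorem cien {e g κ : ℕ} {Z : Set (ν → ℂ)} (hZ : Sm Z (e + κ))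
    (h3 : 3 * (e + κ) + 2 ≤ Fintype.card ν) (hg : g ≤ κ) (he : κ < e)
    {Q : P ν} (hQ : Q.IsHomogeneous 2) (hQZ : Q ∈ vI Z) (B : (ν → ℂ) →ₗ[ℂ] (ν → ℂ))
    (hB : ∀ v, B v = grad Q v) (j : (τ → ℂ) →ₗ[ℂ] (ν → ℂ)) (hj : Function.Injective j)
    (hK : LinearMap.range j = LinearMap.ker B) (hγ : Fintype.card τ + 2 * e = Fintype.card ν)
    {ss : Ideal (P τ)} (hss : ss.IsPrime) (hsh : HomI (w0 τ) ss) (hsZ : ∀ w ∈ vZ ss, j w ∈ Z)
    (hsd : Fintype.card τ ≤ dm ss + κ)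
    (htg : ∀ 𝔭 : Ideal (P τ), 𝔭.IsPrime → ss ≤ 𝔭 → 2 * g ≤ dm 𝔭 → ∃ w ∈ vZ 𝔭, w ≠ 0 ∧
      finrank ℂ ((tangent Z (j w)).map B) = e)
    (hμ : Fintype.card μ = κ) (F : μ → P ν) (d : μ → ℕ) (hd : ∀ m, 0 < d m)
    (hF : ∀ m, (F m).IsHomogeneous (d m)) (hFZ : ∀ m, F m ∈ vI Z)
    (a : Fin g → μ) (ha : Function.Injective a)
    {zz : Ideal (P τ)} (hzz : zz.IsPrime) (hzh : HomI (w0 τ) zz) (hsz : ss ≤ zz)
    (hzd : Fintype.card τ + 1 ≤ dm zz + 2 * g + κ)
    (hind : ∀ w ∈ vZ zz, w ≠ 0 → LinearIndependent ℂ fun m => grad (pull j (F m)) w) :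
    ss = Ideal.span (Set.range fun m => pull j (F m)) ∧ dm ss + κ = Fintype.card τ ∧
    (Ideal.span (Set.range fun i => pull j (F (a i)))).IsPrime ∧
    dm (Ideal.span (Set.range fun i => pull j (F (a i)))) + g = Fintype.card τ ∧
    Dp (Fintype.card τ - g) (Ideal.span (Set.range fun i => pull j (F (a i)))) ∧
    (∀ w ∈ vZ ss, w ≠ 0 → finrank ℂ ((tangent Z (j w)).map B) = e →
      LinearIndependent ℂ fun m => grad (pull j (F m)) w) ∧
    ∀ w₀ ∈ vZ ss, w₀ ≠ 0 → ∃ ρ : Fin e → ν → P τ, (LinearIndependent ℂ fun i => ev w₀ (ρ i)) ∧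
      (∀ i w, ev w (ρ i) ∈ Nm Z (j w) ⊓ LinearMap.range B) ∧
      ∀ w ∈ vZ ss, w ≠ 0 → finrank ℂ ((tangent Z (j w)).map B) = e →
        ∀ i, ev w (ρ i) ∈ (tangent Z (j w)).map B := by
  obtain ⟨c1, c2, -, c3, c4, c5, c6⟩ := ci_main hZ h3 hg he B j hj hK hγ hss hsh hsZ hsd hμ F d hd
    hF hFZ a ha hzz hzh hsz hzd hind
  refine ⟨c1, c2, c4, c5, c6, c3, fun w₀ hw₀ h0 => ?_⟩
  have hrk : ∀ w ∈ vZ ss, w ≠ 0 → finrank ℂ (Nm Z (j w)) = e + κ := fun w hw h0 =>
    hZ.rk _ (hsZ w hw) fun h => h0 (hj (h.trans (map_zero j).symm))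
  have hEN : LinearIndependent ℂ fun m => grad (F m) (j w₀) := by
    by_contra hn
    obtain ⟨𝔭, hp, hle, -, hd', hdep⟩ := ce_degW hss hw₀ h0 (fun w => Nm Z (j w)) (hrk w₀ hw₀ h0)
      (fun w hw h0 => (hrk w hw h0).le) (fun x hx => by
        obtain ⟨G, hG, rfl⟩ := mem_nm.1 hx
        exact ⟨_, ce_ev_grad j G w₀, fun w => (ce_ev_grad j G w).symm ▸ grad_mem_nm hG _⟩)
      (fun m a => pull j (pderiv a (F m)))
      (fun m w => (ce_ev_grad j (F m) w).symm ▸ grad_mem_nm (hFZ m) _) (by omega)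
      (by simpa only [ce_ev_grad] using hn)
    obtain ⟨w, hw, h1, h2⟩ := htg 𝔭 hp hle (by omega)
    refine hdep w hw ?_
    simp only [ce_ev_grad]
    refine LinearIndependent.of_comp (res j) ?_
    have h4 := c3 w (gmeet_anti hle hw) h1 h2
    simp only [grad_pull_res] at h4
    exact h4
  obtain ⟨y, hy, hy'⟩ := ce_compl hEN (fun m => grad_mem_nm (hFZ m) _) (e := e)
    (by rw [hrk w₀ hw₀ h0, hμ])
  choose G hG hG' using fun i => mem_nm.1 (hy i)
  have h1 : ∀ i, ∃ b : μ → P ν, pull j (G i - ∑ m, b m * F m) = 0 := fun i => by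
    have h2 : pull j (G i) ∈ ss := by
      rw [← vI_vZ hss]
      exact mem_van.2 fun w hw => (eval_pull j w _).trans (mem_van.1 (hG i) _ (hsZ w hw))
    rw [c1] at h2
    obtain ⟨c, hc⟩ := Ideal.mem_span_range_iff_exists_fun.1 h2
    choose b hb using fun m => pull_surjective hj (c m)
    refine ⟨b, ?_⟩
    simp only [map_sub, map_sum, map_mul, hb, hc, sub_self]
  choose b hb using h1
  obtain ⟨B', e1, e2, -⟩ := exists_polar hQ
  obtain rfl : B = B' := LinearMap.ext fun v => by rw [hB, e1]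
  have h2 : ∀ i w, grad (G i - ∑ m, b i m * F m) (j w) ∈ Nm Z (j w) ⊓ LinearMap.range B :=
    fun i w => ⟨grad_mem_nm (sub_mem (hG i) (Ideal.sum_mem _ fun m _ =>
      Ideal.mul_mem_left _ _ (hFZ m))) _, by
        rw [← ce_ker e2 hK]
        exact LinearMap.mem_ker.2 (by rw [← grad_pull_res, hb, grad_zero])⟩
  refine ⟨fun i a => pull j (pderiv a (G i - ∑ m, b i m * F m)), ?_, fun i w => ?_,
    fun w hw h4 h5 i => ?_⟩
  · have h4 : ∀ i, grad (G i - ∑ m, b i m * F m) (j w₀) =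
        y i - ∑ m, eval (j w₀) (b i m) • grad (F m) (j w₀) := fun i => by
      rw [← gradL_apply, map_sub, gradL_apply, gradL_apply, hG', grad_sum]
      refine congrArg (y i - ·) (Finset.sum_congr rfl fun m _ => ?_)
      rw [grad_mul, mem_van.1 (hFZ m) _ (hsZ w₀ hw₀), zero_smul, add_zero]
    simp only [ce_ev_grad, h4]
    exact hy' fun m i => eval (j w₀) (b i m)
  · rw [ce_ev_grad]
    exact h2 i w
  · rw [ce_ev_grad, (ce_lin hZ hQ hQZ B hB j hj hK hγ (hsZ w hw) h4).2.2.2 h5]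
    exact h2 i w

end PartFrame

end Pool.Agent.MP_429080_ag.H26
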