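import Pool.Agent.MP_429080_ag.H91.Mn
import Pool.Agent.MP_429080_ag.FR.D

attribute [-instance] ContinuousSemilinearMapClass.toSemilinearMapClass
  NonUnitalAlgSemiHomClass.toDistribMulActionSemiHomClass NonUnitalNormedRing.toNormedAddCommGroup
  Algebra.IsFiniteSplit.instFree Fintype.decidableForallFintype RingHomClass.toLinearMapClassNNRat
  CoalgHomClass.toSemilinearMapClass SemilinearIsometryClass.toSemilinearMapClass
  RingHomClass.toLinearMapClassRat MulRingSeminormClass.toMonoidWithZeroHomClass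
  NumberField.instFiniteDimensional instNonUnitalAlgHomClassOfNonUnitalAlgEquivClass
  instCoeOTCOfCoeTC IsDedekindDomain.isPrincipalIdealRing instNonemptyOfMonad
  NonUnitalAlgHomClass.instSemilinearMapClassOfNonUnitalAlgSemiHomClassToMonoidHomRingHom
  BialgHomClass.toAlgHomClass NonUnitalAlgHomClass.toNonUnitalRingHomClass
  MulSemiringActionSemiHomClass.toDistribMulActionSemiHomClass CategoryTheory.CommGrpObj.toGrpObj
  MulSemiringActionSemiHomClass.toRingHomClass TestFunctionClass.toDFunLike bot_nonempty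
  Nontrivial.to_nonempty AlgHomClass.linearMapClass LieAdmissibleRing.toNonUnitalNonAssocRing
  ContDiffMapSupportedInClass.toDFunLike instIsPrincipalIdealRingOfIsSemisimpleRing
  Submodule.normedAddCommGroup MonTypeEquivalenceMon.monMonoid
  ValuationClass.toMonoidWithZeroHomClass CommMonTypeEquivalenceCommMon.commMonCommMonoid
  Submodule.IsLattice.finite

namespace Pool.Agent.MP_429080_ag.H26

open MvPolynomial Filter Module Pool.Agent.EGH Pool.Agent.MP_d171e3_nt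
open Pool.Agent.MP_429080_ag.H26.T

set_option linter.unusedSectionVars false

section Cramer

variable {τ ι κ : Type} [Fintype τ] [Fintype ι] [Fintype κ] [DecidableEq κ]

/-- pairing of a constant covector with a polynomial vector -/
noncomputable def dp (l : ι → ℂ) (s : ι → P τ) : P τ := ∑ x, C (l x) * s x

theorem eval_dp (l : ι → ℂ) (s : ι → P τ) (y : τ → ℂ) : eval y (dp l s) = l ⬝ᵥ ev y s := by
  simp only [dp, map_sum, map_mul, eval_C, dotProduct, ev]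

theorem dp_hom (l : ι → ℂ) {s : ι → P τ} {d : ℕ} (h : ∀ x, (s x).IsHomogeneous d) :
    (dp l s).IsHomogeneous d :=
  IsHomogeneous.sum _ _ _ fun x _ => (h x).C_mul _

noncomputable def cA (l : κ → ι → ℂ) (s : κ → ι → P τ) : Matrix κ κ (P τ) :=
  Matrix.of fun i j => dp (l i) (s j)

noncomputable def dt (l : κ → ι → ℂ) (s : κ → ι → P τ) : P τ := (cA l s).det

noncomputable def et (l : κ → ι → ℂ) (s : κ → ι → P τ) (k : κ) : ι → P τ :=
  ∑ j, (cA l s).adjugate j k • s j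

theorem eval_dt (l : κ → ι → ℂ) (s : κ → ι → P τ) (y : τ → ℂ) :
    eval y (dt l s) = (Matrix.of fun i j => l i ⬝ᵥ ev y (s j)).det := by
  rw [dt, RingHom.map_det]
  congr 1
  ext i j
  simp only [cA, RingHom.mapMatrix_apply, Matrix.map_apply, Matrix.of_apply, eval_dp]

theorem det_hom {A : Matrix κ κ (P τ)} {d : ℕ} (h : ∀ i j, (A i j).IsHomogeneous d) :
    A.det.IsHomogeneous (Fintype.card κ * d) := by
  rw [Matrix.det_apply']
  refine IsHomogeneous.sum _ _ _ fun p _ => ?_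
  have := IsHomogeneous.prod Finset.univ (fun i => A (p i) i) (fun _ => d) fun i _ => h _ _
  rw [Finset.sum_const, Finset.card_univ, smul_eq_mul] at this
  have h2 := this.C_mul ((Equiv.Perm.sign p : ℤ) : ℂ)
  simpa only [map_intCast] using h2

theorem dt_hom (l : κ → ι → ℂ) {s : κ → ι → P τ} {d : ℕ} (h : ∀ j x, (s j x).IsHomogeneous d) :
    (dt l s).IsHomogeneous (Fintype.card κ * d) := det_hom fun _ j => dp_hom _ (h j)

theorem et_hom (l : κ → ι → ℂ) {s : κ → ι → P τ} {d : ℕ} (h : ∀ j x, (s j x).IsHomogeneous d)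
    (k : κ) (x : ι) : (et l s k x).IsHomogeneous (Fintype.card κ * d) := by
  have : et l s k x = ((cA l s).updateRow k fun j => s j x).det := by
    rw [← Matrix.cramer_transpose_apply, Matrix.cramer_eq_adjugate_mulVec,
      ← Matrix.adjugate_transpose]
    simp only [et, Finset.sum_apply, Pi.smul_apply, smul_eq_mul, Matrix.mulVec, dotProduct, Matrix.transpose_apply]
  rw [this]
  refine det_hom fun i j => ?_
  rw [Matrix.updateRow_apply]
  split_ifs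
  · exact h _ _
  · exact dp_hom _ (h j)

theorem ev_sum' {α : Type} (t : Finset α) (y : τ → ℂ) (s : α → ι → P τ) :
    ev y (∑ j ∈ t, s j) = ∑ j ∈ t, ev y (s j) := map_sum (evL ι y) s t

theorem ev_sub (y : τ → ℂ) (a b : ι → P τ) : ev y (a - b) = ev y a - ev y b :=
  map_sub (evL ι y) a b

theorem ev_et (l : κ → ι → ℂ) (s : κ → ι → P τ) (k : κ) (y : τ → ℂ) :
    ev y (et l s k) = ∑ j, eval y ((cA l s).adjugate j k) • ev y (s j) := by
  simp only [et, ev_sum', ev_smul]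

theorem et_mem (l : κ → ι → ℂ) (s : κ → ι → P τ) (k : κ) (y : τ → ℂ)
    {W : Submodule ℂ (ι → ℂ)} (h : ∀ j, ev y (s j) ∈ W) : ev y (et l s k) ∈ W := by
  rw [ev_et]
  exact W.sum_mem fun j _ => W.smul_mem _ (h j)

theorem dot_et (l : κ → ι → ℂ) (s : κ → ι → P τ) (i k : κ) (y : τ → ℂ) :
    l i ⬝ᵥ ev y (et l s k) = if i = k then eval y (dt l s) else 0 := by
  have h := congrArg (fun M => eval y (M i k)) (Matrix.mul_adjugate (cA l s))
  simp only [Matrix.mul_apply, map_sum, map_mul, Matrix.smul_apply, Matrix.one_apply,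
    smul_eq_mul, mul_ite, mul_one, mul_zero] at h
  rw [ev_et, dotProduct_sum]
  simp only [dotProduct_smul, smul_eq_mul]
  rw [show (if i = k then eval y (dt l s) else 0) = eval y (if i = k then (cA l s).det else 0) by
    split_ifs <;> simp only [dt, map_zero], ← h]
  exact Finset.sum_congr rfl fun j _ => by simp only [cA, mul_comm, Matrix.of_apply, eval_dp]

theorem cr_zero {l : κ → ι → ℂ} {s : κ → ι → P τ} {y : τ → ℂ} (h : eval y (dt l s) ≠ 0)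
    {c : κ → ℂ} (hc : ∀ i, l i ⬝ᵥ ∑ j, c j • ev y (s j) = 0) : c = 0 := by
  rw [eval_dt] at h
  refine Matrix.eq_zero_of_mulVec_eq_zero h (funext fun i => ?_)
  rw [Pi.zero_apply, ← hc i, dotProduct_sum]
  simp only [Matrix.mulVec, dotProduct_smul, smul_eq_mul]
  exact Finset.sum_congr rfl fun j _ => mul_comm _ _

theorem cr_indep {l : κ → ι → ℂ} {s : κ → ι → P τ} {y : τ → ℂ} (h : eval y (dt l s) ≠ 0) :
    LinearIndependent ℂ fun j => ev y (s j) :=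
  Fintype.linearIndependent_iff.2 fun c hc =>
    congrFun (cr_zero h fun i => by rw [hc, dotProduct_zero])

theorem cr_inj {l : κ → ι → ℂ} {s : κ → ι → P τ} {y : τ → ℂ} (h : eval y (dt l s) ≠ 0)
    {x : ι → ℂ} (hx : x ∈ Submodule.span ℂ (Set.range fun j => ev y (s j)))
    (h0 : ∀ i, l i ⬝ᵥ x = 0) : x = 0 := by
  obtain ⟨c, rfl⟩ := (Submodule.mem_span_range_iff_exists_fun ℂ).1 hx
  rw [cr_zero h h0]
  simp only [Pi.zero_apply, zero_smul, Finset.sum_const_zero]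

theorem cr_ex {s : κ → ι → P τ} {y : τ → ℂ} (h : LinearIndependent ℂ fun j => ev y (s j)) :
    ∃ l : κ → ι → ℂ, (∀ i j, l i ⬝ᵥ ev y (s j) = if i = j then 1 else 0) ∧
      eval y (dt l s) ≠ 0 := by
  obtain ⟨v, hv⟩ := gchart_dual h
  have h1 : ∀ i j, v i ⬝ᵥ ev y (s j) = if i = j then 1 else 0 := fun i j => by
    rw [dotProduct_comm, hv, Matrix.one_apply]
    simp [eq_comm]
  refine ⟨v, h1, ?_⟩
  rw [eval_dt, show (Matrix.of fun i j => v i ⬝ᵥ ev y (s j)) = 1 from by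
    ext i j
    rw [Matrix.of_apply, h1, Matrix.one_apply]]
  simp

theorem cr_ne {l : κ → ι → ℂ} {s : κ → ι → P τ} {y : τ → ℂ}
    (h : LinearIndependent ℂ fun j => ev y (s j))
    (hl : ∀ x ∈ Submodule.span ℂ (Set.range fun j => ev y (s j)), (∀ i, l i ⬝ᵥ x = 0) → x = 0) :
    eval y (dt l s) ≠ 0 := by
  rw [eval_dt]
  intro h0
  obtain ⟨c, hc, h1⟩ := Matrix.exists_mulVec_eq_zero_iff.2 h0
  refine hc (funext (Fintype.linearIndependent_iff.1 h c (hl _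
    ((Submodule.mem_span_range_iff_exists_fun ℂ).2 ⟨c, rfl⟩) fun i => ?_)))
  refine Eq.trans ?_ (congrFun h1 i)
  rw [dotProduct_sum]
  simp only [Matrix.mulVec, dotProduct_smul, smul_eq_mul]
  exact Finset.sum_congr rfl fun j _ => mul_comm _ _

/-- Cramer's rule -/
theorem cr_rule {l : κ → ι → ℂ} {s : κ → ι → P τ} {y : τ → ℂ} (h : eval y (dt l s) ≠ 0)
    {x : ι → ℂ} (hx : x ∈ Submodule.span ℂ (Set.range fun j => ev y (s j))) :
    eval y (dt l s) • x = ∑ k, (l k ⬝ᵥ x) • ev y (et l s k) := by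
  refine sub_eq_zero.1 (cr_inj h (Submodule.sub_mem _ (Submodule.smul_mem _ _ hx)
    (Submodule.sum_mem _ fun k _ => Submodule.smul_mem _ _
      (et_mem _ _ _ _ fun j => Submodule.subset_span ⟨j, rfl⟩))) fun i => ?_)
  rw [dotProduct_sub, dotProduct_sum]
  simp only [dotProduct_smul, smul_eq_mul, mul_comm, dot_et, mul_ite, mul_zero, Finset.sum_ite_eq, Finset.mem_univ, ↓ reduceIte, sub_self]

theorem span_eq_of_indep {V : Type} [AddCommGroup V] [Module ℂ V] [Module.Finite ℂ V]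
    {v : κ → V} (h : LinearIndependent ℂ v) {W : Submodule ℂ V} (hm : ∀ j, v j ∈ W)
    (hr : finrank ℂ W ≤ Fintype.card κ) : Submodule.span ℂ (Set.range v) = W :=
  Submodule.eq_of_le_of_finrank_le (Submodule.span_le.2 (by rintro _ ⟨j, rfl⟩; exact hm j))
    (by rw [finrank_span_eq_card h]; exact hr)

theorem card_le_of_mem {V : Type} [AddCommGroup V] [Module ℂ V] [Module.Finite ℂ V]
    {v : κ → V} (h : LinearIndependent ℂ v) {W : Submodule ℂ V} (hm : ∀ j, v j ∈ W) :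
    Fintype.card κ ≤ finrank ℂ W := by
  rw [← finrank_span_eq_card h]
  exact Submodule.finrank_mono (Submodule.span_le.2 (by rintro _ ⟨j, rfl⟩; exact hm j))

theorem exists_sub {V η : Type} [AddCommGroup V] [Module ℂ V] [Module.Finite ℂ V] (v : η → V)
    {r : ℕ} (h : finrank ℂ (Submodule.span ℂ (Set.range v)) = r) :
    ∃ I : Fin r → η, LinearIndependent ℂ fun j => v (I j) := by
  obtain ⟨κ', a, -, h1, h2⟩ := exists_linearIndependent' ℂ v
  have : Finite κ' := h2.finite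
  have := Fintype.ofFinite κ'
  rw [← h1, finrank_span_eq_card h2] at h
  exact ⟨fun j => a ((Fintype.equivFinOfCardEq h).symm j),
    h2.comp _ (Fintype.equivFinOfCardEq h).symm.injective⟩

/-- a linear map as a polynomial vector -/
noncomputable def lv (f : (τ → ℂ) →ₗ[ℂ] (ι → ℂ)) : ι → P τ :=
  fun x => lin ((LinearMap.proj x).comp f)

theorem ev_lv (f : (τ → ℂ) →ₗ[ℂ] (ι → ℂ)) (y : τ → ℂ) : ev y (lv f) = f y :=
  funext fun _ => eval_lin _ _

theorem lv_hom (f : (τ → ℂ) →ₗ[ℂ] (ι → ℂ)) (x : ι) : (lv f x).IsHomogeneous 1 := lin_hom _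

end Cramer

section Dim

variable {τ ρ ι κ : Type} [Fintype τ] [Fintype ρ] [Fintype ι] [Fintype κ]

theorem homI_range {f : κ → P τ} (h : ∀ i, ∃ d, (f i).IsHomogeneous d) :
    HomI (w0 τ) (Ideal.span (Set.range f)) :=
  homI_span (by
    rintro _ ⟨i, rfl⟩
    obtain ⟨d, hd⟩ := h i
    exact ⟨_, isWH_w0.2 hd⟩)

theorem vZ_anti {I J : Ideal (P τ)} (h : I ≤ J) {y : τ → ℂ} (hy : y ∈ vZ J) : y ∈ vZ I :=
  gmeet_anti h hy

/-- cutting by finitely many equations at a point -/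
theorem cut_at {𝔭 : Ideal (P τ)} (hp : 𝔭.IsPrime) (f : κ → P τ) {y : τ → ℂ} (hy : y ∈ vZ 𝔭)
    (h0 : ∀ i, eval y (f i) = 0) : ∃ 𝔮 : Ideal (P τ), 𝔮.IsPrime ∧ 𝔭 ≤ 𝔮 ∧ (∀ i, f i ∈ 𝔮) ∧
      y ∈ vZ 𝔮 ∧ dm 𝔭 ≤ dm 𝔮 + Fintype.card κ ∧
      (HomI (w0 τ) 𝔭 → (∀ i, ∃ d, (f i).IsHomogeneous d) → HomI (w0 τ) 𝔮) := by
  obtain ⟨𝔮, hq, hy'⟩ := exists_min_at (𝔞 := 𝔭 ⊔ Ideal.span (Set.range f))
    (mem_vZ_sup.2 ⟨hy, mem_vZ_span.2 (by rintro _ ⟨i, rfl⟩; exact h0 i)⟩)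
  exact ⟨𝔮, hq.1.1, le_sup_left.trans hq.1.2,
    fun i => hq.1.2 (Ideal.mem_sup_right (Ideal.subset_span ⟨i, rfl⟩)), hy', cut hp f hq,
    fun h1 h2 => hmin (h1.sup (homI_range h2)) hq⟩

theorem zero_mem {𝔭 : Ideal (P τ)} (hp : 𝔭.IsPrime) (hh : HomI (w0 τ) 𝔭) :
    (0 : τ → ℂ) ∈ vZ 𝔭 := zero_mem_vZ (adm_w0 _).posw hh hp.ne_top

/-- cutting by a vector of equations with values in a fixed subspace -/
theorem cut_sub {𝔭 : Ideal (P τ)} (hp : 𝔭.IsPrime) (hh : HomI (w0 τ) 𝔭) (Θ : ι → P τ) {d : ℕ}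
    (hΘ : ∀ x, (Θ x).IsHomogeneous d) (W : Submodule ℂ (ι → ℂ)) (hW : ∀ y ∈ vZ 𝔭, ev y Θ ∈ W)
    {y : τ → ℂ} (hy : y ∈ vZ 𝔭) (h0 : ev y Θ = 0) :
    ∃ 𝔮 : Ideal (P τ), 𝔮.IsPrime ∧ HomI (w0 τ) 𝔮 ∧ 𝔭 ≤ 𝔮 ∧ y ∈ vZ 𝔮 ∧
      dm 𝔭 ≤ dm 𝔮 + finrank ℂ W ∧ ∀ v ∈ vZ 𝔮, ev v Θ = 0 := by
  classical
  let b := Module.finBasis ℂ W
  have hb : LinearIndependent ℂ fun i => (b i : ι → ℂ) :=
    b.linearIndependent.map' W.subtype W.ker_subtype
  obtain ⟨c, hc⟩ := gchart_dual hb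
  obtain ⟨𝔮, h1, h2, h3, h4, h5, h6⟩ := cut_at hp (fun i => dp (c i) Θ) hy
    fun i => by rw [eval_dp, h0, dotProduct_zero]
  refine ⟨𝔮, h1, h6 hh fun i => ⟨d, dp_hom _ hΘ⟩, h2, h4, by simpa only [Fintype.card_fin] using h5, fun v hv => ?_⟩
  have h7 := congrArg Subtype.val (b.sum_repr ⟨_, hW v (vZ_anti h2 hv)⟩)
  simp only [Submodule.coe_sum, Submodule.coe_smul] at h7
  rw [← h7]
  refine Finset.sum_eq_zero fun i _ => ?_
  have h8 := mem_vZ.1 hv _ (h3 i)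
  rw [eval_dp, ← h7, dotProduct_sum] at h8
  simp only [dotProduct_smul] at h8
  simp only [dotProduct_comm (c i), hc, Matrix.one_apply] at h8
  simp only [smul_eq_mul, mul_ite, mul_one, mul_zero, Finset.sum_ite_eq', Finset.mem_univ,
    if_true] at h8
  rw [h8, zero_smul]

theorem dm_comap_le (π : P ρ →ₐ[ℂ] P τ) {𝔮 : Ideal (P τ)} (hq : 𝔮.IsPrime) :
    dm (𝔮.comap π) ≤ dm 𝔮 := by
  have h1 : (𝔮.comap π).IsPrime := Ideal.comap_isPrime π 𝔮
  have h2 := trdeg_le_of_injective (Ideal.quotientMapₐ 𝔮 π le_rfl)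
    (Ideal.quotientMap_injective' (H := le_rfl) le_rfl)
  rw [← dm_cast, ← dm_cast] at h2
  exact_mod_cast h2

/-- a variety inside a linear space -/
theorem dm_le_finrank {𝔭 : Ideal (P τ)} (hp : 𝔭.IsPrime) (L : Submodule ℂ (τ → ℂ))
    (h : ∀ y ∈ vZ 𝔭, y ∈ L) : dm 𝔭 ≤ finrank ℂ L := by
  let b := Module.finBasis ℂ L
  let κ : (Fin (finrank ℂ L) → ℂ) →ₗ[ℂ] (τ → ℂ) := L.subtype.comp b.equivFun.symm.toLinearMap
  have h1 : (⊥ : Ideal (P (Fin (finrank ℂ L)))).comap (pull κ) ≤ 𝔭 := fun f hf => by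
    rw [← vI_vZ hp]
    refine mem_van.2 fun y hy => ?_
    have h2 : κ (b.equivFun ⟨y, h y hy⟩) = y := by simp only [κ, Basis.equivFun_apply, LinearMap.coe_comp, Submodule.coe_subtype, LinearEquiv.coe_coe, Function.comp_apply, Basis.equivFun_symm_apply, Basis.sum_repr]
    rw [← h2, ← eval_pull, Ideal.mem_bot.1 (Ideal.mem_comap.1 hf), map_zero]
  have h2 := dm_comap_le (pull κ) Ideal.isPrime_bot
  rw [dm_bot, Fintype.card_fin] at h2
  exact (dm_anti (Ideal.comap_isPrime _ _) hp h1).trans h2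

/-- the dimension of an intersection of cones -/
theorem meet_dm {𝔭 𝔮 : Ideal (P τ)} (hp : 𝔭.IsPrime) (hq : 𝔮.IsPrime) (h1 : HomI (w0 τ) 𝔭)
    (h2 : HomI (w0 τ) 𝔮) : ∃ 𝔯 : Ideal (P τ), 𝔯.IsPrime ∧ 𝔭 ≤ 𝔯 ∧ 𝔮 ≤ 𝔯 ∧
      dm 𝔭 + dm 𝔮 ≤ dm 𝔯 + Fintype.card τ := by
  obtain ⟨c, -, hc⟩ := exists_indep 𝔭
  obtain ⟨c', -, hc'⟩ := exists_indep 𝔮
  rw [indep_iff_comap] at hc hc'
  obtain ⟨𝔞, ha⟩ : ∃ 𝔞 : Ideal (P (τ ⊕ τ)),
      𝔞 = 𝔭.map (rename Sum.inl : P τ →ₐ[ℂ] P (τ ⊕ τ)) ⊔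
        𝔮.map (rename Sum.inr : P τ →ₐ[ℂ] P (τ ⊕ τ)) := ⟨_, rfl⟩
  have hv : ∀ y, y ∈ vZ 𝔞 ↔ y ∘ Sum.inl ∈ vZ 𝔭 ∧ y ∘ Sum.inr ∈ vZ 𝔮 := fun y => by
    rw [ha, mem_vZ_sup, mem_vZ_ext, mem_vZ_ext]
  have hh : HomI (w0 (τ ⊕ τ)) 𝔞 := by
    rw [ha]
    exact (homI_map_rename (w := w0 (τ ⊕ τ)) Sum.inl h1).sup
      (homI_map_rename (w := w0 (τ ⊕ τ)) Sum.inr h2)
  obtain ⟨𝔓, hP, hcm, -⟩ := pick (𝔞 := 𝔞) (Sum.map c c') Ideal.isPrime_bot {1} fun f hf => by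
    by_contra hn
    refine hf ((Ideal.mem_bot).2 (gmeet_two hp hq hc hc' fun y hy y' hy' => ?_))
    by_contra h0
    refine hn ⟨Sum.elim y y', (hv _).2 ⟨hy, hy'⟩, ?_, 1, rfl, by simp⟩
    rwa [Sum.elim_comp_map]
  have hPp : 𝔓.IsPrime := hP.1.1
  have hd := card_le_dm ((indep_iff_comap _).2 hcm)
  rw [Fintype.card_sum, Fintype.card_fin, Fintype.card_fin] at hd
  obtain ⟨𝔔, q1, q2, q3, -, q5, -⟩ := cut_at hPp
    (fun j : τ => (X (Sum.inl j) - X (Sum.inr j) : P (τ ⊕ τ))) (zero_mem hPp (hmin hh hP))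
    fun j => by simp
  have he : ∀ y ∈ vZ 𝔔, y ∘ Sum.inr = y ∘ Sum.inl := fun y hy => by
    ext j
    have := mem_vZ.1 hy _ (q3 j)
    simp only [map_sub, eval_X] at this
    exact (sub_eq_zero.1 this).symm
  have hm : ∀ f, (∀ y ∈ vZ 𝔔, eval y f = 0) → f ∈ 𝔔 := fun f h => vI_vZ q1 ▸ mem_van.2 h
  have hr := Ideal.comap_isPrime (rename Sum.inl : P τ →ₐ[ℂ] P (τ ⊕ τ)) 𝔔
  refine ⟨_, hr, fun f hf => hm _ fun y hy => ?_, fun f hf => hm _ fun y hy => ?_, ?_⟩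
  · rw [eval_rename]
    exact mem_vZ.1 ((hv y).1 (vZ_anti (hP.1.2.trans q2) hy)).1 f hf
  · rw [eval_rename, ← he y hy]
    exact mem_vZ.1 ((hv y).1 (vZ_anti (hP.1.2.trans q2) hy)).2 f hf
  · have h3 := dm_comap_le (rename (Sum.elim id id) : P (τ ⊕ τ) →ₐ[ℂ] P τ) hr
    have h4 := dm_anti (Ideal.comap_isPrime (rename (Sum.elim id id) : P (τ ⊕ τ) →ₐ[ℂ] P τ)
      (𝔔.comap (rename Sum.inl : P τ →ₐ[ℂ] P (τ ⊕ τ)))) q1 (fun f hf => hm f fun y hy => by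
        have h5 := mem_vZ.1 hy (rename Sum.inl (rename (Sum.elim id id) f)) hf
        rw [eval_rename, eval_rename] at h5
        rw [← h5]
        congr 2
        ext (j | j)
        · rfl
        · exact congrFun (he y hy) j)
    omega

/-- unmixedness at a point -/
theorem unmix_at {n : ℕ} {I : Ideal (P τ)} (hI' : HomI (w0 τ) I) (hD : Dp n I) {p : P τ} {d : ℕ}
    (hp : p.IsHomogeneous d) {y : τ → ℂ} (hy : y ∈ vZ (I.colon {p})) :
    ∃ 𝔮 : Ideal (P τ), 𝔮.IsPrime ∧ I.colon {p} ≤ 𝔮 ∧ y ∈ vZ 𝔮 ∧ n ≤ dm 𝔮 := by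
  classical
  obtain ⟨𝔮, hq, hyq⟩ := exists_min_at hy
  have hJ := hI'.col (isWH_w0.2 hp)
  have hfin := Ideal.finite_minimalPrimes_of_isNoetherianRing _ (I.colon {p})
  have h1 : ∀ 𝔯 ∈ hfin.toFinset.erase 𝔮, ∃ a, a ∈ 𝔯 ∧ a ∉ 𝔮 ∧ ∃ d, a.IsHomogeneous d := by
    intro 𝔯 hr
    rw [Finset.mem_erase, Set.Finite.mem_toFinset] at hr
    obtain ⟨a, e, h1, h2, h3⟩ := (hmin hJ hr.2).exists_hom (I := 𝔮) fun h =>
      hr.1 (le_antisymm h (hq.2 hr.2.1 h))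
    rcases isWH_w0_cases h3 with rfl | ⟨d, -, h4⟩
    · exact absurd 𝔮.zero_mem h2
    · exact ⟨a, h1, h2, d, h4⟩
  choose! a ha1 ha2 da ha3 using h1
  obtain ⟨N, hN⟩ := Ideal.exists_radical_pow_le_of_fg (I.colon {p}) (IsNoetherian.noetherian _)
  have hb : ∏ 𝔯 ∈ hfin.toFinset.erase 𝔮, a 𝔯 ∉ 𝔮 := fun h => by
    obtain ⟨𝔯, h1, h2⟩ := (Ideal.IsPrime.prod_mem_iff (hp := hq.1.1)).1 h
    exact ha2 𝔯 h1 h2
  have hh := ((IsHomogeneous.prod _ _ _ ha3).pow N).mul hp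
  obtain ⟨𝔯, r1, r2, r3⟩ := dp_dim n hI' hD hh fun h =>
    hb (hq.1.1.mem_of_pow_mem N (hq.1.2 (mem_col.2 h)))
  refine ⟨𝔮, hq.1.1, hq.1.2, hyq, r3.trans (dm_anti hq.1.1 r1 fun x hx => ?_)⟩
  refine r1.mem_of_pow_mem N (r2 (mem_col.2 ?_))
  rw [← mul_assoc, ← mul_pow]
  refine mem_col.1 (hN (Ideal.pow_mem_pow ?_ N))
  rw [← Ideal.sInf_minimalPrimes, Submodule.mem_sInf]
  intro 𝔰 hs
  by_cases h : 𝔰 = 𝔮
  · exact Ideal.mul_mem_right _ _ (h ▸ hx)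
  · have h2 : 𝔰 ∈ hfin.toFinset.erase 𝔮 := Finset.mem_erase.2 ⟨h, hfin.mem_toFinset.2 hs⟩
    exact Ideal.mul_mem_left _ _ (Ideal.prod_mem _ h2 (ha1 _ h2))

end Dim

end Pool.Agent.MP_429080_ag.H26

namespace Pool.Agent.MP_429080_ag.H26

open MvPolynomial Filter Module Pool.Agent.EGH Pool.Agent.MP_d171e3_nt
open Pool.Agent.MP_429080_ag.H26.T

set_option linter.unusedSectionVars false

variable {τ ι η : Type} [Fintype τ] [Fintype ι] [Fintype η] {g e : ℕ}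
  {Φ : η → (τ → ℂ) →ₗ[ℂ] (ι → ℂ)} {q : Fin g → P τ} {w z v : τ → ℂ}

noncomputable def Im (Φ : η → (τ → ℂ) →ₗ[ℂ] (ι → ℂ)) (w : τ → ℂ) : Submodule ℂ (ι → ℂ) :=
  Submodule.span ℂ (Set.range fun π => Φ π w)

def VQ (q : Fin g → P τ) (w : τ → ℂ) : Prop := ∀ a, eval w (q a) = 0

def AA (Φ : η → (τ → ℂ) →ₗ[ℂ] (ι → ℂ)) (q : Fin g → P τ) (ψ : ι → P τ) : Prop :=
  ∀ w, VQ q w → ∀ π, ev w ψ ⬝ᵥ Φ π w = 0

def Fr (Φ : η → (τ → ℂ) →ₗ[ℂ] (ι → ℂ)) (q : Fin g → P τ) (e : ℕ) (w : τ → ℂ) : Prop :=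
  ∃ ψ : Fin e → ι → P τ, (∀ i, AA Φ q (ψ i)) ∧ LinearIndependent ℂ fun i => ev w (ψ i)

def CC (q : Fin g → P τ) (z v : τ → ℂ) : Prop := VQ q v ∧ ∀ a, grad (q a) z ⬝ᵥ v = 0

structure FD (Φ : η → (τ → ℂ) →ₗ[ℂ] (ι → ℂ)) (q : Fin g → P τ) (e : ℕ) : Prop where
  card : Fintype.card ι = 2 * e
  hom : ∀ a, (q a).IsHomogeneous 2
  rel : ∀ π π', ∃ l : Fin g → ℂ, ∀ w, Φ π w ⬝ᵥ Φ π' w = ∑ a, l a * eval w (q a)

def perp (J : Submodule ℂ (ι → ℂ)) : Submodule ℂ (ι → ℂ) where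
  carrier := {v | ∀ α ∈ J, α ⬝ᵥ v = 0}
  zero_mem' := fun _ _ => dotProduct_zero _
  add_mem' := fun ha hb α h => by rw [dotProduct_add, ha α h, hb α h, add_zero]
  smul_mem' := fun c v hv α h => by rw [dotProduct_smul, hv α h, smul_zero]

theorem perp_rank (J : Submodule ℂ (ι → ℂ)) :
    finrank ℂ J + finrank ℂ (perp J) = Fintype.card ι := ann_rank fun _ => Iff.rfl

theorem mem_of_perp {J : Submodule ℂ (ι → ℂ)} {α : ι → ℂ} (h : ∀ v ∈ perp J, α ⬝ᵥ v = 0) :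
    α ∈ J := (ann_iff (fun _ => Iff.rfl) α).2 h

theorem mem_perp_span {S : Set (ι → ℂ)} {v : ι → ℂ} :
    v ∈ perp (Submodule.span ℂ S) ↔ ∀ α ∈ S, α ⬝ᵥ v = 0 := span_dot

theorem quad_add {Q : P τ} (hQ : Q.IsHomogeneous 2) (s t : ℂ) (z v : τ → ℂ) :
    eval (s • z + t • v) Q = s ^ 2 * eval z Q + s * t * (grad Q z ⬝ᵥ v) + t ^ 2 * eval v Q := by
  obtain ⟨B, hB, hsy, hq⟩ := exists_polar hQ
  have h := hq (s • z + t • v)
  simp only [map_add, map_smul, add_dotProduct, dotProduct_add, smul_dotProduct, dotProduct_smul,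
    hq, hsy v z, smul_eq_mul] at h
  rw [← hB]
  linear_combination (-1 / 2 : ℂ) * h

theorem mem_Im (π : η) (w : τ → ℂ) : Φ π w ∈ Im Φ w := Submodule.subset_span ⟨π, rfl⟩

theorem mem_perp_Im {x : ι → ℂ} : x ∈ perp (Im Φ w) ↔ ∀ π, x ⬝ᵥ Φ π w = 0 :=
  mem_perp_span.trans ⟨fun h π => dotProduct_comm _ x ▸ h _ ⟨π, rfl⟩, by
    rintro h _ ⟨π, rfl⟩
    exact dotProduct_comm x _ ▸ h π⟩

theorem FD.iso (h : FD Φ q e) (hw : VQ q w) : Im Φ w ≤ perp (Im Φ w) :=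
  Submodule.span_le.2 (by
    rintro _ ⟨π, rfl⟩
    refine mem_perp_Im.2 fun π' => ?_
    obtain ⟨l, hl⟩ := h.rel π π'
    simp only [hl, hw _, mul_zero, Finset.sum_const_zero])

theorem FD.dot (h : FD Φ q e) (hw : VQ q w) {x : ι → ℂ} (hx : x ∈ Im Φ w) (π : η) :
    x ⬝ᵥ Φ π w = 0 := mem_perp_Im.1 (h.iso hw hx) π

theorem FD.rank_le (h : FD Φ q e) (hw : VQ q w) : finrank ℂ (Im Φ w) ≤ e := by
  have h1 := perp_rank (Im Φ w)
  have h2 := Submodule.finrank_mono (h.iso hw)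
  have := h.card
  omega

theorem FD.perp_eq (h : FD Φ q e) (hw : VQ q w) (hr : finrank ℂ (Im Φ w) = e) :
    Im Φ w = perp (Im Φ w) := by
  have h1 := perp_rank (Im Φ w)
  have := h.card
  exact Submodule.eq_of_le_of_finrank_le (h.iso hw) (by omega)

theorem FD.lag (h : FD Φ q e) (hw : VQ q w) (hr : finrank ℂ (Im Φ w) = e) {x : ι → ℂ}
    (hx : ∀ π, x ⬝ᵥ Φ π w = 0) : x ∈ Im Φ w := (h.perp_eq hw hr).ge (mem_perp_Im.2 hx)

theorem FD.skew (h : FD Φ q e) (hv : ∀ a, grad (q a) z ⬝ᵥ v = 0) (π π' : η) :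
    Φ π z ⬝ᵥ Φ π' v = -(Φ π v ⬝ᵥ Φ π' z) := by
  obtain ⟨l, hl⟩ := h.rel π π'
  have h1 := hl ((1 : ℂ) • z + (1 : ℂ) • v)
  simp only [quad_add (h.hom _), hv, mul_add, Finset.sum_add_distrib, one_pow, one_mul, mul_zero,
    add_zero, ← hl] at h1
  simp only [one_smul, map_add, add_dotProduct, dotProduct_add] at h1
  linear_combination h1

theorem FD.plane (h : FD Φ q e) (hz : VQ q z) (hv : CC q z v) (s t : ℂ) :
    VQ q (s • z + t • v) := fun a => by simp only [quad_add (h.hom a), hz a, mul_zero, hv.2 a, add_zero, hv.1 a]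

theorem FD.rank_of (h : FD Φ q e) (hw : VQ q w) {I : Fin e → η}
    (hI : LinearIndependent ℂ fun j => Φ (I j) w) : finrank ℂ (Im Φ w) = e :=
  le_antisymm (h.rank_le hw) (by simpa only [Fintype.card_fin] using card_le_of_mem hI fun j => mem_Im (I j) w)

theorem FD.span_eq (h : FD Φ q e) (hw : VQ q w) {s : Fin e → ι → ℂ}
    (hI : LinearIndependent ℂ s) (hs : ∀ j, s j ∈ Im Φ w) :
    Submodule.span ℂ (Set.range s) = Im Φ w :=
  span_eq_of_indep hI hs (by simpa only [Fintype.card_fin] using h.rank_le hw)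

/-- points of full rank form an open set -/
theorem FD.open (h : FD Φ q e) (hr : finrank ℂ (Im Φ z) = e) :
    ∃ δ : P τ, eval z δ ≠ 0 ∧ ∀ w, VQ q w → eval w δ ≠ 0 → finrank ℂ (Im Φ w) = e := by
  obtain ⟨I, hI⟩ := exists_sub _ hr
  obtain ⟨l, -, hl⟩ := cr_ex (s := fun j => lv (Φ (I j))) (y := z) (by simpa only [ev_lv] using hI)
  exact ⟨_, hl, fun w hw hd => h.rank_of hw (by simpa only [ev_lv] using cr_indep hd)⟩

theorem FD.fr (h : FD Φ q e) (hr : finrank ℂ (Im Φ z) = e) : Fr Φ q e z := by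
  obtain ⟨I, hI⟩ := exists_sub _ hr
  exact ⟨fun j => lv (Φ (I j)), fun j w hw π => by rw [ev_lv]; exact h.dot hw (mem_Im _ _) π,
    by simpa only [ev_lv] using hI⟩

theorem Fr.open (h : Fr Φ q e z) : ∃ δ : P τ, eval z δ ≠ 0 ∧ ∀ w, eval w δ ≠ 0 → Fr Φ q e w := by
  obtain ⟨ψ, h1, h2⟩ := h
  obtain ⟨l, -, hl⟩ := cr_ex h2
  exact ⟨_, hl, fun w hd => ⟨ψ, h1, cr_indep hd⟩⟩

theorem Fr.smul (h : Fr Φ q e z) (hq : ∀ a, (q a).IsHomogeneous 2) {c : ℂ} (hc : c ≠ 0) :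
    Fr Φ q e (c • z) := by
  obtain ⟨ψ, h1, h2⟩ := h
  obtain ⟨f, hf⟩ : ∃ f : (τ → ℂ) →ₗ[ℂ] (τ → ℂ), ∀ w, f w = c⁻¹ • w :=
    ⟨c⁻¹ • LinearMap.id, fun _ => rfl⟩
  have h3 : ∀ i w, ev w (fun x => pull f (ψ i x)) = ev (c⁻¹ • w) (ψ i) :=
    fun i w => funext fun x => hf w ▸ eval_pull f w _
  refine ⟨fun i x => pull f (ψ i x), fun i w hw π => ?_, ?_⟩
  · have := h1 i (c⁻¹ • w) (fun a => by rw [eval_smul_hom (hq a), hw a, mul_zero]) π
    rw [map_smul, dotProduct_smul, smul_eq_zero] at this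
    rw [h3]
    exact this.resolve_left (inv_ne_zero hc)
  · simpa only [h3, inv_smul_smul₀ hc] using h2

/-- the plane through two points -/
noncomputable def pl (z v : τ → ℂ) : (Fin 2 → ℂ) →ₗ[ℂ] (τ → ℂ) :=
  (LinearMap.proj 0).smulRight z + (LinearMap.proj 1).smulRight v

theorem pl_apply (z v : τ → ℂ) (y : Fin 2 → ℂ) : pl z v y = y 0 • z + y 1 • v := rfl

/-- identities on a plane extend from an open set -/
theorem plane_ext {f δ δ' : P τ} {s t s' t' : ℂ} (h1 : eval (s • z + t • v) δ ≠ 0)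
    (h2 : eval (s' • z + t' • v) δ' ≠ 0) (h : ∀ a b : ℂ, eval (a • z + b • v) δ ≠ 0 →
      eval (a • z + b • v) δ' ≠ 0 → eval (a • z + b • v) f = 0) (a b : ℂ) :
    eval (a • z + b • v) f = 0 := by
  have h3 : pull (pl z v) f ∈ (⊥ : Ideal (P (Fin 2))) := by
    refine mem_of_vanish Ideal.isPrime_bot (g := pull (pl z v) δ * pull (pl z v) δ') (fun h0 => ?_)
      fun y _ hy => ?_
    · rcases mul_eq_zero.1 (Ideal.mem_bot.1 h0) with h4 | h4
      · exact h1 (by simpa only [Nat.succ_eq_add_one, Nat.reduceAdd, eval_pull, pl_apply, Fin.isValue, Matrix.cons_val_zero, Matrix.cons_val_one, Matrix.cons_val_fin_one, map_zero] using congrArg (eval ![s, t]) h4)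
      · exact h2 (by simpa only [Nat.succ_eq_add_one, Nat.reduceAdd, eval_pull, pl_apply, Fin.isValue, Matrix.cons_val_zero, Matrix.cons_val_one, Matrix.cons_val_fin_one, map_zero] using congrArg (eval ![s', t']) h4)
    · rw [map_mul, eval_pull, eval_pull, mul_ne_zero_iff] at hy
      rw [eval_pull]
      exact h _ _ hy.1 hy.2
  simpa [eval_pull, pl_apply] using congrArg (eval ![a, b]) (Ideal.mem_bot.1 h3)

theorem FD.plane_sec (h : FD Φ q e) (hz : VQ q z) (hr : finrank ℂ (Im Φ z) = e) (hv : CC q z v)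
    {u : ι → ℂ} (hu : u ∈ Im Φ z) (hu' : ∀ π, u ⬝ᵥ Φ π v = 0) {s : ℂ}
    (hf : Fr Φ q e (s • z + v)) : ∃ (ψ : ι → P τ) (δ : P τ), AA Φ q ψ ∧
      eval (s • z + v) δ ≠ 0 ∧ ∀ a : ℂ, ev (a • z + v) ψ = eval (a • z + v) δ • u := by
  obtain ⟨ψ, h1, h2⟩ := hf
  obtain ⟨l, -, hl⟩ := cr_ex h2
  obtain ⟨δ, hδ, hδ'⟩ := h.open hr
  have h3 : ∀ w, ev w (∑ k, (C (l k ⬝ᵥ u) : P τ) • et l ψ k) = ∑ k, (l k ⬝ᵥ u) • ev w (et l ψ k) :=
    fun w => by simp only [ev_sum', ev_smul, eval_C]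
  refine ⟨∑ k, (C (l k ⬝ᵥ u) : P τ) • et l ψ k, dt l ψ, fun w hw => mem_perp_Im.1 ?_, hl,
    fun a => funext fun x => ?_⟩
  · rw [h3]
    exact Submodule.sum_mem _ fun k _ => Submodule.smul_mem _ _
      (et_mem _ _ _ _ fun j => mem_perp_Im.2 (h1 j w hw))
  · have := plane_ext (z := z) (v := v) (δ := dt l ψ) (δ' := δ) (s := s) (t := 1) (s' := 1)
      (t' := 0) (f := (∑ k, (C (l k ⬝ᵥ u) : P τ) • et l ψ k) x - dt l ψ * C (u x))
      (by rwa [one_smul]) (by simpa using hδ) (fun a b ha hb => by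
        have hw := h.plane hz hv a b
        have hr' := hδ' _ hw hb
        have h4 := cr_rule ha (x := u) (by
          rw [h.span_eq hw (cr_indep ha) fun j => h.lag hw hr' (h1 j _ hw)]
          exact h.lag hw hr' fun π => by simp only [map_add, map_smul, dotProduct_add, dotProduct_smul, h.dot hz hu, smul_eq_mul, mul_zero, hu', add_zero])
        rw [← h3] at h4
        rw [map_sub, map_mul, eval_C, sub_eq_zero]
        exact (congrFun h4 x).symm) a 1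
    rw [map_sub, map_mul, eval_C, sub_eq_zero, one_smul] at this
    exact this

/-- evaluation of a polynomial in a parameter with polynomial coefficients -/
noncomputable def EE (s : ℂ) (v : τ → ℂ) (Ψ : ι → Polynomial (P τ)) : ι → ℂ :=
  fun x => ((Ψ x).map (eval v)).eval s

theorem FD.line_sec (h : FD Φ q e) (hz : VQ q z) (hr : finrank ℂ (Im Φ z) = e) (hv : CC q z v)
    {u : ι → ℂ} (hu : u ∈ Im Φ z) (hu' : ∀ π, u ⬝ᵥ Φ π v = 0)
    (hf : ∀ s : ℂ, Fr Φ q e (s • z + v)) : ∃ Ψ : ι → Polynomial (P τ),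
      (∀ s w, CC q z w → ∀ π, EE s w Ψ ⬝ᵥ Φ π (s • z + w) = 0) ∧ ∀ s, EE s v Ψ = u := by
  let 𝔞 : Ideal (Polynomial ℂ) :=
    { carrier := {a | ∃ Ψ : ι → Polynomial (P τ),
        (∀ s w, CC q z w → ∀ π, EE s w Ψ ⬝ᵥ Φ π (s • z + w) = 0) ∧ ∀ s, EE s v Ψ = a.eval s • u}
      zero_mem' := ⟨0, fun s w _ π => by simp only [dotProduct, EE, Pi.zero_apply, Polynomial.map_zero, Polynomial.eval_zero, map_add, map_smul, Pi.add_apply, Pi.smul_apply, smul_eq_mul, zero_mul, Finset.sum_const_zero], fun s => by ext; simp [EE]⟩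
      add_mem' := by
        rintro a b ⟨Ψ, h1, h2⟩ ⟨Ψ', h3, h4⟩
        have h5 : ∀ s w, EE s w (Ψ + Ψ') = EE s w Ψ + EE s w Ψ' := fun s w => by ext; simp [EE]
        exact ⟨Ψ + Ψ', fun s w hw π => by rw [h5, add_dotProduct, h1 s w hw, h3 s w hw, add_zero],
          fun s => by rw [h5, h2, h4, Polynomial.eval_add, add_smul]⟩
      smul_mem' := by
        rintro b a ⟨Ψ, h1, h2⟩
        have h5 : ∀ s w, EE s w (fun x => b.map C * Ψ x) = b.eval s • EE s w Ψ := fun s w => by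
          ext x
          simp only [EE, Polynomial.map_mul, Polynomial.eval_mul, Polynomial.map_map,
            Pi.smul_apply, smul_eq_mul]
          rw [show (eval w).comp (C : ℂ →+* P τ) = RingHom.id ℂ from RingHom.ext fun c => eval_C c,
            Polynomial.map_id]
        exact ⟨_, fun s w hw π => by rw [h5, smul_dotProduct, h1 s w hw, smul_zero],
          fun s => by rw [h5, h2, smul_eq_mul, Polynomial.eval_mul, mul_smul]⟩ }
  have h1 : ∀ s : ℂ, ∃ a ∈ 𝔞, a.eval s ≠ 0 := fun s => by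
    obtain ⟨ψ, δ, h1, h2, h3⟩ := h.plane_sec hz hr hv hu hu' (hf s)
    let sb : P τ →ₐ[ℂ] Polynomial (P τ) :=
      aeval fun j => Polynomial.C (C (z j)) * Polynomial.X + Polynomial.C (X j)
    have h4 : ∀ s w f, ((sb f).map (eval w)).eval s = eval (s • z + w) f := fun s w f => by
      induction f using MvPolynomial.induction_on with
      | C a => simp [sb]
      | add p q hp hq => simp only [map_add, Polynomial.map_add, Polynomial.eval_add, hp, hq]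
      | mul_X p j hp =>
        rw [map_mul, Polynomial.map_mul, Polynomial.eval_mul, hp]
        simp [sb, mul_comm s]
    have h5 : ∀ s w, EE s w (fun x => sb (ψ x)) = ev (s • z + w) ψ := fun s w =>
      funext fun x => h4 s w _
    refine ⟨(sb δ).map (eval v), ⟨fun x => sb (ψ x), fun s w hw π => ?_, fun s => ?_⟩, ?_⟩
    · rw [h5]
      exact h1 _ (by simpa using h.plane hz hw s 1) π
    · rw [h5, h3, h4]
    · rwa [h4]
  obtain ⟨a, ha⟩ := (IsPrincipalIdealRing.principal 𝔞).principal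
  have h2 : ∀ s, a.eval s ≠ 0 := fun s h0 => by
    obtain ⟨b, hb, h3⟩ := h1 s
    rw [ha] at hb
    obtain ⟨c, rfl⟩ := Ideal.mem_span_singleton'.1 hb
    simp [h0] at h3
  have h3 : IsUnit a := Polynomial.isUnit_iff_degree_eq_zero.2 (by
    by_contra hd
    obtain ⟨s, hs⟩ := IsAlgClosed.exists_root a hd
    exact h2 s hs)
  obtain ⟨Ψ, h4, h5⟩ : (1 : Polynomial ℂ) ∈ 𝔞 := by
    rw [ha]
    exact (Ideal.eq_top_iff_one _).1 (Ideal.span_singleton_eq_top.2 h3)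
  exact ⟨Ψ, h4, fun s => by simpa using h5 s⟩

/-- `CONST`: the spaces `K'` form a bundle near a good line -/
theorem FD.const (h : FD Φ q e) (hz : VQ q z) (hr : finrank ℂ (Im Φ z) = e) (hv : CC q z v)
    {u : ι → ℂ} (hu : u ∈ Im Φ z) (hu' : ∀ π, u ⬝ᵥ Φ π v = 0)
    (hf : ∀ s : ℂ, Fr Φ q e (s • z + v)) : ∃ y : ι → P τ, ev v y = u ∧
      ∀ w, CC q z w → ev w y ∈ Im Φ z ∧ ∀ π, ev w y ⬝ᵥ Φ π w = 0 := by
  obtain ⟨Ψ, h1, h2⟩ := h.line_sec hz hr hv hu hu' hf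
  obtain ⟨I, hI⟩ := exists_sub _ hr
  obtain ⟨l, hl⟩ := gchart_dual hI
  have hJ : ∀ x ∈ Im Φ z, x = ∑ k, (l k ⬝ᵥ x) • Φ (I k) z := fun x hx => by
    rw [← h.span_eq hz hI fun j => mem_Im _ _] at hx
    obtain ⟨c, rfl⟩ := (Submodule.mem_span_range_iff_exists_fun ℂ).1 hx
    refine Finset.sum_congr rfl fun k _ => ?_
    rw [dotProduct_sum]
    simp only [dotProduct_comm (l k), smul_dotProduct, hl, Matrix.one_apply, smul_eq_mul, mul_ite, mul_one, mul_zero, Finset.sum_ite_eq', Finset.mem_univ, ↓ reduceIte]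
  let y : ℕ → ι → P τ := fun i x => (Ψ x).coeff i
  have h3 : ∀ w, CC q z w → ∀ π, ev w (y 0) ⬝ᵥ Φ π w = 0 ∧
      ∀ i, ev w (y i) ⬝ᵥ Φ π z + ev w (y (i + 1)) ⬝ᵥ Φ π w = 0 := fun w hw π => by
    have h4 : ∑ x, (Ψ x).map (eval w) *
        (Polynomial.C (Φ π z x) * Polynomial.X + Polynomial.C (Φ π w x)) = 0 :=
      Polynomial.funext fun s => by
        have := h1 s w hw π
        simp only [EE, dotProduct, map_add, map_smul, Pi.add_apply, Pi.smul_apply] at this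
        simpa only [Polynomial.eval_finsetSum, Polynomial.eval_mul, Polynomial.eval_add, Polynomial.eval_C, Polynomial.eval_X, Polynomial.eval_zero, smul_eq_mul, mul_comm s] using this
    refine ⟨?_, fun i => ?_⟩
    · simpa only [dotProduct, ev, y, Polynomial.finsetSum_coeff, Polynomial.mul_coeff_zero, Polynomial.coeff_map, Polynomial.coeff_add, Polynomial.coeff_C_zero, Polynomial.coeff_X_zero, mul_zero, zero_add, Polynomial.coeff_zero] using
        congrArg (fun p => p.coeff 0) h4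
    · simpa only [dotProduct, ev, y, mul_add, ← mul_assoc, Finset.sum_add_distrib, Polynomial.coeff_add, Polynomial.finsetSum_coeff, Polynomial.coeff_mul_X, Polynomial.coeff_mul_C, Polynomial.coeff_map, Polynomial.coeff_zero] using congrArg (fun p => p.coeff (i + 1)) h4
  have h4 : ∀ x, (Ψ x).map (eval v) = Polynomial.C (u x) := fun x =>
    Polynomial.funext fun s => by simpa [EE] using congrFun (h2 s) x
  have h5 : ev v (y 0) = u := funext fun x => by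
    simpa [ev, y] using congrArg (fun p => p.coeff 0) (h4 x)
  have h6 : ∀ i, ev v (y (i + 1)) = 0 := fun i => funext fun x => by
    simpa only [ev, y, Pi.zero_apply, Polynomial.coeff_map, Polynomial.coeff_C_succ] using congrArg (fun p => p.coeff (i + 1)) (h4 x)
  have h7 : ∀ n i, (Finset.univ.sup fun x => (Ψ x).natDegree) + 1 ≤ n + i → ∃ y' : ι → P τ,
      ev v y' = ev v (y i) ∧ ∀ w, CC q z w → ev w y' ∈ Im Φ z ∧ ev w (y i) - ev w y' ∈ Im Φ w := by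
    intro n
    induction n with
    | zero =>
      intro i hi
      have h8 : y i = 0 := funext fun x => Polynomial.coeff_eq_zero_of_natDegree_lt
        (lt_of_le_of_lt (Finset.le_sup (f := fun x => (Ψ x).natDegree) (Finset.mem_univ x))
          (by omega))
      have h9 : ∀ w : τ → ℂ, ev w (0 : ι → P τ) = 0 := fun w => map_zero (evL ι w)
      exact ⟨0, by rw [h8], fun w _ => by simp [h8, h9]⟩
    | succ n ih =>
      intro i hi
      obtain ⟨y', h8, h9⟩ := ih (i + 1) (by omega)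
      have h10 : ∀ w, ev w (y i - ∑ k, dp (l k) y' • lv (Φ (I k))) =
          ev w (y i) - ∑ k, (l k ⬝ᵥ ev w y') • Φ (I k) w := fun w => by
        simp only [ev_sub, ev_sum', ev_smul, eval_dp, ev_lv]
      refine ⟨y i - ∑ k, dp (l k) y' • lv (Φ (I k)), by simp only [h10, h8, h6, dotProduct_zero, zero_smul, Finset.sum_const_zero, sub_zero], fun w hw => ⟨?_, ?_⟩⟩
      · refine h.lag hz hr fun π => ?_
        have h11 := (h3 w hw π).2 i
        have h12 := h.dot hw.1 (h9 w hw).2 π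
        have h13 := congrArg (· ⬝ᵥ Φ π w) (hJ _ (h9 w hw).1)
        simp only [sum_dotProduct, smul_dotProduct, h.skew hw.2, smul_neg,
          Finset.sum_neg_distrib] at h13
        rw [sub_dotProduct] at h12
        rw [h10, sub_dotProduct, sum_dotProduct]
        simp only [smul_dotProduct]
        linear_combination h11 - h12 - h13
      · rw [h10, sub_sub_cancel]
        exact Submodule.sum_mem _ fun k _ => Submodule.smul_mem _ _ (mem_Im _ _)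
  obtain ⟨y', h8, h9⟩ := h7 _ 0 le_rfl
  refine ⟨y', h8.trans h5, fun w hw => ⟨(h9 w hw).1, fun π => ?_⟩⟩
  have h10 := h.dot hw.1 (h9 w hw).2 π
  rw [sub_dotProduct, (h3 w hw π).1] at h10
  linear_combination -h10

end Pool.Agent.MP_429080_ag.H26

namespace Pool.Agent.MP_429080_ag.H26

open MvPolynomial Filter Module Pool.Agent.EGH Pool.Agent.MP_d171e3_nt
open Pool.Agent.MP_429080_ag.H26.T

set_option linter.unusedSectionVars false

variable {τ ι η μ : Type} [Fintype τ] [Fintype ι] [Fintype η] [Fintype μ] {g e ν : ℕ}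
  {Φ : η → (τ → ℂ) →ₗ[ℂ] (ι → ℂ)} {q : Fin g → P τ} {w z v : τ → ℂ}

theorem vq_iff : VQ q w ↔ w ∈ vZ (Ideal.span (Set.range q)) :=
  ⟨fun h => mem_vZ_span.2 (by rintro _ ⟨a, rfl⟩; exact h a), fun h a => mem_vZ_span.1 h _ ⟨a, rfl⟩⟩

theorem vq_of {𝔭 : Ideal (P τ)} (h : ∀ a, q a ∈ 𝔭) (hw : w ∈ vZ 𝔭) : VQ q w :=
  fun a => mem_vZ.1 hw _ (h a)

theorem not_mem_of {𝔭 : Ideal (P τ)} {f : P τ} (hw : w ∈ vZ 𝔭) (h : eval w f ≠ 0) : f ∉ 𝔭 :=
  fun hf => h (mem_vZ.1 hw f hf)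

theorem exists_pt2 {𝔭 : Ideal (P τ)} (hp : 𝔭.IsPrime) {a b : P τ} (ha : a ∉ 𝔭) (hb : b ∉ 𝔭) :
    ∃ y ∈ vZ 𝔭, eval y a ≠ 0 ∧ eval y b ≠ 0 := by
  obtain ⟨y, h1, h2⟩ := exists_pt hp (g := a * b) fun h => (hp.mem_or_mem h).elim ha hb
  exact ⟨y, h1, by rwa [map_mul, mul_ne_zero_iff] at h2⟩

theorem FD.hartogs (h : FD Φ q e) (he : 0 < e) (hp : (Ideal.span (Set.range q)).IsPrime)
    (hd : dm (Ideal.span (Set.range q)) + g ≤ Fintype.card τ) (hg : g < Fintype.card τ)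
    (f : μ → P τ) (hgood : ∀ 𝔭 : Ideal (P τ), 𝔭.IsPrime → (∀ a, q a ∈ 𝔭) → (∀ j, f j ∈ 𝔭) →
      Fintype.card τ ≤ dm 𝔭 + g + Fintype.card μ + 1 → ∃ w ∈ vZ 𝔭, finrank ℂ (Im Φ w) = e)
    (hz : VQ q z) (hf : ∀ j, eval z (f j) = 0) (ρ : Fin e → ι → P τ)
    (hρ : LinearIndependent ℂ fun i => ev z (ρ i))
    (hρ' : ∀ w, VQ q w → (∀ j, eval w (f j) = 0) → finrank ℂ (Im Φ w) = e →
      ∀ i, ev w (ρ i) ∈ Im Φ w) : Fr Φ q e z := by
  obtain ⟨l, -, hl⟩ := cr_ex hρ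
  have hq : ∀ a, q a ∈ Ideal.span (Set.range q) := fun a => Ideal.subset_span ⟨a, rfl⟩
  have key : ∀ 𝔮 : Ideal (P τ), 𝔮.IsPrime → (∀ a, q a ∈ 𝔮) → z ∈ vZ 𝔮 →
      Fintype.card τ ≤ dm 𝔮 + g + 1 →
      ∃ w ∈ vZ 𝔮, ∃ I : Fin e → η, eval w (dt l fun j => lv (Φ (I j))) ≠ 0 := by
    intro 𝔮 h1 h2 h3 h4
    obtain ⟨𝔭, p1, p2, p3, p4, p5, -⟩ := cut_at h1 f h3 hf
    obtain ⟨w₁, w1, w2⟩ := hgood 𝔭 p1 (fun a => p2 (h2 a)) p3 (by omega)
    obtain ⟨δ, d1, d2⟩ := h.open w2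
    obtain ⟨w, w3, w4, w5⟩ := exists_pt2 p1 (not_mem_of w1 d1) (not_mem_of p4 hl)
    have hw : VQ q w := vq_of (fun a => p2 (h2 a)) w3
    have hr := d2 w hw w4
    obtain ⟨I, hI⟩ := exists_sub _ hr
    refine ⟨w, vZ_anti p2 w3, I, cr_ne (by simpa only [ev_lv] using hI) fun x hx => cr_inj w5 ?_⟩
    rw [h.span_eq hw (cr_indep w5) (hρ' w hw (fun j => mem_vZ.1 w3 _ (p3 j)) hr)]
    refine Submodule.span_le.2 ?_ hx
    rintro _ ⟨j, rfl⟩
    simpa only [ev_lv, SetLike.mem_coe] using mem_Im _ _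
  have hc := cut (𝔮 := ⊥) (𝔭 := Ideal.span (Set.range q)) Ideal.isPrime_bot q (by
    rw [bot_sup_eq, Ideal.minimalPrimes_eq_subsingleton_self]
    rfl)
  rw [dm_bot, Fintype.card_fin] at hc
  obtain ⟨w₁, w1, I, hI⟩ := key _ hp hq (vq_iff.1 hz) (by omega)
  set s : Fin e → ι → P τ := fun j => lv (Φ (I j)) with hs
  have hδ : dt l s ∉ Ideal.span (Set.range q) := not_mem_of w1 hI
  have hm : ∀ (I : Fin e → η) k y, ev y (et l (fun j => lv (Φ (I j))) k) ∈ Im Φ y := fun I k y =>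
    et_mem _ _ _ _ fun j => by simpa only [ev_lv] using mem_Im _ _
  have hD := gsat2_dp q (fun _ => 2) (fun _ => two_pos) h.hom hg
    (fun 𝔮 h1 h2 => by have := dm_anti hp h1 h2; omega) Finset.univ
  rw [Finset.coe_univ, Set.image_univ, Finset.card_univ, Fintype.card_fin,
    show Fintype.card τ - g = (Fintype.card τ - g - 1) + 1 by omega] at hD
  have hh := dt_hom l (s := s) fun j x => lv_hom _ x
  have hD' := dp_swap _ hD (by simpa only [Fintype.card_fin, mul_one] using he) hh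
    fun p h1 => (hp.mem_or_mem h1).resolve_right hδ
  have h1 : ∀ kx : Fin e × ι, ∃ b, eval z b ≠ 0 ∧
      b * et l s kx.1 kx.2 ∈ Ideal.span (Set.range q) ⊔ Ideal.span {dt l s} := by
    rintro ⟨k, x⟩
    by_contra hn
    push Not at hn
    obtain ⟨𝔮, q1, q2, q3, q4⟩ := unmix_at
      ((homI_range fun a => ⟨2, h.hom a⟩).sup_one (isWH_w0.2 hh)) hD'
      (et_hom l (s := s) (fun j x => lv_hom _ x) k x) (y := z)
      (mem_vZ.2 fun b hb => not_not.1 fun h0 => hn b h0 (mem_col.1 hb))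
    obtain ⟨w, w2, I', hI'⟩ := key 𝔮 q1
      (fun a => q2 (le_col _ _ (Ideal.mem_sup_left (hq a)))) q3 (by omega)
    refine not_mem_of w2 hI' (q2 (mem_col.2 ?_))
    have h2 : dt l (fun j => lv (Φ (I' j))) * et l s k x -
        dt l s * et l (fun j => lv (Φ (I' j))) k x ∈ Ideal.span (Set.range q) := by
      refine mem_of_vanish hp hδ fun y hy h0 => ?_
      have h3 := cr_inj h0 (x := eval y (dt l fun j => lv (Φ (I' j))) • ev y (et l s k) -
        eval y (dt l s) • ev y (et l (fun j => lv (Φ (I' j))) k)) (by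
          rw [h.span_eq (vq_iff.2 hy) (cr_indep h0) fun j => by
            simpa only [hs, ev_lv] using mem_Im _ _]
          exact Submodule.sub_mem _ (Submodule.smul_mem _ _ (hm I k y))
            (Submodule.smul_mem _ _ (hm I' k y))) fun i => by
          simp only [dotProduct_sub, dotProduct_smul, dot_et, smul_eq_mul]
          split_ifs <;> ring
      simpa [ev] using congrFun h3 x
    rw [← sub_add_cancel (_ * et l s k x) (dt l s * et l (fun j => lv (Φ (I' j))) k x)]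
    exact Submodule.add_mem_sup h2 (Ideal.mul_mem_right _ _ (Ideal.mem_span_singleton_self _))
  choose b hb1 hb2 using h1
  have h2 : ∀ k x, ∃ r, (∏ kx, b kx) * et l s k x - r * dt l s ∈ Ideal.span (Set.range q) := by
    classical
    intro k x
    have h3 := Ideal.mul_mem_left _ (∏ kx ∈ Finset.univ.erase (k, x), b kx) (hb2 (k, x))
    rw [← mul_assoc, Finset.prod_erase_mul _ _ (Finset.mem_univ _)] at h3
    obtain ⟨a, ha, c, hc, h4⟩ := Submodule.mem_sup.1 h3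
    obtain ⟨r, rfl⟩ := Ideal.mem_span_singleton'.1 hc
    exact ⟨r, by rw [← h4, add_sub_cancel_right]; exact ha⟩
  choose r hr using h2
  have hb : eval z (∏ kx, b kx) ≠ 0 := by
    rw [map_prod]
    exact Finset.prod_ne_zero_iff.2 fun kx _ => hb1 kx
  have h3 : ∀ k y, y ∈ vZ (Ideal.span (Set.range q)) →
      eval y (dt l s) • ev y (r k) = eval y (∏ kx, b kx) • ev y (et l s k) :=
    fun k y hy => funext fun x => by
      have := mem_vZ.1 hy _ (hr k x)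
      rw [map_sub, map_mul, map_mul, sub_eq_zero] at this
      simp only [Pi.smul_apply, ev, smul_eq_mul]
      rw [this, mul_comm]
  refine ⟨r, fun k w hw π => ?_, Fintype.linearIndependent_iff.2 fun c hc i => ?_⟩
  · have h4 : ∑ x, r k x * lv (Φ π) x ∈ Ideal.span (Set.range q) := by
      refine mem_of_vanish hp hδ fun y hy h0 => mul_left_cancel₀ h0 ?_
      have h5 := h.dot (vq_iff.2 hy) (Submodule.smul_mem _ (eval y (∏ kx, b kx)) (hm I k y)) π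
      rw [← h3 k y hy, ← ev_lv, smul_dotProduct] at h5
      simpa only [map_sum, map_mul, mul_zero, mul_eq_zero, dotProduct, ev, smul_eq_mul] using h5
    rw [← ev_lv]
    simpa only [dotProduct, ev, map_sum, map_mul] using mem_vZ.1 (vq_iff.1 hw) _ h4
  · have h4 : ∀ k, l i ⬝ᵥ ev z (r k) = if i = k then eval z (∏ kx, b kx) else 0 := fun k => by
      have h5 : dp (l i) (r k) - (if i = k then ∏ kx, b kx else 0) ∈ Ideal.span (Set.range q) := by
        refine mem_of_vanish hp hδ fun y hy h0 => mul_left_cancel₀ h0 ?_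
        have h6 := congrArg (l i ⬝ᵥ ·) (h3 k y hy)
        simp only [dotProduct_smul, dot_et, smul_eq_mul] at h6
        rw [map_sub, eval_dp, mul_sub, h6]
        split_ifs <;> simp only [map_prod, mul_comm, sub_self, zero_mul, map_zero]
      have h6 := mem_vZ.1 (vq_iff.1 hz) _ h5
      rw [map_sub, eval_dp, sub_eq_zero] at h6
      rw [h6]
      split_ifs <;> simp only [map_prod, map_zero]
    have h5 := congrArg (l i ⬝ᵥ ·) hc
    simp only [dotProduct_sum, dotProduct_smul, h4, smul_eq_mul, mul_ite, mul_zero,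
      Finset.sum_ite_eq, Finset.mem_univ, if_true, dotProduct_zero] at h5
    exact (mul_eq_zero.1 h5).resolve_right hb

/-- the points without a frame form a cone of dimension at most `ν` -/
def Small (Φ : η → (τ → ℂ) →ₗ[ℂ] (ι → ℂ)) (q : Fin g → P τ) (e ν : ℕ) : Prop :=
  ∀ 𝔭 : Ideal (P τ), 𝔭.IsPrime → HomI (w0 τ) 𝔭 → (∀ a, q a ∈ 𝔭) → ν < dm 𝔭 →
    ∃ w ∈ vZ 𝔭, w ≠ 0 ∧ Fr Φ q e w

theorem small_of (f : μ → P τ) (d : μ → ℕ) (hd : ∀ j, 0 < d j)
    (hf : ∀ j, (f j).IsHomogeneous (d j))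
    (h : ∀ w, w ≠ 0 → VQ q w → (∀ j, eval w (f j) = 0) → Fr Φ q e w) :
    Small Φ q e (Fintype.card μ) := by
  intro 𝔭 h1 h2 h3 h4
  obtain ⟨𝔮, q1, q2, q3, -, q5, -⟩ := cut_at h1 f (zero_mem h1 h2)
    fun j => gsat2_eval0 (hd j) (hf j)
  obtain ⟨w, w1, w2⟩ := exists_ne_pt q1 (by omega) 0
  exact ⟨w, vZ_anti q2 w1, w2,
    h w w2 (vq_of (fun a => q2 (h3 a)) w1) fun j => mem_vZ.1 w1 _ (q3 j)⟩

theorem FD.nonbad (h : FD Φ q e) (hs : Small Φ q e ν) (hz : VQ q z) (h0 : z ≠ 0)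
    {𝔭 : Ideal (P τ)} (hp : 𝔭.IsPrime) (hh : HomI (w0 τ) 𝔭) (hc : ∀ v ∈ vZ 𝔭, CC q z v)
    (hd : ν + 2 ≤ dm 𝔭) : ∃ v ∈ vZ 𝔭, ∀ s : ℂ, Fr Φ q e (s • z + v) := by
  classical
  by_contra hn
  push Not at hn
  obtain ⟨i, hi⟩ := Function.ne_iff.1 h0
  obtain ⟨pr, hpr⟩ : ∃ pr : (τ → ℂ) →ₗ[ℂ] (τ → ℂ), ∀ w, pr w = w - (w i / z i) • z :=
    ⟨LinearMap.id - ((z i)⁻¹ • LinearMap.proj i : (τ → ℂ) →ₗ[ℂ] ℂ).smulRight z, fun w => by
      simp [div_eq_inv_mul]⟩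
  set B : Set (τ → ℂ) := {w | VQ q w ∧ (w = 0 ∨ ¬ Fr Φ q e w)} with hB
  have hcone : ∀ a : ℂ, ∀ w ∈ B, a • w ∈ B := fun a w hw =>
    ⟨fun b => by rw [eval_smul_hom (h.hom b), hw.1 b, mul_zero], by
      by_cases ha : a = 0
      · exact Or.inl (by rw [ha, zero_smul])
      · exact hw.2.imp (fun h1 => by rw [h1, smul_zero]) fun h1 h2 =>
          h1 (by simpa [ha] using h2.smul h.hom (inv_ne_zero ha))⟩
  have hfin := Ideal.finite_minimalPrimes_of_isNoetherianRing _ (vI B)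
  have h1 : ∀ 𝔮 ∈ (vI B).minimalPrimes, dm 𝔮 ≤ ν := fun 𝔮 hq => not_lt.1 fun hlt => by
    obtain ⟨w, w1, w2, w3⟩ := hs 𝔮 hq.1.1 (hmin (homI_cone hcone) hq)
      (fun a => hq.1.2 (mem_van.2 fun y hy => hy.1 a)) hlt
    obtain ⟨δ, d1, d2⟩ := w3.open
    obtain ⟨j, hj⟩ := Function.ne_iff.1 w2
    refine not_mem_of w1 (f := δ * X j) (by simpa using ⟨d1, hj⟩) (hq.1.2 (mem_van.2 ?_))
    rintro y ⟨-, rfl | hy⟩
    · simp
    · rw [map_mul, not_not.1 fun h0 => hy (d2 y h0), zero_mul]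
  obtain ⟨𝔯, r1, r2, r3, -, r5, -⟩ := cut_at hp (fun _ : Unit => X i) (zero_mem hp hh)
    fun _ => by simp
  have h2 : hfin.toFinset.inf (fun 𝔮 => 𝔮.comap (pull pr)) ≤ 𝔯 := fun f hf => by
    rw [← vI_vZ r1]
    refine mem_van.2 fun y hy => ?_
    obtain ⟨s, hs⟩ := hn y (vZ_anti r2 hy)
    have hyi : y i = 0 := by simpa using mem_vZ.1 hy _ (r3 ())
    obtain ⟨𝔮, q1, q2⟩ := exists_min_at (𝔞 := vI B) (y := s • z + y)
      (mem_vZ.2 fun f hf => mem_van.1 hf _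
        ⟨by simpa using h.plane hz (hc y (vZ_anti r2 hy)) s 1, Or.inr hs⟩)
    have h3 := mem_vZ.1 q2 _ (Ideal.mem_comap.1
      (Finset.inf_le (f := fun 𝔮 : Ideal (P τ) => 𝔮.comap (pull pr)) (hfin.mem_toFinset.2 q1) hf))
    rw [eval_pull, hpr] at h3
    simpa [hyi, mul_div_cancel_right₀ s (show z i ≠ 0 from hi)] using h3
  obtain ⟨𝔮, q1, q2⟩ := r1.inf_le'.1 h2
  rw [Set.Finite.mem_toFinset] at q1
  have h3 := dm_anti (Ideal.comap_isPrime (H := q1.1.1) _ _) r1 q2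
  have h4 := dm_comap_le (pull pr) q1.1.1
  have h5 := h1 𝔮 q1
  simp only [Fintype.card_unit] at r5
  omega

end Pool.Agent.MP_429080_ag.H26

namespace Pool.Agent.MP_429080_ag.H26

open MvPolynomial Filter Module Pool.Agent.EGH Pool.Agent.MP_d171e3_nt
open Pool.Agent.MP_429080_ag.H26.T

set_option linter.unusedSectionVars false

variable {τ ι η : Type} [Fintype τ] [Fintype ι] [Fintype η] {g e ν : ℕ}
  {Φ : η → (τ → ℂ) →ₗ[ℂ] (ι → ℂ)} {q : Fin g → P τ} {w z v : τ → ℂ}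

theorem eval_dpX (α w : τ → ℂ) : eval w (dp α X) = α ⬝ᵥ w := by
  rw [eval_dp]
  congr 1
  ext i
  simp [ev]

theorem dpX_hom (α : τ → ℂ) : (dp α (X : τ → P τ)).IsHomogeneous 1 :=
  dp_hom _ fun x => isHomogeneous_X _ x

theorem zero_bot (w : τ → ℂ) : w ∈ vZ (⊥ : Ideal (P τ)) :=
  mem_vZ.2 fun f hf => by rw [Ideal.mem_bot.1 hf, map_zero]

theorem indep_of_dual {κ : Type} [Fintype κ] [DecidableEq κ] {l s : κ → ι → ℂ}
    (h : ∀ i j, l i ⬝ᵥ s j = if i = j then 1 else 0) : LinearIndependent ℂ l :=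
  Fintype.linearIndependent_iff.2 fun c hc j => by
    simpa only [sum_dotProduct, smul_dotProduct, h, smul_eq_mul, mul_ite, mul_one, mul_zero, Finset.sum_ite_eq', Finset.mem_univ, ↓ reduceIte, zero_dotProduct] using congrArg (· ⬝ᵥ s j) hc

/-- the abstract count: a linear family of subspaces `Im Ψ w`, `w ∈ V 𝔠 ⊆ T` -/
theorem count_step {Ψ : η → (τ → ℂ) →ₗ[ℂ] (Fin e → ℂ)} {𝔠 : Ideal (P τ)} (hp : 𝔠.IsPrime)
    (hh : HomI (w0 τ) 𝔠) (T : Submodule ℂ (τ → ℂ)) (hT : ∀ w ∈ vZ 𝔠, w ∈ T) {m σ : ℕ}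
    (hd : m + e + finrank ℂ T ≤ 2 * dm 𝔠) (hσ : ∀ w ∈ vZ 𝔠, finrank ℂ (Im Ψ w) ≤ σ)
    (hc : ∀ 𝔯 : Ideal (P τ), 𝔯.IsPrime → HomI (w0 τ) 𝔯 → 𝔠 ≤ 𝔯 → m ≤ dm 𝔯 → ∃ v ∈ vZ 𝔯,
      ∀ u ∈ perp (Im Ψ v), ∃ y : Fin e → P τ, ev v y = u ∧ ∀ w ∈ vZ 𝔠, ev w y ∈ perp (Im Ψ w))
    {w₁ w₂ : τ → ℂ} (h1 : w₁ ∈ vZ 𝔠) (h2 : w₂ ∈ vZ 𝔠) (r1 : finrank ℂ (Im Ψ w₁) = σ)
    (r2 : finrank ℂ (Im Ψ w₂) = σ) : Im Ψ w₂ ≤ Im Ψ w₁ := by
  refine fun β hβ => mem_of_perp fun u hu => ?_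
  have G : ∀ w ∈ vZ 𝔠, finrank ℂ (Im Ψ w) = σ → ∃ (I : Fin σ → η) (l : Fin σ → Fin e → ℂ),
      LinearIndependent ℂ l ∧ eval w (dt l fun j => lv (Ψ (I j))) ≠ 0 ∧ ∀ y ∈ vZ 𝔠,
        eval y (dt l fun j => lv (Ψ (I j))) ≠ 0 →
        Submodule.span ℂ (Set.range fun j => ev y (lv (Ψ (I j)))) = Im Ψ y := fun w _ hr => by
    obtain ⟨I, hI⟩ := exists_sub _ hr
    obtain ⟨l, l1, l2⟩ := cr_ex (s := fun j => lv (Ψ (I j))) (y := w)
      (by simpa only [ev_lv] using hI)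
    exact ⟨I, l, indep_of_dual l1, l2, fun y hy h0 => span_eq_of_indep (cr_indep h0)
      (fun j => by simpa only [ev_lv] using mem_Im _ _) (by simpa only [Fintype.card_fin] using hσ y hy)⟩
  obtain ⟨Λ, hΛ⟩ : ∃ Λ : (τ → ℂ) →ₗ[ℂ] (η → ℂ), ∀ w π, Λ w π = u ⬝ᵥ Ψ π w :=
    ⟨{ toFun := fun w π => u ⬝ᵥ Ψ π w
       map_add' := fun a b => by ext; simp only [map_add, dotProduct_add, Pi.add_apply]
       map_smul' := fun a b => by ext; simp only [map_smul, dotProduct_smul, smul_eq_mul, RingHom.id_apply, Pi.smul_apply] }, fun _ _ => rfl⟩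
  obtain ⟨I, l, -, l2, l3⟩ := G w₁ h1 r1
  obtain ⟨𝔶, y1, y2, y3, y4, y5, -⟩ := cut_at hp (fun j => dp u (lv (Ψ (I j)))) h1
    fun j => by rw [eval_dp, ev_lv]; exact mem_perp_Im.1 hu _
  have h3 := dm_le_finrank y1 ((LinearMap.ker (Λ.domRestrict T)).map T.subtype) fun y hy =>
    ⟨⟨y, hT y (vZ_anti y2 hy)⟩, funext fun π => by
      have h4 : dp u (lv (Ψ π)) ∈ 𝔶 := mem_of_vanish y1 (not_mem_of y4 l2) fun w hw h0 => by
        rw [eval_dp, ev_lv]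
        refine mem_perp_Im.1 ?_ π
        rw [← l3 w (vZ_anti y2 hw) h0, mem_perp_span]
        rintro _ ⟨j, rfl⟩
        rw [dotProduct_comm, ← eval_dp]
        exact mem_vZ.1 hw _ (y3 j)
      have h5 := mem_vZ.1 hy _ h4
      rw [eval_dp, ev_lv, ← hΛ] at h5
      exact h5, rfl⟩
  have h4 := (Λ.domRestrict T).finrank_range_add_finrank_ker
  rw [Submodule.finrank_map_subtype_eq] at h3
  obtain ⟨I', l', k1, k2, k3⟩ := G w₂ h2 r2
  set s : Fin σ → Fin e → P τ := fun j => lv (Ψ (I' j)) with hs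
  have h5 : ∀ y, ev y (dt l' s • (fun x => C (β x)) - ∑ k, (C (l' k ⬝ᵥ β) : P τ) • et l' s k) =
      eval y (dt l' s) • β - ∑ k, (l' k ⬝ᵥ β) • ev y (et l' s k) := fun y => by
    simp only [ev_sub, ev_sum', ev_smul, eval_C, hrk_ev]
  obtain ⟨𝔷, z1, z2, z3, z4, z5, z6⟩ := cut_sub hp hh
    (dt l' s • (fun x => C (β x)) - ∑ k, (C (l' k ⬝ᵥ β) : P τ) • et l' s k)
    (d := Fintype.card (Fin σ) * 1) (fun x => by
      simp only [Pi.sub_apply, Pi.smul_apply, Finset.sum_apply, smul_eq_mul]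
      exact ((dt_hom l' (s := s) fun j x => lv_hom _ x).mul (isHomogeneous_C _ _)).sub
        (IsHomogeneous.sum _ _ _ fun k _ => (et_hom l' (s := s) (fun j x => lv_hom _ x) k x).C_mul _))
    (perp (Submodule.span ℂ (Set.range l'))) (fun y _ => mem_perp_span.2 (by
      rintro _ ⟨i, rfl⟩
      rw [h5, dotProduct_sub, dotProduct_sum]
      simp only [dotProduct_smul, smul_eq_mul, mul_comm, dot_et, mul_ite, mul_zero, Finset.sum_ite_eq, Finset.mem_univ, ↓ reduceIte, sub_self])) h2 (by rw [h5, cr_rule k2 (by rwa [k3 w₂ h2 k2]), sub_self])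
  have h6 := perp_rank (Submodule.span ℂ (Set.range l'))
  rw [finrank_span_eq_card k1] at h6
  obtain ⟨𝔯, q1, q2, q3, -, q5, q6⟩ := cut_sub z1 z2 (lv Λ) (lv_hom Λ)
    (LinearMap.range (Λ.domRestrict T))
    (fun y hy => ⟨⟨y, hT y (vZ_anti z3 hy)⟩, (ev_lv Λ y).symm⟩) (zero_mem z1 z2)
    (by rw [ev_lv, map_zero])
  simp only [Fintype.card_fin] at h6 y5
  obtain ⟨v, v1, v2⟩ := hc 𝔯 q1 q2 (z3.trans q3) (by omega)
  obtain ⟨y, y6, y7⟩ := v2 u (mem_perp_Im.2 fun π => by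
    rw [← hΛ, ← ev_lv Λ, q6 v v1, Pi.zero_apply])
  have h7 : dp β y ∈ 𝔷 := mem_of_vanish z1 (not_mem_of z4 k2) fun w hw h0 => by
    rw [eval_dp]
    refine y7 w (vZ_anti z3 hw) β ((Submodule.smul_mem_iff _ h0).1 ?_)
    have h8 := z6 w hw
    rw [h5, sub_eq_zero] at h8
    rw [h8]
    exact Submodule.sum_mem _ fun k _ => Submodule.smul_mem _ _
      (et_mem _ _ _ _ fun j => by simpa only [hs, ev_lv] using mem_Im _ _)
  have h8 := mem_vZ.1 (vZ_anti q3 v1) _ h7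
  rwa [eval_dp, y6] at h8

theorem FD.line_const (h : FD Φ q e) (he : 0 < e) (hs : Small Φ q e ν)
    (hγ : e + 3 * g + 3 * ν + 2 ≤ Fintype.card τ) (hz : VQ q z) (hr : finrank ℂ (Im Φ z) = e)
    (hv : CC q z v) : Im Φ v ≤ Im Φ z := by
  have h0 : z ≠ 0 := by
    rintro rfl
    rw [show Im Φ 0 = ⊥ from Submodule.span_eq_bot.2 (by rintro _ ⟨π, rfl⟩; exact map_zero _),
      finrank_bot] at hr
    omega
  obtain ⟨A, hA⟩ := exists_sub (fun a => grad (q a) z) rfl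
  have hA' := span_eq_of_indep hA (W := Submodule.span ℂ (Set.range fun a => grad (q a) z))
    (fun j => Submodule.subset_span ⟨_, rfl⟩) (by simp only [Fintype.card_fin, Std.le_refl])
  have hrk := perp_rank (Submodule.span ℂ (Set.range fun a => grad (q a) z))
  have hrg : finrank ℂ (Submodule.span ℂ (Set.range fun a => grad (q a) z)) ≤ g :=
    (finrank_range_le_card (R := ℂ) fun a => grad (q a) z).trans (Fintype.card_fin g).le
  obtain ⟨𝔠, c1, -, c3, c4, c5, c6⟩ := cut_at Ideal.isPrime_bot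
    (Sum.elim (fun j => dp (grad (q (A j)) z) X) q) (zero_bot v) (by
      rintro (j | a)
      · exact (eval_dpX _ _).trans (hv.2 _)
      · exact hv.1 a)
  have c7 := c6 homI_bot (by
    rintro (j | a)
    · exact ⟨1, dpX_hom _⟩
    · exact ⟨2, h.hom a⟩)
  have hT : ∀ w ∈ vZ 𝔠, w ∈ perp (Submodule.span ℂ (Set.range fun a => grad (q a) z)) :=
    fun w hw => by
      rw [← hA', mem_perp_span]
      rintro _ ⟨j, rfl⟩
      exact (eval_dpX _ _).symm.trans (mem_vZ.1 hw _ (c3 (Sum.inl j)))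
  have hC : ∀ w ∈ vZ 𝔠, CC q z w := fun w hw => ⟨fun a => mem_vZ.1 hw _ (c3 (Sum.inr a)),
    fun a => mem_perp_span.1 (hT w hw) _ ⟨a, rfl⟩⟩
  rw [dm_bot, Fintype.card_sum, Fintype.card_fin, Fintype.card_fin] at c5
  obtain ⟨I, hI⟩ := exists_sub _ hr
  obtain ⟨l, hl⟩ := gchart_dual hI
  have hJ : ∀ x ∈ Im Φ z, x = ∑ k, (l k ⬝ᵥ x) • Φ (I k) z := fun x hx => by
    rw [← h.span_eq hz hI fun j => mem_Im _ _] at hx
    obtain ⟨c, rfl⟩ := (Submodule.mem_span_range_iff_exists_fun ℂ).1 hx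
    refine Finset.sum_congr rfl fun k _ => ?_
    rw [dotProduct_sum]
    simp only [dotProduct_comm (l k), smul_dotProduct, hl, Matrix.one_apply, smul_eq_mul, mul_ite, mul_one, mul_zero, Finset.sum_ite_eq', Finset.mem_univ, ↓ reduceIte]
  obtain ⟨Ψ, hΨ⟩ : ∃ Ψ : η → (τ → ℂ) →ₗ[ℂ] (Fin e → ℂ), ∀ π w a, Ψ π w a = Φ (I a) z ⬝ᵥ Φ π w :=
    ⟨fun π =>
      { toFun := fun w a => Φ (I a) z ⬝ᵥ Φ π w
        map_add' := fun a b => by ext; simp only [map_add, dotProduct_add, Pi.add_apply]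
        map_smul' := fun a b => by ext; simp only [map_smul, dotProduct_smul, smul_eq_mul, RingHom.id_apply, Pi.smul_apply] }, fun _ _ _ => rfl⟩
  have hE : ∀ (u : Fin e → ℂ) π w, u ⬝ᵥ Ψ π w = (∑ a, u a • Φ (I a) z) ⬝ᵥ Φ π w := fun u π w => by
    rw [sum_dotProduct]
    exact Finset.sum_congr rfl fun a _ => by rw [hΨ, smul_dotProduct, smul_eq_mul]
  have hc : ∀ 𝔯 : Ideal (P τ), 𝔯.IsPrime → HomI (w0 τ) 𝔯 → 𝔠 ≤ 𝔯 → ν + 2 ≤ dm 𝔯 → ∃ v ∈ vZ 𝔯,
      ∀ u ∈ perp (Im Ψ v), ∃ y : Fin e → P τ, ev v y = u ∧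
        ∀ w ∈ vZ 𝔠, ev w y ∈ perp (Im Ψ w) := fun 𝔯 r1 r2 r3 r4 => by
    obtain ⟨v, v1, v2⟩ := h.nonbad hs hz h0 r1 r2 (fun v hv => hC v (vZ_anti r3 hv)) r4
    refine ⟨v, v1, fun u hu => ?_⟩
    obtain ⟨y, y1, y2⟩ := h.const hz hr (hC v (vZ_anti r3 v1)) (u := ∑ a, u a • Φ (I a) z)
      (Submodule.sum_mem _ fun a _ => Submodule.smul_mem _ _ (mem_Im _ _))
      (fun π => hE u π v ▸ mem_perp_Im.1 hu π) v2
    have y3 : ∀ w, ev w (fun a => dp (l a) y) = fun a => l a ⬝ᵥ ev w y :=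
      fun w => funext fun a => eval_dp _ _ _
    refine ⟨fun a => dp (l a) y, funext fun a => ?_, fun w hw => mem_perp_Im.2 fun π => ?_⟩
    · simp only [y3, y1, dotProduct_sum]
      simp only [dotProduct_comm (l a), smul_dotProduct, hl, Matrix.one_apply, smul_eq_mul, mul_ite, mul_one, mul_zero, Finset.sum_ite_eq', Finset.mem_univ, ↓ reduceIte]
    · rw [hE, y3, ← hJ _ (y2 w (hC w hw)).1]
      exact (y2 w (hC w hw)).2 π
  have hb : BddAbove {r | ∃ w ∈ vZ 𝔠, finrank ℂ (Im Ψ w) = r} := ⟨e, by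
    rintro _ ⟨w, -, rfl⟩
    simpa only [finrank_fintype_fun_eq_card, Fintype.card_fin] using Submodule.finrank_le (Im Ψ w)⟩
  obtain ⟨w₁, w1, w2⟩ := Nat.sSup_mem (s := {r | ∃ w ∈ vZ 𝔠, finrank ℂ (Im Ψ w) = r})
    ⟨_, v, c4, rfl⟩ hb
  have hσ : ∀ w ∈ vZ 𝔠, finrank ℂ (Im Ψ w) ≤ _ := fun w hw => le_csSup hb ⟨w, hw, rfl⟩
  generalize sSup {r | ∃ w ∈ vZ 𝔠, finrank ℂ (Im Ψ w) = r} = σ at w2 hσ
  have hcs := fun w₁ w₂ => count_step (w₁ := w₁) (w₂ := w₂) c1 c7 _ hT (by omega) hσ hc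
  obtain ⟨K, hK⟩ := exists_sub _ w2
  obtain ⟨m, m1, m2⟩ := cr_ex (s := fun j => lv (Ψ (K j))) (y := w₁)
    (by simpa only [ev_lv] using hK)
  simp only [ev_lv] at m1
  have m3 : ∀ y ∈ vZ 𝔠, eval y (dt m fun j => lv (Ψ (K j))) ≠ 0 → finrank ℂ (Im Ψ y) = σ :=
    fun y hy h1 => le_antisymm (hσ y hy) (by
      simpa only [Fintype.card_fin] using card_le_of_mem (cr_indep h1) fun j => by simpa only [ev_lv] using mem_Im _ _)
  have hN : ∀ u ∈ perp (Im Ψ w₁), ∀ w ∈ vZ 𝔠, ∀ π, u ⬝ᵥ Ψ π w = 0 := fun u hu w hw π => by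
    have h1 : dp u (lv (Ψ π)) ∈ 𝔠 := mem_of_vanish c1 (not_mem_of w1 m2) fun y hy h1 => by
      rw [eval_dp, ev_lv, dotProduct_comm]
      exact hu _ (hcs w₁ y w1 hy w2 (m3 y hy h1) (mem_Im _ _))
    simpa only [eval_dp, ev_lv] using mem_vZ.1 hw _ h1
  have hσ0 : σ = 0 := by
    by_contra hne
    have hM : (Matrix.of fun b b' : Fin σ =>
        ∑ a, C (m b' a) * dp (m b) (lv (Ψ (I a)))).det.IsHomogeneous (Fintype.card (Fin σ) * 1) :=
      det_hom fun b b' => by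
        rw [Matrix.of_apply]
        exact IsHomogeneous.sum _ _ _ fun a _ => (dp_hom _ (lv_hom _)).C_mul _
    obtain ⟨𝔯, r1, r2, r3, -, r5, r6⟩ := cut_at c1 (fun _ : Unit => _) (zero_mem c1 c7)
      fun _ => gsat2_eval0 (by simpa using Nat.pos_of_ne_zero hne) hM
    rw [Fintype.card_unit] at r5
    obtain ⟨v, v1, v2⟩ := hc 𝔯 r1 (r6 c7 fun _ => ⟨_, hM⟩) r2 (by omega)
    have h1 := mem_vZ.1 v1 _ (r3 ())
    rw [RingHom.map_det] at h1
    obtain ⟨c, c8, c9⟩ := Matrix.exists_mulVec_eq_zero_iff.2 h1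
    have h2 : ∀ b, ∑ a, (∑ b', c b' • m b') a * (m b ⬝ᵥ Ψ (I a) v) = 0 := fun b => by
      refine Eq.trans ?_ (congrFun c9 b)
      simp only [Matrix.mulVec, dotProduct.eq_1 _ c, RingHom.mapMatrix_apply, Matrix.map_apply,
        Matrix.of_apply, map_sum, map_mul, eval_C, eval_dp, ev_lv, Finset.sum_apply, Pi.smul_apply,
        smul_eq_mul, Finset.sum_mul]
      rw [Finset.sum_comm]
      exact Finset.sum_congr rfl fun _ _ => Finset.sum_congr rfl fun _ _ => by ring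
    have h3 : ∀ x : Fin e → ℂ, ∑ a, (∑ b', c b' • m b') a * (x ⬝ᵥ Ψ (I a) v) = 0 := fun x => by
      have h4 := hN (x - ∑ b, (x ⬝ᵥ Ψ (K b) w₁) • m b) (by
        rw [← span_eq_of_indep hK (W := Im Ψ w₁) (fun j => mem_Im _ _) (by simp only [w2, Fintype.card_fin, Std.le_refl]),
          mem_perp_span]
        rintro _ ⟨j, rfl⟩
        rw [dotProduct_comm, sub_dotProduct, sum_dotProduct]
        simp only [smul_dotProduct, m1, smul_eq_mul, mul_ite, mul_one, mul_zero, Finset.sum_ite_eq', Finset.mem_univ, ↓ reduceIte, sub_self]) v (vZ_anti r2 v1)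
      simp only [sub_dotProduct, sub_eq_zero, sum_dotProduct, smul_dotProduct] at h4
      simp only [h4, smul_eq_mul, Finset.mul_sum]
      rw [Finset.sum_comm]
      refine Finset.sum_eq_zero fun b _ => ?_
      simp only [mul_left_comm _ (x ⬝ᵥ Ψ (K b) w₁), ← Finset.mul_sum, h2, mul_zero]
    obtain ⟨y, y1, y2⟩ := v2 (∑ b', c b' • m b') (mem_perp_Im.2 fun π => by
      have h4 := h3 fun k => l k ⬝ᵥ Φ π z
      simp only [hE, ← hJ _ (mem_Im π z)] at h4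
      rw [hE, sum_dotProduct]
      simp only [smul_dotProduct, h.skew (hC v (vZ_anti r2 v1)).2 (I _) π, smul_eq_mul, mul_neg,
        Finset.sum_neg_distrib, dotProduct_comm _ (Φ π z), h4, neg_zero])
    refine c8 (funext fun b => ?_)
    have h4 : dp (Ψ (K b) w₁) y ∈ 𝔠 := mem_of_vanish c1 (not_mem_of w1 m2) fun w hw h1 => by
      rw [eval_dp]
      exact y2 w hw _ (hcs w w₁ hw w1 (m3 w hw h1) w2 (mem_Im _ _))
    have h5 := mem_vZ.1 (vZ_anti r2 v1) _ h4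
    rw [eval_dp, y1, dotProduct_comm, sum_dotProduct] at h5
    simpa only [Pi.zero_apply, smul_dotProduct, m1, smul_eq_mul, mul_ite, mul_one, mul_zero, Finset.sum_ite_eq', Finset.mem_univ, ↓ reduceIte] using h5
  have h1 : Im Ψ v = ⊥ := Submodule.finrank_eq_zero.1 (by have := hσ v c4; omega)
  refine Submodule.span_le.2 ?_
  rintro _ ⟨π, rfl⟩
  refine h.lag hz hr fun π' => ?_
  have h2 : Ψ π v = 0 := (Submodule.mem_bot ℂ).1 (h1 ▸ mem_Im π v)
  rw [dotProduct_comm, hJ _ (mem_Im π' z), ← hE, h2, dotProduct_zero]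

theorem FD.im_const (h : FD Φ q e) (he : 0 < e) (hs : Small Φ q e ν)
    (hγ : e + 3 * g + 3 * ν + 2 ≤ Fintype.card τ) (hz : VQ q z) (hr : finrank ℂ (Im Φ z) = e)
    (hv : VQ q v) (hr' : finrank ℂ (Im Φ v) = e) : Im Φ z = Im Φ v := by
  obtain ⟨𝔠, c1, -, c3, -, c5, c6⟩ := cut_at Ideal.isPrime_bot
    (Sum.elim q (Sum.elim (fun a => dp (grad (q a) z) X) fun a => dp (grad (q a) v) X))
    (zero_bot 0) (by
      rintro (a | a | a)
      · exact gsat2_eval0 two_pos (h.hom a)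
      all_goals exact gsat2_eval0 one_pos (dpX_hom _))
  simp only [dm_bot, Fintype.card_sum, Fintype.card_fin] at c5
  obtain ⟨w, w1, -, ψ, p1, p2⟩ := hs 𝔠 c1 (c6 homI_bot (by
    rintro (a | a | a)
    · exact ⟨2, h.hom a⟩
    all_goals exact ⟨1, dpX_hom _⟩)) (fun a => c3 (Sum.inl a)) (by omega)
  have hw : VQ q w := vq_of (fun a => c3 (Sum.inl a)) w1
  have key : ∀ z, VQ q z → finrank ℂ (Im Φ z) = e → CC q z w →
      Submodule.span ℂ (Set.range fun i => ev w (ψ i)) = Im Φ z := fun z hz hr hc => by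
    obtain ⟨δ, d1, d2⟩ := h.open hr
    refine h.span_eq hz p2 fun i => h.lag hz hr fun π => ?_
    have := plane_ext (z := z) (v := w) (δ := δ) (δ' := δ) (s := 1) (t := 0) (s' := 1) (t' := 0)
      (f := dp (Φ π z) (ψ i)) (by simpa using d1) (by simpa using d1) (fun a b ha _ => by
        have h1 := h.plane hz hc a b
        have h2 : Im Φ (a • z + b • w) = Im Φ z := Submodule.eq_of_le_of_finrank_eq
          (Submodule.span_le.2 (by
            rintro _ ⟨π, rfl⟩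
            simp only [map_add, map_smul]
            exact Submodule.add_mem _ (Submodule.smul_mem _ _ (mem_Im _ _))
              (Submodule.smul_mem _ _ (h.line_const he hs hγ hz hr hc (mem_Im _ _)))))
          (by rw [hr, d2 _ h1 ha])
        rw [eval_dp]
        exact mem_perp_Im.2 (p1 i _ h1) _ (h2 ▸ mem_Im π z)) 0 1
    rwa [eval_dp, zero_smul, one_smul, zero_add, dotProduct_comm] at this
  rw [← key z hz hr ⟨hw, fun a => (eval_dpX _ _).symm.trans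
      (mem_vZ.1 w1 _ (c3 (Sum.inr (Sum.inl a))))⟩,
    key v hv hr' ⟨hw, fun a => (eval_dpX _ _).symm.trans
      (mem_vZ.1 w1 _ (c3 (Sum.inr (Sum.inr a))))⟩]

end Pool.Agent.MP_429080_ag.H26

namespace Pool.Agent.MP_429080_ag.H26

open MvPolynomial Filter Module Pool.Agent.EGH Pool.Agent.MP_d171e3_nt
open Pool.Agent.MP_429080_ag.H26.T

/-- a symmetric form is a sum of squares -/
theorem exists_factor {ν : Type} [Fintype ν] (B : (ν → ℂ) →ₗ[ℂ] (ν → ℂ))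
    (hsy : ∀ v w, B v ⬝ᵥ w = B w ⬝ᵥ v) : ∃ (ι : Type) (_ : Fintype ι)
      (Et : (ι → ℂ) →ₗ[ℂ] (ν → ℂ)) (G : ι → ν → ℂ), Function.Injective Et ∧
      (∀ v, Et (fun i => G i ⬝ᵥ B v) = B v) ∧
      (∀ v w, (fun i => G i ⬝ᵥ B v) ⬝ᵥ (fun i => G i ⬝ᵥ B w) = B v ⬝ᵥ w) ∧
      Fintype.card ι + finrank ℂ (LinearMap.ker B) = Fintype.card ν := by
  classical
  let β : LinearMap.BilinForm ℂ (ν → ℂ) := LinearMap.mk₂ ℂ (fun v w => B v ⬝ᵥ w)
    (fun _ _ _ => by simp only [map_add, add_dotProduct]) (fun _ _ _ => by simp only [map_smul, smul_dotProduct, smul_eq_mul]) (fun _ _ _ => by simp only [dotProduct_add]) (fun _ _ _ => by simp)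
  obtain ⟨b, hb⟩ := LinearMap.BilinForm.exists_orthogonal_basis (B := β) ⟨fun v w => hsy v w⟩
  have ho : ∀ i k, i ≠ k → B (b i) ⬝ᵥ b k = 0 := fun i k h => hb h
  choose c hc using fun i => IsAlgClosed.exists_eq_mul_self (B (b i) ⬝ᵥ b i)
  let G : {i // c i ≠ 0} → ν → ℂ := fun i => (c i)⁻¹ • b i
  let Et : ({i // c i ≠ 0} → ℂ) →ₗ[ℂ] (ν → ℂ) := Fintype.linearCombination ℂ fun i => B (G i)
  have h1 : ∀ i k, G i ⬝ᵥ B (G k) = if i = k then 1 else 0 := fun i k => by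
    simp only [G, map_smul, smul_dotProduct, dotProduct_smul, smul_eq_mul, dotProduct_comm (b i)]
    split_ifs with h
    · rw [h, hc]
      field_simp [k.2]
    · rw [ho _ _ fun h' => h (Subtype.ext h'.symm), mul_zero, mul_zero]
  have h2 : ∀ x i, G i ⬝ᵥ Et x = x i := fun x i => by
    simp only [ne_eq, Et, Fintype.linearCombination_apply, dotProduct_sum, dotProduct_smul, h1, smul_eq_mul, mul_ite, mul_one, mul_zero, Finset.sum_ite_eq, Finset.mem_univ, ↓ reduceIte]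
  have hz : ∀ x : ν → ℂ, (∀ k, x ⬝ᵥ b k = 0) → x = 0 := fun x h => by
    refine dotProduct_eq_zero x fun w => ?_
    rw [← b.sum_repr w, dotProduct_sum]
    simp only [dotProduct_smul, h, smul_eq_mul, mul_zero, Finset.sum_const_zero]
  have h3 : ∀ v, Et (fun i => G i ⬝ᵥ B v) = B v := fun v => sub_eq_zero.1 (hz _ fun k => by
    rw [sub_dotProduct, sub_eq_zero]
    by_cases h : c k = 0
    · have h4 : B (b k) = 0 := hz _ fun i => by
        by_cases h5 : k = i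
        · rw [← h5, hc, h, mul_zero]
        · exact ho _ _ h5
      simp only [ne_eq, Et, Fintype.linearCombination_apply, sum_dotProduct, smul_dotProduct, hsy _ (b k), h4, zero_dotProduct, smul_eq_mul, mul_zero, Finset.sum_const_zero]
    · have h4 : ((c k)⁻¹ • b k) ⬝ᵥ _ = ((c k)⁻¹ • b k) ⬝ᵥ _ := h2 (fun i => G i ⬝ᵥ B v) ⟨k, h⟩
      rw [smul_dotProduct, smul_dotProduct] at h4
      rw [dotProduct_comm, dotProduct_comm (B v)]
      exact mul_left_cancel₀ (inv_ne_zero h) h4)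
  have h4 : Function.Injective Et := fun x y h => funext fun i => by rw [← h2 x, h, h2]
  refine ⟨_, inferInstance, Et, G, h4, h3, fun v w => ?_, ?_⟩
  · conv_rhs => rw [← h3 v]
    simp only [Et, Fintype.linearCombination_apply, sum_dotProduct, smul_dotProduct, smul_eq_mul]
    exact Finset.sum_congr rfl fun i _ => by rw [hsy, dotProduct_comm (B w)]
  · have h5 : LinearMap.range Et = LinearMap.range B := le_antisymm (by
      rintro _ ⟨x, rfl⟩
      exact ⟨∑ i, x i • G i, by simp only [ne_eq, map_sum, map_smul, Et, Fintype.linearCombination_apply]⟩) (by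
      rintro _ ⟨v, rfl⟩
      exact ⟨_, h3 v⟩)
    rw [← finrank_fintype_fun_eq_card ℂ, ← LinearMap.finrank_range_of_inj h4, h5,
      LinearMap.finrank_range_add_finrank_ker, finrank_fintype_fun_eq_card]

/-- CI + EN + FRAME + FIN + last step. `j` is the inclusion of `K = ker B`, `ss` the ideal of `S`,
`Ψ π = B_π ∘ j` for a basis (or any spanning family) `π` of `P`. -/
theorem tail {ν τ η μ : Type} [Fintype ν] [Fintype τ] [Fintype η] [Fintype μ] {e g κ : ℕ}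
    {Z : Set (ν → ℂ)} (hZ : Sm Z (e + κ)) (hs : Submodule.span ℂ Z = ⊤)
    (h3 : 3 * (e + κ) + 2 ≤ Fintype.card ν) (hg : g ≤ κ) (he : κ < e)
    {Q : P ν} (hQ : Q.IsHomogeneous 2) (hQZ : Q ∈ vI Z) (B : (ν → ℂ) →ₗ[ℂ] (ν → ℂ))
    (hB : ∀ v, B v = grad Q v) (j : (τ → ℂ) →ₗ[ℂ] (ν → ℂ)) (hj : Function.Injective j)
    (hK : LinearMap.range j = LinearMap.ker B) (hγ : Fintype.card τ + 2 * e = Fintype.card ν)
    {ss : Ideal (P τ)} (hss : ss.IsPrime) (hsh : HomI (w0 τ) ss) (hsZ : ∀ w ∈ vZ ss, j w ∈ Z)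
    (hsd : Fintype.card τ ≤ dm ss + κ)
    (Ψ : η → (τ → ℂ) →ₗ[ℂ] (ν → ℂ))
    (hΨ : ∀ w ∈ vZ ss, w ≠ 0 → ∀ π, Ψ π w ∈ (tangent Z (j w)).map B)
    (hgood : ∀ 𝔭 : Ideal (P τ), 𝔭.IsPrime → ss ≤ 𝔭 → g + e ≤ dm 𝔭 → ∃ w ∈ vZ 𝔭, w ≠ 0 ∧
      finrank ℂ (Submodule.span ℂ (Set.range fun π => Ψ π w)) = e)
    (htg : ∀ 𝔭 : Ideal (P τ), 𝔭.IsPrime → ss ≤ 𝔭 → 2 * g ≤ dm 𝔭 → ∃ w ∈ vZ 𝔭, w ≠ 0 ∧
      finrank ℂ ((tangent Z (j w)).map B) = e)
    (hμ : Fintype.card μ = κ) (F : μ → P ν) (d : μ → ℕ) (hd : ∀ m, 0 < d m)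
    (hF : ∀ m, (F m).IsHomogeneous (d m)) (hFZ : ∀ m, F m ∈ vI Z)
    (a : Fin g → μ) (ha : Function.Injective a) (ha2 : ∀ i, d (a i) = 2)
    {zz : Ideal (P τ)} (hzz : zz.IsPrime) (hzh : HomI (w0 τ) zz) (hsz : ss ≤ zz)
    (hzd : Fintype.card τ + 1 ≤ dm zz + 2 * g + κ)
    (hind : ∀ w ∈ vZ zz, w ≠ 0 → LinearIndependent ℂ fun m => grad (pull j (F m)) w)
    (hq : ∀ π π', ∃ l : Fin g → ℂ, ∀ w, ∃ u, B u = Ψ π' w ∧
      Ψ π w ⬝ᵥ u = ∑ i, l i * eval (j w) (F (a i))) : False := by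
  classical
  obtain ⟨c1, c2, c3, c4, -, -, c7⟩ := cien hZ h3 hg he hQ hQZ B hB j hj hK hγ hss hsh hsZ hsd htg hμ
    F d hd hF hFZ a ha hzz hzh hsz hzd hind
  obtain ⟨B', hB', hsy, -⟩ := exists_polar hQ
  obtain rfl : B' = B := LinearMap.ext fun v => (hB' v).trans (hB v).symm
  obtain ⟨ι, _, Et, G, f1, f2, f3, f4⟩ := exists_factor B' hsy
  rw [← hK, LinearMap.finrank_range_of_inj hj, finrank_fintype_fun_eq_card] at f4
  obtain ⟨Φ, hΦ⟩ : ∃ Φ : η → (τ → ℂ) →ₗ[ℂ] (ι → ℂ), ∀ π w, Φ π w = fun i => G i ⬝ᵥ Ψ π w :=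
    ⟨fun π =>
      { toFun := fun w i => G i ⬝ᵥ Ψ π w
        map_add' := fun a b => by ext; simp only [map_add, dotProduct_add, Pi.add_apply]
        map_smul' := fun a b => by ext; simp only [map_smul, dotProduct_smul, smul_eq_mul, RingHom.id_apply, Pi.smul_apply] }, fun _ _ => rfl⟩
  have hu : ∀ π w, ∃ u, B' u = Ψ π w := fun π w => by
    obtain ⟨l, hl⟩ := hq π π
    exact (hl w).imp fun u h => h.1
  have hE : ∀ π w, Et (Φ π w) = Ψ π w := fun π w => by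
    obtain ⟨u, h⟩ := hu π w
    rw [hΦ, ← h, f2]
  have hI : ∀ w, (Im Φ w).map Et = Submodule.span ℂ (Set.range fun π => Ψ π w) := fun w => by
    rw [Im, Submodule.map_span, ← Set.range_comp]
    exact congrArg (fun x => Submodule.span ℂ (Set.range x)) (funext fun π => hE π w)
  have hI' : ∀ w, finrank ℂ (Im Φ w) =
      finrank ℂ (Submodule.span ℂ (Set.range fun π => Ψ π w)) := fun w => by
    rw [← hI]
    exact (Submodule.equivMapOfInjective Et f1 _).finrank_eq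
  have h : FD Φ (fun i => pull j (F (a i))) e :=
    ⟨by omega, fun i => pull_hom j (ha2 i ▸ hF (a i)), fun π π' => by
      obtain ⟨l, hl⟩ := hq π π'
      refine ⟨l, fun w => ?_⟩
      obtain ⟨u, h1, h2⟩ := hl w
      obtain ⟨u', h3⟩ := hu π w
      simp only [eval_pull]
      rw [hΦ, hΦ, ← h2, ← h1, ← h3, f3]⟩
  have hc : Fintype.card {m // m ∉ Set.range a} + g = κ := by
    rw [Fintype.card_subtype_compl, Set.card_range_of_injective ha, Fintype.card_fin, hμ]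
    omega
  have hle : ∀ 𝔭 : Ideal (P τ), (∀ i, pull j (F (a i)) ∈ 𝔭) →
      (∀ m : {m // m ∉ Set.range a}, pull j (F m) ∈ 𝔭) → ss ≤ 𝔭 := fun 𝔭 h1 h2 => by
    rw [c1, Ideal.span_le]
    rintro _ ⟨m, rfl⟩
    by_cases hm : m ∈ Set.range a
    · obtain ⟨i, rfl⟩ := hm
      exact h1 i
    · exact h2 ⟨m, hm⟩
  have hS : ∀ w, VQ (fun i => pull j (F (a i))) w →
      (∀ m : {m // m ∉ Set.range a}, eval w (pull j (F m)) = 0) → w ∈ vZ ss := fun w h1 h2 =>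
    gdim_le.2 (hle _ (fun i => gdim_pt.2 (h1 i)) fun m => gdim_pt.2 (h2 m))
  have hV : ∀ w ∈ vZ ss, VQ (fun i => pull j (F (a i))) w := fun w hw i =>
    mem_vZ.1 hw _ (c1 ▸ Ideal.subset_span ⟨a i, rfl⟩)
  have hne : ∀ w, finrank ℂ (Im Φ w) = e → w ≠ 0 := by
    rintro _ hr rfl
    rw [show Im Φ 0 = ⊥ from Submodule.span_eq_bot.2 (by rintro _ ⟨π, rfl⟩; exact map_zero _),
      finrank_bot] at hr
    omega
  have hJ : ∀ w ∈ vZ ss, finrank ℂ (Im Φ w) = e → (Im Φ w).map Et = (tangent Z (j w)).map B' :=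
    fun w hw hr => by
      rw [hI]
      refine Submodule.eq_of_le_of_finrank_le (Submodule.span_le.2 ?_) ?_
      · rintro _ ⟨π, rfl⟩
        exact hΨ w hw (hne w hr) π
      · rw [← hI', hr]
        exact (ce_lin hZ hQ hQZ B' hB j hj hK hγ (hsZ w hw) (hne w hr)).2.2.1
  have hsm := small_of (Φ := Φ) (q := fun i => pull j (F (a i))) (e := e)
    (fun m : {m // m ∉ Set.range a} => pull j (F m)) (fun m => d m)
    (fun m => hd m) (fun m => pull_hom j (hF m)) fun w h0 h1 h2 => by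
      obtain ⟨ρ, r1, r2, r3⟩ := c7 w (hS w h1 h2) h0
      have r4 : ∀ i y, Et (ev y fun x => dp (G x) (ρ i)) = ev y (ρ i) := fun i y => by
        obtain ⟨u, hu⟩ := (r2 i y).2
        rw [← hu, ← f2 u, hu]
        exact congrArg Et (funext fun x => eval_dp _ _ _)
      refine h.hartogs (by omega) c3 c4.le (by omega) _ (fun 𝔭 p1 p2 p3 p4 => ?_) h1 h2
        (fun i x => dp (G x) (ρ i)) (LinearIndependent.of_comp Et ?_) fun y y1 y2 y3 i => ?_
      · obtain ⟨y, y1, -, y2⟩ := hgood 𝔭 p1 (hle 𝔭 p2 p3) (by omega)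
        exact ⟨y, y1, (hI' y).trans y2⟩
      · simpa only [Function.comp_def, r4] using r1
      · have y4 := hJ y (hS y y1 y2) y3
        have y5 := r3 y (hS y y1 y2) (hne y y3) (by rw [← y4, hI, ← hI', y3]) i
        rw [← y4, ← r4] at y5
        obtain ⟨x, x1, x2⟩ := y5
        exact f1 x2 ▸ x1
  obtain ⟨z, z1, -, z2⟩ := hgood ss hss le_rfl (by omega)
  rw [← hI'] at z2
  obtain ⟨I, hI2⟩ := exists_sub _ z2
  have hα : Ψ (I ⟨0, by omega⟩) z ≠ 0 := fun h0 => hI2.ne_zero ⟨0, by omega⟩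
    (f1 (by rw [hE, h0, map_zero]))
  obtain ⟨δ, d1, d2⟩ := h.open z2
  have hcl := alg_closed hZ.toCn (alg_nm hZ) j hss hsZ (Ψ (I ⟨0, by omega⟩) z)
    (not_mem_of z1 d1) fun y y1 y2 _ => by
      have y3 := d2 y (hV y y1) y2
      refine ((ce_lin hZ hQ hQZ B' hB j hj hK hγ (hsZ y y1) (hne y y3)).1 ?_).1
      rw [← hJ y y1 y3, ← h.im_const (by omega) hsm (by omega) (hV z z1) z2 (hV y y1) y3]
      exact ⟨_, mem_Im _ _, hE _ _⟩
  obtain ⟨p, p1, p2⟩ := exists_dot_ne hs hα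
  have := zak hZ j hss hsh hsZ p1 (fun h => p2 (by rw [h, dotProduct_zero])) fun y y1 y2 ht =>
    p2 (mem_tangent_nm.1 ht _ (hcl y y1 fun h0 => y2 (hj (h0.trans (map_zero j).symm))))
  omega

end Pool.Agent.MP_429080_ag.H26
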