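import Pool.Agent.MP_429080_ag.H91.Mn

attribute [-instance] ContinuousSemilinearMapClass.toSemilinearMapClass
  MulRingSeminormClass.toMonoidWithZeroHomClass Algebra.IsFiniteSplit.instFree RKHS.instFunLike
  instCoeOTCOfCoeTC NonUnitalAlgHomClass.instLinearMapClass NonUnitalRing.toNonUnitalNonAssocRing
  littleWedderburn Algebra.Generators.instRing instNonUnitalAlgHomClassOfNonUnitalAlgEquivClass
  MulSemiringActionSemiHomClass.toRingHomClass SemilinearIsometryClass.toSemilinearMapClass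
  CoalgHomClass.toSemilinearMapClass RingHomClass.toLinearMapClassRat NormedRing.toRing
  BialgHomClass.toAlgHomClass AddCommMonoidWithOne.toAddCommMonoid
  MulSemiringActionSemiHomClass.toDistribMulActionSemiHomClass Fintype.decidableForallFintype
  RingHomClass.toLinearMapClassNNRat NonUnitalNonAssocCommSemiring.toNonUnitalNonAssocSemiring
  NonUnitalNormedCommRing.toNonUnitalCommRing IdemSemiring.toSemiring
  ValuationClass.toMonoidWithZeroHomClass TestFunctionClass.toDFunLike NormedCommRing.toCommRing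
  LieAdmissibleRing.toNonUnitalNonAssocRing AlgEquivClass.toAlgHomClass SeminormedRing.toRing
  NonUnitalAlgHomClass.instSemilinearMapClassOfNonUnitalAlgSemiHomClassToMonoidHomRingHom
  NonAssocCommSemiring.toNonAssocSemiring NonUnitalSeminormedCommRing.toNonUnitalCommRing
  NonAssocRing.toNonUnitalNonAssocRing
  ContinuousMonoidHom.instCoeOutOfMonoidHomClassOfContinuousMapClass
  SemilinearEquivClass.instSemilinearMapClass

/-! The relative form of theorem B, for an abstract family of Taylor coefficients. -/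

namespace Pool.Agent.MP_429080_ag.H26

open MvPolynomial Filter Module Pool.Agent.EGH Pool.Agent.MP_d171e3_nt
open Pool.Agent.MP_429080_ag.H26.T

set_option linter.unusedSectionVars false

variable {τ ι ι' 𝒢 : Type} [Fintype τ] [Fintype ι] [Fintype ι'] [AddCommGroup 𝒢] [Module ℂ 𝒢]

/-- the span of all coefficients at a point -/
noncomputable def bpW (Om : ℕ → 𝒢 →ₗ[ℂ] (ι → P τ)) (z : τ → ℂ) : Submodule ℂ (ι → ℂ) :=
  Submodule.span ℂ {v | ∃ G j, ev z (Om j G) = v}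

/-- the hypotheses of the relative theorem -/
structure BP (Z : Set (τ → ℂ)) (Om : ℕ → 𝒢 →ₗ[ℂ] (ι → P τ)) (R : (ι → ℂ) →ₗ[ℂ] (ι' → ℂ))
    (L : Submodule ℂ (ι → ℂ)) (g κ : ℕ) : Prop where
  cn : Cn Z
  hom : ∀ j G s, (Om j G s).IsHomogeneous j
  L0 : ∀ α, α ∈ L ↔ ∃ G, ev 0 (Om 0 G) = α
  rkL : finrank ℂ L = g
  rkW : ∀ z ∈ Z, z ≠ 0 → finrank ℂ (bpW Om z) = g + κ
  RL : ∀ α ∈ L, R α = 0
  ker : ∀ z ∈ Z, z ≠ 0 → ∀ α ∈ bpW Om z, R α = 0 → α ∈ L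
  free : ∀ z ∈ Z, z ≠ 0 → ∀ α, α ∉ L → ∃ a b : ι → ℂ, α ⬝ᵥ a ≠ 0 ∧ ∀ G,
    ev z (Om 0 G) ⬝ᵥ a = 0 ∧ ∀ j, ev z (Om (j + 1) G) ⬝ᵥ a + ev z (Om j G) ⬝ᵥ b = 0
  nose : ∀ G, ev 0 (Om 0 G) ≠ 0 → ∀ z ∈ Z, z ≠ 0 → R (ev z (Om 1 G)) ≠ 0
  dim : Fintype.card τ + κ + 1 ≤ 2 * dm (vI Z)

noncomputable def bpK3 (Z : Set (τ → ℂ)) (Om : ℕ → 𝒢 →ₗ[ℂ] (ι → P τ)) :
    Submodule (P τ) (ι → P τ) :=
  Submodule.span _ {q | ∃ G j, Om j G = q} ⊔ pw ι (vI Z)

noncomputable def bpK2 (Z : Set (τ → ℂ)) (Om : ℕ → 𝒢 →ₗ[ℂ] (ι → P τ)) :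
    Submodule (P τ) (ι ⊕ ι → P τ) :=
  Submodule.span _ {q | ∃ G, Sum.elim (Om 0 G) 0 = q ∨
    ∃ j, Sum.elim (Om (j + 1) G) (Om j G) = q} ⊔ pw (ι ⊕ ι) (vI Z)

noncomputable def bpI (ι : Type) : (ι → ℂ) →ₗ[ℂ] (ι ⊕ ι → ℂ) where
  toFun q := Sum.elim q 0
  map_add' a b := by ext (s | s) <;> simp
  map_smul' a b := by ext (s | s) <;> simp

noncomputable def bpJ (ι : Type) : (ι → ℂ) →ₗ[ℂ] (ι ⊕ ι → ℂ) where
  toFun q := Sum.elim 0 q
  map_add' a b := by ext (s | s) <;> simp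
  map_smul' a b := by ext (s | s) <;> simp

/-- the bundle at infinity -/
noncomputable def bpF (Z : Set (τ → ℂ)) (Om : ℕ → 𝒢 →ₗ[ℂ] (ι → P τ)) (z : τ → ℂ) :
    Submodule ℂ (ι → ℂ) := (fb (bpK2 Z Om) z).comap (bpJ ι)

open Classical in
/-- the restricted coefficients -/
noncomputable def bpG (R : (ι → ℂ) →ₗ[ℂ] (ι' → ℂ)) (Om : ℕ → 𝒢 →ₗ[ℂ] (ι → P τ)) (j : ℕ) :
    𝒢 →ₗ[ℂ] (ι' → P τ) :=
  (((LinearMap.toMatrix' R).map C).mulVecLin.restrictScalars ℂ).comp (Om j)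

theorem bp_rank {U V W : Type} [AddCommGroup U] [Module ℂ U] [AddCommGroup V] [Module ℂ V]
    [AddCommGroup W] [Module ℂ W] [Module.Finite ℂ V] (S : Submodule ℂ V) (p : V →ₗ[ℂ] W)
    (i : U →ₗ[ℂ] V) (hi : Function.Injective i)
    (h : S ⊓ LinearMap.ker p = S ⊓ LinearMap.range i) :
    finrank ℂ (S.map p) + finrank ℂ (S.comap i) = finrank ℂ S := by
  have h1 := LinearMap.finrank_range_add_finrank_ker (p.domRestrict S)
  rw [LinearMap.range_domRestrict, LinearMap.ker_domRestrict,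
    ← Submodule.finrank_map_subtype_eq, Submodule.map_comap_subtype, h, inf_comm,
    ← Submodule.map_comap_eq, ← (Submodule.equivMapOfInjective i hi _).finrank_eq] at h1
  exact h1

variable {Z : Set (τ → ℂ)} {Om : ℕ → 𝒢 →ₗ[ℂ] (ι → P τ)} {R : (ι → ℂ) →ₗ[ℂ] (ι' → ℂ)}
  {L : Submodule ℂ (ι → ℂ)} {g κ : ℕ}

theorem bp_evG (z : τ → ℂ) (j : ℕ) (G : 𝒢) : ev z (bpG R Om j G) = R (ev z (Om j G)) := by
  classical
  have := hext2_ev_const R z (Om j G)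
  convert this using 2
  rfl

theorem bp_isH {Om : ℕ → 𝒢 →ₗ[ℂ] (ι → P τ)} (h : ∀ j G s, (Om j G s).IsHomogeneous j) (j : ℕ)
    (G : 𝒢) : IsH (w0 τ) 0 ((j : ℤ), 0) (Om j G) := fun s => by
  rw [Pi.zero_apply, sub_zero]
  exact isWH_w0.2 (h j G s)

theorem BP.homG (h : BP Z Om R L g κ) (j : ℕ) (G : 𝒢) (a : ι') :
    (bpG R Om j G a).IsHomogeneous j := by
  classical
  simp only [bpG, LinearMap.comp_apply, LinearMap.restrictScalars_apply, Matrix.mulVecLin_apply,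
    Matrix.mulVec, dotProduct, Matrix.map_apply]
  exact IsHomogeneous.sum _ _ _ fun s _ => (h.hom j G s).C_mul _

theorem BP.const (h : BP Z Om R L g κ) (G : 𝒢) :
    Om 0 G = fun s => C (ev 0 (Om 0 G) s) := _root_.funext fun s => by
  have := totalDegree_eq_zero_iff_eq_C.1
    ((totalDegree_zero_iff_isHomogeneous _).2 (h.hom 0 G s))
  rw [ev, this, eval_C]

theorem BP.ev0 (h : BP Z Om R L g κ) (z : τ → ℂ) (G : 𝒢) :
    ev z (Om 0 G) = ev 0 (Om 0 G) := by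
  rw [h.const G, hrk_ev, hrk_ev]

theorem bp_fb3 {z : τ → ℂ} (hz : z ∈ Z) : fb (bpK3 Z Om) z = bpW Om z := by
  rw [bpK3, fb_span_sup hz]
  refine congrArg (Submodule.span ℂ) (Set.ext fun v => ⟨?_, ?_⟩)
  · rintro ⟨_, ⟨G, j, rfl⟩, rfl⟩
    exact ⟨G, j, rfl⟩
  · rintro ⟨G, j, rfl⟩
    exact ⟨_, ⟨G, j, rfl⟩, rfl⟩

theorem bp_vb3 {r : ℕ} (hZ : Cn Z) (h : ∀ j G s, (Om j G s).IsHomogeneous j)
    (hr : ∀ z ∈ Z, z ≠ 0 → finrank ℂ (bpW Om z) = r) : VB Z (bpK3 Z Om) r := by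
  refine ⟨(homM_span ?_).sup (homM_pw hZ.homI), le_sup_right, fun z hz h0 => ?_⟩
  · rintro _ ⟨G, j, rfl⟩
    exact ⟨_, bp_isH h j G⟩
  · rw [bp_fb3 hz, hr z hz h0]

theorem bp_mem (z : τ → ℂ) (G : 𝒢) (j : ℕ) : ev z (Om j G) ∈ bpW Om z :=
  Submodule.subset_span ⟨G, j, rfl⟩

theorem BP.le (h : BP Z Om R L g κ) (z : τ → ℂ) : L ≤ bpW Om z := fun α hα => by
  obtain ⟨G, rfl⟩ := (h.L0 α).1 hα
  rw [← h.ev0 z]
  exact bp_mem z G 0

theorem BP.algR (h : BP Z Om R L g κ) : Alg Z (bpW (bpG R Om)) κ := by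
  refine ⟨_, bp_vb3 h.cn h.homG fun z hz h0 => ?_, fun z hz _ => bp_fb3 hz⟩
  have e : bpW (bpG R Om) z = (bpW Om z).map R := by
    rw [bpW, bpW, Submodule.map_span]
    refine congrArg (Submodule.span ℂ) (Set.ext fun v => ⟨?_, ?_⟩)
    · rintro ⟨G, j, rfl⟩
      exact ⟨_, ⟨G, j, rfl⟩, (bp_evG z j G).symm⟩
    · rintro ⟨_, ⟨G, j, rfl⟩, rfl⟩
      exact ⟨G, j, bp_evG z j G⟩
  have h1 := bp_rank (bpW Om z) R L.subtype L.injective_subtype (by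
    rw [Submodule.range_subtype]
    exact le_antisymm (fun α hα => ⟨hα.1, h.ker z hz h0 α hα.1 hα.2⟩)
      fun α hα => ⟨hα.1, h.RL α hα.2⟩)
  rw [Submodule.comap_subtype_eq_top.2 (h.le z), finrank_top, h.rkL, h.rkW z hz h0] at h1
  rw [e]
  omega

theorem bp_gen (G : 𝒢) : Sum.elim (Om 0 G) 0 ∈ bpK2 Z Om ∧
    ∀ j, Sum.elim (Om (j + 1) G) (Om j G) ∈ bpK2 Z Om :=
  ⟨Submodule.mem_sup_left (Submodule.subset_span ⟨G, Or.inl rfl⟩),
    fun j => Submodule.mem_sup_left (Submodule.subset_span ⟨G, Or.inr ⟨j, rfl⟩⟩)⟩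

theorem bp_proj (e : ι → ι ⊕ ι) (he : e = Sum.inl ∨ e = Sum.inr) :
    (bpK2 Z Om).map (LinearMap.funLeft _ _ e) = bpK3 Z Om := by
  have gen : ∀ G j, Om j G ∈ bpK3 Z Om := fun G j =>
    Submodule.mem_sup_left (Submodule.subset_span ⟨G, j, rfl⟩)
  refine le_antisymm (Submodule.map_le_iff_le_comap.2 (sup_le (Submodule.span_le.2 ?_)
    fun q hq => Submodule.mem_sup_right (mem_pw.2 fun i => mem_pw.1 hq _)))
    (sup_le (Submodule.span_le.2 ?_) fun q hq => ⟨Sum.elim q q, Submodule.mem_sup_right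
      (mem_pw.2 fun i => by rcases i with i | i <;> exact mem_pw.1 hq i),
      by rcases he with rfl | rfl <;> rfl⟩)
  · rintro _ ⟨G, rfl | ⟨j, rfl⟩⟩ <;> rcases he with rfl | rfl
    exacts [gen G 0, (bpK3 Z Om).zero_mem, gen G _, gen G _]
  · rintro _ ⟨G, j, rfl⟩
    rcases he with rfl | rfl
    · rcases j with _ | j
      exacts [⟨_, (bp_gen G).1, rfl⟩, ⟨_, (bp_gen G).2 j, rfl⟩]
    · exact ⟨_, (bp_gen G).2 j, rfl⟩

theorem bp_pl (q : ι → P τ) : q ∈ bpK3 Z Om ↔ ∃ q', Sum.elim q q' ∈ bpK2 Z Om := by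
  rw [← bp_proj _ (Or.inl rfl)]
  exact ⟨fun ⟨Q, hQ, e⟩ => ⟨Q ∘ Sum.inr, e ▸ (Sum.elim_comp_inl_inr Q).symm ▸ hQ⟩,
    fun ⟨_, hQ⟩ => ⟨_, hQ, rfl⟩⟩

theorem bp_pr (q : ι → P τ) : q ∈ bpK3 Z Om ↔ ∃ q', Sum.elim q' q ∈ bpK2 Z Om := by
  rw [← bp_proj _ (Or.inr rfl)]
  exact ⟨fun ⟨Q, hQ, e⟩ => ⟨Q ∘ Sum.inl, e ▸ (Sum.elim_comp_inl_inr Q).symm ▸ hQ⟩,
    fun ⟨_, hQ⟩ => ⟨_, hQ, rfl⟩⟩

theorem bp_ev (z : τ → ℂ) (q q' : ι → P τ) :
    ev z (Sum.elim q q') = Sum.elim (ev z q) (ev z q') := by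
  ext (s | s) <;> rfl

theorem bp_ev0 (z : τ → ℂ) : ev z (0 : ι → P τ) = 0 := map_zero (evL ι z)

theorem BP.left (h : BP Z Om R L g κ) {z : τ → ℂ} (hz : z ∈ Z) (h0 : z ≠ 0) :
    (fb (bpK2 Z Om) z).comap (bpI ι) = L := by
  refine le_antisymm (fun α hα => ?_) fun α hα => ?_
  · by_contra hn
    obtain ⟨a, b, ha, hb⟩ := h.free z hz h0 α hn
    have h1 : Sum.elim α 0 ∈ fb (bpK2 Z Om) z := hα
    rw [bpK2, fb_span_sup hz] at h1
    have h2 := span_dot (v := Sum.elim a b).2 ?_ _ h1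
    · exact ha (by simpa only [dotProduct, Fintype.sum_sum_type, Sum.elim_inl, Sum.elim_inr, Pi.zero_apply, zero_mul, Finset.sum_const_zero, add_zero] using h2)
    rintro _ ⟨_, ⟨G, rfl | ⟨j, rfl⟩⟩, rfl⟩
    · rw [gc1_ev, gc1_ev0, add_zero]
      exact (hb G).1
    · rw [gc1_ev]
      exact (hb G).2 j
  · obtain ⟨G, rfl⟩ := (h.L0 α).1 hα
    exact ⟨_, (bp_gen G).1, by rw [evL_apply, bp_ev, bp_ev0, h.ev0]; rfl⟩

theorem BP.rkF (h : BP Z Om R L g κ) {z : τ → ℂ} (hz : z ∈ Z) (h0 : z ≠ 0) :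
    finrank ℂ (bpF Z Om z) = g := by
  have hm : ∀ e : ι → ι ⊕ ι, e = Sum.inl ∨ e = Sum.inr →
      (fb (bpK2 Z Om) z).map (LinearMap.funLeft ℂ ℂ e) = bpW Om z := fun e he => by
    rw [← bp_fb3 hz, ← bp_proj e he]
    refine le_antisymm ?_ ?_
    · rintro _ ⟨_, ⟨q, hq, rfl⟩, rfl⟩
      exact ⟨_, ⟨q, hq, rfl⟩, rfl⟩
    · rintro _ ⟨_, ⟨q, hq, rfl⟩, rfl⟩
      exact ⟨_, ⟨q, hq, rfl⟩, rfl⟩
  have h1 := bp_rank (fb (bpK2 Z Om) z) (LinearMap.funLeft ℂ ℂ Sum.inl) (bpJ ι)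
    (fun a b e => _root_.funext fun s => congrFun e (Sum.inr s)) (congrArg _ (le_antisymm
      (fun v hv => ⟨v ∘ Sum.inr, by
        ext (s | s)
        exacts [(congrFun hv s).symm, rfl]⟩) (by rintro _ ⟨a, rfl⟩; rfl)))
  have h2 := bp_rank (fb (bpK2 Z Om) z) (LinearMap.funLeft ℂ ℂ Sum.inr) (bpI ι)
    (fun a b e => _root_.funext fun s => congrFun e (Sum.inl s)) (congrArg _ (le_antisymm
      (fun v hv => ⟨v ∘ Sum.inl, by
        ext (s | s)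
        exacts [rfl, (congrFun hv s).symm]⟩) (by rintro _ ⟨a, rfl⟩; rfl)))
  rw [hm _ (Or.inl rfl)] at h1
  rw [hm _ (Or.inr rfl), h.left hz h0, h.rkL] at h2
  rw [bpF]
  omega

theorem BP.hom2 (h : BP Z Om R L g κ) :
    HomM (w0 τ) (Sum.elim (fun _ => 0) fun _ => (1, 0)) (bpK2 Z Om) := by
  refine (homM_span ?_).sup (homM_pw h.cn.homI)
  rintro _ ⟨G, rfl | ⟨j, rfl⟩⟩
  · refine ⟨(((0 : ℕ) : ℤ), 0), fun i => ?_⟩
    rcases i with i | i
    exacts [bp_isH h.hom 0 G i, isWeightedHomogeneous_zero _ _ _]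
  · refine ⟨(((j + 1 : ℕ) : ℤ), 0), fun i => ?_⟩
    rcases i with i | i
    · exact bp_isH h.hom (j + 1) G i
    · have := bp_isH h.hom j G i
      simpa using this

theorem bp_pw {q : ι → P τ} (hq : q ∈ pw ι (vI Z)) : Sum.elim q 0 ∈ bpK2 Z Om :=
  Submodule.mem_sup_right (mem_pw.2 fun i => by
    rcases i with i | i
    exacts [mem_pw.1 hq i, zero_mem _])

theorem BP.fb1 (h : BP Z Om R L g κ) {z : τ → ℂ} (hz : z ∈ Z) (h0 : z ≠ 0) :
    fb ((bpK2 Z Om).comap (hc1_inr τ ι)) z = bpF Z Om z := by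
  refine le_antisymm ?_ fun β hβ => ?_
  · rintro _ ⟨q, hq, rfl⟩
    exact ⟨_, hq, by
      change ev z (Sum.elim (0 : ι → P τ) q) = Sum.elim (0 : ι → ℂ) (ev z q)
      rw [bp_ev, bp_ev0]⟩
  obtain ⟨Q, hQ, e⟩ := mem_fb.1 hβ
  obtain ⟨q, q', rfl⟩ : ∃ q q' : ι → P τ, Q = Sum.elim q q' :=
    ⟨_, _, (Sum.elim_comp_inl_inr Q).symm⟩
  obtain ⟨D, s, B, Δ, l, h1, h2, h3, -⟩ := frame h.cn (bp_vb3 h.cn h.hom h.rkW) hz h0
  choose s' hs' using fun i => (bp_pl (s i)).1 (h1 i).1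
  have h3' := h3 q ((bp_pl q).2 ⟨q', hQ⟩)
  have e1 : ev z q = 0 := _root_.funext fun i => congrFun e (Sum.inl i)
  have e2 : ev z q' = β := _root_.funext fun i => congrFun e (Sum.inr i)
  have e3 : ∀ i, eval z (B.mulVec q i) = 0 := fun i => by
    have := congrFun (ev_mulVec z B q) i
    rwa [e1, Matrix.mulVec_zero] at this
  generalize B.mulVec q = c at h3' e3
  rw [← Submodule.smul_mem_iff _ h2]
  refine mem_fb.2 ⟨Δ • q' - ∑ i, c i • s' i, ?_, ?_⟩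
  · have h5 := (bpK2 Z Om).add_mem (bp_pw h3') ((bpK2 Z Om).sub_mem ((bpK2 Z Om).smul_mem Δ hQ)
      ((bpK2 Z Om).sum_mem fun i (_ : i ∈ Finset.univ) => (bpK2 Z Om).smul_mem (c i) (hs' i)))
    rw [Submodule.mem_comap]
    convert h5 using 1
    ext (i | i) : 1 <;> simp only [hc1_inr, LinearMap.coe_mk, AddHom.coe_mk, Sum.elim_inl, Pi.zero_apply, Pi.add_apply, Pi.sub_apply, Finset.sum_apply, Pi.smul_apply, smul_eq_mul, sub_add_sub_cancel, sub_self, Sum.elim_inr, zero_add]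
  · rw [← evL_apply, map_sub, map_sum]
    simp only [evL_apply, ev_smul, e2, e3, zero_smul, Finset.sum_const_zero, sub_zero]

theorem BP.vb1 (h : BP Z Om R L g κ) : VB Z ((bpK2 Z Om).comap (hc1_inr τ ι)) g := by
  refine ⟨h.hom2.comap (e := (1, 0)) fun e q hq i => ?_, fun q hq => Submodule.mem_sup_right
    (mem_pw.2 fun i => ?_), fun z hz h0 => by rw [h.fb1 hz h0, h.rkF hz h0]⟩
  · rcases i with i | i
    · exact isWeightedHomogeneous_zero _ _ _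
    · simpa [hc1_inr] using hq i
  · rcases i with i | i
    exacts [zero_mem _, mem_pw.1 hq i]

theorem BP.c1 (h : BP Z Om R L g κ) (h2 : 2 ≤ dm (vI Z)) : C1 Z (bpF Z Om) g κ := by
  refine c1_of (K2 := bpK2 Z Om) h.cn h2 h.vb1 (fun z hz h0 => h.fb1 hz h0)
    (bp_vb3 h.cn h.hom h.rkW) h.rkL h.hom2 le_sup_right bp_pl bp_pr (fun q hq z hz h0 => ?_)
    (fun α hα => ?_) (fun q hq z hz h0 => ?_) fun q hq => hq
  · rw [← h.left hz h0]
    exact ⟨_, hq, by rw [evL_apply, bp_ev, bp_ev0]; rfl⟩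
  · obtain ⟨G, rfl⟩ := (h.L0 α).1 hα
    rw [← h.const]
    exact (bp_gen G).1
  · exact ⟨_, hq, by rw [evL_apply, bp_ev, bp_ev0]; rfl⟩

section raise

/-- the constant terms are independent -/
def bpBas (Om : ℕ → 𝒢 →ₗ[ℂ] (ι → P τ)) {g : ℕ} (G : Fin g → 𝒢) : Prop :=
  LinearIndependent ℂ fun i => ev 0 (Om 0 (G i))

def bpInd (Z : Set (τ → ℂ)) (Γ : ℕ → 𝒢 →ₗ[ℂ] (ι' → P τ)) {g : ℕ} (b : Fin g → ℕ)
    (G : Fin g → 𝒢) : Prop :=
  ∀ z ∈ Z, z ≠ 0 → LinearIndependent ℂ fun m : MuT b => ev z (Γ (m.2 + 1) (G m.1))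

def bpMax (Z : Set (τ → ℂ)) (Γ : ℕ → 𝒢 →ₗ[ℂ] (ι' → P τ)) {g : ℕ} (b : Fin g → ℕ)
    (G : Fin g → 𝒢) (β : ℕ) : Prop :=
  ∀ l : Fin g → ℂ, (∀ i, b i ≠ β + 1 → l i = 0) → ∃ z ∈ Z, z ≠ 0 ∧
    ∑ i, l i • ev z (Γ (β + 1) (G i)) ∈
      Submodule.span ℂ (Set.range fun m : MuT b => ev z (Γ (m.2 + 1) (G m.1)))

theorem bp_lin {κ : Type} [Fintype κ] (A : 𝒢 →ₗ[ℂ] (ι → P τ)) (z : τ → ℂ) (l : κ → ℂ)
    (G : κ → 𝒢) : ev z (A (∑ i, l i • G i)) = ∑ i, l i • ev z (A (G i)) := by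
  simp only [← evL_apply, map_sum, map_smul]

theorem bp_raise {Γ : ℕ → 𝒢 →ₗ[ℂ] (ι' → P τ)} (hne : ∃ z ∈ Z, z ≠ 0) (β N : ℕ) :
    ∀ (b : Fin g → ℕ) (G : Fin g → 𝒢), (Finset.univ.filter fun i => b i = β + 1).card < N →
    bpBas Om G → bpInd Z Γ b G → ∃ (b' : Fin g → ℕ) (G' : Fin g → 𝒢), bpBas Om G' ∧
      (∀ i, b i ≠ β + 1 → b' i = b i) ∧ (∀ i, b i = β + 1 → b' i = β + 1 ∨ b' i = β + 1 + 1) ∧
      bpInd Z Γ b' G' ∧ bpMax Z Γ b' G' β := by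
  induction N with
  | zero => exact fun _ _ h => absurd h (Nat.not_lt_zero _)
  | succ N ih =>
    intro b G hN hG hI
    by_cases hm : bpMax Z Γ b G β
    · exact ⟨b, G, hG, fun _ _ => rfl, fun _ h => Or.inl h, hI, hm⟩
    simp only [bpMax, not_forall, not_exists, not_and] at hm
    obtain ⟨l, hl, hT⟩ := hm
    obtain ⟨i₀, h0⟩ : ∃ i, l i ≠ 0 := by_contra fun h => by
      obtain ⟨z, hz, hz0⟩ := hne
      simp only [not_exists, not_not] at h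
      exact hT z hz hz0 (by simp only [h, zero_smul, Finset.sum_const_zero, zero_mem])
    have hb : b i₀ = β + 1 := by_contra fun h => h0 (hl _ h)
    obtain ⟨b', G', h1, h2, h3, h4⟩ := ih (Function.update b i₀ (β + 1 + 1))
      (Function.update G i₀ (∑ i, l i • G i)) (Nat.lt_of_lt_of_le (Finset.card_lt_card ⟨fun i hi => by
        by_cases h : i = i₀
        · simp only [h, Finset.mem_filter, Finset.mem_univ, Function.update_self, Nat.add_eq_left, one_ne_zero, and_false] at hi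
        · simpa only [Finset.mem_filter, Finset.mem_univ, true_and, Function.update_of_ne h] using hi, fun h => by
        simpa only [Finset.mem_filter, Finset.mem_univ, Function.update_self, Nat.add_eq_left, one_ne_zero, and_false] using h (show i₀ ∈ _ by simp only [Finset.mem_filter, Finset.mem_univ, hb, Nat.add_left_cancel_iff, and_self])⟩) (Nat.lt_succ_iff.1 hN))
      (by
        have e := graise_upd hG l h0
        rw [← bp_lin] at e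
        exact ((Function.comp_update (fun g => ev 0 (Om 0 g)) G i₀ _).symm ▸ e :))
      fun z hz hz0 => by
        have e := graise_step (w := fun i j => ev z (Γ (j + 1) (G i))) hl h0 (hI z hz hz0)
          (hT z hz hz0)
        have e' := Function.comp_update (fun g j => ev z (Γ (j + 1) g)) G i₀ (∑ i, l i • G i)
        simp only [bp_lin] at e'
        exact (e'.symm ▸ e :)
    refine ⟨b', G', h1, fun i hi => ?_, fun i hi => ?_, h4⟩
    · have h : i ≠ i₀ := fun h => hi (h ▸ hb)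
      simpa [Function.update_of_ne h] using h2 i (by rwa [Function.update_of_ne h])
    · by_cases h : i = i₀
      · exact Or.inr (by simpa [h] using h2 i (by simp [h]))
      · exact h3 i (by rwa [Function.update_of_ne h])

/-- the universal combination of the coefficients of orders `β + e` and `m + e` -/
noncomputable def bpU (A : ℕ → 𝒢 →ₗ[ℂ] (ι → P τ)) {g : ℕ} (b : Fin g → ℕ) (G : Fin g → 𝒢)
    (β e : ℕ) : ι → P (τ ⊕ (LaT b (β + 1) ⊕ MuT b)) := fun s =>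
  ∑ l : LaT b (β + 1), X (Sum.inr (Sum.inl l)) * rename Sum.inl (A (β + e) (G l) s) +
    ∑ m : MuT b, X (Sum.inr (Sum.inr m)) * rename Sum.inl (A (m.2 + e) (G m.1) s)

variable {b : Fin g → ℕ} {G : Fin g → 𝒢} {β : ℕ}

theorem bp_deg0 {η : Type} [Fintype η] (γ : η → ℕ) (l : η) {f : P τ} {d e : ℕ}
    (hf : f.IsHomogeneous d) (h : γ l + d = e) :
    (X (Sum.inr l) * rename Sum.inl f : P (τ ⊕ η)).IsWeightedHomogeneous (wt γ)
      ((e : ℤ), 1) := by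
  have h1 : (rename Sum.inl f : P (τ ⊕ η)).IsWeightedHomogeneous (wt γ) ((d : ℤ), 0) :=
    isWH_rename Sum.inl (isWH_w0.2 hf)
  have h2 := (isWeightedHomogeneous_X ℂ (wt (τ := τ) γ) (Sum.inr l)).mul h1
  have h3 : wt (τ := τ) γ (Sum.inr l) + ((d : ℤ), 0) = ((e : ℤ), 1) := by
    rw [← h]
    simp [wt]
  rwa [h3] at h2

theorem bp_deg {A : ℕ → 𝒢 →ₗ[ℂ] (ι → P τ)} (hA : ∀ j G s, (A j G s).IsHomogeneous j)
    (hb : ∀ i, b i ≤ β + 2) (e : ℕ) (s : ι) :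
    (bpU A b G β e s).IsWeightedHomogeneous (wt (Sum.elim (fun _ => 0) (rg b (β + 1))))
      (((β + e : ℕ) : ℤ), 1) := by
  refine IsWeightedHomogeneous.add (IsWeightedHomogeneous.sum _ _ _ fun l _ => ?_)
    (IsWeightedHomogeneous.sum _ _ _ fun m _ => ?_)
  · exact bp_deg0 _ _ (hA _ _ _) (by simp)
  · refine bp_deg0 _ _ (hA _ _ _) ?_
    have h1 := m.2.2
    have h2 := hb m.1
    simp only [Sum.elim_inr, rg]
    omega

theorem bp_evU (A : ℕ → 𝒢 →ₗ[ℂ] (ι → P τ)) (e : ℕ) (y : τ ⊕ (LaT b (β + 1) ⊕ MuT b) → ℂ) :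
    ev y (bpU A b G β e) =
      ∑ l : LaT b (β + 1), y (Sum.inr (Sum.inl l)) • ev (y ∘ Sum.inl) (A (β + e) (G l)) +
      ∑ m : MuT b, y (Sum.inr (Sum.inr m)) • ev (y ∘ Sum.inl) (A (m.2 + e) (G m.1)) := by
  ext a
  simp only [ev, bpU, map_add, map_sum, map_mul, eval_X, eval_rename, Pi.add_apply,
    Finset.sum_apply, Pi.smul_apply, smul_eq_mul]

theorem bp_evR (e : ℕ) (y : τ ⊕ (LaT b (β + 1) ⊕ MuT b) → ℂ) :
    ev y (bpU (bpG R Om) b G β e) = R (ev y (bpU Om b G β e)) := by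
  simp only [bp_evU, bp_evG, map_add, map_sum, map_smul]

theorem bp_memU (A : ℕ → 𝒢 →ₗ[ℂ] (ι → P τ)) (e : ℕ) (y : τ ⊕ (LaT b (β + 1) ⊕ MuT b) → ℂ) :
    ev y (bpU A b G β e) ∈ bpW A (y ∘ Sum.inl) := by
  rw [bp_evU]
  refine Submodule.add_mem _ (Submodule.sum_mem _ fun l _ => ?_)
      (Submodule.sum_mem _ fun l _ => ?_) <;>
    exact Submodule.smul_mem _ _ (bp_mem _ _ _)

theorem BP.psi_mem (h : BP Z Om R L g κ) {y : τ ⊕ (LaT b (β + 1) ⊕ MuT b) → ℂ}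
    (hz : y ∘ Sum.inl ∈ Z) (h0 : y ∘ Sum.inl ≠ 0) (hv : ev y (bpU (bpG R Om) b G β 1) = 0) :
    ev y (bpU Om b G β 0) ∈ bpF Z Om (y ∘ Sum.inl) := by
  have h1 : bpI ι (ev y (bpU Om b G β 1)) ∈ fb (bpK2 Z Om) (y ∘ Sum.inl) := by
    rw [← Submodule.mem_comap, h.left hz h0]
    exact h.ker _ hz h0 _ (bp_memU _ _ _) (by rw [← bp_evR, hv])
  have gen : ∀ G j, bpI ι (ev (y ∘ Sum.inl) (Om (j + 1) G)) +
      bpJ ι (ev (y ∘ Sum.inl) (Om (j + 0) G)) ∈ fb (bpK2 Z Om) (y ∘ Sum.inl) := fun G j =>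
    ⟨_, (bp_gen G).2 j, by
      rw [evL_apply, bp_ev]
      ext (s | s) <;> simp [bpI, bpJ]⟩
  have h2 : bpI ι (ev y (bpU Om b G β 1)) + bpJ ι (ev y (bpU Om b G β 0)) ∈
      fb (bpK2 Z Om) (y ∘ Sum.inl) := by
    simp only [bp_evU, map_add, map_sum, map_smul]
    rw [add_add_add_comm, ← Finset.sum_add_distrib, ← Finset.sum_add_distrib]
    simp only [← smul_add]
    refine Submodule.add_mem _ (Submodule.sum_mem _ fun l _ => ?_)
      (Submodule.sum_mem _ fun l _ => ?_) <;>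
      exact Submodule.smul_mem _ _ (gen _ _)
  exact (Submodule.add_mem_iff_right _ h1).1 h2

theorem BP.psi_ne (h : BP Z Om R L g κ) (hβ : 1 ≤ β) (hG : bpBas Om G)
    (hI' : bpInd Z (bpG R Om) b G) {y : τ ⊕ (LaT b (β + 1) ⊕ MuT b) → ℂ}
    (hz : y ∘ Sum.inl ∈ Z) (h0 : y ∘ Sum.inl ≠ 0) (h1 : y ∘ Sum.inr ≠ 0) :
    ev y (bpU Om b G β 0) ≠ 0 := by
  intro hv
  have h2 := bp_evR (R := R) (Om := Om) (G := G) 0 y
  rw [hv, map_zero, bp_evU] at h2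
  rw [bp_evU] at hv
  let ι : LaT b (β + 1) ⊕ {m : MuT b // 1 ≤ (m.2 : ℕ)} → MuT b :=
    Sum.elim (fun l => ⟨l.1, ⟨β - 1, by have := l.2; omega⟩⟩)
      fun m => ⟨m.1.1, ⟨m.1.2 - 1, by have := m.1.2.2; omega⟩⟩
  have hι : Function.Injective ι := by
    have ext : ∀ {m m' : MuT b}, m.1 = m'.1 → (m.2 : ℕ) = m'.2 → m = m' := fun h1 h2 =>
      groot1_ext h1 h2
    rintro (l | m) (l' | m') e
    all_goals
      have e1 := congrArg (fun m : MuT b => m.1) e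
      have e2 := congrArg (fun m : MuT b => (m.2 : ℕ)) e
      simp only [ι, Sum.elim_inl, Sum.elim_inr] at e1 e2
    · exact congrArg _ (Subtype.ext e1)
    · have h3 := m'.1.2.2
      have h4 := l.2
      have h5 := m'.2
      rw [e1] at h4
      omega
    · have h3 := m.1.2.2
      have h4 := l'.2
      have h5 := m.2
      rw [← e1] at h4
      omega
    · have h3 := m.2
      have h4 := m'.2
      exact congrArg _ (Subtype.ext (ext e1 (by omega)))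
  have h3 := Fintype.linearIndependent_iff.1 ((hI' _ hz h0).comp ι hι)
    (Sum.elim (fun l => y (Sum.inr (Sum.inl l))) fun m => y (Sum.inr (Sum.inr m.1))) (by
      rw [← h2, Fintype.sum_sum_type, ← Finset.sum_filter_of_ne
        (p := fun m : MuT b => 1 ≤ (m.2 : ℕ)) (s := Finset.univ),
        Finset.sum_subtype (p := fun m : MuT b => 1 ≤ (m.2 : ℕ)) _ (by simp only [Finset.mem_filter, Finset.mem_univ, true_and, implies_true])]
      · refine congrArg₂ (· + ·) (Finset.sum_congr rfl fun l _ => ?_)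
          (Finset.sum_congr rfl fun m _ => ?_)
        · have h3 : β - 1 + 1 = β + 0 := by omega
          simp only [h3, ι, Sum.elim_inl, Function.comp_apply]
        · have h3 : (m.1.2 : ℕ) - 1 + 1 = m.1.2 + 0 := by have := m.2; omega
          simp only [h3, ι, Sum.elim_inr, Function.comp_apply]
      · intro m _ hm
        by_contra h3
        have h4 : (m.2 : ℕ) + 0 = 0 := by omega
        rw [h4, bp_evG, h.ev0, h.RL _ ((h.L0 _).2 ⟨_, rfl⟩), smul_zero] at hm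
        exact hm rfl)
  have h4 : ∀ l : LaT b (β + 1), y (Sum.inr (Sum.inl l)) = 0 := fun l => h3 (Sum.inl l)
  have h5 : ∀ m : MuT b, 1 ≤ (m.2 : ℕ) → y (Sum.inr (Sum.inr m)) = 0 := fun m hm =>
    h3 (Sum.inr ⟨m, hm⟩)
  have h6 := Fintype.linearIndependent_iff.1 hG
    (fun i => ∑ j : Fin (b i - 1), y (Sum.inr (Sum.inr ⟨i, j⟩))) (by
      rw [← hv, Fintype.sum_sigma]
      simp only [h4, zero_smul, Finset.sum_const_zero, zero_add, Finset.sum_smul]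
      refine Finset.sum_congr rfl fun i _ => Finset.sum_congr rfl fun j _ => ?_
      by_cases hj : 1 ≤ (j : ℕ)
      · rw [h5 ⟨i, j⟩ hj, zero_smul, zero_smul]
      · have h6 : (j : ℕ) + 0 = 0 := by omega
        rw [h6, h.ev0 (y ∘ Sum.inl)])
  refine h1 (funext ?_)
  rintro (l | ⟨i, j⟩)
  · exact h4 l
  · by_cases hj : 1 ≤ (j : ℕ)
    · exact h5 ⟨i, j⟩ hj
    · have h7 := h6 i
      rw [Finset.sum_eq_single j (fun j' _ hj' => h5 ⟨i, j'⟩ (by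
        by_contra h8
        exact hj' (Fin.ext (by simp only at h8; omega)))) (by simp only [Finset.mem_univ, not_true_eq_false, IsEmpty.forall_iff])] at h7
      exact h7

theorem bp_elim {Γ : ℕ → 𝒢 →ₗ[ℂ] (ι' → P τ)} (hZ : Cn Z) (hI' : bpInd Z Γ b G)
    {𝔭 : Ideal (P (τ ⊕ (LaT b (β + 1) ⊕ MuT b)))}
    (h1 : ∀ f ∈ vI Z, rename Sum.inl f ∈ 𝔭) (h2 : ∀ a, bpU Γ b G β 1 a ∈ 𝔭) :
    ∃ N : ℕ, ∀ j μ, ∃ f : P (τ ⊕ LaT b (β + 1)),
      X (Sum.inl j) ^ N * X (Sum.inr (Sum.inr μ)) - rename (Sum.map id Sum.inl) f ∈ 𝔭 := by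
  classical
  obtain ⟨N, B, hB⟩ := linv hZ (fun m : MuT b => Γ (m.2 + 1) (G m.1)) hI'
  refine ⟨N, fun j μ => ⟨-∑ l : LaT b (β + 1), X (Sum.inr l) *
    rename Sum.inl (∑ a, B j μ a * Γ (β + 1) (G l) a), ?_⟩⟩
  have h3 := 𝔭.sub_mem (𝔭.sum_mem fun a (_ : a ∈ Finset.univ) =>
    𝔭.mul_mem_left (rename Sum.inl (B j μ a)) (h2 a))
    (𝔭.sum_mem fun m (_ : m ∈ Finset.univ) =>
      𝔭.mul_mem_left (X (Sum.inr (Sum.inr m))) (h1 _ (hB j μ m)))
  convert h3 using 1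
  have h4 : ∀ f : P τ, rename (Sum.map id Sum.inl : τ ⊕ LaT b (β + 1) →
      τ ⊕ (LaT b (β + 1) ⊕ MuT b)) (rename Sum.inl f) = rename Sum.inl f := fun f => by
    rw [rename_rename]
    rfl
  simp only [bpU, map_neg, map_sum, map_mul, map_sub, rename_X, h4, Sum.map_inr, mul_add, mul_sub,
    Finset.mul_sum, Finset.sum_add_distrib, Finset.sum_sub_distrib, apply_ite (rename Sum.inl),
    map_pow, map_zero, mul_ite, mul_zero, Finset.sum_ite_eq, Finset.mem_univ, if_true]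
  rw [Finset.sum_comm (s := Finset.univ (α := ι')), Finset.sum_comm (s := Finset.univ (α := ι'))]
  simp only [mul_left_comm (X _ : P (τ ⊕ (LaT b (β + 1) ⊕ MuT b)))]
  ring

theorem bp_pt {Γ : ℕ → 𝒢 →ₗ[ℂ] (ι' → P τ)} (hm : bpMax Z Γ b G β) (a : LaT b (β + 1) → ℂ) :
    ∃ z ∈ Z, z ≠ 0 ∧ ∃ μ : MuT b → ℂ, ev (Sum.elim z (Sum.elim a μ)) (bpU Γ b G β 1) = 0 := by
  obtain ⟨z, hz, h0, hs⟩ := hm (fun i => if e : b i = β + 1 then a ⟨i, e⟩ else 0)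
    fun i hi => dif_neg hi
  obtain ⟨μ, hμ⟩ := (Submodule.mem_span_range_iff_exists_fun ℂ).1 hs
  refine ⟨z, hz, h0, -μ, ?_⟩
  rw [← Fintype.sum_subtype_add_sum_subtype (fun i => b i = β + 1),
    Finset.sum_eq_zero (s := Finset.univ (α := {i // ¬ b i = β + 1}))
      fun i _ => by rw [dif_neg i.2, zero_smul], add_zero,
    Finset.sum_congr (s₁ := Finset.univ (α := LaT b (β + 1))) rfl
      fun i _ => by rw [dif_pos i.2]] at hμ
  simp only [bp_evU, Sum.elim_inr, Sum.elim_inl, Sum.elim_comp_inl, Pi.neg_apply, neg_smul,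
    Finset.sum_neg_distrib, hμ, add_neg_cancel]

theorem BP.root (h : BP Z Om R L g κ) {k : ℕ} (hk : dm (vI Z) + k = Fintype.card τ) (hβ : 1 ≤ β)
    (hG : bpBas Om G) (hb : ∀ i, 2 ≤ b i ∧ b i ≤ β + 2) (hI' : bpInd Z (bpG R Om) b G)
    (hm : bpMax Z (bpG R Om) b G β) :
    HasRoot Z (bpF Z Om) k g β (Fintype.card (LaT b (β + 1))) := by
  have hZ := h.cn
  have hb' : ∀ i, b i ≤ β + 2 := fun i => (hb i).2
  have hq := ext_prime (LaT b (β + 1) ⊕ MuT b) hZ.prime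
  have hd := ext_dm (LaT b (β + 1) ⊕ MuT b) hZ.prime
  have hh : HomI (wt (Sum.elim (fun _ => 0) (rg b (β + 1)))) ((vI Z).map
      (rename Sum.inl : P τ →ₐ[ℂ] P (τ ⊕ (LaT b (β + 1) ⊕ MuT b)))) :=
    homI_map_rename _ hZ.homI
  have hr : ∀ f ∈ vI Z, rename Sum.inl f ∈ (vI Z).map
      (rename Sum.inl : P τ →ₐ[ℂ] P (τ ⊕ (LaT b (β + 1) ⊕ MuT b))) :=
    fun f hf => Ideal.mem_map_of_mem _ hf
  have ho : ∀ y, y ∈ vZ ((vI Z).map
      (rename Sum.inl : P τ →ₐ[ℂ] P (τ ⊕ (LaT b (β + 1) ⊕ MuT b)))) ↔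
      y ∘ Sum.inl ∈ Z := fun y => by rw [mem_vZ_ext, hZ.closed]
  generalize (vI Z).map
    (rename Sum.inl : P τ →ₐ[ℂ] P (τ ⊕ (LaT b (β + 1) ⊕ MuT b))) = 𝔮 at hq hd hh hr ho
  obtain ⟨𝔭, hp, hc, u, ⟨j, rfl⟩, hj⟩ := pick
    (𝔞 := 𝔮 ⊔ Ideal.span (Set.range (bpU (bpG R Om) b G β 1)))
    (Sum.inr ∘ Sum.inl) Ideal.isPrime_bot (Set.range fun j => X (Sum.inl j)) (by
      intro f hf
      obtain ⟨a, ha⟩ : ∃ a, eval a f ≠ 0 := by
        by_contra! hn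
        exact hf (MvPolynomial.funext fun a => by simpa using hn a)
      obtain ⟨z, hz, h0, μ, e⟩ := bp_pt hm a
      obtain ⟨j, hj⟩ := Function.ne_iff.1 h0
      refine ⟨Sum.elim z (Sum.elim a μ), mem_vZ_sup.2 ⟨(ho _).2 hz, mem_vZ_span.2 ?_⟩, ha,
        _, ⟨j, rfl⟩, by simpa using hj⟩
      rintro _ ⟨i, rfl⟩
      exact congrFun e i)
  have l1 : 𝔮 ≤ 𝔭 := le_sup_left.trans hp.1.2
  have l2 : ∀ a, bpU (bpG R Om) b G β 1 a ∈ 𝔭 := fun a =>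
    hp.1.2 (Ideal.mem_sup_right (Ideal.subset_span ⟨a, rfl⟩))
  have ovr : ∀ y ∈ vZ 𝔭, y ∘ Sum.inl ∈ Z := fun y hy =>
    (ho y).1 (mem_vZ.2 fun f hf => mem_vZ.1 hy f (l1 hf))
  have hc' := cutk hZ h.algR Sum.inl hq (fun y => (ho y).1) (bpU (bpG R Om) b G β 1)
    (fun y _ _ => bp_memU _ _ _) hp ⟨j, hj⟩
  have hM : Fintype.card (Fin g) ≤ Fintype.card (MuT b) :=
    Fintype.card_le_of_surjective Sigma.fst fun i => ⟨⟨i, 0, by have := (hb i).1; omega⟩, rfl⟩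
  refine ⟨LaT b (β + 1), MuT b, inferInstance, inferInstance, rg b (β + 1), 𝔭, bpU Om b G β 0,
    rfl, hp.1.1, hmin (hh.sup (homI_span ?_)) hp, ovr, ⟨j, hj⟩,
    bp_elim hZ hI' (fun f hf => l1 (hr f hf)) l2, bp_deg h.hom hb' 0,
    fun y hy h0 => h.psi_mem (ovr y hy) h0 (ev_pw hy (mem_pw.2 l2)),
    fun y hy => h.psi_ne hβ hG hI' (ovr y hy), (indep_iff_comap _).2 hc, ?_⟩
  · rintro _ ⟨a, rfl⟩
    exact ⟨_, bp_deg h.homG hb' 1 a⟩
  · have := h.dim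
    rw [Fintype.card_sum] at hd
    rw [Fintype.card_fin] at hM
    omega

theorem BP.card_le (h : BP Z Om R L g κ) (hI' : bpInd Z (bpG R Om) b G) :
    ∑ i, (b i - 1) ≤ κ := by
  obtain ⟨z, hz, h0⟩ := h.cn.ne
  obtain ⟨K, hK, e⟩ := h.algR
  have hl' : LinearIndependent ℂ fun m : MuT b =>
      (⟨ev z (bpG R Om (m.2 + 1) (G m.1)), bp_mem _ _ _⟩ : bpW (bpG R Om) z) :=
    LinearIndependent.of_comp (bpW (bpG R Om) z).subtype (hI' z hz h0)
  have := hl'.fintype_card_le_finrank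
  rwa [gind_card, ← e z hz h0, hK.rk z hz h0] at this

theorem BP.base (h : BP Z Om R L g κ) :
    ∃ G : Fin g → 𝒢, bpBas Om G ∧ bpInd Z (bpG R Om) (fun _ => 2) G := by
  let B := Module.finBasisOfFinrankEq ℂ L h.rkL
  choose G hG using fun i => (h.L0 (B i)).1 (B i).2
  have hB : bpBas Om G := by
    rw [bpBas, funext hG]
    exact B.linearIndependent.map' L.subtype L.ker_subtype
  refine ⟨G, hB, fun z hz h0 => ?_⟩
  rw [Fintype.linearIndependent_iff]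
  intro a ha
  have hm : ∀ m : MuT (fun _ : Fin g => 2), (m.2 : ℕ) = 0 := fun m => by
    have : (m.2 : ℕ) < 2 - 1 := m.2.2
    omega
  have hinj : Function.Injective fun m : MuT (fun _ : Fin g => 2) => m.1 := fun m m' e =>
    groot1_ext e ((hm m).trans (hm m').symm)
  refine Fintype.linearIndependent_iff.1 (hB.comp _ hinj) a ?_
  by_contra hne
  refine h.nose (∑ m, a m • G m.1) (by rwa [bp_lin]) z hz h0 ?_
  rw [← bp_evG, bp_lin, ← ha]
  exact Finset.sum_congr rfl fun m _ => by rw [hm m]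

theorem BP.state (h : BP Z Om R L g κ) {k : ℕ} (hk : dm (vI Z) + k = Fintype.card τ) (β : ℕ)
    (hβ : 1 ≤ β) : ∃ (b : Fin g → ℕ) (G : Fin g → 𝒢), bpBas Om G ∧ (∀ i, 2 ≤ b i ∧ b i ≤ β + 1) ∧
      bpInd Z (bpG R Om) b G ∧ ∀ γ, γ < β →
        HasRoot Z (bpF Z Om) k g γ (Fintype.card (LaT b (γ + 1))) ∨
          Fintype.card (LaT b (γ + 1)) = 0 := by
  induction β, hβ using Nat.le_induction with
  | base =>
    obtain ⟨G, hG, hI'⟩ := h.base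
    refine ⟨fun _ => 2, G, hG, fun _ => ⟨le_rfl, le_rfl⟩, hI', fun γ hγ => ?_⟩
    refine Or.inr (Fintype.card_eq_zero_iff.2 ⟨fun i => ?_⟩)
    have := i.2
    simp only at this
    omega
  | succ β hβ ih =>
    obtain ⟨b, G, hG, hb, hI', hr⟩ := ih
    obtain ⟨b', G', hG', h1, h1', hI'', hm⟩ :=
      bp_raise h.cn.ne β _ b G (Nat.lt_succ_self _) hG hI'
    have hb' : ∀ i, 2 ≤ b' i ∧ b' i ≤ β + 2 := fun i => by
      have := hb i
      by_cases hi : b i = β + 1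
      · have := h1' i hi
        omega
      · have := h1 i hi
        omega
    refine ⟨b', G', hG', hb', hI'', fun γ hγ => ?_⟩
    by_cases he : γ = β
    · subst he
      exact Or.inl (h.root hk hβ hG' hb' hI'' hm)
    · have hc : Fintype.card (LaT b' (γ + 1)) = Fintype.card (LaT b (γ + 1)) := by
        refine Fintype.card_congr (Equiv.subtypeEquivRight fun i => ?_)
        by_cases hi : b i = β + 1
        · have := h1' i hi
          omega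
        · rw [h1 i hi]
      rw [hc]
      exact hr γ (by omega)

/-- the relative theorem -/
theorem thmBp (h : BP Z Om R L g κ) (hg : 0 < g) : ∃ (b : Fin g → ℕ) (G : Fin g → 𝒢),
    (∀ i, 2 ≤ b i) ∧ ∑ i, (b i - 1) = κ ∧ (LinearIndependent ℂ fun i => ev 0 (Om 0 (G i))) ∧
    ∀ z ∈ Z, z ≠ 0 → LinearIndependent ℂ fun m : MuT b => R (ev z (Om (m.2 + 1) (G m.1))) := by
  have hdm : dm (vI Z) ≤ Fintype.card τ := dm_le_card h.cn.prime
  obtain ⟨k, hk⟩ := Nat.exists_eq_add_of_le hdm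
  obtain ⟨b, G, hG, hb, hI', hr⟩ := h.state hk.symm (κ + 1) (by omega)
  refine ⟨b, G, fun i => (hb i).1, ?_, hG, fun z hz h0 => by simpa only [bp_evG] using hI' z hz h0⟩
  have hle := h.card_le hI'
  have hi : ∀ i, b i - 1 ≤ κ := fun i =>
    (Finset.single_le_sum (f := fun i => b i - 1) (fun _ _ => Nat.zero_le _)
      (Finset.mem_univ i)).trans hle
  have hk1 : 1 ≤ κ := by
    have := hi ⟨0, hg⟩
    have := (hb ⟨0, hg⟩).1
    omega
  refine key h.cn hk.symm ⟨_, h.vb1, fun z hz h0 => h.fb1 hz h0⟩ hg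
    (h.c1 (by have := h.dim; omega)) (fun i => b i - 1) fun β => ?_
  by_cases hβ : β < κ + 1
  · have he : Fintype.card {i // b i - 1 = β} = Fintype.card (LaT b (β + 1)) := by
      refine Fintype.card_congr (Equiv.subtypeEquivRight fun i => ?_)
      have := (hb i).1
      omega
    rw [he]
    exact hr β hβ
  · refine Or.inr (Fintype.card_eq_zero_iff.2 ⟨fun i => ?_⟩)
    have := i.2
    have := hi i.1
    omega

end raise

/-- coordinates on a subspace that contains a cone -/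
theorem bp_sub (hZ : Cn Z) (K' : Submodule ℂ (τ → ℂ)) (hK : ∀ z ∈ Z, z ∈ K') :
    ∃ j : (Fin (finrank ℂ K') → ℂ) →ₗ[ℂ] (τ → ℂ), Function.Injective j ∧
      (∀ z ∈ Z, ∃ u, j u = z) ∧ Cn (j ⁻¹' Z) ∧ dm (vI Z) ≤ dm (vI (j ⁻¹' Z)) := by
  let j := K'.subtype.comp (Module.finBasis ℂ K').equivFun.symm.toLinearMap
  have hj : Function.Injective j :=
    K'.injective_subtype.comp (Module.finBasis ℂ K').equivFun.symm.injective
  have hs : ∀ z ∈ Z, ∃ u, j u = z := fun z hz =>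
    ⟨(Module.finBasis ℂ K').equivFun ⟨z, hK z hz⟩, by simp only [j, Basis.equivFun_apply, LinearMap.coe_comp, Submodule.coe_subtype, LinearEquiv.coe_coe, Function.comp_apply, Basis.equivFun_symm_apply, Basis.sum_repr]⟩
  obtain ⟨l, hl⟩ := j.exists_leftInverse_of_injective (LinearMap.ker_eq_bot.2 hj)
  have hl' : ∀ u, l (j u) = u := fun u => LinearMap.congr_fun hl u
  have hI : vI (j ⁻¹' Z) = (vI Z).comap (pull l) := Ideal.ext fun f => by
    rw [Ideal.mem_comap, mem_van, mem_van]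
    refine ⟨fun h z hz => ?_, fun h u hu => ?_⟩
    · obtain ⟨u, rfl⟩ := hs z hz
      rw [eval_pull, hl']
      exact h u hz
    · rw [← hl' u, ← eval_pull]
      exact h _ hu
  have hp := hZ.prime
  have hp' : (vI (j ⁻¹' Z)).IsPrime := hI ▸ Ideal.comap_isPrime _ _
  refine ⟨j, hj, hs, ⟨Set.ext fun u => ⟨fun hu => ?_, fun hu => mem_vZ.2 fun f hf =>
    mem_van.1 hf u hu⟩, fun a u hu => ?_, hp', ?_⟩, ?_⟩
  · rw [Set.mem_preimage, ← hZ.closed]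
    refine mem_vZ.2 fun f hf => ?_
    rw [← eval_pull]
    exact mem_vZ.1 hu _ (mem_van.2 fun v hv => by rw [eval_pull]; exact mem_van.1 hf _ hv)
  · rw [Set.mem_preimage, map_smul]
    exact hZ.cone a _ hu
  · obtain ⟨z, hz, h0⟩ := hZ.ne
    obtain ⟨u, rfl⟩ := hs z hz
    exact ⟨u, hz, fun e => h0 (by rw [e, map_zero])⟩
  · rw [← Nat.cast_le (α := Cardinal), dm_cast, dm_cast]
    refine trdeg_le_of_surjective (Ideal.quotientMapₐ (vI Z) (pull l) hI.le) fun f => ?_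
    obtain ⟨f, rfl⟩ := Ideal.Quotient.mk_surjective f
    refine ⟨Ideal.Quotient.mk _ (pull j f), Ideal.Quotient.eq.2 (mem_van.2 fun z hz => ?_)⟩
    obtain ⟨u, rfl⟩ := hs z hz
    simp only [map_sub, RingHom.coe_coe, eval_pull, hl', sub_self]

/-- THM B' in the coordinates of `K`; `Z' ⊆ K'`. `M` is the space of equations of `C`,
`Om j G` is `om_j G` restricted to `Lam`, `R` the restriction to `φ K`. -/
theorem thmB' {τ σ ρ M : Type} [Fintype τ] [Fintype σ] [Fintype ρ] [AddCommGroup M] [Module ℂ M]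
    {g κ : ℕ} {Z : Set (τ → ℂ)} (hZ : Cn Z) (K' : Submodule ℂ (τ → ℂ)) (hK : ∀ z ∈ Z, z ∈ K')
    (hd : finrank ℂ K' + κ + 1 ≤ 2 * dm (vI Z)) (hg : 0 < g)
    (Om : ℕ → M →ₗ[ℂ] (σ → P τ)) (hh : ∀ j G s, (Om j G s).IsHomogeneous j)
    (R : (σ → ℂ) →ₗ[ℂ] (ρ → ℂ)) (L : Submodule ℂ (σ → ℂ)) (hL : finrank ℂ L = g)
    (hL0 : ∀ α, α ∈ L ↔ ∃ G, ev 0 (Om 0 G) = α)
    (hW : ∀ z ∈ Z, z ≠ 0 →
      finrank ℂ (Submodule.span ℂ {α | ∃ j G, ev z (Om j G) = α}) = g + κ)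
    (hR : ∀ z ∈ Z, z ≠ 0 → ∀ α ∈ Submodule.span ℂ {α | ∃ j G, ev z (Om j G) = α},
      R α = 0 ↔ α ∈ L)
    (hfree : ∀ z ∈ Z, z ≠ 0 → ∀ α, α ∉ L → ∃ a b : σ → ℂ, α ⬝ᵥ a ≠ 0 ∧ ∀ G,
      ev z (Om 0 G) ⬝ᵥ a = 0 ∧ ∀ j, ev z (Om (j + 1) G) ⬝ᵥ a + ev z (Om j G) ⬝ᵥ b = 0)
    (hnose : ∀ z ∈ Z, z ≠ 0 → ∀ G, ev 0 (Om 0 G) ≠ 0 → R (ev z (Om 1 G)) ≠ 0) :
    ∃ (b : Fin g → ℕ) (G : Fin g → M), (∀ i, 2 ≤ b i) ∧ ∑ i, (b i - 1) = κ ∧
      (LinearIndependent ℂ fun i => ev 0 (Om 0 (G i))) ∧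
      ∀ z ∈ Z, z ≠ 0 → LinearIndependent ℂ fun m : MuT b => R (ev z (Om (m.2 + 1) (G m.1))) := by
  obtain ⟨j, hj, hs, hc, hdm⟩ := bp_sub hZ K' hK
  let Om' : ℕ → M →ₗ[ℂ] (σ → P (Fin (finrank ℂ K'))) := fun i =>
    ((pull j).toLinearMap.compLeft σ).comp (Om i)
  have e : ∀ u i G, ev u (Om' i G) = ev (j u) (Om i G) := fun u i G =>
    _root_.funext fun s => eval_pull j u _
  have e0 : ∀ G, ev 0 (Om' 0 G) = ev 0 (Om 0 G) := fun G => by rw [e, map_zero]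
  have eW : ∀ u, bpW Om' u = Submodule.span ℂ {α | ∃ i G, ev (j u) (Om i G) = α} := fun u => by
    simp only [bpW, e]
    exact congrArg (Submodule.span ℂ) (Set.ext fun v => exists_comm)
  have n0 : ∀ u, u ≠ 0 → j u ≠ 0 := fun u hu h => hu (hj (h.trans (map_zero j).symm))
  have h : BP (j ⁻¹' Z) Om' R L g κ := by
    refine ⟨hc, fun i G s => pull_hom j (hh i G s), by simpa only [e0] using hL0, hL,
      fun u hu h0 => by rw [eW, hW _ hu (n0 u h0)], fun α hα => ?_,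
      fun u hu h0 α hα => (hR _ hu (n0 u h0) α (eW u ▸ hα)).1,
      fun u hu h0 => by simpa only [e] using hfree _ hu (n0 u h0),
      fun G hG u hu h0 => by rw [e]; exact hnose _ hu (n0 u h0) G (e0 G ▸ hG),
      by rw [Fintype.card_fin]; omega⟩
    obtain ⟨z, hz, h0⟩ := hZ.ne
    obtain ⟨G, rfl⟩ := (hL0 α).1 hα
    refine (hR z hz h0 _ (Submodule.subset_span ⟨0, G, _root_.funext fun s => ?_⟩)).2 hα
    rw [ev, ev, totalDegree_eq_zero_iff_eq_C.1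
      ((totalDegree_zero_iff_isHomogeneous _).2 (hh 0 G s)), eval_C, eval_C]
  obtain ⟨b, G, h1, h2, h3, h4⟩ := thmBp h hg
  refine ⟨b, G, h1, h2, by simpa only [e0] using h3, fun z hz h0 => ?_⟩
  obtain ⟨u, rfl⟩ := hs z hz
  simpa only [e] using h4 u hz fun e' => h0 (by rw [e', map_zero])

end Pool.Agent.MP_429080_ag.H26
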