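import Pool.Agent.MP_429080_ag.FR.C
import Pool.Agent.MP_429080_ag.FR.E
import Pool.Agent.MP_429080_ag.FR.F
import Pool.Agent.MP_429080_ag.H91.Lc

attribute [-instance] MonoidWithZeroHomClass.toZeroHomClass
  NonUnitalAlgSemiHomClass.toDistribMulActionSemiHomClass
  ContinuousMonoidHom.instCoeOutOfMonoidHomClassOfContinuousMapClass
  ContinuousSemilinearMapClass.toSemilinearMapClass Fintype.decidableForallFintype
  NumberField.instFiniteDimensional instCoeOTCOfCoeTC NonUnitalAlgHomClass.instLinearMapClass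
  Algebra.IsFiniteSplit.instFree RingHomClass.toLinearMapClassNNRat
  SemilinearIsometryClass.toSemilinearMapClass CoalgHomClass.toSemilinearMapClass
  Submodule.IsLattice.finite instSMulZeroClass RingHomClass.toLinearMapClassRat RKHS.instFunLike
  MulSemiringActionSemiHomClass.toDistribMulActionSemiHomClass
  CategoryTheory.CountableCategory.countableObj NonUnitalNonAssocSemiring.toAddCommMonoid
  NonUnitalAlgSemiHomClass.toMulHomClass Finset.decidableDforallFinset instCoeHTCOfCoeHeadOfCoeOTC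
  NonUnitalAlgHomClass.instSemilinearMapClassOfNonUnitalAlgSemiHomClassToMonoidHomRingHom
  CentroidHomClass.toAddMonoidHomClass bot_nonempty IsometryClass.instCoeOutIsometryEquiv
  Multiset.decidableDforallMultiset

/-! The generic configuration: first properties. -/

namespace Pool.Agent.MP_429080_ag.H73

open MvPolynomial Module Pool.Agent.EGH Pool.Agent.MP_d171e3_nt Pool.Agent.MP_429080_ag.H26
open Pool.Agent.MP_429080_ag.H26.T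

set_option linter.unusedSectionVars false

namespace Cf
variable {σ : Type} [Fintype σ] {n c k : ℕ} (Q : Cf σ n c k) {D D' : Dr} {w w' : Fin n → ℂ}
  {α y : σ → ℂ}

section PartF0

theorem sm : Sm Q.C c := Q.ctx.sm
theorem smZ : Sm Q.Z k := Q.ctx.smL
theorem cntx : Q.Sx.Countable := adj_countable Q.cnt _
theorem cnth : Q.Sh.Countable := adj_countable Q.cnt _
theorem cnt1 : Q.S1.Countable := adj_countable Q.cntx _
theorem S_x : Q.S ⊆ Q.Sx := subset_adj _ _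
theorem S_h : Q.S ⊆ Q.Sh := subset_adj _ _
theorem x_1 : Q.Sx ⊆ Q.S1 := subset_adj _ _
theorem h_1 : Q.Sh ⊆ Q.S1 := adj_mono Q.S_x _
theorem rtx : Rt Q.Sx Q.x := rt_adj _ _
theorem rth : Rt Q.Sh Q.h := rt_adj _ _
theorem rtx1 : Rt Q.S1 Q.x := Q.rtx.mono' Q.x_1
theorem rth1 : Rt Q.S1 Q.h := rt_adj _ _
theorem rat1 : RtL Q.S1 Q.φ := Q.rat.mono' Q.x_1
theorem gensx : Gens Q.Sx Q.C Q.G := Q.gens.mono' Q.S_x
theorem gensh : Gens Q.Sh Q.C Q.G := Q.gens.mono' Q.S_h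
theorem gens1 : Gens Q.S1 Q.C Q.G := Q.gensx.mono' Q.x_1
theorem hA : Q.h ∈ Q.A := Q.hmem.1
theorem ctx0 : Ct Q.C Q.h Q.x := ⟨Q.ctx.mem, Q.ctx.ne, Q.hA⟩
theorem inj (s : ℂ) (w : Fin n → ℂ) (h : s • Q.x + Q.φ w = 0) : w = 0 ∧ s = 0 :=
  frame_inj Q.ctx.frame Q.ctx.ne h
theorem mem_K : w ∈ Q.K ↔ Q.B Q.h w = 0 := Iff.rfl
theorem mem_K0 : α ∈ Q.K0 ↔ α ∈ Q.A ∧ Q.B α Q.z = 0 := Iff.rfl
theorem mem_Pp : α ∈ Q.Pp ↔ ∃ D ∈ Der Q.Sx, ap D Q.h = α := Iff.rfl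
theorem mem_J {β : Fin n → ℂ} : β ∈ Q.J w ↔ ∃ u ∈ Q.T w, Q.B Q.h u = β := Iff.rfl
theorem mem_BP {β : Fin n → ℂ} : β ∈ Q.BP w ↔ ∃ π ∈ Q.Pp, Q.B π w = β := Iff.rfl
theorem zK : Q.ZK Q.z := ⟨Q.zmem, Q.hmem.2, Q.zne⟩
theorem A_rank : finrank ℂ Q.A = c := Q.sm.rk _ Q.ctx.mem Q.ctx.ne

theorem gensZ : ∃ (m : ℕ) (f : Fin m → P (Fin n)), Gens Q.Sx Q.Z f := by
  obtain ⟨s, hs, -, hs'⟩ := RtL.exists_ev Q.rat
  have hJ : H91.StI Q.Sx (Ideal.span {f | ∃ i j, tay Q.x Q.φ j (Q.G i) = f}) := H91.stI_span (by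
    rintro _ ⟨i, j, rfl⟩
    refine ov_hom _ (ov_aeval (fun i => ov_add (ov_C (Q.rtx i)) ?_) (Q.gensx.ov _))
    have e : lin ((LinearMap.proj i).comp Q.φ) = s i := MvPolynomial.funext fun y => by
      rw [eval_lin]
      exact (congrFun (hs' y) i).symm
    exact e ▸ hs i)
  have hp := Q.ctx.prime
  obtain ⟨q, hq, hle⟩ := Ideal.exists_minimalPrimes_le (J := vI (tpl Q.C Q.x Q.φ))
    (I := Ideal.span {f | ∃ i j, tay Q.x Q.φ j (Q.G i) = f}) (Ideal.span_le.2 (by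
      rintro _ ⟨i, j, rfl⟩
      exact tay_mem Q.sm.toCn (Q.gens.mem _) _))
  have h1 : vI (lines Q.C Q.x Q.φ) ≤ q := by
    rw [← vI_vZ hq.isPrime]
    refine vanishingIdeal_anti_mono fun w hw =>
      (mem_lines Q.sm.toCn).2 fun t => Q.gens.zero _ fun i => ?_
    have e : lp Q.x (Q.φ w) (Q.G i) = 0 := Polynomial.ext fun j => by
      rw [← eval_tay, mem_vZ.1 hw _ (hq.le (Ideal.subset_span ⟨i, j, rfl⟩)), Polynomial.coeff_zero]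
    rw [← eval_lp, e, Polynomial.eval_zero]
  have h2 : vI Q.Z ≤ q := by
    rw [← vI_vZ hq.isPrime]
    refine vanishingIdeal_anti_mono fun w hw => Q.ctx.mem_tpl (vz_sub Q.sm.toCn h1 hw) ?_
    have h3 := nt_dm Q.sm.toCn hq.isPrime h1 hw
    have h4 := dm_anti hq.isPrime hp hle
    have h5 := Q.ctx.dim
    omega
  obtain ⟨m, f, f1, f2⟩ := (hJ.min hq).gens
  replace f2 := (le_antisymm h2 hle).trans f2
  exact ⟨m, f, f1, fun i => f2.ge (Ideal.subset_span ⟨i, rfl⟩), fun y hy => Q.smZ.closed.le (by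
    rw [f2, mem_vZ_span]
    exact Set.forall_mem_range.2 hy), fun y hy _ => nm_gens f2 hy⟩

theorem B_dot (α : σ → ℂ) (w w' : Fin n → ℂ) :
    Q.B α w ⬝ᵥ w' = II Q.C Q.x α (Q.φ w) (Q.φ w') := BB_dot _ _ _ _ _ _

theorem B_sy (α : σ → ℂ) (w w' : Fin n → ℂ) : Q.B α w ⬝ᵥ w' = Q.B α w' ⬝ᵥ w := by
  rw [B_dot, B_dot, II_sy]

theorem B_tay {f : P σ} (hf : f ∈ vI Q.C) (w : Fin n → ℂ) :
    Q.B (grad f Q.x) w = grad (tay Q.x Q.φ 2 f) w := BB_tay Q.ctx hf w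

theorem B_nm (hα : α ∈ Q.A) (_hw : w ∈ Q.Z) : Q.B α w ∈ Q.N w := by
  have h := grad_mem_nm (tay_mem (x := Q.x) (φ := Q.φ) Q.ctx.sm.toCn (ch_spec hα).1 2) w
  rwa [← Q.B_tay (ch_spec hα).1, (ch_spec hα).2] at h

theorem stabA : Stab Q.Sx Q.A := stab_nm Q.gensx Q.ctx.mem Q.ctx.ne Q.rtx

theorem der_B (hD : D ∈ Der Q.Sx) (hα : α ∈ Q.A) (w : Fin n → ℂ) :
    ap D (Q.B α w) = Q.B (ap D α) w + Q.B α (ap D w) :=
  der_BB Q.ctx Q.gensx hD Q.rtx Q.rat hα w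

theorem rtL_B {S' : Set ℂ} (hS : Q.Sx ⊆ S') (hα : α ∈ Q.A) (hr : Rt S' α) : RtL S' (Q.B α) := by
  classical
  refine rtL_iff.2 fun j => rt_iff.2 fun D hD => ?_
  rw [Q.der_B (Der_anti' hS hD) hα, hr.ap hD, map_zero, LinearMap.zero_apply, zero_add,
    show ap D (Pi.single j (1 : ℂ) : Fin n → ℂ) = 0 from funext fun i => by
      rw [ap_apply, Pi.single_apply]; split_ifs <;> simp, map_zero]

theorem stabK : Stab Q.S1 Q.K := by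
  intro D hD w hw
  obtain ⟨h1, h2⟩ := mem_Der_adj.1 hD
  have h3 := Q.der_B h1 Q.hA w
  rw [Q.mem_K.1 hw, ap_zero, h2, map_zero, LinearMap.zero_apply, zero_add] at h3
  exact h3.symm

theorem stabP : Stab Q.S1 Q.Pp := dv_stab _ _

theorem stabLam : Stab Q.Sh Q.Lam := (dv_stab _ _).ann

theorem P_le_A : Q.Pp ≤ Q.A := Q.stabA.dv_le Q.hA

theorem der_T (hD : D ∈ Der Q.Sx) (hw : w ∈ Q.Z) (h0 : w ≠ 0) : ap D w ∈ Q.T w := by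
  obtain ⟨m, f, hf⟩ := Q.gensZ
  exact der_tan hf hD hw h0

theorem T_rank (hw : w ∈ Q.Z) (h0 : w ≠ 0) : finrank ℂ (Q.T w) + k = n := by
  have h := tangent_rank Q.smZ hw h0
  rwa [Fintype.card_fin] at h

/-- `Z ∩ K` is closed under specialisation -/
theorem sp_ZK {S' : Set ℂ} (hS : Q.S1 ⊆ S') (hw : w ∈ Q.Z ∧ w ∈ Q.K) (h : Sp S' w w') :
    w' ∈ Q.Z ∧ w' ∈ Q.K := by
  obtain ⟨m, f, hf⟩ := Q.gensZ
  exact ⟨(hf.mono' (Q.x_1.trans hS)).sp h hw.1, h.mem_stab (Q.stabK.mono' hS) hw.2⟩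

theorem ZK.smul {Q : Cf σ n c k} (hw : Q.ZK w) {a : ℂ} (ha : a ≠ 0) : Q.ZK (a • w) := by
  exact ⟨Q.smZ.cone a _ hw.1, Submodule.smul_mem _ _ hw.2.1, smul_ne_zero ha hw.2.2⟩

theorem J_smul {a : ℂ} (ha : a ≠ 0) (w : Fin n → ℂ) : Q.J (a • w) = Q.J w := by
  rw [J, J, T, T, tangent_smul Q.smZ.toCn ha]

/-- a conormal vector which is singular at a direction is conormal along the line -/
theorem tl (hα : α ∈ Q.A) (hw : w ∈ Q.Z) (h0 : w ≠ 0) (hB : Q.B α w = 0) :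
    Tl Q.C c α Q.x (Q.φ w) := by
  have hi := frame_indep Q.ctx.frame Q.ctx.ne h0
  refine ⟨Q.ctx.sm, hw.1, hi, Q.ctx.free, hα, fun s => ?_⟩
  obtain ⟨h2, h3⟩ := ch_spec hα
  have h4 := psi0 Q.ctx.sm hw.1 hi Q.ctx.free h2 (fun a ha => by
    obtain ⟨w', t, rfl⟩ := frame_decomp Q.ctx.frame ha
    rw [dotProduct_add, dotProduct_smul, om_x hw.1 h2, smul_zero, add_zero, ← hb_om, ← II_apply,
      ← B_dot, hB, zero_dotProduct]) s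
  rwa [h3] at h4

theorem ZK.tl {Q : Cf σ n c k} (hw : Q.ZK w) : Tl Q.C c Q.h Q.x (Q.φ w) :=
  Q.tl Q.hA hw.1 hw.2.2 hw.2.1

theorem Ln.ct {Q : Cf σ n c k} (hy : Q.Ln y) : Ct Q.C Q.h y := by
  obtain ⟨a, w, hw, rfl⟩ := hy
  exact hw.tl.ct a

theorem pair_dot (hα : α ∈ Q.A) {a b : σ → ℂ} (s : ℂ) (ha : a = Q.φ w' + s • Q.x)
    (hp : Pair Q.C Q.x (Q.φ w) a b) : α ⬝ᵥ b = -(Q.B α w ⬝ᵥ w') := by
  obtain ⟨h2, h3⟩ := ch_spec hα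
  have h1 := (pair_iff.1 hp _ h2).2 0
  rw [om_zero, h3, zero_add, ← hb_om, ← II_apply, ha, map_add, map_smul, ← B_dot, II_sy,
    II_self Q.ctx.sm Q.ctx.mem Q.ctx.ne hα (frame_mem Q.ctx.frame w), smul_zero, add_zero] at h1
  exact eq_neg_of_add_eq_zero_right h1

theorem W0_eq (hw : w ∈ Q.Z) (h0 : w ≠ 0) :
    W0 Q.C Q.x (Q.φ w) = (ℂ ∙ Q.x) ⊔ (Q.T w).map Q.φ := by
  refine le_antisymm (fun a ha => ?_) (sup_le ?_ ?_)
  · obtain ⟨t, s, rfl⟩ := frame_decomp Q.ctx.frame (W0_le_x ha)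
    rw [add_comm]
    refine Submodule.add_mem_sup (Submodule.mem_span_singleton.2 ⟨s, rfl⟩)
      ⟨t, mem_tangent_nm.2 ?_, rfl⟩
    rw [Z, Q.ctx.nm_eq hw h0, NT, span_dot]
    rintro _ ⟨G, hG, j, rfl⟩
    rcases j with _ | j
    · rw [tay_zero Q.ctx.mem hG, grad_zero, zero_dotProduct]
    · have h1 := mem_W0.1 ha G hG j
      rwa [dotProduct_add, dotProduct_smul, om_x hw.1 hG, smul_zero, add_zero, ← grad_tay] at h1
  · rw [Submodule.span_singleton_le_iff_mem]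
    exact mem_W0.2 fun G hG j => om_x hw.1 hG j
  · rintro _ ⟨t, ht, rfl⟩
    exact mem_W0.2 fun G hG j => by
      rw [← grad_tay]
      exact mem_tangent.1 ht _ (tay_mem Q.ctx.sm.toCn hG _)

/-- F1 -/
theorem f1 (hy : Ct Q.C Q.h y) : Q.Kp y ≤ Q.Lam := by
  rintro u hu _ ⟨D, hD, rfl⟩
  refine (der1 Q.ctx.sm Q.gens hD hy.1 hy.2.1 hy.2.2 hu.1).trans ?_
  rw [II_sy]
  exact hu.2 _ (der_tan Q.gens hD hy.1 hy.2.1)

theorem mem_Kx {a : σ → ℂ} : a ∈ Q.Kp Q.x ↔ ∃ (s : ℂ), ∃ w ∈ Q.K, a = Q.φ w + s • Q.x := by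
  have hx := self_mem_Ky Q.ctx.sm Q.ctx0
  refine ⟨fun ha => ?_, ?_⟩
  · obtain ⟨w, s, rfl⟩ := frame_decomp Q.ctx.frame ha.1
    refine ⟨s, w, funext fun j => ?_, rfl⟩
    have h1 := ha.2 _ (frame_mem Q.ctx.frame (Pi.single j 1))
    rw [map_add, map_smul, LinearMap.add_apply, LinearMap.smul_apply,
      hx.2 _ (frame_mem Q.ctx.frame _), smul_zero, add_zero] at h1
    exact h1
  · rintro ⟨s, w, hw, rfl⟩
    refine Submodule.add_mem _ ⟨frame_mem Q.ctx.frame w, fun v hv => ?_⟩ (Submodule.smul_mem _ _ hx)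
    obtain ⟨w', s, rfl⟩ := frame_decomp Q.ctx.frame hv
    rw [map_add, map_smul, ← B_dot, II_sy, hx.2 _ (frame_mem Q.ctx.frame w), smul_zero, add_zero,
      Q.mem_K.1 hw, zero_dotProduct]

theorem Kx_rank : finrank ℂ (Q.Kp Q.x) = Q.ga + 1 := by
  have h1 : Q.Kp Q.x = Q.K.map Q.φ ⊔ ℂ ∙ Q.x := by
    ext a
    rw [mem_Kx, Submodule.mem_sup]
    refine ⟨fun ⟨s, w, hw, e⟩ => ⟨_, ⟨w, hw, rfl⟩, _, Submodule.mem_span_singleton.2 ⟨s, rfl⟩,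
      e.symm⟩, ?_⟩
    rintro ⟨_, ⟨w, hw, rfl⟩, b, hb, rfl⟩
    obtain ⟨s, rfl⟩ := Submodule.mem_span_singleton.1 hb
    exact ⟨s, w, hw, rfl⟩
  have h2 := Submodule.finrank_sup_add_finrank_inf_eq (Q.K.map Q.φ) (ℂ ∙ Q.x)
  have h3 : Q.K.map Q.φ ⊓ (ℂ ∙ Q.x) = ⊥ :=
    (Q.ctx.frame.2.1.mono_left LinearMap.map_le_range).eq_bot
  rw [h3, finrank_bot, finrank_span_singleton Q.ctx.ne,
    ← (Submodule.equivMapOfInjective _ Q.ctx.frame.1 Q.K).finrank_eq] at h2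
  rw [h1]
  exact h2

theorem tan_inf_Lam : tangent Q.C Q.x ⊓ Q.Lam = Q.Kp Q.x := by
  refine le_antisymm (fun a ha => ⟨ha.1, fun v hv => ?_⟩)
    (le_inf (fun a ha => ha.1) (Q.f1 Q.ctx0))
  obtain ⟨D, hD, rfl⟩ := Q.genx hv
  rw [II_sy]
  exact (der1 Q.ctx.sm Q.gens hD Q.ctx.mem Q.ctx.ne Q.hA ha.1).symm.trans (ha.2 _ (ap_mem hD _))

theorem H_rank : finrank ℂ Q.H + Q.ga = n + finrank ℂ (Q.H ⊓ Q.A : Submodule ℂ (σ → ℂ)) := by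
  have h1 := ann_inf_rank Q.H (tangent Q.C Q.x)
  have h2 := tangent_rank Q.ctx.sm Q.ctx.mem Q.ctx.ne
  have h3 := Q.ctx.card
  have h4 := Q.Kx_rank
  rw [← tan_inf_Lam] at h4
  rw [ann_tangent] at h1
  unfold Lam at h4
  unfold A
  omega

/-- F2 -/
theorem f2 (hD : D ∈ Der Q.Sx) (hw : w ∈ Q.K) : Q.B (ap D Q.h) w = -Q.B Q.h (ap D w) := by
  have h1 := Q.der_B hD Q.hA w
  rw [Q.mem_K.1 hw, ap_zero] at h1
  exact eq_neg_of_add_eq_zero_left h1.symm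

theorem BP_ann (hα : α ∈ Q.Pp) (hw : w ∈ Q.K) : Q.B α w ∈ ann Q.K := by
  obtain ⟨D, hD, rfl⟩ := Q.mem_Pp.1 hα
  intro v hv
  rw [dotProduct_comm, Q.f2 hD hw, neg_dotProduct, B_sy, Q.mem_K.1 hv, zero_dotProduct, neg_zero]

theorem f2' (hD : D ∈ Der Q.Sx) (hD' : D' ∈ Der Q.Sx) (hw : w ∈ Q.K) (hw' : w' ∈ Q.K) :
    Q.B (ap D' (ap D Q.h)) w ⬝ᵥ w' =
      Q.B Q.h (ap D w) ⬝ᵥ ap D' w' + Q.B Q.h (ap D' w) ⬝ᵥ ap D w' := by
  have h0 : Q.B (ap D Q.h) w ⬝ᵥ w' = 0 :=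
    (dotProduct_comm _ _).trans (Q.BP_ann (ap_mem hD _) hw _ hw')
  have h1 := ap_dot D' (Q.B (ap D Q.h) w) w'
  rw [h0, map_zero, Q.der_B hD' (Q.P_le_A (ap_mem hD _)), add_dotProduct,
    Q.B_sy _ (ap D' w) w', Q.f2 hD hw, Q.f2 hD hw', neg_dotProduct, neg_dotProduct,
    Q.B_sy _ (ap D w')] at h1
  linear_combination -h1

theorem BP_le_J (hw : Q.ZK w) : Q.BP w ≤ Q.J w := by
  rintro _ ⟨_, ⟨D, hD, rfl⟩, rfl⟩
  refine ⟨-ap D w, Submodule.neg_mem _ (Q.der_T hD hw.1 hw.2.2), ?_⟩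
  rw [map_neg]
  exact (Q.f2 hD hw.2.1).symm

/-- a form singular at `w` vanishes on the tangent space -/
theorem quad (hα : α ∈ Q.A) (hw : w ∈ Q.Z) (h0 : w ≠ 0) (hB : Q.B α w = 0) :
    ∀ u ∈ Q.T w, ∀ v ∈ Q.T w, Q.B α u ⬝ᵥ v = 0 := by
  have hg : ∀ a, grad (tay Q.x Q.φ 2 (ch Q.C Q.x α)) a = Q.B α a := fun a => by
    rw [← Q.B_tay (ch_spec hα).1, (ch_spec hα).2]
  have ht := quad_tangent Q.ctx.smL (tay_hom _ _) (tay_mem Q.ctx.sm.toCn (ch_spec hα).1 2) hw h0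
    ((hg w).trans hB)
  have h3 : ∀ a ∈ Q.T w, Q.B α a ⬝ᵥ a = 0 := fun a ha => by
    rw [← hg, euler (tay_hom _ _), ht a ha, mul_zero]
  intro u hu v hv
  have e1 := h3 _ (Submodule.add_mem _ hu hv)
  rw [map_add, add_dotProduct, dotProduct_add, dotProduct_add, h3 u hu, h3 v hv,
    Q.B_sy α v u] at e1
  linear_combination e1 / 2

/-- F3 -/
theorem J_le (hw : Q.ZK w) : Q.J w ≤ Q.N w ⊓ ann Q.K := by
  rintro _ ⟨u, hu, rfl⟩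
  refine ⟨nm_iff.2 fun v hv => Q.quad Q.hA hw.1 hw.2.2 hw.2.1 u hu v hv, fun v hv => ?_⟩
  rw [dotProduct_comm, B_sy, Q.mem_K.1 hv, zero_dotProduct]

theorem NK_rank (w : Fin n → ℂ) : finrank ℂ (Q.N w ⊓ ann Q.K : Submodule ℂ (Fin n → ℂ)) +
    finrank ℂ (Q.J w) + Q.ga = n := by
  have h1 : Q.N w ⊓ ann Q.K = ann (Q.T w ⊔ Q.K) := by
    rw [ann_sup, T, ann_tangent, N]
  have h2 := ann_finrank (Q.T w ⊔ Q.K)
  have h3 := rank_inf_ker (Q.B Q.h) (Q.T w ⊔ Q.K)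
  have h4 : Q.K.map (Q.B Q.h) = ⊥ := le_bot_iff.1 (by rintro _ ⟨v, hv, rfl⟩; exact hv)
  rw [Submodule.map_sup, h4, sup_bot_eq, show LinearMap.ker (Q.B Q.h) = Q.K from rfl,
    inf_eq_right.2 le_sup_right] at h3
  rw [Fintype.card_fin] at h2
  rw [h1]
  unfold ga J
  omega

theorem TK_rank (hw : Q.ZK w) : finrank ℂ (Q.T w ⊓ Q.K : Submodule ℂ (Fin n → ℂ)) +
    finrank ℂ (Q.J w) + k = n := by
  have h1 := rank_inf_ker (Q.B Q.h) (Q.T w)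
  have h2 := Q.T_rank hw.1 hw.2.2
  change finrank ℂ (Q.J w) + finrank ℂ (Q.T w ⊓ Q.K : Submodule ℂ (Fin n → ℂ)) = _ at h1
  omega

end PartF0

section PartF4

theorem K0_le_P : Q.K0 ≤ Q.Pp := by
  exact Q.genh.trans (dv_anti ((subset_adj _ _).trans subset_cf) _)

theorem BP_z : Q.BP Q.z = Q.J Q.z := by
  refine le_antisymm (Q.BP_le_J Q.zK) ?_
  rintro _ ⟨u, hu, rfl⟩
  obtain ⟨D, hD, rfl⟩ := Q.genz hu
  refine ⟨-ap D Q.h, Submodule.neg_mem _ (ap_mem hD _), ?_⟩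
  rw [map_neg, LinearMap.flip_apply, Q.f2 hD Q.zK.2.1, neg_neg]
  rfl

theorem mem_P (hα : α ∈ Q.A) (h : Q.B α Q.z ∈ Q.J Q.z) : α ∈ Q.Pp := by
  rw [← BP_z] at h
  obtain ⟨π, hπ, e⟩ := Q.mem_BP.1 h
  have h1 : α - π ∈ Q.K0 := Q.mem_K0.2 ⟨Submodule.sub_mem _ hα (Q.P_le_A hπ), by
    rw [map_sub, LinearMap.sub_apply, e, sub_self]⟩
  simpa using Submodule.add_mem _ (Q.K0_le_P h1) hπ

theorem P_rank : finrank ℂ Q.Pp = Q.mu + Q.e := by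
  have h1 := rank_inf_ker (Q.B.flip Q.z) Q.Pp
  have h2 : Q.Pp ⊓ LinearMap.ker (Q.B.flip Q.z) = Q.K0 :=
    le_antisymm (inf_le_inf_right _ Q.P_le_A) (le_inf Q.K0_le_P inf_le_right)
  rw [h2, show Q.Pp.map (Q.B.flip Q.z) = Q.J Q.z from Q.BP_z] at h1
  unfold mu e
  omega

theorem g_add : Q.g + finrank ℂ Q.Pp = c := by
  have h1 := Submodule.finrank_mono Q.P_le_A
  rw [A_rank] at h1
  unfold g
  omega

theorem e_add : Q.e + Q.ka = k := by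
  have h1 := Submodule.finrank_mono ((Q.J_le Q.zK).trans inf_le_left)
  rw [show finrank ℂ (Q.N Q.z) = k from Q.smZ.rk _ Q.zmem Q.zne] at h1
  unfold ka e
  omega

theorem g_le : Q.g ≤ Q.ka := by
  have h1 := rank_inf_ker (Q.B.flip Q.z) Q.A
  have h2 : Q.A.map (Q.B.flip Q.z) ≤ Q.N Q.z := by
    rintro _ ⟨α, hα, rfl⟩
    exact Q.B_nm hα Q.zmem
  have h3 := Submodule.finrank_mono h2
  rw [show finrank ℂ (Q.N Q.z) = k from Q.smZ.rk _ Q.zmem Q.zne] at h3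
  rw [A_rank] at h1
  have h4 := Q.P_rank
  have h5 := Q.g_add
  have h6 := Q.e_add
  change _ + Q.mu = c at h1
  omega

theorem s_add : Q.s + 1 + k + Q.e = n := by
  have h1 := Q.e_add
  have h2 := Q.h3
  unfold s
  omega

theorem td_z : td Q.S1 Q.z = Q.s + 1 := by
  have h1 := td_swap Q.Sx Q.z Q.h
  obtain ⟨m, f, hf⟩ := Q.gensZ
  have h2 : dv Q.Sx Q.z = Q.T Q.z := le_antisymm (dv_le_tangent hf Q.zmem Q.zne) Q.genz
  have h3 : dv (adj Q.Sx Q.z) Q.h = Q.K0 := by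
    refine le_antisymm ?_ Q.genh
    rintro _ ⟨D, hD, rfl⟩
    obtain ⟨a, b⟩ := mem_Der_adj.1 hD
    refine Q.mem_K0.2 ⟨Q.P_le_A (ap_mem a _), (Q.f2 a Q.zK.2.1).trans ?_⟩
    rw [b, map_zero, neg_zero]
  have h4 := Q.T_rank Q.zmem Q.zne
  have h5 := Q.P_rank
  have h6 := Q.s_add
  unfold td at h1 ⊢
  rw [h2, h3] at h1
  change _ + Q.mu = finrank ℂ Q.Pp + finrank ℂ (dv Q.S1 Q.z) at h1
  omega

theorem K0_ne : Q.K0 ≠ ⊥ := fun h => Q.hne ((Submodule.eq_bot_iff _).1 h _ Q.hmem)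

end PartF4

end Cf

end Pool.Agent.MP_429080_ag.H73

/-! The rank of the tangent hyperplane section and its contact locus. -/

namespace Pool.Agent.MP_429080_ag.H73

open MvPolynomial Module Pool.Agent.EGH Pool.Agent.MP_d171e3_nt Pool.Agent.MP_429080_ag.H26
open Pool.Agent.MP_429080_ag.H26.T

set_option linter.unusedSectionVars false

namespace Cf
variable {σ : Type} [Fintype σ] {n c k : ℕ} (Q : Cf σ n c k) {D D' : Dr} {w w' : Fin n → ℂ}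
  {α y : σ → ℂ}

section PartTp

theorem h41_tan (hy : y ∈ Q.C) (h0 : y ≠ 0) : finrank ℂ (tangent Q.C y) = n + 1 := by
  have h1 := tangent_rank Q.sm hy h0
  have h2 := Q.ctx.card
  omega

theorem h41_annP : finrank ℂ (ann Q.Pp) = n + 1 + Q.g := by
  have h1 := ann_finrank Q.Pp
  have h2 := Q.ctx.card
  have h3 := Q.g_add
  omega

theorem E_rank (hw : Q.ZK w) (a : ℂ) : n + 1 ≤
    finrank ℂ (tangent Q.C (a • Q.x + Q.φ w) ⊓ ann Q.Pp : Submodule ℂ (σ → ℂ)) +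
      finrank ℂ (Q.BP w) := by
  have ct := hw.tl.ct a
  have h1 := ann_inf_rank Q.Pp (tangent Q.C (a • Q.x + Q.φ w))
  have h2 := rank_inf_ker (Q.B.flip w) Q.Pp
  have h3 : finrank ℂ (Q.Pp ⊓ LinearMap.ker (Q.B.flip w) : Submodule ℂ (σ → ℂ)) ≤
      finrank ℂ (Q.Pp ⊓ ann (tangent Q.C (a • Q.x + Q.φ w)) : Submodule ℂ (σ → ℂ)) :=
    Submodule.finrank_mono fun π hπ => ⟨hπ.1, by
      rw [ann_tangent]
      exact (Q.tl (Q.P_le_A hπ.1) hw.1 hw.2.2 hπ.2).ns a⟩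
  rw [Q.h41_tan ct.1 ct.2.1] at h1
  change finrank ℂ (Q.BP w) + _ = _ at h2
  omega

/-- T' -/
theorem tp (hw : Q.ZK w) (hd : Q.g + finrank ℂ (Q.BP w) + 1 ≤ td Q.S1 w) {a : ℂ}
    (ha : a ∉ cf (adj Q.S1 w)) : ∀ u ∈ tangent Q.C (a • Q.x + Q.φ w) ⊓ ann Q.Pp,
      ∀ v ∈ tangent Q.C (a • Q.x + Q.φ w) ⊓ ann Q.Pp, II Q.C (a • Q.x + Q.φ w) Q.h u v = 0 := by
  intro u hu v hv
  refine neg_sub Q.sm Q.gens1 Q.cnt1 Q.rth1 (hw.tl.ct a) inf_le_left inf_le_right Q.stabP.ann ?_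
    hu hv
  have h1 := Q.E_rank hw a
  rw [td_line Q.rtx1 Q.rat1 Q.inj ha, Q.h41_annP]
  omega

theorem rho_le (hw : Q.ZK w) (hd : Q.g + finrank ℂ (Q.BP w) + 1 ≤ td Q.S1 w) :
    n ≤ Q.ga + 2 * finrank ℂ (Q.BP w) := by
  obtain ⟨a, ha, sc⟩ := gen_cof (adj_countable Q.cnt1 w) hw.tl.sc
  have ct := hw.tl.ct a
  have h1 := iso_ker (II_sy Q.C _ Q.h) inf_le_left (Q.tp hw hd ha)
  have h2 := Q.E_rank hw a
  have h3 : finrank ℂ (Ky Q.C Q.x Q.h) = Q.ga + 1 := Q.Kx_rank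
  rw [Q.h41_tan ct.1 ct.2.1] at h1
  change _ ≤ _ + finrank ℂ (Ky Q.C (a • Q.x + Q.φ w) Q.h) at h1
  omega

theorem h41_J (hw : Q.ZK w) : Q.ga + 2 * finrank ℂ (Q.J w) ≤ n := by
  have h1 := Q.NK_rank w
  have h2 := Submodule.finrank_mono (Q.J_le hw)
  omega

theorem h41_td : Q.g + finrank ℂ (Q.BP Q.z) + 1 ≤ td Q.S1 Q.z := by
  have h1 := Q.g_le
  have h2 := Q.e_add
  have h3 := Q.s_add
  have h4 := Q.h3
  rw [Q.BP_z, Q.td_z]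
  change Q.g + Q.e + 1 ≤ _
  omega

theorem rho_eq : Q.ga + 2 * Q.e = n := by
  have h1 := Q.rho_le Q.zK Q.h41_td
  rw [Q.BP_z] at h1
  exact le_antisymm (Q.h41_J Q.zK) h1

theorem ga_eq : Q.ga = Q.s + 1 + Q.ka := by
  have := Q.rho_eq; have := Q.e_add; have := Q.s_add; omega

theorem J_rank_le (hw : Q.ZK w) : finrank ℂ (Q.J w) ≤ Q.e := by
  have h1 := Q.h41_J hw
  have h2 := Q.rho_eq
  omega

theorem Good.tgood {Q : Cf σ n c k} (hw : Q.Good w) : Q.TGood w := by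
  exact ⟨hw.1, le_antisymm (Q.J_rank_le hw.1)
    (hw.2.ge.trans (Submodule.finrank_mono (Q.BP_le_J hw.1)))⟩

theorem Good.eq {Q : Cf σ n c k} (hw : Q.Good w) : Q.BP w = Q.J w := by
  exact Submodule.eq_of_le_of_finrank_eq (Q.BP_le_J hw.1) (hw.2.trans hw.tgood.2.symm)

theorem TGood.eq {Q : Cf σ n c k} (hw : Q.TGood w) : Q.N w ⊓ ann Q.K = Q.J w := by
  have h1 := Q.NK_rank w
  have h2 := Q.rho_eq
  have h3 := hw.2
  exact (Submodule.eq_of_le_of_finrank_eq (Q.J_le hw.1) (by omega)).symm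

theorem good_z : Q.Good Q.z := ⟨Q.zK, by rw [Q.BP_z]; rfl⟩

theorem good_of_td (hw : Q.ZK w) (hd : Q.g + Q.e ≤ td Q.S1 w) : Q.Good w := by
  refine ⟨hw, le_antisymm ((Submodule.finrank_mono (Q.BP_le_J hw)).trans (Q.J_rank_le hw))
    (not_lt.1 fun l => ?_)⟩
  have h1 := Q.rho_le hw (by omega)
  have h2 := Q.rho_eq
  omega

end PartTp

section PartMb

theorem h41_kill (hα : α ∈ Q.A) {a : σ → ℂ} (ha : a ∈ tangent Q.C Q.x) : α ⬝ᵥ a = 0 := by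
  rw [← ann_nm] at ha
  exact ha α hα

theorem h41_x : Q.x ∈ tangent Q.C Q.x := (self_mem_Ky Q.sm Q.ctx0).1

/-- pairs over the kernel are killed by the derivatives of `h` -/
theorem h41_pair (hw : Q.ZK w) {a b : σ → ℂ} (ha : a ∈ Q.Kp Q.x) (hp : Pair Q.C Q.x (Q.φ w) a b)
    (s : ℂ) : s • a + b ∈ tangent Q.C (s • Q.x + Q.φ w) ⊓ ann Q.Pp := by
  refine ⟨pair_mem Q.sm.toCn hp s, fun π hπ => ?_⟩
  obtain ⟨t, w', hw', e⟩ := Q.mem_Kx.1 ha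
  rw [dotProduct_add, dotProduct_smul, Q.h41_kill (Q.P_le_A hπ) ha.1,
    Q.pair_dot (Q.P_le_A hπ) t e hp, dotProduct_comm, Q.BP_ann hπ hw.2.1 w' hw']
  simp

/-- MB -/
theorem mb : Q.H ⊓ Q.A = Q.Pp := by
  refine le_antisymm ?_ (le_inf (dv_anti (Q.S_x.trans subset_cf) _) Q.P_le_A)
  rintro _ ⟨⟨D, hD, rfl⟩, hA⟩
  change ap D Q.h ∈ Q.A at hA
  refine Q.mem_P hA ?_
  rw [← Q.good_z.tgood.eq]
  refine ⟨Q.B_nm hA Q.zmem, fun w hw => ?_⟩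
  obtain ⟨a, ha, -⟩ := gen_one (adj_countable Q.cnt1 Q.z)
  have tl := Q.zK.tl
  have ct := tl.ct a
  have kx : ap D Q.x ∈ Q.Kp Q.x := mem_Ky.2 ⟨der_tan Q.gens hD Q.ctx.mem Q.ctx.ne, fun v hv =>
    (der1 Q.sm Q.gens hD Q.ctx.mem Q.ctx.ne Q.hA hv).symm.trans (Q.h41_kill hA hv)⟩
  have e1 : ap D (a • Q.x + Q.φ Q.z) ∈ tangent Q.C (a • Q.x + Q.φ Q.z) ⊓ ann Q.Pp := by
    refine ⟨der_tan Q.gens hD ct.1 ct.2.1, ?_⟩
    rw [ap_add, ap_smul, add_right_comm]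
    exact add_mem (Q.h41_pair Q.zK kx (pair_der Q.gens hD tl.line tl.ind) a).2
      (Submodule.smul_mem _ _ fun π hπ => Q.h41_kill (Q.P_le_A hπ) Q.h41_x)
  have kw : Q.φ w ∈ Q.Kp Q.x := Q.mem_Kx.2 ⟨0, w, hw, by simp⟩
  obtain ⟨b, hb⟩ := tl.free _ (fun t => by simpa using tl.line 1 t) _ kw.1
  have e2 := Q.h41_pair Q.zK kw hb a
  have h1 := (der1 Q.sm Q.gens hD ct.1 ct.2.1 ct.2.2 e2.1).trans
    (Q.tp Q.zK Q.h41_td ha _ e1 _ e2)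
  rw [dotProduct_add, dotProduct_smul, Q.h41_kill hA kw.1,
    Q.pair_dot hA (w' := w) 0 (by simp) hb, smul_zero, zero_add, neg_eq_zero] at h1
  exact (dotProduct_comm _ _).trans h1

theorem Lam_rank : finrank ℂ Q.Lam = Q.ga + 1 + Q.g := by
  have h1 := Q.H_rank
  have h2 : finrank ℂ Q.H + finrank ℂ Q.Lam = _ := ann_finrank Q.H
  have h3 := Q.ctx.card
  have h4 := Q.g_add
  rw [Q.mb] at h1
  omega

theorem Kx_le_dv : Q.Kp Q.x ≤ dv Q.Sh Q.x := by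
  have h1 : td Q.S Q.x + finrank ℂ Q.Pp = finrank ℂ Q.H + finrank ℂ (dv Q.Sh Q.x) :=
    td_swap Q.S Q.x Q.h
  have h2 : n + 1 ≤ td Q.S Q.x :=
    (Q.h41_tan Q.ctx.mem Q.ctx.ne).ge.trans (Submodule.finrank_mono Q.genx)
  have h3 := Q.H_rank
  have h4 := Q.Kx_rank
  rw [Q.mb] at h3
  exact (Submodule.eq_of_le_of_finrank_le (dv_le_Ky Q.sm Q.gensh Q.ctx0 Q.rth)
    (show finrank ℂ (Q.Kp Q.x) ≤ _ by omega)).ge

/-- FREE' -/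
theorem free' (hw : Q.ZK w) {a : σ → ℂ} (ha : a ∈ Q.Kp Q.x) : ∃ b ∈ Q.Lam,
    Pair Q.C Q.x (Q.φ w) a b ∧ ∀ s : ℂ, s • a + b ∈ Q.Kp (s • Q.x + Q.φ w) := by
  obtain ⟨D, hD, rfl⟩ := Q.Kx_le_dv ha
  have tl := hw.tl
  have k := tl.free_der Q.gensh Q.rth hD
  refine ⟨ap D (Q.φ w), ?_, pair_der Q.gensh hD tl.line tl.ind, k⟩
  simpa using Q.f1 (tl.ct 0) (k 0)

theorem exists_gam : ∃ 𝔤, Q.Gam 𝔤 := by
  obtain ⟨𝔤, h1, h2, h3, h4⟩ := exists_ct Q.sm Q.gensh Q.rth Q.ctx0 Q.Kx_le_dv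
  refine ⟨𝔤, h1, Q.Kx_rank.ge.trans h2, h3, fun α hα h w hw w' hw' => ?_⟩
  rw [dotProduct_comm, Q.B_dot]
  exact h4 α hα h _ (Q.mem_Kx.2 ⟨0, w, hw, by simp⟩) _ (Q.mem_Kx.2 ⟨0, w', hw', by simp⟩)

theorem exists_sd : ∃ ι 𝔰, Q.Sd ι 𝔰 := by
  obtain ⟨ι, h1, h2, h3⟩ := Q.stabK.coord
  obtain ⟨ζ, hζ⟩ : Q.z ∈ LinearMap.range ι := h2.ge Q.zK.2.1
  obtain ⟨a, 𝔭, a0, p1, p2, -, -, p3, p4⟩ := l3c Q.cnt1 ζ
  refine ⟨ι, 𝔭, h1, h2, h3, p1, p2, fun ξ hξ => ?_, ?_⟩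
  · have h4 := (p4 ξ hξ).map h3
    rw [map_smul, hζ] at h4
    exact (Q.sp_ZK subset_rfl ⟨(Q.zK.smul a0).1, (Q.zK.smul a0).2.1⟩ h4).1
  · rwa [← Q.td_z, ← hζ, td_map h3 h1]

theorem Sd.zk {Q : Cf σ n c k} {ι 𝔰} (H : Q.Sd ι 𝔰) {ζ : Fin Q.ga → ℂ} (hζ : ζ ∈ vZ 𝔰)
    (h0 : ζ ≠ 0) : Q.ZK (ι ζ) :=
  ⟨H.mem ζ hζ, H.range ▸ ⟨ζ, rfl⟩, fun h => h0 (H.inj (by rw [h, map_zero]))⟩

end PartMb

end Cf

end Pool.Agent.MP_429080_ag.H73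

/-! The first case. -/

namespace Pool.Agent.MP_429080_ag.H73

open MvPolynomial Module Pool.Agent.EGH Pool.Agent.MP_d171e3_nt Pool.Agent.MP_429080_ag.H26
open Pool.Agent.MP_429080_ag.H26.T

set_option linter.unusedSectionVars false

section lin
variable {V W : Type} [AddCommGroup V] [Module ℂ V] [AddCommGroup W] [Module ℂ W]
  [FiniteDimensional ℂ V]

theorem s3_rk_le {U K : Submodule ℂ V} (h : U ≤ K) (φ : V →ₗ[ℂ] W) :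
    finrank ℂ (K.map φ) + finrank ℂ U ≤ finrank ℂ (U.map φ) + finrank ℂ K := by
  have h1 := rank_inf_ker φ U
  have h2 := rank_inf_ker φ K
  have h3 : finrank ℂ ↥(U ⊓ LinearMap.ker φ) ≤ finrank ℂ ↥(K ⊓ LinearMap.ker φ) :=
    Submodule.finrank_mono (inf_le_inf_right _ h)
  omega

theorem s3_comap {E : Submodule ℂ W} {φ : V →ₗ[ℂ] W} (h : E ≤ LinearMap.range φ) :
    finrank ℂ (E.comap φ) = finrank ℂ E + finrank ℂ (LinearMap.ker φ) := by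
  have h1 := rank_inf_ker φ (E.comap φ)
  rwa [Submodule.map_comap_eq_self h, inf_eq_right.2 (LinearMap.ker_le_comap φ), eq_comm] at h1

end lin

/-- the theorem on tangencies at a point of large transcendence degree -/
theorem sz_td {τ : Type} [Fintype τ] {Z : Set (τ → ℂ)} {k m : ℕ} {S : Set ℂ} {G : Fin m → P τ}
    (hZ : Sm Z k) (hs : Submodule.span ℂ Z = ⊤) (hg : Gens S Z G) (hS : S.Countable) {y : τ → ℂ}
    (hy : y ∈ Z) (h0 : y ≠ 0) {Ω : Submodule ℂ (τ → ℂ)} (hne : Ω ≠ ⊥) (hΩ : Stab S Ω)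
    (hle : Ω ≤ Nm Z y) : td S y + finrank ℂ Ω ≤ k + 1 := by
  obtain ⟨a, 𝔭, ha, hp, hh, hz, -, hd, hsp⟩ := l3c hS y
  have e4 := sz hZ hs LinearMap.id hp hh (fun y' hy' => hg.sp (hsp y' hy') (hZ.cone a _ hy))
    ⟨_, hz, h0⟩ hne fun y' hy' hy0 => hΩ.le_span.trans (Submodule.span_le.2 fun α hα =>
      (Ct.sp hZ hg hα.2 (Ct.smul hZ.toCn ⟨hy, h0, hle hα.1⟩ ha) (hsp y' hy') hy0).2.2)
  omega

namespace Cf
variable {σ : Type} [Fintype σ] {n c k : ℕ} (Q : Cf σ n c k) {D D' : Dr} {w w' : Fin n → ℂ}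
  {α y : σ → ℂ}

theorem s3_gk : Q.g + Q.e ≤ k := by
  have := Q.g_le
  have := Q.e_add
  omega

theorem s3_perp (hw : w ∈ Q.K) (v : Fin n → ℂ) : Q.B Q.h v ⬝ᵥ w = 0 := by
  rw [Q.B_sy, Q.mem_K.1 hw, zero_dotProduct]

theorem s3_f2b (hα : α ∈ Q.Pp) (hw : w ∈ Q.K) (hw' : w' ∈ Q.K) : Q.B α w ⬝ᵥ w' = 0 :=
  (dotProduct_comm _ _).trans (Q.BP_ann hα hw w' hw')

theorem s3_f2c (hD : D ∈ Der Q.Sx) (hw : w ∈ Q.K) (hw' : w' ∈ Q.K) :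
    Q.B (ap D (ap D Q.h)) w ⬝ᵥ w' = 2 * (Q.B Q.h (ap D w) ⬝ᵥ ap D w') := by
  rw [Q.f2' hD hD hw hw', two_mul]

/-- the quadric attached to a conormal vector -/
noncomputable def qd (α : σ → ℂ) : P (Fin n) := tay Q.x Q.φ 2 (ch Q.C Q.x α)

theorem qd_grad (hα : α ∈ Q.A) (w : Fin n → ℂ) : grad (Q.qd α) w = Q.B α w := by
  unfold qd
  rw [← Q.B_tay (ch_spec hα).1, (ch_spec hα).2]

section PartLim

/-- LIMIT -/
theorem lim (hD : D ∈ Der Q.Sx) (hw : Q.ZK w) (h : Q.B (ap D Q.h) w = 0) :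
    ∃ w₀, Q.Good w₀ ∧ Q.B (ap D (ap D Q.h)) w₀ ∈ ann Q.K := by
  revert hw h
  generalize w = z₁
  intro hz h0
  have hπ : ap D Q.h ∈ Q.A := Q.P_le_A (ap_mem hD _)
  have hZ : Sm Q.Z k := Q.ctx.smL
  have hgk := Q.s3_gk
  have h3 := Q.h3
  obtain ⟨𝔮, hq⟩ : ∃ 𝔮 : Ideal (P (Fin n ⊕ Unit)),
      𝔮 = (vI Q.Z).map (rename Sum.inl : P (Fin n) →ₐ[ℂ] P (Fin n ⊕ Unit)) := ⟨_, rfl⟩
  have hqp : 𝔮.IsPrime := hq ▸ ext_prime Unit hZ.prime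
  have hqd : n + 1 ≤ dm 𝔮 + k := by
    have h1 := ext_dm Unit hZ.prime
    have h2 := hZ.dim
    rw [← hq, Fintype.card_unit] at h1
    rw [Fintype.card_fin] at h2
    omega
  have hqv : ∀ y, y ∈ vZ 𝔮 ↔ y ∘ Sum.inl ∈ Q.Z := fun y => by rw [hq, mem_vZ_ext, hZ.closed]
  let v : Fin n → P (Fin n ⊕ Unit) := fun j => rename Sum.inl (pderiv j (Q.qd Q.h)) +
    X (Sum.inr ()) * rename Sum.inl (pderiv j (Q.qd (ap D Q.h)))
  have hv : ∀ y, ev y v =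
      Q.B Q.h (y ∘ Sum.inl) + y (Sum.inr ()) • Q.B (ap D Q.h) (y ∘ Sum.inl) := fun y => by
    rw [← Q.qd_grad Q.hA, ← Q.qd_grad hπ]
    ext j
    simp [ev, v, grad, eval_rename]
  have hva : ∀ y, y ∈ vZ (𝔮 ⊔ Ideal.span (Set.range v)) ↔ y ∘ Sum.inl ∈ Q.Z ∧ ev y v = 0 :=
    fun y => by
      rw [mem_vZ_sup, hqv, mem_vZ_span, Set.forall_mem_range, funext_iff]
      rfl
  have hl := ext_prime Unit (I := vI {z₁}) inferInstance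
  have hlv : ∀ y : Fin n ⊕ Unit → ℂ, y ∈ vZ ((vI {z₁}).map
      (rename Sum.inl : P (Fin n) →ₐ[ℂ] P (Fin n ⊕ Unit))) ↔ y ∘ Sum.inl = z₁ := fun y => by
    rw [mem_vZ_ext]
    refine ⟨fun h => funext fun j => ?_, fun h => h ▸ mem_vZ_iff_le.2 le_rfl⟩
    have := mem_vZ.1 h (X j - MvPolynomial.C (z₁ j)) (gloc_mem.2 (by simp))
    simpa [sub_eq_zero] using this
  have hle : 𝔮 ⊔ Ideal.span (Set.range v) ≤ (vI {z₁}).map
      (rename Sum.inl : P (Fin n) →ₐ[ℂ] P (Fin n ⊕ Unit)) := fun f hf => by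
    rw [← vI_vZ hl]
    refine mem_van.2 fun y hy => mem_vZ.1 ((hva y).2 ?_) f hf
    rw [hv, (hlv y).1 hy, h0, LinearMap.mem_ker.1 hz.2.1, smul_zero, add_zero]
    exact ⟨hz.1, rfl⟩
  obtain ⟨𝔭, hp, hpl⟩ := Ideal.exists_minimalPrimes_le hle
  have hpt : ∀ t : ℂ, (Sum.elim z₁ fun _ => t) ∈ vZ 𝔭 := fun t =>
    gmeet_anti hpl ((hlv _).2 rfl)
  obtain ⟨j, hj⟩ := Function.ne_iff.1 hz.2.2
  have hd := cutk hZ.toCn (alg_nm hZ) Sum.inl hqp (fun y hy => (hqv y).1 hy) v (fun y hy _ => by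
    rw [hv]
    exact Submodule.add_mem _ (Q.B_nm Q.hA ((hqv y).1 hy))
      (Submodule.smul_mem _ _ (Q.B_nm hπ ((hqv y).1 hy)))) hp
    ⟨j, fun h => hj (by simpa using mem_vZ.1 (hpt 0) _ h)⟩
  have ht : X (Sum.inr ()) ∉ 𝔭 := fun h => by simpa using mem_vZ.1 (hpt 1) _ h
  have key : ∀ w' ∈ Q.K, ∀ y ∈ vZ 𝔭, Q.B (ap D Q.h) (y ∘ Sum.inl) ⬝ᵥ ap D w' = 0 := by
    intro w' hw'
    let f : P (Fin n ⊕ Unit) :=
      ∑ j, rename Sum.inl (pderiv j (Q.qd (ap D Q.h))) * MvPolynomial.C (ap D w' j)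
    have hf : ∀ y, eval y f = Q.B (ap D Q.h) (y ∘ Sum.inl) ⬝ᵥ ap D w' := fun y => by
      rw [← Q.qd_grad hπ]
      simp only [f, map_sum, map_mul, eval_rename, eval_C, dotProduct, grad]
    have hm : f ∈ 𝔭 := mem_of_vanish hp.isPrime ht fun y hy hy' => by
      have h1 := ((hva y).1 (gmeet_anti hp.le hy)).2
      rw [eval_X] at hy'
      rw [hv] at h1
      have h2 := congrArg (· ⬝ᵥ w') h1
      have h4 := congrArg (· ⬝ᵥ ap D w') h1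
      simp only [add_dotProduct, smul_dotProduct, zero_dotProduct, smul_eq_mul] at h2 h4
      rw [Q.s3_perp hw', zero_add, Q.B_sy, Q.f2 hD hw', neg_dotProduct, Q.B_sy] at h2
      rw [neg_eq_zero.1 ((mul_eq_zero.1 h2).resolve_left hy'), zero_add] at h4
      rw [hf]
      exact (mul_eq_zero.1 h4).resolve_left hy'
    exact fun y hy => (hf y).symm.trans (mem_vZ.1 hy f hm)
  obtain ⟨𝔭', hp', -⟩ := exists_min_at
    (𝔞 := 𝔭 ⊔ Ideal.span (Set.range fun u : Unit => X (Sum.inr u))) (y := Sum.elim z₁ fun _ => 0)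
    (mem_vZ_sup.2 ⟨hpt 0, mem_vZ_span.2 (by rintro _ ⟨u, rfl⟩; simp)⟩)
  have hd' := cut hp.isPrime _ hp'
  rw [Fintype.card_unit] at hd'
  obtain ⟨ξ, hξ, -, htd, -⟩ := gen Q.cnt1 hp'.isPrime
    ((Ideal.ne_top_iff_one _).1 hp'.isPrime.ne_top)
  obtain ⟨hξ1, hξ2⟩ := mem_vZ_sup.1 (gmeet_anti hp'.le hξ)
  have hξ0 : ξ (Sum.inr ()) = 0 := by simpa using mem_vZ_span.1 hξ2 _ ⟨(), rfl⟩
  have htd' : td Q.S1 ξ ≤ td Q.S1 (ξ ∘ Sum.inl) := td_le_of_rt (by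
    rintro (j | u)
    exacts [rt_adj _ (ξ ∘ Sum.inl) j, hξ0 ▸ zero_mem _])
  obtain ⟨h4, h5⟩ := (hva ξ).1 (gmeet_anti hp.le hξ1)
  rw [hv, hξ0, zero_smul, add_zero] at h5
  have hzk : Q.ZK (ξ ∘ Sum.inl) := ⟨h4, h5, fun e => by
    rw [e, (td_eq_zero (S := Q.S1) (ξ := (0 : Fin n → ℂ))).2 fun _ => zero_mem _] at htd'
    omega⟩
  refine ⟨_, Q.good_of_td hzk (by omega), fun w' hw' => ?_⟩
  have h6 := key w' hw' ξ hξ1
  rw [Q.f2 hD h5, neg_dotProduct, neg_eq_zero] at h6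
  rw [dotProduct_comm, Q.s3_f2c hD h5 hw', h6, mul_zero]

theorem om_le (hD : D ∈ Der Q.Sx) (hw : Q.Good w) (h : Q.B (ap D (ap D Q.h)) w ∈ ann Q.K) :
    finrank ℂ (Q.K.map (Q.B (ap D Q.h))) ≤ k := by
  revert hw h
  generalize w = w₀
  intro hw h0
  have hπ : ap D Q.h ∈ Q.Pp := ap_mem hD _
  have hl : ap D (ap D Q.h) ∈ Q.A := Q.stabA D hD _ (Q.P_le_A hπ)
  have h2 := hw.tgood.2
  obtain ⟨π', hπ', e⟩ : Q.B (ap D (ap D Q.h)) w₀ ∈ Q.BP w₀ := by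
    rw [hw.eq, ← hw.tgood.eq]
    exact ⟨Q.B_nm hl hw.1.1, h0⟩
  have hiso : ∀ u ∈ Q.T w₀ ⊓ Q.K, ∀ u' ∈ Q.T w₀ ⊓ Q.K, Q.B Q.h (ap D u) ⬝ᵥ ap D u' = 0 := by
    intro u hu u' hu'
    have h3 := Q.quad (Submodule.sub_mem _ hl (Q.P_le_A hπ')) hw.1.1 hw.1.2.2 (by
      rw [map_sub, LinearMap.sub_apply, ← e]
      exact sub_self _) _ hu.1 _ hu'.1
    rw [map_sub, LinearMap.sub_apply, sub_dotProduct, Q.s3_f2b hπ' hu.2 hu'.2, sub_zero,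
      Q.s3_f2c hD hu.2 hu'.2] at h3
    exact (mul_eq_zero.1 h3).resolve_left two_ne_zero
  have hr : (Q.T w₀ ⊓ Q.K).map (Q.B (ap D Q.h)) ≤ LinearMap.range (Q.B Q.h) := by
    rintro _ ⟨u, hu, rfl⟩
    exact ⟨-ap D u, by rw [map_neg, Q.f2 hD hu.2]⟩
  have ha : (Q.T w₀ ⊓ Q.K).map (Q.B (ap D Q.h)) ≤
      ann (((Q.T w₀ ⊓ Q.K).map (Q.B (ap D Q.h))).comap (Q.B Q.h)) := by
    rintro _ ⟨u, hu, rfl⟩ a ⟨u', hu', e'⟩
    have h3 : a + ap D u' ∈ Q.K := by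
      change Q.B Q.h _ = 0
      rw [map_add, ← e', Q.f2 hD hu'.2, neg_add_cancel]
    have h4 := Q.s3_f2b hπ hu.2 h3
    rw [dotProduct_add, Q.f2 hD hu.2, neg_dotProduct _ (ap D u'), hiso u hu u' hu', neg_zero,
      add_zero, ← Q.f2 hD hu.2] at h4
    exact (dotProduct_comm _ _).trans h4
  have e1 := Submodule.finrank_mono ha
  have e2 := ann_finrank (((Q.T w₀ ⊓ Q.K).map (Q.B (ap D Q.h))).comap (Q.B Q.h))
  have e3 := s3_comap hr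
  have e4 := rank_inf_ker (Q.B Q.h) (Q.T w₀)
  have e5 := s3_rk_le (inf_le_right : Q.T w₀ ⊓ Q.K ≤ Q.K) (Q.B (ap D Q.h))
  have e6 := tangent_rank Q.ctx.smL hw.1.1 hw.1.2.2
  have e7 := Q.rho_eq
  rw [Fintype.card_fin] at e2 e6
  change _ = _ + Q.ga at e3
  change finrank ℂ (Q.J w₀) + finrank ℂ ↥(Q.T w₀ ⊓ Q.K) = _ at e4
  change _ ≤ _ + Q.ga at e5
  change finrank ℂ (Q.T w₀) + _ = _ at e6
  omega

theorem exists_z1 (hD : D ∈ Der Q.Sx) (h : 2 * Q.e ≤ Q.s) :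
    ∃ w, Q.ZK w ∧ Q.B (ap D Q.h) w = 0 := by
  obtain ⟨ι, 𝔰, hs⟩ := Q.exists_sd
  have hr : Q.K.map (Q.B (ap D Q.h)) ≤ ann Q.K := by
    rintro _ ⟨u, hu, rfl⟩
    exact Q.BP_ann (ap_mem hD _) hu
  have e1 := Submodule.finrank_mono hr
  have e2 := ann_finrank Q.K
  have e3 := Q.rho_eq
  have e4 := hs.dim
  have e5 := rank_inf_ker ((Q.B (ap D Q.h)).comp ι) ⊤
  rw [Submodule.map_comp, Submodule.map_top, hs.range, top_inf_eq, finrank_top,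
    finrank_fintype_fun_eq_card, Fintype.card_fin] at e5
  rw [Fintype.card_fin] at e2
  change Q.ga + _ = _ at e2
  obtain ⟨ζ, h1, h2, h3⟩ := meet_sub hs.prime hs.hom (K := ⊤)
    (W := LinearMap.ker ((Q.B (ap D Q.h)).comp ι)) (fun _ _ => trivial) le_top (by
      rw [finrank_top, finrank_fintype_fun_eq_card, Fintype.card_fin]
      omega)
  exact ⟨_, hs.zk h1 h2, h3⟩

end PartLim

section PartA0

theorem s3_kx (hw : w ∈ Q.K) (a : ℂ) : Q.φ w + a • Q.x ∈ Q.Lam :=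
  Q.f1 Q.ctx0 (Q.mem_Kx.2 ⟨a, w, hw, rfl⟩)

theorem s3_space (hD : D ∈ Der Q.Sx) : ∃ R : Submodule ℂ (σ → ℂ), Q.Lam ≤ R ∧
    (∀ y ∈ Q.Lam, ap D y ∈ R) ∧
    finrank ℂ R ≤ Q.ga + 1 + 2 * Q.g + finrank ℂ (Q.K.map (Q.B (ap D Q.h))) := by
  have hx : ap D Q.x = 0 := (mem_Der_adj.1 hD).2
  have hm : ∀ u ∈ (Q.K ⊓ LinearMap.ker (Q.B (ap D Q.h))).map Q.φ ⊔ ℂ ∙ Q.x,
      u ∈ Q.Lam ∧ ap D u ∈ Q.Lam := by
    intro u hu
    obtain ⟨_, ⟨w, hw, rfl⟩, b, hb, rfl⟩ := Submodule.mem_sup.1 hu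
    obtain ⟨a, rfl⟩ := Submodule.mem_span_singleton.1 hb
    refine ⟨Q.s3_kx hw.1 a, ?_⟩
    rw [ap_add, ap_smul, hx, smul_zero, zero_add, Q.rat D hD]
    exact Q.s3_kx (neg_eq_zero.1 ((Q.f2 hD hw.1).symm.trans hw.2)) _
  obtain ⟨R, h1, h2, h3⟩ := der_ext D (fun u hu => (hm u hu).1) fun u hu => (hm u hu).2
  refine ⟨R, h1, h2, ?_⟩
  have h4 : (Q.K ⊓ LinearMap.ker (Q.B (ap D Q.h))).map Q.φ <
      (Q.K ⊓ LinearMap.ker (Q.B (ap D Q.h))).map Q.φ ⊔ ℂ ∙ Q.x := by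
    refine lt_of_le_of_ne le_sup_left fun e => Q.ctx.ne ?_
    obtain ⟨w, -, hw⟩ : Q.x ∈ (Q.K ⊓ LinearMap.ker (Q.B (ap D Q.h))).map Q.φ :=
      e ▸ Submodule.mem_sup_right (Submodule.mem_span_singleton_self _)
    exact Submodule.disjoint_def.1 Q.ctx.frame.2.1 _ ⟨w, hw⟩ (Submodule.mem_span_singleton_self _)
  have h5 := Submodule.finrank_lt_finrank_of_lt h4
  rw [← (Submodule.equivMapOfInjective Q.φ Q.ctx.frame.1 _).finrank_eq] at h5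
  have h6 := rank_inf_ker (Q.B (ap D Q.h)) Q.K
  have h7 := Q.Lam_rank
  change _ = Q.ga at h6
  omega

theorem lam_gam (hD : D ∈ Der Q.Sx) (h : finrank ℂ (Q.K.map (Q.B (ap D Q.h))) ≤ k)
    {𝔤 : Ideal (P σ)} (H : Q.Gam 𝔤) : ∀ y ∈ vZ 𝔤, ap D (ap D Q.h) ⬝ᵥ y = 0 := by
  obtain ⟨R, h1, h2, h3⟩ := Q.s3_space hD
  have hD0 : D ∈ Der Q.S := (mem_Der_adj.1 hD).1
  obtain ⟨S', hS, hS', hR⟩ := exists_stab (adj_countable Q.cnt Q.h) R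
  have hG : Gens S' Q.C Q.G := Q.gens.mono' ((subset_adj _ _).trans hS')
  have hh : Rt S' Q.h := (rt_adj _ _).mono' hS'
  by_contra hc
  have hf : (∑ i, MvPolynomial.C (ap D (ap D Q.h) i) * X i : P σ) ∉ 𝔤 := fun hm =>
    hc fun y hy => (eval_dot _ y).symm.trans (mem_vZ.1 hy _ hm)
  obtain ⟨y, hy, hne, htd, -⟩ := gen hS H.prime hf
  rw [eval_dot] at hne
  have hct := H.ct y hy fun e => hne (by rw [e, dotProduct_zero])
  have hyK := self_mem_Ky Q.ctx.sm hct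
  have hDy := der_tan Q.gens hD0 hct.1 hct.2.1
  have h4 : II Q.C y Q.h (ap D y) (ap D y) ≠ 0 := fun e => by
    have h5 := ap_dot D (ap D Q.h) y
    rw [Q.f1 hct hyK _ (ap_mem hD0 _), map_zero,
      der1 Q.ctx.sm Q.gens hD0 hct.1 hct.2.1 hct.2.2 hDy, e, add_zero] at h5
    exact hne h5.symm
  have h5 : Q.Kp y < Q.Kp y ⊔ ℂ ∙ ap D y := lt_of_le_of_ne le_sup_left fun e => by
    have : ap D y ∈ Q.Kp y := e ▸ Submodule.mem_sup_right (Submodule.mem_span_singleton_self _)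
    exact h4 (this.2 _ hDy)
  have h6 := Submodule.finrank_lt_finrank_of_lt h5
  have h7 : td S' y ≤ finrank ℂ (Q.Kp y) := Submodule.finrank_mono (dv_le_Ky Q.ctx.sm hG hct hh)
  have h8 := H.dim
  have h9 := Q.rho_eq
  have h10 := Q.s3_gk
  have h11 := Q.h3
  have hm : ap D y ∈ Q.Kp y ⊔ ℂ ∙ ap D y :=
    Submodule.mem_sup_right (Submodule.mem_span_singleton_self _)
  exact h4 (neg_sub Q.ctx.sm hG hS hh hct
    (sup_le (show Q.Kp y ≤ _ from inf_le_left) ((Submodule.span_singleton_le_iff_mem _ _).2 hDy))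
    (sup_le ((Q.f1 hct).trans h1)
      ((Submodule.span_singleton_le_iff_mem _ _).2 (h2 y (Q.f1 hct hyK)))) hR (by omega) hm hm)

theorem a0 (h : 2 * Q.e ≤ Q.s ∨ Q.g = 0) : Q.A0 := by
  intro D hD w hw w' hw'
  have hl : ap D (ap D Q.h) ∈ Q.A := Q.stabA D hD _ (Q.P_le_A (ap_mem hD _))
  suffices h1 : Q.B (ap D (ap D Q.h)) w ⬝ᵥ w' = 0 from
    (mul_eq_zero.1 ((Q.s3_f2c hD hw hw').symm.trans h1)).resolve_left two_ne_zero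
  rcases h with h | h
  · obtain ⟨𝔤, hg⟩ := Q.exists_gam
    obtain ⟨z₁, h1, h2⟩ := Q.exists_z1 hD h
    obtain ⟨w₀, h3, h4⟩ := Q.lim hD h1 h2
    exact (dotProduct_comm _ _).trans
      (hg.jet _ hl (Q.lam_gam hD (Q.om_le hD h3 h4) hg) w hw w' hw')
  · have e1 := Q.A_rank
    have e2 := Q.g_add
    exact Q.s3_f2b ((Submodule.eq_of_le_of_finrank_le Q.P_le_A (by omega)).ge hl) hw hw'

end PartA0

section PartPair

theorem pair0 (h : Q.A0) (hα : α ∈ Q.K0) (hw : w ∈ Q.K) : Q.B α w ∈ Q.N Q.z := by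
  obtain ⟨D, hD, rfl⟩ := mem_dv.1 (Q.K0_le_P hα)
  refine nm_iff.2 fun v hv => ?_
  obtain ⟨D', hD', rfl⟩ := mem_dv.1 (Q.genz hv)
  have h1 : Q.B Q.h (ap D Q.z) = 0 := neg_eq_zero.1 ((Q.f2 hD Q.zK.2.1).symm.trans hα.2)
  have h2 := h (D + D') (Submodule.add_mem _ hD hD') w hw Q.z Q.zK.2.1
  rw [show ap (D + D') w = ap D w + ap D' w from rfl,
    show ap (D + D') Q.z = ap D Q.z + ap D' Q.z from rfl, map_add, add_dotProduct, dotProduct_add,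
    dotProduct_add, h D hD w hw _ Q.zK.2.1, h D' hD' w hw _ Q.zK.2.1, Q.B_sy _ (ap D' w), h1,
    zero_dotProduct, zero_add, add_zero, add_zero] at h2
  rw [Q.f2 hD hw, neg_dotProduct, h2, neg_zero]

theorem pair1 (h : ∀ α ∈ Q.K0, ∀ w ∈ Q.K, Q.B α w = 0) : False := by
  obtain ⟨ι, 𝔰, hs⟩ := Q.exists_sd
  let κ : (Fin Q.ga ⊕ Unit → ℂ) →ₗ[ℂ] (σ → ℂ) :=
    (LinearMap.proj (Sum.inr ())).smulRight Q.x +
      Q.φ.comp (ι.comp (LinearMap.funLeft ℂ ℂ Sum.inl))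
  have hκ : ∀ y, κ y = y (Sum.inr ()) • Q.x + Q.φ (ι (y ∘ Sum.inl)) := fun _ => rfl
  have hp := ext_prime Unit hs.prime
  have hd := ext_dm Unit hs.prime
  have e1 := hs.dim
  have e2 := sz Q.ctx.sm Q.span κ hp (homI_map_rename (w := w0 _) Sum.inl hs.hom)
    (fun y hy => by
      rw [hκ]
      simpa using (hs.mem _ ((mem_vZ_ext _).1 hy)).1 (y (Sum.inr ())) 1)
    (by
      obtain ⟨y, hy, h0⟩ := exists_ne_pt hp (by omega) 0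
      exact ⟨y, hy, h0⟩)
    Q.K0_ne fun y hy h0 α hα => by
      rw [hκ]
      by_cases hz : ι (y ∘ Sum.inl) = 0
      · have h1 : y (Sum.inr ()) ≠ 0 := fun e => h0 (funext fun
          | Sum.inl i => congrFun (hs.inj (hz.trans (map_zero ι).symm)) i
          | Sum.inr _ => e)
        rw [hz, map_zero, add_zero, nm_smul Q.ctx.sm.toCn h1]
        exact hα.1
      · exact (Q.tl hα.1 (hs.mem _ ((mem_vZ_ext _).1 hy)) hz
          (h α hα _ (hs.range ▸ ⟨_, rfl⟩))).ns _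
  have e3 := Q.g_add
  have e5 := Q.P_rank
  have e6 := Q.s3_gk
  have e7 := Q.h3
  have e8 := Q.s_add
  rw [Fintype.card_unit] at hd
  change _ + Q.mu ≤ _ at e2
  omega

theorem pair2 (h : Q.A0) (hα : α ∈ Q.K0) (hw : w ∈ Q.K) : Q.B α w = 0 := by
  obtain ⟨π, hπ, hgen, -⟩ := gen_sub (adj_countable Q.cnt1 Q.z) Q.K0
  have hder : ∀ D ∈ Der Q.S1, ∀ α ∈ Q.A, ∀ w ∈ Q.K, Q.B α w = 0 →
      Q.B (ap D α) w = Q.B α (-ap D w) := fun D hD α hα w _ e => by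
    have h1 := Q.der_B (Der_anti' Q.x_1 hD) hα w
    rw [e, ap_zero] at h1
    rw [map_neg]
    exact eq_neg_of_add_eq_zero_left h1.symm
  by_cases hΩ : Q.K.map (Q.B π) = ⊥
  · obtain ⟨D, hD, rfl⟩ := mem_dv.1 (hgen hα)
    have hD1 : D ∈ Der Q.S1 := (mem_Der_adj.1 hD).1
    have h1 : ∀ u ∈ Q.K, Q.B π u = 0 := fun u hu => (Submodule.eq_bot_iff _).1 hΩ _ ⟨u, hu, rfl⟩
    rw [hder D hD1 π hπ.1 w hw (h1 w hw)]
    exact h1 _ (Submodule.neg_mem _ (Q.stabK D hD1 w hw))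
  exfalso
  have e1 := td_swap Q.S1 Q.z π
  have e2 : Q.mu ≤ td (adj Q.S1 Q.z) π := Submodule.finrank_mono hgen
  have e3 : td Q.S1 π ≤ Q.mu + finrank ℂ (Q.K.map (Q.B π)) := by
    have h1 := rank_inf_ker (Q.B.flip Q.z) (dv Q.S1 π)
    have h2 : dv Q.S1 π ≤ Q.A := (Q.stabA.mono' Q.x_1).dv_le hπ.1
    have h3 : finrank ℂ ↥(dv Q.S1 π ⊓ LinearMap.ker (Q.B.flip Q.z)) ≤ Q.mu :=
      Submodule.finrank_mono (inf_le_inf_right _ h2)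
    have h4 : (dv Q.S1 π).map (Q.B.flip Q.z) ≤ Q.K.map (Q.B π) := by
      rintro _ ⟨_, ⟨D, hD, rfl⟩, rfl⟩
      exact ⟨_, Submodule.neg_mem _ (Q.stabK D hD _ Q.zK.2.1),
        (hder D hD π hπ.1 _ Q.zK.2.1 hπ.2).symm⟩
    have h5 := Submodule.finrank_mono h4
    unfold td
    omega
  have hS := adj_countable Q.cnt1 π
  obtain ⟨m, F, hF⟩ := Q.gensZ
  have hF' : Gens (adj Q.S1 π) Q.Z F := hF.mono' (Q.x_1.trans (subset_adj _ _))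
  have hst : Stab (adj Q.S1 π) (Q.K.map (Q.B π)) := by
    rintro D hD _ ⟨w, hw, rfl⟩
    obtain ⟨h1, h2⟩ := mem_Der_adj.1 hD
    refine ⟨_, Q.stabK D h1 w hw, ?_⟩
    rw [Q.der_B (Der_anti' Q.x_1 h1) hπ.1, h2, map_zero, LinearMap.zero_apply, zero_add]
  have e4 := sz_td Q.smZ Q.spanL hF' hS Q.zmem Q.zne hΩ hst (by
    rintro _ ⟨u, hu, rfl⟩
    exact Q.pair0 h hπ hu)
  have e5 := Q.td_z
  have e6 := Q.s3_gk
  have e7 := Q.h3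
  have e8 := Q.s_add
  omega

theorem case1 (h : 2 * Q.e ≤ Q.s ∨ Q.g = 0) : False :=
  Q.pair1 fun _ hα _ hw => Q.pair2 (Q.a0 h) hα hw

end PartPair

end Cf

end Pool.Agent.MP_429080_ag.H73

/-! The second case: regularity along the lines. -/

namespace Pool.Agent.MP_429080_ag.H73

open MvPolynomial Module Pool.Agent.EGH Pool.Agent.MP_d171e3_nt Pool.Agent.MP_429080_ag.H26
open Pool.Agent.MP_429080_ag.H26.T

set_option linter.unusedSectionVars false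

namespace Cf
variable {σ : Type} [Fintype σ] {n c k : ℕ} (Q : Cf σ n c k) {D D' : Dr} {w w' : Fin n → ℂ}
  {α y : σ → ℂ}

section PartReg

/-- REG -/
theorem reg (hw : Q.ZK w) (h : ¬ Q.TGood w) :
    ∃ a : ℂ, Q.ga + 2 ≤ finrank ℂ (Q.Kp (a • Q.x + Q.φ w)) :=
  Q.reg38 Q.rho_eq hw h fun _ ha => let ⟨b, _, hb⟩ := Q.free' hw ha; ⟨b, hb⟩

/-- R -/
theorem rr {m : ℕ} (hm : 1 ≤ m) (hy : Q.Ln y) (h : finrank ℂ (Q.Kp y) = Q.ga + 1 + m) :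
    td Q.S1 y + 2 * m ≤ 2 * Q.g + 1 := by
  have h0 := hy.ct.2.1
  obtain ⟨a, w, hw, rfl⟩ := hy
  have h1 := Q.Kx_rank
  have h2 := Q.Lam_rank
  have h3 := rr_core Q.sm Q.gens1 Q.cnt1 Q.rtx1 Q.rth1 Q.ctx.free Q.ctx0 (Q.stabLam.mono' Q.h_1)
    (fun _ => Q.f1) (finrank ℂ Q.Lam + 1) _ (Q.mem_Kx.2 ⟨a, w, hw.2.1, add_comm _ _⟩)
    (fun s => by
      rw [add_right_comm, ← add_smul]
      exact (hw.tl.ct _).1) h0
  unfold Kp at h h1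
  omega

theorem tgood_of_td (hw : Q.ZK w) (hd : 2 * Q.g ≤ td Q.S1 w) : Q.TGood w := by
  by_contra h
  obtain ⟨a, ha⟩ := Q.reg hw h
  obtain ⟨m, hm⟩ := Nat.exists_eq_add_of_le ha
  have h1 := Q.rr (m := m + 1) (by omega) ⟨a, w, hw, rfl⟩ (by omega)
  have h2 := td_line_le Q.rtx1 Q.rat1 Q.inj a w
  omega

end PartReg

section PartNose
variable {ι : (Fin Q.ga → ℂ) →ₗ[ℂ] (Fin n → ℂ)} {𝔰 𝔷 : Ideal (P (Fin Q.ga))}

theorem kill (hw : Q.TGood w) (hα : α ∈ Q.A) (h : Q.B α w ∈ ann Q.K) (s : ℂ) :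
    ∀ v ∈ Q.Kp (s • Q.x + Q.φ w), α ⬝ᵥ v = 0 := by
  intro v hv
  have H := hw.1.tl
  obtain ⟨u, hu, hB⟩ := Q.mem_J.1 (hw.eq.le ⟨Q.B_nm hα hw.1.1, h⟩)
  have hW : Q.φ u ∈ W0 Q.C Q.x (Q.φ w) := by
    rw [Q.W0_eq hw.1.1 hw.1.2.2]
    exact Submodule.mem_sup_right ⟨u, hu, rfl⟩
  obtain ⟨a, b, hp, rfl⟩ := span_pairs H.sm H.line H.ind H.free s hv.1
  obtain ⟨w', t, ha⟩ := frame_decomp Q.ctx.frame (gline_fst hp)
  have h1 := H.pencil0 hW hp s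
  rw [II_sy, hv.2 _ (W0_le Q.sm.toCn s hW), ha, map_add, map_smul, II_sy _ _ _ _ Q.x,
    II_self Q.sm Q.ctx.mem Q.ctx.ne Q.hA (frame_mem Q.ctx.frame u), smul_zero, add_zero,
    ← Q.B_dot, hB] at h1
  rw [dotProduct_add, dotProduct_smul, Q.pair_dot hα t ha hp, ← h1,
    mem_tangent_nm.1 (gline_fst hp) α hα]
  simp

theorem alg_NK (H : Q.Sd ι 𝔰) (hZ : Cn (vZ 𝔷)) (hg : ∀ ζ ∈ vZ 𝔷, ζ ≠ 0 → Q.TGood (ι ζ)) :
    Alg (vZ 𝔷) (fun ζ => (Q.N (ι ζ)).map (tr ι)) Q.ka := by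
  have key : ∀ ζ ∈ vZ 𝔷, fb (Submodule.span (P (Fin Q.ga))
      {q | ∃ f ∈ vI Q.Z, ∃ d, f.IsHomogeneous (d + 1) ∧ (fun i => pderiv i (pull ι f)) = q} ⊔
        pw (Fin Q.ga) (vI (vZ 𝔷))) ζ = (Q.N (ι ζ)).map (tr ι) := by
    intro ζ hζ
    rw [fb_span_sup hζ, N, nm_hom Q.smZ.toCn, Submodule.map_span]
    congr 1
    ext v
    constructor
    · rintro ⟨q, ⟨f, hf, d, hd, rfl⟩, rfl⟩
      exact ⟨_, ⟨f, hf, d, hd, rfl⟩, (grad_pull ι f ζ).symm⟩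
    · rintro ⟨_, ⟨f, hf, d, hd, rfl⟩, rfl⟩
      exact ⟨_, ⟨f, hf, d, hd, rfl⟩, grad_pull ι f ζ⟩
  refine ⟨_, ⟨?_, le_sup_right, fun ζ hζ h0 => ?_⟩, fun ζ hζ _ => key ζ hζ⟩
  · refine (homM_span ?_).sup (homM_pw hZ.homI)
    rintro q ⟨f, _, d, hd, rfl⟩
    refine ⟨((d : ℤ), 0), fun i => ?_⟩
    have := (pull_hom ι hd).pderiv (i := i)
    simpa only [Pi.zero_apply, sub_zero, add_tsub_cancel_right] using isWH_w0.2 this
  · have h1 := rank_inf_ker (tr ι) (Q.N (ι ζ))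
    have h2 := hg ζ hζ h0
    rw [show LinearMap.ker (tr ι) = ann Q.K from Submodule.ext fun α => by
      rw [LinearMap.mem_ker, tr_eq_zero, H.range], h2.eq, h2.2,
      show finrank ℂ (Q.N (ι ζ)) = k from Q.smZ.rk _ h2.1.1 h2.1.2.2] at h1
    have := Q.e_add
    rw [key ζ hζ]
    omega

/-- NOSE -/
theorem nose (H : Q.Sd ι 𝔰) (hp : 𝔷.IsPrime) (hh : HomI (w0 (Fin Q.ga)) 𝔷)
    (hd : Q.g + Q.ka ≤ dm 𝔷) (h1 : 0 < Q.g) (hg : ∀ ζ ∈ vZ 𝔷, ζ ≠ 0 → Q.TGood (ι ζ))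
    (hα : α ∈ Q.A) (hP : α ∉ Q.Pp) {ζ : Fin Q.ga → ℂ} (hζ : ζ ∈ vZ 𝔷) (h0 : ζ ≠ 0) :
    Q.B α (ι ζ) ∉ ann Q.K := by
  intro hB
  obtain ⟨𝔤, HG⟩ := Q.exists_gam
  have hlam : (∑ i, MvPolynomial.C (α i) * X i : P σ) ∉ 𝔤 := fun hm =>
    hP (Q.mem_P hα (Q.good_z.tgood.eq.le ⟨Q.B_nm hα Q.zmem, HG.jet α hα
      (fun y hy => by simpa only [dotProduct, map_sum, map_mul, eval_C, eval_X] using mem_vZ.1 hy _ hm) _ Q.zK.2.1⟩))
  have hZ := cn_vZ hp hh (by omega)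
  obtain ⟨F, hF, rfl⟩ := mem_nm.1 hα
  obtain ⟨v, hvd⟩ : ∃ v : Fin Q.ga → P (Fin Q.ga),
      v = fun a => pderiv a (pull ι (tay Q.x Q.φ 2 F)) := ⟨_, rfl⟩
  have hv : ∀ ζ, ev ζ v = tr ι (Q.B (grad F Q.x) (ι ζ)) := fun ζ => by
    rw [Q.B_tay hF, ← grad_pull, hvd]
    rfl
  have hv0 : ∀ ζ, ζ ∈ vZ (Ideal.span (Set.range v)) ↔ Q.B (grad F Q.x) (ι ζ) ∈ ann Q.K :=
    fun ζ => by
      rw [← H.range, ← tr_eq_zero, ← hv, mem_vZ_span, Set.forall_mem_range, funext_iff]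
      rfl
  obtain ⟨𝔭, hm, hζp⟩ := exists_min_at (mem_vZ_sup.2 ⟨hζ, (hv0 ζ).2 hB⟩)
  have hpp := hm.isPrime
  have hph : HomI (w0 (Fin Q.ga)) 𝔭 := hmin (hh.sup (homI_span (by
    rintro _ ⟨a, rfl⟩
    rw [hvd]
    exact ⟨_, isWH_w0.2 ((pull_hom ι (tay_hom 2 F)).pderiv (i := a))⟩))) hm
  have hin : ∀ η ∈ vZ 𝔭, η ∈ vZ 𝔷 ∧ Q.B (grad F Q.x) (ι η) ∈ ann Q.K := fun η hη =>
    (mem_vZ_sup.1 (mem_vZ.2 fun f hf => mem_vZ.1 hη f (hm.le hf))).imp_right (hv0 η).1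
  have hdim := cutk hZ (Q.alg_NK H hZ hg) id hp (fun _ hy => hy) v
    (fun η hη h0 => hv η ▸ Submodule.mem_map_of_mem (Q.B_nm hα (hg η hη h0).1.1)) hm (by
      obtain ⟨j, hj⟩ := Function.ne_iff.1 h0
      exact ⟨j, fun h => hj (by simpa using mem_vZ.1 hζp _ h)⟩)
  obtain ⟨S', hS', hle, hsp⟩ := exists_sp 𝔭 Q.cnt1
  obtain ⟨η, hη, -, hηd, -⟩ := gen hS' hpp ((Ideal.ne_top_iff_one _).1 hpp.ne_top)
  have hη0 : η ≠ 0 := ne_of_td (S := S') (by omega)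
  obtain ⟨a, ha, -⟩ := gen_one (adj_countable hS' (ι η))
  have hw := hg η (hin η hη).1 hη0
  have t1 := td_line (Q.rtx1.mono' hle) (Q.rat1.mono' hle) Q.inj ha
  rw [td_map (H.rat.mono' hle) H.inj] at t1
  obtain ⟨y, hy⟩ : ∃ y, y = a • Q.x + Q.φ (ι η) := ⟨_, rfl⟩
  have hct : Ct Q.C Q.h y := hy ▸ hw.1.tl.ct a
  rw [← hy] at t1
  obtain ⟨y₁, hy₁, hne, hd₁, -⟩ := gen (adj_countable hS' y) HG.prime hlam
  have hgd := HG.dim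
  have hct₁ := HG.ct y₁ hy₁ (ne_of_td (S := adj S' y) (by omega))
  have t2 := td_swap S' y (y₁ - y)
  have t3 := td_add (p := y₁ - y) (rt_adj S' y)
  have t4 := (Q.stabLam.mono' (Q.h_1.trans hle)).td_le
    (sub_mem (Q.f1 hct₁ (self_mem_Ky Q.sm hct₁)) (Q.f1 hct (self_mem_Ky Q.sm hct)))
  have t5 := Q.Lam_rank
  rw [add_sub_cancel] at t3
  have hle' := hle.trans (subset_adj S' (y₁ - y))
  obtain ⟨b, y₀, hb, hy0, hs, hk⟩ := sec_ker Q.sm (Q.gens1.mono' hle') (adj_countable hS' _)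
    (Q.rth1.mono' hle') (rt_adj S' (y₁ - y)) hct (by rwa [add_sub_cancel]) (by omega)
  have e : b • y = (b * a) • Q.x + (Q.φ ∘ₗ ι) (b • η) := by
    rw [hy, smul_add, smul_smul, map_smul]
    rfl
  rw [e] at hs
  obtain ⟨a₀, η₀, rfl, hs'⟩ := sp_line (φ := Q.φ ∘ₗ ι) (Q.rtx1.mono' hle')
    (fun D hD u => by
      rw [LinearMap.comp_apply, Q.rat1.mono' hle' D hD, H.rat.mono' hle' D hD]
      rfl)
    (fun s u h => ⟨H.inj ((Q.inj s _ h).1.trans (map_zero ι).symm), (Q.inj s _ h).2⟩) hs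
  have hη₀ := hin η₀ (hsp _ (cone_of_homI hph b hη) _ (hs'.anti' (subset_adj _ _)))
  have h2 : grad F Q.x ⬝ᵥ (y₁ - y) = 0 := by
    rcases eq_or_ne η₀ 0 with rfl | h
    · rw [map_zero, add_zero] at hk hy0
      exact nm_iff.1 hα _ (tangent_smul Q.sm.toCn (left_ne_zero_of_smul hy0) Q.x ▸ hk.1)
    · exact Q.kill (hg η₀ hη₀.1 h) hα hη₀.2 a₀ _ hk
  have h3 : grad F Q.x ⬝ᵥ y = 0 :=
    nm_iff.1 hα _ (Q.mem_Kx.2 ⟨a, ι η, hw.1.2.1, hy.trans (add_comm _ _)⟩).1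
  rw [dotProduct_sub, h3, sub_zero] at h2
  exact hne (by simpa only [map_sum, map_mul, eval_C, eval_X, dotProduct] using h2)

/-- AVOID -/
theorem exists_zz (H : Q.Sd ι 𝔰) (h1 : 0 < Q.g) : ∃ (𝔷 : Ideal (P (Fin Q.ga)))
    (K' : Submodule ℂ (Fin Q.ga → ℂ)), 𝔷.IsPrime ∧ HomI (w0 (Fin Q.ga)) 𝔷 ∧ 𝔰 ≤ 𝔷 ∧
      (∀ ζ ∈ vZ 𝔷, ζ ∈ K') ∧ Q.ga + 1 ≤ finrank ℂ K' + 2 * Q.g ∧
      Q.s + 1 + finrank ℂ K' ≤ dm 𝔷 + Q.ga ∧ ∀ ζ ∈ vZ 𝔷, ζ ≠ 0 → Q.TGood (ι ζ) := by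
  obtain ⟨l, hl⟩ := avoid Q.cnt1 (T := {ζ | Q.ZK (ι ζ) ∧ ¬ Q.TGood (ι ζ)}) (d := 2 * Q.g - 1)
    (fun a ha ζ hζ => by
      rw [Set.mem_ofPred_eq, map_smul]
      exact ⟨hζ.1.smul ha, fun h => hζ.2 ⟨hζ.1, Q.J_smul ha _ ▸ h.2⟩⟩)
    fun ζ hζ _ => by
      by_contra h
      exact hζ.2 (Q.tgood_of_td hζ.1 (by rw [td_map H.rat H.inj]; omega))
  obtain ⟨𝔷, z1, z2, z3, z4, z5⟩ :=
    H73.cut_sub H.prime H.hom (ann (Submodule.span ℂ (Set.range l)))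
  have h2 := ann_finrank (Submodule.span ℂ (Set.range l))
  have h3 : finrank ℂ (Submodule.span ℂ (Set.range l)) ≤ 2 * Q.g - 1 :=
    (finrank_range_le_card (R := ℂ) l).trans (Fintype.card_fin _).le
  have h4 := H.dim
  rw [Fintype.card_fin] at h2 z5
  refine ⟨𝔷, _, z1, z2, z3, z4, by omega, by omega, fun ζ hζ h0 => ?_⟩
  by_contra h
  exact h0 (hl ζ ⟨H.zk (gmeet_anti z3 hζ) h0, h⟩ fun i =>
    z4 ζ hζ _ (Submodule.subset_span ⟨i, rfl⟩))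

end PartNose

end Cf

end Pool.Agent.MP_429080_ag.H73

namespace Pool.Agent.MP_429080_ag.H73

open MvPolynomial Module Pool.Agent.EGH Pool.Agent.MP_d171e3_nt Pool.Agent.MP_429080_ag.H26
open Pool.Agent.MP_429080_ag.H26.T

set_option linter.unusedSectionVars false

namespace Cf
variable {σ : Type} [Fintype σ] {n c k : ℕ} (Q : Cf σ n c k)
  {ι : (Fin Q.ga → ℂ) →ₗ[ℂ] (Fin n → ℂ)} {𝔰 𝔷 : Ideal (P (Fin Q.ga))}

section PartG1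

theorem g1_rank (U : Submodule ℂ (Fin n → ℂ)) :
    finrank ℂ ((ℂ ∙ Q.x) ⊔ U.map Q.φ : Submodule ℂ (σ → ℂ)) = finrank ℂ U + 1 := by
  have h4 := Submodule.finrank_sup_add_finrank_inf_eq (U.map Q.φ) (ℂ ∙ Q.x)
  rw [finrank_span_singleton Q.ctx.ne,
    (Q.ctx.frame.2.1.mono_left LinearMap.map_le_range).eq_bot, finrank_bot,
    ← (Submodule.equivMapOfInjective Q.φ Q.ctx.frame.1 _).finrank_eq] at h4
  rw [sup_comm]
  omega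

theorem g1_W0 {w : Fin n → ℂ} (hw : Q.ZK w) :
    W0 Q.C Q.x (Q.φ w) ⊓ Q.Lam = (ℂ ∙ Q.x) ⊔ (Q.T w ⊓ Q.K).map Q.φ := by
  have hx : Q.x ∈ Q.Kp Q.x := Q.mem_Kx.2 ⟨1, 0, zero_mem _, by simp⟩
  refine le_antisymm (fun a ha => ?_) (le_inf ?_ (sup_le ?_ ?_))
  · obtain ⟨s, u, hu, e⟩ := Q.mem_Kx.1 (Q.tan_inf_Lam.le ⟨W0_le_x ha.1, ha.2⟩)
    have h1 := ha.1
    rw [Q.W0_eq hw.1 hw.2.2] at h1
    obtain ⟨_, h2, _, ⟨u', hu', rfl⟩, e'⟩ := Submodule.mem_sup.1 h1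
    obtain ⟨s', rfl⟩ := Submodule.mem_span_singleton.1 h2
    have := (Q.inj (s' - s) (u' - u) (by
      rw [map_sub, sub_smul, ← sub_eq_zero.2 (e'.trans e)]
      abel)).1
    rw [← e']
    exact Submodule.add_mem_sup h2 ⟨u', ⟨hu', sub_eq_zero.1 this ▸ hu⟩, rfl⟩
  · rw [Q.W0_eq hw.1 hw.2.2]
    exact sup_le_sup_left (Submodule.map_mono inf_le_left) _
  · exact (Submodule.span_singleton_le_iff_mem _ _).2 (Q.f1 Q.ctx0 hx)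
  · rintro _ ⟨u, hu, rfl⟩
    exact Q.f1 Q.ctx0 (Q.mem_Kx.2 ⟨0, u, hu.2, by simp⟩)

/-- chains of Taylor forms on `K` -/
theorem chains (H : Q.Sd ι 𝔰) (hp : 𝔷.IsPrime) (hh : HomI (w0 (Fin Q.ga)) 𝔷)
    (K' : Submodule ℂ (Fin Q.ga → ℂ)) (hK : ∀ ζ ∈ vZ 𝔷, ζ ∈ K')
    (hd : finrank ℂ K' + Q.ka + 1 ≤ 2 * dm 𝔷) (hd' : Q.g + Q.ka ≤ dm 𝔷) (h1 : 0 < Q.g)
    (hg : ∀ ζ ∈ vZ 𝔷, ζ ≠ 0 → Q.TGood (ι ζ)) :
    ∃ (b : Fin Q.g → ℕ) (G : Fin Q.g → P σ), (∀ i, G i ∈ vI Q.C) ∧ (∀ i, 2 ≤ b i) ∧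
      ∑ i, (b i - 1) = Q.ka ∧
      Q.A ≤ Q.Pp ⊔ Submodule.span ℂ (Set.range fun i => grad (G i) Q.x) ∧
      ∀ ζ ∈ vZ 𝔷, ζ ≠ 0 → LinearIndependent ℂ fun m : MuT b =>
        grad (pull ι (tay Q.x Q.φ (m.2 + 2) (G m.1))) ζ := by
  classical
  obtain ⟨ψ, hψ, hr, -⟩ := Q.stabLam.coord
  obtain ⟨χ, hχ⟩ := ψ.exists_leftInverse_of_injective (LinearMap.ker_eq_bot.2 hψ)
  have hιK : ∀ ζ, ι ζ ∈ Q.K := fun ζ => H.range.le ⟨ζ, rfl⟩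
  have hφK : ∀ ζ, Q.φ (ι ζ) ∈ Q.Kp Q.x := fun ζ => Q.mem_Kx.2 ⟨0, ι ζ, hιK ζ, by simp⟩
  let θ := χ ∘ₗ Q.φ ∘ₗ ι
  have hθ : ∀ ζ, ψ (θ ζ) = Q.φ (ι ζ) := fun ζ => by
    obtain ⟨a, ha⟩ : Q.φ (ι ζ) ∈ LinearMap.range ψ := hr.ge (Q.f1 Q.ctx0 (hφK ζ))
    have := LinearMap.congr_fun hχ a
    simp only [LinearMap.comp_apply, LinearMap.id_apply] at this
    simp only [θ, LinearMap.comp_apply, ← ha, this]
  have hRd : ∀ ω ζ, tr θ (tr ψ ω) ⬝ᵥ ζ = ω ⬝ᵥ Q.φ (ι ζ) := fun ω ζ => by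
    rw [tr_dot, tr_dot, hθ]
  let M : Submodule ℂ (P σ) := (vI Q.C).restrictScalars ℂ
  let Om : ℕ → M →ₗ[ℂ] (Fin (finrank ℂ Q.Lam) → P (Fin Q.ga)) := fun j => LinearMap.pi fun a =>
    (pull ι).toLinearMap ∘ₗ tay Q.x Q.φ j ∘ₗ
      (∑ s, ψ (Pi.single a 1) s • (pderiv s : Derivation ℂ (P σ) (P σ)).toLinearMap) ∘ₗ M.subtype
  have e : ∀ ζ j (G : M), ev ζ (Om j G) = tr ψ (om Q.x (Q.φ (ι ζ)) G.1 j) := fun ζ j G => by
    funext a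
    rw [show ∀ α, tr ψ α a = α ⬝ᵥ ψ (Pi.single a 1) from fun α => by
      rw [← tr_dot, dotProduct_single, mul_one]]
    simp only [ev, Om, LinearMap.pi_apply, LinearMap.comp_apply, AlgHom.toLinearMap_apply,
      eval_pull, LinearMap.sum_apply, LinearMap.smul_apply, map_sum, map_smul, smul_eval,
      Submodule.subtype_apply, Derivation.coeFn_coe, eval_tay, dotProduct, om, mul_comm]
  have e0 : ∀ G : M, ev 0 (Om 0 G) = tr ψ (grad G.1 Q.x) := fun G => by rw [e, om_zero]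
  have hker : LinearMap.ker (tr ψ) = Q.H := by
    ext α
    rw [LinearMap.mem_ker, tr_eq_zero, hr, Lam, ann_ann]
  have hAk : Q.A ⊓ LinearMap.ker (tr ψ) = Q.Pp := by rw [hker, inf_comm, Q.mb]
  have hL : finrank ℂ (Q.A.map (tr ψ)) = Q.g := by
    have h2 := rank_inf_ker (tr ψ) Q.A
    rw [hAk, Q.A_rank] at h2
    have := Q.g_add
    omega
  have hsp : ∀ ζ, Submodule.span ℂ {α | ∃ j G, ev ζ (Om j G) = α} =
      (ann (W0 Q.C Q.x (Q.φ (ι ζ)))).map (tr ψ) := fun ζ => by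
    have h2 : W0 Q.C Q.x (Q.φ (ι ζ)) =
        ann (Submodule.span ℂ {α | ∃ j, ∃ G : M, om Q.x (Q.φ (ι ζ)) G.1 j = α}) := by
      ext v
      rw [mem_W0, mem_ann, span_dot]
      exact ⟨fun h _ ⟨j, G, e⟩ => e ▸ h G.1 G.2 j, fun h G hG j => h _ ⟨j, ⟨G, hG⟩, rfl⟩⟩
    rw [h2, ann_ann, Submodule.map_span]
    refine congrArg _ (Set.ext fun α => ⟨?_, ?_⟩)
    · rintro ⟨j, G, rfl⟩
      exact ⟨_, ⟨j, G, rfl⟩, (e ζ j G).symm⟩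
    · rintro ⟨_, ⟨j, G, rfl⟩, rfl⟩
      exact ⟨j, G, e ζ j G⟩
  have hgr : ∀ ζ j (G : M), tr θ (ev ζ (Om (j + 1) G)) =
      grad (pull ι (tay Q.x Q.φ (j + 2) G.1)) ζ := fun ζ j G =>
    dotProduct_eq _ _ fun u => by rw [e, hRd, grad_pull, tr_dot, grad_tay]
  obtain ⟨b, G, h2, h3, h4, h5⟩ := thmB' (g := Q.g) (κ := Q.ka) (cn_vZ hp hh (by omega)) K' hK
    (by rwa [vI_vZ hp]) h1 Om (fun j G a => pull_hom ι (tay_hom j _)) (tr θ) (Q.A.map (tr ψ)) hL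
    (fun α => ⟨fun ⟨β, hβ, e'⟩ => by
      obtain ⟨G, hG, rfl⟩ := mem_nm.1 hβ
      exact ⟨⟨G, hG⟩, (e0 _).trans e'⟩, fun ⟨G, e'⟩ => ⟨_, grad_mem_nm G.2 _, (e0 G).symm.trans e'⟩⟩)
    (fun ζ hζ h0 => by
      have hw := hg ζ hζ h0
      have a1 := ann_finrank ((W0 Q.C Q.x (Q.φ (ι ζ))).comap ψ)
      have a2 := Q.TK_rank hw.1
      have a3 := Q.Lam_rank
      have a4 := Q.ga_eq
      have a5 := Q.s_add
      have a6 := hw.2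
      rw [comap_rank hψ, hr, Q.g1_W0 hw.1, Q.g1_rank, Fintype.card_fin] at a1
      rw [hsp, map_tr, ann_ann]
      omega)
    (fun ζ hζ h0 α hα => by
      rw [hsp] at hα
      obtain ⟨ω, hω, rfl⟩ := hα
      refine ⟨fun h => ?_, fun ⟨β, hβ, e'⟩ => ?_⟩
      · have a1 : ω ∈ ann (tangent Q.C Q.x ⊓ Q.Lam) := by
          rw [Q.tan_inf_Lam]
          intro a ha
          obtain ⟨s, u, hu, rfl⟩ := Q.mem_Kx.1 ha
          obtain ⟨ζ', rfl⟩ : u ∈ LinearMap.range ι := H.range.ge hu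
          have a2 := hω Q.x (mem_W0.2 fun G hG j => om_x (hg ζ hζ h0).1.1.1 hG j)
          rw [add_dotProduct, smul_dotProduct, a2, dotProduct_comm, ← hRd, h]
          simp only [zero_dotProduct, smul_eq_mul, mul_zero, add_zero]
        rw [ann_inf, ann_tangent, Lam, ann_ann] at a1
        obtain ⟨β, hβ, η, hη, rfl⟩ := Submodule.mem_sup.1 a1
        rw [map_add, LinearMap.mem_ker.1 (hker.ge hη), add_zero]
        exact ⟨β, hβ, rfl⟩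
      · refine dotProduct_eq _ _ fun u => ?_
        rw [← e', hRd, zero_dotProduct]
        exact nm_iff.1 hβ _ (hφK u).1)
    (fun ζ hζ h0 α hα => by
      rw [map_tr, mem_ann] at hα
      push Not at hα
      obtain ⟨a, ha, hne⟩ := hα
      rw [Submodule.mem_comap, A, ann_nm] at ha
      obtain ⟨b, hb, hp', -⟩ := Q.free' (hg ζ hζ h0).1
        (Q.tan_inf_Lam.le ⟨ha, hr.le ⟨a, rfl⟩⟩ : ψ a ∈ Q.Kp Q.x)
      obtain ⟨b', rfl⟩ : b ∈ LinearMap.range ψ := hr.ge hb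
      refine ⟨a, b', by rwa [dotProduct_comm], fun G => ?_⟩
      simp only [e, tr_dot]
      exact pair_iff.1 hp' G.1 G.2)
    (fun ζ hζ h0 G hG h => by
      refine Q.nose H hp hh hd' h1 hg (grad_mem_nm G.2 _) (fun hP => hG ?_) hζ h0 fun u hu => ?_
      · rw [e0]
        exact (hAk.ge hP).2
      · obtain ⟨ζ', rfl⟩ : u ∈ LinearMap.range ι := H.range.ge hu
        rw [Q.B_tay G.2, dotProduct_comm, ← tr_dot, ← grad_pull, ← hgr ζ 0 G, h, zero_dotProduct])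
  refine ⟨b, fun i => (G i).1, fun i => (G i).2, h2, h3, fun α hα => ?_, fun ζ hζ h0 => by
    simpa only [hgr] using h5 ζ hζ h0⟩
  simp only [e0] at h4
  have a1 : Submodule.span ℂ (Set.range fun i => tr ψ (grad (G i).1 Q.x)) = Q.A.map (tr ψ) :=
    Submodule.eq_of_le_of_finrank_le (Submodule.span_le.2 (Set.range_subset_iff.2 fun i =>
      ⟨_, grad_mem_nm (G i).2 _, rfl⟩)) (by rw [finrank_span_eq_card h4, hL, Fintype.card_fin])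
  obtain ⟨l, hl⟩ := (Submodule.mem_span_range_iff_exists_fun ℂ).1
    (a1.ge (Submodule.mem_map_of_mem hα))
  have a2 : ∑ i, l i • grad (G i).1 Q.x ∈ Q.A :=
    Submodule.sum_mem _ fun i _ => Submodule.smul_mem _ _ (grad_mem_nm (G i).2 _)
  rw [← sub_add_cancel α (∑ i, l i • grad (G i).1 Q.x)]
  refine Submodule.add_mem_sup (hAk.le ⟨sub_mem hα a2, ?_⟩)
    ((Submodule.mem_span_range_iff_exists_fun ℂ).2 ⟨l, rfl⟩)
  rw [SetLike.mem_coe, LinearMap.mem_ker, map_sub, ← hl, map_sum]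
  simp only [map_smul, sub_self]

end PartG1

end Cf

end Pool.Agent.MP_429080_ag.H73

/-! The second case and the bound for the codimension. -/

namespace Pool.Agent.MP_429080_ag.H73

open MvPolynomial Module Pool.Agent.EGH Pool.Agent.MP_d171e3_nt Pool.Agent.MP_429080_ag.H26
open Pool.Agent.MP_429080_ag.H26.T

set_option linter.unusedSectionVars false

namespace Cf
variable {σ : Type} [Fintype σ] {n c k : ℕ} (Q : Cf σ n c k)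
  {ι : (Fin Q.ga → ℂ) →ₗ[ℂ] (Fin n → ℂ)} {𝔰 𝔷 : Ideal (P (Fin Q.ga))}

section PartG2

theorem case2 (h : ¬ (2 * Q.e ≤ Q.s ∨ Q.g = 0)) : False := by
  have n1 := Q.rho_eq
  have n2 := Q.e_add
  have n3 := Q.s_add
  have n4 := Q.g_le
  have n5 := Q.h3
  obtain ⟨ι, 𝔰, H⟩ := Q.exists_sd
  obtain ⟨𝔷, K', z1, z2, z3, z4, z5, z6, z7⟩ := Q.exists_zz H (by omega)
  obtain ⟨b, G, b0, b1, b2, b3, b4⟩ := Q.chains H z1 z2 K' z4 (by omega) (by omega) (by omega) z7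
  obtain ⟨f, hf, hfh⟩ := mem_nm.1 Q.hA
  let β := Module.finBasis ℂ Q.Pp
  have hgen : ∀ 𝔭 : Ideal (P (Fin Q.ga)), 𝔭.IsPrime → 𝔰 ≤ 𝔭 → 0 < dm 𝔭 →
      ∃ ζ ∈ vZ 𝔭, ζ ≠ 0 ∧ Q.ZK (ι ζ) ∧ dm 𝔭 ≤ td Q.S1 (ι ζ) := fun 𝔭 q1 q2 q3 => by
    obtain ⟨ζ, g1, -, g2, -⟩ := gen Q.cnt1 q1 (f := 1) ((Ideal.ne_top_iff_one _).1 q1.ne_top)
    have h0 : ζ ≠ 0 := by
      rintro rfl
      rw [td_eq_zero.2 (rt_iff.2 fun D _ => ap_zero D)] at g2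
      omega
    exact ⟨ζ, g1, h0, H.zk (gmeet_anti q2 g1) h0, by rwa [td_map H.rat H.inj]⟩
  refine tail (e := Q.e) (g := Q.g) (κ := Q.ka) (by rw [n2]; exact Q.smZ) Q.spanL (by simpa only [n2, Fintype.card_fin] using n5) n4
    (by omega) (tay_hom 2 f) (tay_mem Q.sm.toCn hf 2) (Q.B Q.h) (fun v => hfh ▸ Q.B_tay hf v) ι
    H.inj H.range (by simpa only [Fintype.card_fin] using n1) H.prime H.hom H.mem (by have := H.dim; simp; omega)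
    (fun π => (Q.B (β π)).comp ι) (fun ζ hζ h0 π => Q.BP_le_J (H.zk hζ h0) ⟨_, (β π).2, rfl⟩)
    (fun 𝔭 q1 q2 q3 => ?_) (fun 𝔭 q1 q2 q3 => ?_) ((gind_card b).trans b2)
    (fun m : MuT b => tay Q.x Q.φ (m.2 + 2) (G m.1)) (fun m => m.2 + 2) (fun m => by omega)
    (fun m => tay_hom _ _) (fun m => tay_mem Q.sm.toCn (b0 m.1) _)
    (fun i => ⟨i, 0, by have := b1 i; omega⟩) (fun i j h => congrArg Sigma.fst h) (fun i => rfl)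
    z1 z2 z3 (by simp only [Fintype.card_fin, Order.add_one_le_iff]; omega) b4 fun π π' => ?_
  · obtain ⟨ζ, g1, g2, g3, g4⟩ := hgen 𝔭 q1 q2 (by omega)
    refine ⟨ζ, g1, g2, Eq.trans (congrArg (fun W : Submodule ℂ (Fin n → ℂ) => finrank ℂ W) ?_)
      (Q.good_of_td g3 (q3.trans g4)).2⟩
    have h3 := congrArg (Submodule.map ((Q.B.flip (ι ζ)).comp Q.Pp.subtype)) β.span_eq
    rw [Submodule.map_span, ← Set.range_comp, Submodule.map_comp, Submodule.map_subtype_top] at h3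
    exact h3
  · obtain ⟨ζ, g1, g2, g3, g4⟩ := hgen 𝔭 q1 q2 (by omega)
    exact ⟨ζ, g1, g2, (Q.tgood_of_td g3 (q3.trans g4)).2⟩
  · obtain ⟨D, hD, d1⟩ := Q.mem_Pp.1 (β π).2
    obtain ⟨D', hD', d2⟩ := Q.mem_Pp.1 (β π').2
    have hl : ap D' (ap D Q.h) ∈ Q.A := Q.stabA D' hD' _ (Q.stabA D hD _ Q.hA)
    obtain ⟨π₀, l0, _, l1, l2⟩ := Submodule.mem_sup.1 (b3 hl)
    obtain ⟨l, rfl⟩ := (Submodule.mem_span_range_iff_exists_fun ℂ).1 l1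
    replace l2 : ap D' (ap D Q.h) - ∑ i, l i • grad (G i) Q.x ∈ Q.Pp := by
      rwa [← l2, add_sub_cancel_right]
    refine ⟨l, fun ζ => ?_⟩
    have hw : ι ζ ∈ Q.K := H.range.le ⟨ζ, rfl⟩
    have l3 := Q.BP_ann l2 hw _ hw
    have l4 := Q.f2' hD hD' hw hw
    rw [dotProduct_comm, map_sub, LinearMap.sub_apply, sub_dotProduct, l4,
      Q.B_sy _ (ap D' (ι ζ))] at l3
    simp only [map_sum, map_smul, LinearMap.sum_apply, LinearMap.smul_apply, sum_dotProduct,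
      smul_dotProduct, Q.B_tay (b0 _), euler (tay_hom 2 _), smul_eq_mul] at l3
    refine ⟨-ap D' (ι ζ), by rw [map_neg, ← Q.f2 hD' hw, d2]; rfl, ?_⟩
    rw [LinearMap.comp_apply, ← d1, Q.f2 hD hw, neg_dotProduct_neg]
    simp only [Nat.cast_ofNat, mul_left_comm _ (2 : ℂ), ← Finset.mul_sum] at l3
    linear_combination (1 / 2 : ℂ) * l3

end PartG2

include Q in
theorem false : False := Q.case2 fun h => Q.case1 h

end Cf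

section PartTop
variable {σ : Type} [Fintype σ] {n c k : ℕ} {C : Set (σ → ℂ)}

/-- the configuration at a generic point -/
theorem cf_at {x : σ → ℂ} {φ : (Fin n → ℂ) →ₗ[ℂ] (σ → ℂ)} (H : Ctt C x φ c k)
    (hs : Submodule.span ℂ C = ⊤) (hL : Submodule.span ℂ (tpl C x φ) = ⊤) (h3 : 3 * k + 2 ≤ n)
    {S : Set ℂ} (hS : S.Countable) {m : ℕ} {G : Fin m → P σ} (hg : Gens S C G)
    (hx : tangent C x ≤ dv S x) (hφ : RtL (adj S x) φ) (hk : k < c) : Nonempty (Cf σ n c k) := by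
  have hSx := adj_countable hS x
  obtain ⟨z, hz⟩ := gen0 hSx H.prime
  rw [H.cn.closed] at hz
  have h0 : z ≠ 0 := by
    obtain ⟨j, hj⟩ := H.cn.exists_X
    rintro rfl
    exact hj (hz.2 _ (ov_X' j) (by simp))
  obtain ⟨h, hh, hd, -⟩ := gen_sub (adj_countable hSx z)
    (Nm C x ⊓ LinearMap.ker ((BB C x φ).flip z))
  refine ⟨⟨C, S, m, G, x, φ, z, h, H, hs, hL, h3, hS, hg, hx, hφ, hz.1, h0, gnr_tangent hz, hh,
    ?_, hd⟩⟩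
  have h1 := rank_inf_ker ((BB C x φ).flip z) (Nm C x)
  have h2 : (Nm C x).map ((BB C x φ).flip z) ≤ Nm (tpl C x φ) z := by
    rintro _ ⟨α, hα, rfl⟩
    obtain ⟨F, hF, rfl⟩ := mem_nm.1 hα
    rw [LinearMap.flip_apply, BB_tay H hF]
    exact grad_mem_nm (tay_mem H.sm.toCn hF 2) z
  have h4 := Submodule.finrank_mono h2
  have h5 := Submodule.finrank_mono hd
  rw [H.smL.rk z hz.1 h0] at h4
  rw [H.sm.rk x H.mem H.ne] at h1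
  exact ne_of_td (S := adj (adj S x) z) (by unfold td; omega)

theorem exists_rat_frame (hC : Sm C c) (hc : Fintype.card σ = n + 1 + c) {S : Set ℂ} {m : ℕ}
    {G : Fin m → P σ} (hg : Gens S C G) {x : σ → ℂ} (hx : x ∈ C) (h0 : x ≠ 0) (hr : Rt S x) :
    ∃ φ : (Fin n → ℂ) →ₗ[ℂ] (σ → ℂ), IsFrame C x φ ∧ RtL S φ := by
  obtain ⟨i, hi⟩ := Function.ne_iff.1 h0
  have hU : Stab S (tangent C x ⊓ LinearMap.ker (LinearMap.proj i : (σ → ℂ) →ₗ[ℂ] ℂ)) :=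
    (stab_tan hg hx h0 hr).inf fun D _ w hw => by
      have : w i = 0 := hw
      show D (w i) = 0
      rw [this, map_zero]
  have hd : Disjoint (tangent C x ⊓ LinearMap.ker (LinearMap.proj i : (σ → ℂ) →ₗ[ℂ] ℂ)) (ℂ ∙ x) :=
    (Submodule.disjoint_span_singleton' h0).2 fun h => hi h.2
  have hsup : (tangent C x ⊓ LinearMap.ker (LinearMap.proj i : (σ → ℂ) →ₗ[ℂ] ℂ)) ⊔ (ℂ ∙ x) =
      tangent C x := by
    have hxx := self_mem_tangent hC.toCn hx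
    refine le_antisymm (sup_le inf_le_left ((Submodule.span_singleton_le_iff_mem _ _).2 hxx))
      fun v hv => ?_
    rw [← sub_add_cancel v ((v i / x i) • x)]
    refine Submodule.add_mem_sup ⟨sub_mem hv (Submodule.smul_mem _ _ hxx), ?_⟩
      (Submodule.smul_mem _ _ (Submodule.mem_span_singleton_self x))
    show v i - v i / x i * x i = 0
    rw [div_mul_cancel₀ _ hi, sub_self]
  have h1 := Submodule.finrank_sup_add_finrank_inf_eq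
    (tangent C x ⊓ LinearMap.ker (LinearMap.proj i : (σ → ℂ) →ₗ[ℂ] ℂ)) (ℂ ∙ x)
  have h2 := tangent_rank hC hx h0
  rw [hsup, hd.eq_bot, finrank_bot, finrank_span_singleton h0] at h1
  obtain rfl : n = finrank ℂ
    (tangent C x ⊓ LinearMap.ker (LinearMap.proj i : (σ → ℂ) →ₗ[ℂ] ℂ) : Submodule ℂ _) := by omega
  obtain ⟨φ, h3, h4, h5⟩ := hU.coord
  exact ⟨φ, ⟨h3, h4.symm ▸ hd, h4.symm ▸ hsup⟩, h5⟩

theorem exists_cf (hC : IsSmoothCone C n) (hs : Submodule.span ℂ C = ⊤)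
    (hc : Fintype.card σ = n + 1 + c)
    (hL : General C fun x => ∀ φ : (Fin n → ℂ) →ₗ[ℂ] (σ → ℂ), IsFrame C x φ →
      (vanishingIdeal ℂ (lines C x φ)).IsPrime ∧ affDim (lines C x φ) + k = n ∧
        Submodule.span ℂ (lines C x φ) = ⊤)
    (h3 : 3 * k + 2 ≤ n) (hk : k < c) : Nonempty (Cf σ n c k) := by
  have hS := sm_of_smoothCone hC hc
  obtain ⟨f, hf, hgen⟩ := general_and hC.irreducible hL (general_free hS.toCn)
    fun _ _ _ hp hf => And.intro hp hf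
  obtain ⟨S₀, c₀, -, o₀⟩ := exists_ov Set.countable_empty fun _ : Unit => f
  obtain ⟨S, m, G, c₁, hle, hg⟩ := exists_gens hS.toCn c₀
  obtain ⟨x, hx⟩ := gen0 c₁ hS.prime
  rw [hS.closed] at hx
  have h0 : x ≠ 0 := by
    obtain ⟨j, hj⟩ := hS.toCn.exists_X
    rintro rfl
    exact hj (hx.2 _ (ov_X' j) (by simp))
  obtain ⟨hp, hfree⟩ := hgen x hx.1 (fun h => hf (hx.2 f (Ov.mono (o₀ ()) (cf_mono' hle)) h)) h0
  obtain ⟨φ, hφ, hr⟩ := exists_rat_frame hS hc (hg.mono' (subset_adj S x)) hx.1 h0 (rt_adj S x)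
  exact cf_at (mk_ctx hS hc (by omega) hx.1 h0 hfree hφ (hp φ hφ).1 (hp φ hφ).2.1) hs
    ((Pre.tpl_eq ⟨hS, hx.1, h0, hfree, hφ⟩ (hp φ hφ).1).symm ▸ (hp φ hφ).2.2) h3 c₁ hg (gnr_tangent hx) hr hk

theorem full {N : ℕ} (hN : Fintype.card σ = N) (hC : IsSmoothCone C n)
    (hs : Submodule.span ℂ C = ⊤)
    (hL : General C fun x => ∀ φ : (Fin n → ℂ) →ₗ[ℂ] (σ → ℂ), IsFrame C x φ →
      (vanishingIdeal ℂ (lines C x φ)).IsPrime ∧ affDim (lines C x φ) + k = n ∧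
        Submodule.span ℂ (lines C x φ) = ⊤)
    (h3 : 3 * k + 2 ≤ n) : N ≤ n + 1 + k ∧
    General C fun x => ∀ φ : (Fin n → ℂ) →ₗ[ℂ] (σ → ℂ), IsFrame C x φ → IsCI (lines C x φ) k := by
  have h1 : dm (vI C) = n + 1 := by
    have := hC.dim
    rw [kd hC.irreducible] at this
    exact_mod_cast this
  have h2 := dm_le_card hC.irreducible
  obtain ⟨c, hc⟩ : ∃ c, Fintype.card σ = n + 1 + c := ⟨Fintype.card σ - (n + 1), by
    change dm (vI C) ≤ _ at h2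
    omega⟩
  have h5 : c ≤ k := not_lt.1 fun hk => (exists_cf hC hs hc hL h3 hk).elim Cf.false
  refine ⟨by omega, thmB hC hs hc ?_ (by omega) (by omega)⟩
  obtain ⟨f, hf, h⟩ := hL
  exact ⟨f, hf, fun x hx he h0 φ hφ => ⟨(h x hx he h0 φ hφ).1, (h x hx he h0 φ hφ).2.1⟩⟩

end PartTop

end Pool.Agent.MP_429080_ag.H73
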